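import Pool.Agent.Lib.MP_058a58_ag.AT.Cyc

/-!
# A prime `m = 1 (mod k)` such that the cyclotomic character modulo `m` is onto on `N`
-/

open Polynomial Filter Topology NumberField Set

namespace TatePole.AT

/-- The cyclotomic character from a root of unity of a larger order. -/
lemma cyc_of_pow {n m : ℕ} [NeZero n] [NeZero m] (hmn : m ∣ n) {ζ : QBar}
    (hζ : IsPrimitiveRoot ζ n) {g : GQ} {u : ℕ} (hg : g ζ = ζ ^ u) :
    (cyc m g : ZMod m) = (u : ZMod m) := by
  obtain ⟨d, hd⟩ := hmn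
  have hprim : IsPrimitiveRoot (ζ ^ d) m :=
    hζ.pow (NeZero.pos n) (by rw [hd, mul_comm])
  obtain ⟨i, -, hi⟩ := hprim.eq_pow_of_pow_eq_one (zt_spec m).pow_eq_one
  have h1 : g (zt m) = (zt m) ^ u := by
    rw [← hi, map_pow, map_pow, hg]
    rw [← pow_mul, ← pow_mul, ← pow_mul, ← pow_mul]
    congr 1
    ring
  rw [cyc_spec] at h1
  have h2 := prim_mod (zt_spec m) h1
  have h3 : (((cyc m g : ZMod m).val : ℕ) : ZMod m) = ((u : ℕ) : ZMod m) := by
    rw [ZMod.natCast_eq_natCast_iff]; exact h2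
  rwa [ZMod.natCast_zmod_val] at h3

/-- Every unit modulo `n` is realised. -/
lemma exists_galois {n : ℕ} [NeZero n] {u : ℕ} (hu : u.Coprime n) : ∃ g : GQ,
    g (zt n) = (zt n) ^ u := by
  have hprim := zt_spec n
  have hprim' := hprim.pow_of_coprime u hu
  have h1 : minpoly ℚ (zt n) = cyclotomic n ℚ :=
    (Polynomial.cyclotomic_eq_minpoly_rat hprim (NeZero.pos n)).symm
  have h2 : (Polynomial.aeval ((zt n) ^ u)) (minpoly ℚ (zt n)) = 0 := by
    rw [h1, Polynomial.cyclotomic_eq_minpoly_rat hprim' (NeZero.pos n)]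
    exact minpoly.aeval _ _
  exact minpoly.exists_algEquiv_of_root' (Algebra.IsAlgebraic.isAlgebraic (zt n)) h2

/-- The characters modulo two coprime numbers are independent. -/
lemma exists_cyc {m m' : ℕ} [NeZero m] [NeZero m'] (h : m.Coprime m') (h' : (ZMod m')ˣ) :
    ∃ g : GQ, cyc m g = 1 ∧ cyc m' g = h' := by
  have hn : NeZero (m * m') := ⟨mul_ne_zero (NeZero.ne m) (NeZero.ne m')⟩
  obtain ⟨u, hu1, hu2⟩ := Nat.chineseRemainder h 1 (h' : ZMod m').val
  have hc1 : u.Coprime m := by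
    have : Nat.gcd u m = Nat.gcd 1 m := hu1.gcd_eq
    rw [Nat.Coprime, this, Nat.gcd_one_left]
  have hc2 : u.Coprime m' := by
    have h1 : Nat.gcd u m' = Nat.gcd (h' : ZMod m').val m' := hu2.gcd_eq
    rw [Nat.Coprime, h1]
    exact ZMod.val_coe_unit_coprime h'
  obtain ⟨g, hg⟩ := exists_galois (n := m * m') (Nat.Coprime.mul_right hc1 hc2)
  refine ⟨g, ?_, ?_⟩
  · apply Units.ext
    rw [cyc_of_pow (dvd_mul_right m m') (zt_spec (m * m')) hg]
    have : ((u : ℕ) : ZMod m) = ((1 : ℕ) : ZMod m) := by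
      rw [ZMod.natCast_eq_natCast_iff]; exact hu1
    rw [this, Nat.cast_one, Units.val_one]
  · apply Units.ext
    rw [cyc_of_pow (dvd_mul_left m' m) (zt_spec (m * m')) hg]
    have : ((u : ℕ) : ZMod m') = (((h' : ZMod m').val : ℕ) : ZMod m') := by
      rw [ZMod.natCast_eq_natCast_iff]; exact hu2
    rw [this, ZMod.natCast_zmod_val]

theorem exists_prime_surj (N : Subgroup GQ) [N.Normal] {M : IntermediateField ℚ QBar}
    [FiniteDimensional ℚ M] (hN : N = M.fixingSubgroup) (k : ℕ) (hk : 0 < k) :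
    ∃ (m : ℕ) (_ : NeZero m), m.Prime ∧ k ∣ m - 1 ∧ ∀ h : (ZMod m)ˣ, ∃ g ∈ N, cyc m g = h := by
  classical
  by_contra hcon
  have hfin : Finite (GQ ⧸ N) := finite_quot N hN
  have hinf : Infinite {m : ℕ // m.Prime ∧ m ≡ 1 [MOD k]} :=
    (Nat.infinite_setOfPred_prime_modEq_one hk.ne').to_subtype
  have hne : ∀ m : {m : ℕ // m.Prime ∧ m ≡ 1 [MOD k]}, NeZero m.1 := fun m => ⟨m.2.1.ne_zero⟩
  let U : {m : ℕ // m.Prime ∧ m ≡ 1 [MOD k]} → Subgroup GQ := fun m =>
    @Subgroup.comap _ _ _ _ (@cyc m.1 (hne m)) (Subgroup.map (@cyc m.1 (hne m)) N)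
  have hNU : ∀ m, N ≤ U m := fun m => by
    have := hne m
    exact Subgroup.le_comap_map _ _
  have hker : ∀ m, ∀ g : GQ, (@cyc m.1 (hne m)) g = 1 → g ∈ U m := by
    intro m g hg
    have := hne m
    show cyc m.1 g ∈ Subgroup.map (cyc m.1) N
    rw [hg]
    exact one_mem _
  have hproper : ∀ m, ∃ g : GQ, g ∉ U m := by
    intro m
    have := hne m
    by_contra h
    push Not at h
    apply hcon
    refine ⟨m.1, this, m.2.1, ?_, ?_⟩
    · exact (Nat.modEq_iff_dvd' m.2.1.one_lt.le).1 m.2.2.symm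
    · intro h'
      obtain ⟨g, -, hg⟩ := exists_cyc (m := 1) (m' := m.1) (Nat.coprime_one_left _) h'
      obtain ⟨g', hg', hgg⟩ := h g
      exact ⟨g', hg', hgg.trans hg⟩
  obtain ⟨m, m', hmm, hUU⟩ := Finite.exists_ne_map_eq_of_infinite
    (fun m => (U m).map (QuotientGroup.mk' N))
  have hU : U m = U m' := by
    have h1 : ∀ m, ((U m).map (QuotientGroup.mk' N)).comap (QuotientGroup.mk' N) = U m := by
      intro m
      rw [Subgroup.comap_map_eq, QuotientGroup.ker_mk', sup_eq_left]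
      exact hNU m
    rw [← h1 m, ← h1 m']
    exact congrArg _ hUU
  have hm := hne m
  have hm' := hne m'
  have hcop : m.1.Coprime m'.1 :=
    (Nat.coprime_primes m.2.1 m'.2.1).2 fun h => hmm (Subtype.ext h)
  obtain ⟨g, hg⟩ := hproper m
  apply hg
  obtain ⟨g', h1, h2⟩ := exists_cyc hcop (cyc m'.1 g)
  have h3 : g' ∈ U m := hker m g' h1
  have h4 : g * g'⁻¹ ∈ U m' := by
    apply hker m'
    rw [map_mul, map_inv, h2, mul_inv_cancel]
  rw [← hU] at h4
  have h5 := mul_mem h4 h3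
  rwa [inv_mul_cancel_right] at h5

end TatePole.AT
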