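import Mathlib

open NumberField NumberField.Units NumberField.mixedEmbedding NumberField.Units.dirichletUnitTheorem
open Module

namespace TatePole.AT

/-- the tent function -/
noncomputable def tent (x : ℝ) : ℝ := max 0 (1 - |x|)

lemma tent_nonneg (x : ℝ) : 0 ≤ tent x := le_max_left _ _

lemma tent_le_one (x : ℝ) : tent x ≤ 1 := by
  unfold tent
  exact max_le (by norm_num) (by linarith [abs_nonneg x])

lemma tent_eq_zero {x : ℝ} (h : 1 ≤ |x|) : tent x = 0 := by
  unfold tent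
  exact max_eq_left (by linarith)

lemma tent_lip (x y : ℝ) : |tent x - tent y| ≤ |x - y| := by
  unfold tent
  refine (abs_max_sub_max_le_max _ _ _ _).trans ?_
  simp only [sub_self, abs_zero]
  refine max_le (abs_nonneg _) ?_
  have : 1 - |x| - (1 - |y|) = |y| - |x| := by ring
  rw [this, abs_sub_comm x y]
  exact abs_abs_sub_abs_le _ _

lemma tent_sum (c : ℝ) : tent (((-⌊c⌋ : ℤ) : ℝ) + c) + tent (((-⌊c⌋ - 1 : ℤ) : ℝ) + c) = 1 := by
  have h1 : ((-⌊c⌋ : ℤ) : ℝ) + c = Int.fract c := by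
    rw [Int.fract]; push_cast; ring
  have h2 : ((-⌊c⌋ - 1 : ℤ) : ℝ) + c = Int.fract c - 1 := by
    rw [Int.fract]; push_cast; ring
  rw [h1, h2]
  have h3 := Int.fract_nonneg c
  have h4 := Int.fract_lt_one c
  unfold tent
  rw [abs_of_nonneg h3, abs_of_nonpos (by linarith), max_eq_right (by linarith),
    max_eq_right (by linarith)]
  ring

lemma tent_int {c : ℝ} {k : ℤ} (h1 : k ≠ -⌊c⌋) (h2 : k ≠ -⌊c⌋ - 1) : tent ((k : ℝ) + c) = 0 := by
  refine tent_eq_zero ?_
  have h3 := Int.fract_nonneg c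
  have h4 := Int.fract_lt_one c
  have h5 : c = ⌊c⌋ + Int.fract c := (Int.floor_add_fract c).symm
  rcases lt_or_ge k (-⌊c⌋ - 1) with h | h
  · have h6 : k ≤ -⌊c⌋ - 2 := by omega
    have h7 : (k : ℝ) ≤ -⌊c⌋ - 2 := by exact_mod_cast h6
    rw [le_abs]
    right
    linarith
  · have h6 : -⌊c⌋ + 1 ≤ k := by omega
    have h7 : -(⌊c⌋ : ℝ) + 1 ≤ (k : ℝ) := by exact_mod_cast h6
    rw [le_abs]
    left
    linarith

lemma abs_prod_sub_prod_le {ι : Type*} (s : Finset ι) (a b : ι → ℝ) (ha : ∀ i, 0 ≤ a i ∧ a i ≤ 1)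
    (hb : ∀ i, 0 ≤ b i ∧ b i ≤ 1) :
    |∏ i ∈ s, a i - ∏ i ∈ s, b i| ≤ ∑ i ∈ s, |a i - b i| := by
  classical
  induction s using Finset.induction_on with
  | empty => simp
  | insert i s hi ih =>
    rw [Finset.prod_insert hi, Finset.prod_insert hi, Finset.sum_insert hi]
    have h1 : a i * ∏ j ∈ s, a j - b i * ∏ j ∈ s, b j =
      (a i - b i) * ∏ j ∈ s, a j + b i * (∏ j ∈ s, a j - ∏ j ∈ s, b j) := by ring
    rw [h1]
    refine (abs_add_le _ _).trans (add_le_add ?_ ?_)
    · rw [abs_mul]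
      refine mul_le_of_le_one_right (abs_nonneg _) ?_
      rw [abs_of_nonneg (Finset.prod_nonneg fun j _ => (ha j).1)]
      exact Finset.prod_le_one (fun j _ => (ha j).1) (fun j _ => (ha j).2)
    · rw [abs_mul, abs_of_nonneg (hb i).1]
      exact (mul_le_of_le_one_left (abs_nonneg _) (hb i).2).trans ih

variable (K : Type*) [Field K] [NumberField K]

open scoped Classical in
/-- real basis of the log space made of a basis of the unit lattice -/
noncomputable def BB : Basis (Fin (Units.rank K)) ℝ (logSpace K) :=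
  (basisUnitLattice K).ofZLatticeBasis ℝ (unitLattice K)

lemma BB_apply (i : Fin (Units.rank K)) :
    BB K i = logEmbedding K (Additive.ofMul (fundSystem K i)) := by
  rw [BB, Basis.ofZLatticeBasis_apply, logEmbedding_fundSystem]

/-- the product of tents on the log space -/
noncomputable def TT (y : logSpace K) : ℝ := ∏ i, tent ((BB K).repr y i)

lemma TT_nonneg (y : logSpace K) : 0 ≤ TT K y := Finset.prod_nonneg fun _ _ => tent_nonneg _

lemma TT_le_one (y : logSpace K) : TT K y ≤ 1 :=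
  Finset.prod_le_one (fun _ _ => tent_nonneg _) (fun _ _ => tent_le_one _)

open scoped Classical in
lemma TT_lip : ∃ C : ℝ, 0 ≤ C ∧ ∀ y z : logSpace K, |TT K y - TT K z| ≤ C * ‖y - z‖ := by
  have h1 : ∀ i, ∃ C : ℝ, 0 ≤ C ∧ ∀ y : logSpace K, |(BB K).repr y i| ≤ C * ‖y‖ := by
    intro i
    let f : logSpace K →L[ℝ] ℝ := LinearMap.toContinuousLinearMap ((BB K).coord i)
    refine ⟨‖f‖, norm_nonneg _, fun y => ?_⟩
    exact f.le_opNorm y
  choose C hC0 hC using h1
  refine ⟨∑ i, C i, Finset.sum_nonneg fun i _ => hC0 i, fun y z => ?_⟩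
  unfold TT
  refine (abs_prod_sub_prod_le _ _ _ (fun i => ⟨tent_nonneg _, tent_le_one _⟩)
    (fun i => ⟨tent_nonneg _, tent_le_one _⟩)).trans ?_
  rw [Finset.sum_mul]
  refine Finset.sum_le_sum fun i _ => ?_
  refine (tent_lip _ _).trans ?_
  have := hC i (y - z)
  rw [map_sub, Finsupp.sub_apply] at this
  exact this

open scoped Classical in
lemma TT_supp : ∃ R : ℝ, 0 ≤ R ∧ ∀ y : logSpace K, TT K y ≠ 0 → ‖y‖ ≤ R := by
  refine ⟨∑ i, ‖BB K i‖, Finset.sum_nonneg fun i _ => norm_nonneg _, fun y hy => ?_⟩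
  have h1 : ∀ i, |(BB K).repr y i| ≤ 1 := by
    intro i
    by_contra h
    push Not at h
    exact hy (Finset.prod_eq_zero (Finset.mem_univ i) (tent_eq_zero h.le))
  have h2 : y = ∑ i, (BB K).repr y i • BB K i := ((BB K).sum_repr y).symm
  calc ‖y‖ = ‖∑ i, (BB K).repr y i • BB K i‖ := by rw [← h2]
    _ ≤ ∑ i, ‖(BB K).repr y i • BB K i‖ := norm_sum_le _ _
    _ ≤ ∑ i, ‖BB K i‖ := by
        refine Finset.sum_le_sum fun i _ => ?_
        rw [_root_.norm_smul, Real.norm_eq_abs]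
        exact mul_le_of_le_one_left (norm_nonneg _) (h1 i)

/-- the units are `torsion × ℤ^r` -/
noncomputable def unitsEquiv : (torsion K × (Fin (Units.rank K) → ℤ)) ≃ (𝓞 K)ˣ :=
  Equiv.ofBijective (fun ζe => (ζe.1 : (𝓞 K)ˣ) * ∏ i, (fundSystem K i) ^ (ζe.2 i)) <| by
    rw [Function.bijective_iff_existsUnique]
    intro x
    obtain ⟨a, ha, hu⟩ := exist_unique_eq_mul_prod K x
    exact ⟨a, ha.symm, fun b hb => hu b hb.symm⟩

lemma logEmbedding_unitsEquiv (a : torsion K × (Fin (Units.rank K) → ℤ)) :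
    logEmbedding K (Additive.ofMul (unitsEquiv K a)) = ∑ i, (a.2 i : ℝ) • BB K i := by
  have h0 : logEmbedding K (Additive.ofMul (a.1 : (𝓞 K)ˣ)) = 0 :=
    logEmbedding_eq_zero_iff.mpr a.1.2
  simp only [unitsEquiv, Equiv.ofBijective_apply]
  rw [ofMul_mul, map_add, h0, zero_add, ofMul_prod, map_sum]
  refine Finset.sum_congr rfl fun i _ => ?_
  rw [ofMul_zpow, map_zsmul, ← BB_apply, Int.cast_smul_eq_zsmul]

lemma repr_unitsEquiv (a : torsion K × (Fin (Units.rank K) → ℤ)) (y : logSpace K)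
    (i : Fin (Units.rank K)) :
    (BB K).repr (logEmbedding K (Additive.ofMul (unitsEquiv K a)) + y) i =
      (a.2 i : ℝ) + (BB K).repr y i := by
  rw [logEmbedding_unitsEquiv, map_add, Finsupp.add_apply, Basis.repr_sum_self]

/-- The translates of the tent function by the unit lattice are a partition of unity. -/
theorem hasSum_TT (y : logSpace K) :
    HasSum (fun u : (𝓞 K)ˣ => TT K (logEmbedding K (Additive.ofMul u) + y)) (torsionOrder K) := by
  classical
  have : Fintype (torsion K) := Fintype.ofFinite _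
  rw [← (unitsEquiv K).hasSum_iff]
  set c : Fin (Units.rank K) → ℝ := fun i => (BB K).repr y i with hc
  let s : Finset (torsion K × (Fin (Units.rank K) → ℤ)) := Finset.univ ×ˢ
    Fintype.piFinset fun i => {-⌊c i⌋, -⌊c i⌋ - 1}
  have hfun : ∀ a : torsion K × (Fin (Units.rank K) → ℤ),
      ((fun u : (𝓞 K)ˣ => TT K (logEmbedding K (Additive.ofMul u) + y)) ∘ unitsEquiv K) a =
      ∏ i, tent ((a.2 i : ℝ) + c i) := by
    intro a
    simp only [Function.comp_apply, TT, repr_unitsEquiv, hc]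
  have hsum : ∑ a ∈ s, ((fun u : (𝓞 K)ˣ => TT K (logEmbedding K (Additive.ofMul u) + y)) ∘
      unitsEquiv K) a = torsionOrder K := by
    simp only [hfun]
    rw [Finset.sum_product]
    simp only
    rw [Finset.sum_const, Finset.card_univ, nsmul_eq_mul]
    have h1 : ∑ e ∈ Fintype.piFinset (fun i => ({-⌊c i⌋, -⌊c i⌋ - 1} : Finset ℤ)),
        ∏ i, tent ((e i : ℝ) + c i) = 1 := by
      rw [← Finset.prod_univ_sum (fun i => ({-⌊c i⌋, -⌊c i⌋ - 1} : Finset ℤ))
        (fun i k => tent ((k : ℝ) + c i))]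
      refine Finset.prod_eq_one fun i _ => ?_
      rw [Finset.sum_pair (by omega)]
      exact tent_sum (c i)
    rw [h1, mul_one, torsionOrder, Nat.card_eq_fintype_card]
  rw [← hsum]
  refine hasSum_sum_of_ne_finset_zero fun a ha => ?_
  rw [hfun]
  simp only [s, Finset.mem_product, Finset.mem_univ, true_and, Fintype.mem_piFinset,
    Finset.mem_insert, Finset.mem_singleton] at ha
  push Not at ha
  obtain ⟨i, h1, h2⟩ := ha
  exact Finset.prod_eq_zero (Finset.mem_univ i) (tent_int h1 h2)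

end TatePole.AT
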