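import Mathlib
import Pool.Agent.Lib.MP_058a58_ag.AT.Tent

open NumberField NumberField.Units NumberField.mixedEmbedding NumberField.Units.dirichletUnitTheorem
open NumberField.InfinitePlace Module

namespace TatePole.AT

variable {K : Type*} [Field K] [NumberField K]

/-- the weight `T(log x) * N(x)^(-s)` on the mixed space -/
noncomputable def GG (s : ℝ) (x : mixedSpace K) : ℝ :=
  TT K (logMap x) * (mixedEmbedding.norm x) ^ (-s)

lemma GG_nonneg (s : ℝ) (x : mixedSpace K) : 0 ≤ GG s x :=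
  mul_nonneg (TT_nonneg _ _) (Real.rpow_nonneg (mixedEmbedding.norm_nonneg x) _)

lemma log_norm_eq {x : mixedSpace K} (hx : mixedEmbedding.norm x ≠ 0) :
    Real.log (mixedEmbedding.norm x) = ∑ w, (mult w : ℝ) * Real.log (normAtPlace w x) := by
  rw [mixedEmbedding.norm_apply, Real.log_prod]
  · refine Finset.sum_congr rfl fun w _ => ?_
    rw [Real.log_pow]
  · intro w _
    exact pow_ne_zero _ (mixedEmbedding.norm_ne_zero_iff.mp hx w)

lemma sum_mult_real : ∑ w : InfinitePlace K, (mult w : ℝ) = finrank ℚ K := by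
  rw [← sum_mult_eq]; push_cast; rfl

open scoped Classical in
lemma np_le_norm (w : InfinitePlace K) (x : mixedSpace K) : normAtPlace w x ≤ ‖x‖ := by
  rw [norm_eq_sup'_normAtPlace]
  exact Finset.le_sup' (fun w => normAtPlace w x) (Finset.mem_univ w)

open scoped Classical in
lemma exists_np_eq (x : mixedSpace K) : ∃ w, ‖x‖ = normAtPlace w x := by
  rw [norm_eq_sup'_normAtPlace]
  obtain ⟨w, _, hw⟩ := Finset.exists_mem_eq_sup' Finset.univ_nonempty (fun w => normAtPlace w x)
  exact ⟨w, hw⟩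

lemma one_le_mult (w : InfinitePlace K) : (1 : ℝ) ≤ mult w := by
  exact_mod_cast Nat.one_le_iff_ne_zero.mpr mult_ne_zero

lemma mult_le_two (w : InfinitePlace K) : (mult w : ℝ) ≤ 2 := by
  unfold mult
  split_ifs <;> norm_num

open scoped Classical in
/-- On the support of the weight all absolute values are comparable. -/
lemma comparable (K : Type*) [Field K] [NumberField K] : ∃ δ : ℝ, 0 < δ ∧ δ ≤ 1 ∧
    ∀ x : mixedSpace K, mixedEmbedding.norm x ≠ 0 → TT K (logMap x) ≠ 0 →
      ∀ w, δ * ‖x‖ ≤ normAtPlace w x := by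
  classical
  obtain ⟨R, hR0, hR⟩ := TT_supp K
  set c : ℝ := (Fintype.card {w : InfinitePlace K // w ≠ w₀} : ℝ) with hc
  have hc0 : 0 ≤ c := Nat.cast_nonneg _
  set B : ℝ := (c + 1) * R with hB
  have hB0 : 0 ≤ B := by positivity
  refine ⟨Real.exp (-(2 * B)), Real.exp_pos _, Real.exp_le_one_iff.mpr (by linarith), ?_⟩
  intro x hx hT w
  have hn : (0 : ℝ) < finrank ℚ K := by exact_mod_cast finrank_pos
  set L : ℝ := Real.log (mixedEmbedding.norm x) * (finrank ℚ K : ℝ)⁻¹ with hL
  have hnp : ∀ w, 0 < normAtPlace w x := fun w =>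
    lt_of_le_of_ne (normAtPlace_nonneg _ _) (mixedEmbedding.norm_ne_zero_iff.mp hx w).symm
  have h1 : ∀ w : {w : InfinitePlace K // w ≠ w₀}, |logMap x w| ≤ R := by
    intro w
    have h2 := norm_le_pi_norm (logMap x) w
    rw [Real.norm_eq_abs] at h2
    exact h2.trans (hR _ hT)
  have h2 : ∀ w : InfinitePlace K, |Real.log (normAtPlace w x) - L| ≤ B := by
    intro w
    have hm := one_le_mult w
    suffices h : |(mult w : ℝ) * (Real.log (normAtPlace w x) - L)| ≤ B by
      rw [abs_mul, abs_of_nonneg (by linarith)] at h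
      refine le_trans ?_ h
      exact le_mul_of_one_le_left (abs_nonneg _) hm
    by_cases hw : w = w₀
    · have h3 : ∑ w : InfinitePlace K, (mult w : ℝ) * (Real.log (normAtPlace w x) - L) = 0 := by
        simp only [mul_sub]
        rw [Finset.sum_sub_distrib, ← log_norm_eq hx, ← Finset.sum_mul, sum_mult_real, hL]
        field_simp
        ring
      rw [← Finset.add_sum_erase _ _ (Finset.mem_univ w₀)] at h3
      have h4 : (mult (w₀ : InfinitePlace K) : ℝ) * (Real.log (normAtPlace w₀ x) - L) =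
          - ∑ w ∈ Finset.univ.erase (w₀ : InfinitePlace K),
            (mult w : ℝ) * (Real.log (normAtPlace w x) - L) := by linarith
      rw [hw, h4, abs_neg]
      have h5 : ∑ w ∈ Finset.univ.erase (w₀ : InfinitePlace K),
          (mult w : ℝ) * (Real.log (normAtPlace w x) - L) =
          ∑ w : {w : InfinitePlace K // w ≠ w₀}, logMap x w := by
        exact Finset.sum_subtype (p := fun w => w ≠ w₀) (Finset.univ.erase (w₀ : InfinitePlace K))
          (by simp) (fun w => (mult w : ℝ) * (Real.log (normAtPlace w x) - L))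
      rw [h5]
      refine (Finset.abs_sum_le_sum_abs _ _).trans ?_
      refine (Finset.sum_le_sum fun w _ => h1 w).trans ?_
      rw [Finset.sum_const, nsmul_eq_mul, Finset.card_univ, ← hc, hB]
      nlinarith
    · have h3 := h1 ⟨w, hw⟩
      rw [logMap_apply] at h3
      refine h3.trans ?_
      rw [hB]
      nlinarith
  obtain ⟨w', hw'⟩ := exists_np_eq x
  rw [hw']
  have h3 : Real.log (normAtPlace w' x) - 2 * B ≤ Real.log (normAtPlace w x) := by
    have := abs_le.mp (h2 w)
    have := abs_le.mp (h2 w')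
    linarith
  have h4 : Real.exp (-(2 * B)) * normAtPlace w' x =
      Real.exp (Real.log (normAtPlace w' x) - 2 * B) := by
    rw [sub_eq_add_neg, add_comm, Real.exp_add, Real.exp_log (hnp w')]
  rw [h4]
  refine (Real.exp_le_exp.mpr h3).trans ?_
  rw [Real.exp_log (hnp w)]

lemma abs_exp_sub_exp_le (a b M : ℝ) (ha : Real.exp a ≤ M) (hb : Real.exp b ≤ M) :
    |Real.exp a - Real.exp b| ≤ |a - b| * M := by
  wlog h : b ≤ a generalizing a b
  · rw [abs_sub_comm, abs_sub_comm a b]
    exact this b a hb ha (le_of_not_ge h)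
  have h1 : Real.exp b = Real.exp a * Real.exp (b - a) := by
    rw [← Real.exp_add]; ring_nf
  have h2 : b - a + 1 ≤ Real.exp (b - a) := Real.add_one_le_exp _
  have h3 : 0 < Real.exp a := Real.exp_pos a
  rw [abs_of_nonneg (sub_nonneg.mpr (Real.exp_le_exp.mpr h)), abs_of_nonneg (by linarith)]
  have h4 : Real.exp a - Real.exp b ≤ (a - b) * Real.exp a := by
    rw [h1]; nlinarith
  exact h4.trans (mul_le_mul_of_nonneg_left ha (by linarith))

lemma abs_log_sub_log_le {a b m : ℝ} (hm : 0 < m) (ha : m ≤ a) (hb : m ≤ b) :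
    |Real.log a - Real.log b| ≤ |a - b| / m := by
  wlog h : b ≤ a generalizing a b
  · rw [abs_sub_comm, abs_sub_comm a b]
    exact this hb ha (le_of_not_ge h)
  have hb0 : 0 < b := by linarith
  have ha0 : 0 < a := by linarith
  rw [abs_of_nonneg (sub_nonneg.mpr (Real.log_le_log hb0 h)), abs_of_nonneg (by linarith),
    ← Real.log_div ha0.ne' hb0.ne']
  have h1 := Real.log_le_sub_one_of_pos (div_pos ha0 hb0)
  have h2 : a / b - 1 = (a - b) / b := by field_simp
  rw [h2] at h1
  refine h1.trans ?_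
  exact div_le_div_of_nonneg_left (by linarith) hm hb

open scoped Classical in
/-- local Lipschitz bound where all absolute values are comparable -/
lemma lip_core (K : Type*) [Field K] [NumberField K] (δ D : ℝ) (hδ : 0 < δ) (hD : 0 ≤ D) :
    ∃ C R : ℝ, 0 ≤ C ∧ 0 ≤ R ∧ ∀ s : ℝ, 1 ≤ s → s ≤ 2 → ∀ x c : mixedSpace K, ‖c‖ ≤ D → R ≤ ‖x‖ →
      (∀ w, δ * ‖x‖ ≤ normAtPlace w x) →
      |GG s (x + c) - GG s x| ≤ C * (‖x‖ ^ (finrank ℚ K + 1))⁻¹ := by
  classical
  obtain ⟨CT, hCT0, hCT⟩ := TT_lip K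
  set n : ℕ := finrank ℚ K with hn
  have hnpos : (0 : ℝ) < n := by exact_mod_cast finrank_pos
  refine ⟨(CT * (8 * D / δ) + 4 * n * D / δ) * (2 / δ) ^ n, max 1 (max (2 * D / δ) (2 / δ)),
    by positivity, by positivity, ?_⟩
  intro s hs1 hs2 x c hc hx hw
  set r : ℝ := ‖x‖ with hr
  have hr1 : 1 ≤ r := (le_max_left _ _).trans hx
  have hr2 : 2 * D / δ ≤ r := ((le_max_left _ _).trans (le_max_right _ _)).trans hx
  have hr3 : 2 / δ ≤ r := ((le_max_right _ _).trans (le_max_right _ _)).trans hx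
  have hr0 : 0 < r := by linarith
  set m : ℝ := δ / 2 * r with hm
  have hm1 : 1 ≤ m := by
    rw [div_le_iff₀ hδ] at hr3
    rw [hm]; linarith
  have hmD : D ≤ m := by
    rw [div_le_iff₀ hδ] at hr2
    rw [hm]; linarith
  have hm0 : 0 < m := by linarith
  have ha : ∀ w, m ≤ normAtPlace w x := fun w => by
    have := hw w
    have : m ≤ δ * r := by rw [hm]; nlinarith
    linarith
  have hcw : ∀ w, normAtPlace w c ≤ D := fun w => (np_le_norm w c).trans hc
  have h1 : ∀ w, normAtPlace w (x + c) ≤ normAtPlace w x + D := fun w =>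
    (normAtPlace_add_le w x c).trans (by linarith [hcw w])
  have h2 : ∀ w, normAtPlace w x ≤ normAtPlace w (x + c) + D := fun w => by
    have h3 := normAtPlace_add_le w (x + c) (-c)
    rw [add_neg_cancel_right, normAtPlace_neg] at h3
    linarith [hcw w]
  have hb : ∀ w, m ≤ normAtPlace w (x + c) := fun w => by
    have h4 := hw w
    have h5 := h2 w
    have h6 : 2 * m = δ * r := by rw [hm]; ring
    linarith
  have habs : ∀ w, |normAtPlace w (x + c) - normAtPlace w x| ≤ D := fun w => by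
    rw [abs_le]
    constructor <;> linarith [h1 w, h2 w]
  have hlog : ∀ w, |Real.log (normAtPlace w (x + c)) - Real.log (normAtPlace w x)| ≤ D / m :=
    fun w => (abs_log_sub_log_le hm0 (hb w) (ha w)).trans
      (div_le_div_of_nonneg_right (habs w) hm0.le)
  have hnx : mixedEmbedding.norm x ≠ 0 := mixedEmbedding.norm_ne_zero_iff.mpr fun w =>
    (lt_of_lt_of_le hm0 (ha w)).ne'
  have hny : mixedEmbedding.norm (x + c) ≠ 0 := mixedEmbedding.norm_ne_zero_iff.mpr fun w =>
    (lt_of_lt_of_le hm0 (hb w)).ne'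
  have hnlog : |Real.log (mixedEmbedding.norm (x + c)) - Real.log (mixedEmbedding.norm x)| ≤
      n * (D / m) := by
    rw [log_norm_eq hnx, log_norm_eq hny, ← Finset.sum_sub_distrib]
    refine (Finset.abs_sum_le_sum_abs _ _).trans ?_
    rw [hn, ← sum_mult_real, Finset.sum_mul]
    refine Finset.sum_le_sum fun w _ => ?_
    rw [← mul_sub, abs_mul, abs_of_nonneg (by linarith [one_le_mult w])]
    exact mul_le_mul_of_nonneg_left (hlog w) (by linarith [one_le_mult w])
  have hlm : ‖logMap (x + c) - logMap x‖ ≤ 4 * (D / m) := by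
    have hDm : 0 ≤ D / m := by positivity
    rw [pi_norm_le_iff_of_nonneg (by positivity)]
    intro w
    rw [Pi.sub_apply, logMap_apply, logMap_apply, ← mul_sub, Real.norm_eq_abs, abs_mul,
      abs_of_nonneg (by linarith [one_le_mult w.val])]
    have h7 : |Real.log (normAtPlace w.val (x + c)) -
        Real.log (mixedEmbedding.norm (x + c)) * (finrank ℚ K : ℝ)⁻¹ -
        (Real.log (normAtPlace w.val x) - Real.log (mixedEmbedding.norm x) *
        (finrank ℚ K : ℝ)⁻¹)| ≤ 2 * (D / m) := by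
      have h8 : Real.log (normAtPlace w.val (x + c)) -
        Real.log (mixedEmbedding.norm (x + c)) * (finrank ℚ K : ℝ)⁻¹ -
        (Real.log (normAtPlace w.val x) - Real.log (mixedEmbedding.norm x) *
        (finrank ℚ K : ℝ)⁻¹) = (Real.log (normAtPlace w.val (x + c)) -
          Real.log (normAtPlace w.val x)) - (Real.log (mixedEmbedding.norm (x + c)) -
          Real.log (mixedEmbedding.norm x)) * (finrank ℚ K : ℝ)⁻¹ := by ring
      rw [h8]
      refine (abs_sub _ _).trans ?_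
      have h9 : |(Real.log (mixedEmbedding.norm (x + c)) -
          Real.log (mixedEmbedding.norm x)) * (finrank ℚ K : ℝ)⁻¹| ≤ D / m := by
        rw [abs_mul, abs_of_nonneg (by positivity : (0:ℝ) ≤ (finrank ℚ K : ℝ)⁻¹),
          ← div_eq_mul_inv, div_le_iff₀ (by rw [← hn]; exact hnpos), mul_comm (D / m)]
        exact hnlog
      linarith [hlog w.val]
    calc (mult w.val : ℝ) * _ ≤ 2 * (2 * (D / m)) :=
          mul_le_mul (mult_le_two _) h7 (abs_nonneg _) (by norm_num)
      _ = 4 * (D / m) := by ring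
  have hNx : m ^ n ≤ mixedEmbedding.norm x := by
    rw [mixedEmbedding.norm_apply, hn, ← sum_mult_eq, ← Finset.prod_pow_eq_pow_sum]
    exact Finset.prod_le_prod (fun w _ => by positivity) fun w _ => pow_le_pow_left₀ hm0.le (ha w) _
  have hNy : m ^ n ≤ mixedEmbedding.norm (x + c) := by
    rw [mixedEmbedding.norm_apply, hn, ← sum_mult_eq, ← Finset.prod_pow_eq_pow_sum]
    exact Finset.prod_le_prod (fun w _ => by positivity) fun w _ => pow_le_pow_left₀ hm0.le (hb w) _
  have hmn1 : 1 ≤ m ^ n := one_le_pow₀ hm1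
  have hpow : ∀ N : ℝ, m ^ n ≤ N → N ^ (-s) ≤ (m ^ n)⁻¹ := by
    intro N hN
    have hN1 : 1 ≤ N := hmn1.trans hN
    calc N ^ (-s) ≤ N ^ (-1 : ℝ) := Real.rpow_le_rpow_of_exponent_le hN1 (by linarith)
      _ = N⁻¹ := by rw [Real.rpow_neg_one]
      _ ≤ (m ^ n)⁻¹ := inv_anti₀ (by positivity) hN
  have hexp : ∀ N : ℝ, m ^ n ≤ N → N ^ (-s) = Real.exp (-s * Real.log N) := by
    intro N hN
    rw [Real.rpow_def_of_pos (by linarith), mul_comm]
  have hdiff : |mixedEmbedding.norm (x + c) ^ (-s) - mixedEmbedding.norm x ^ (-s)| ≤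
      2 * (n * (D / m)) * (m ^ n)⁻¹ := by
    have h10 := hpow _ hNx
    have h11 := hpow _ hNy
    rw [hexp _ hNx] at h10 ⊢
    rw [hexp _ hNy] at h11 ⊢
    refine (abs_exp_sub_exp_le _ _ _ h11 h10).trans ?_
    refine mul_le_mul_of_nonneg_right ?_ (by positivity)
    rw [← mul_sub, abs_mul, abs_neg, abs_of_nonneg (by linarith)]
    exact mul_le_mul hs2 hnlog (abs_nonneg _) (by norm_num)
  have hT := hCT (logMap (x + c)) (logMap x)
  have hsplit : GG s (x + c) - GG s x =
      (TT K (logMap (x + c)) - TT K (logMap x)) * mixedEmbedding.norm (x + c) ^ (-s) +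
      TT K (logMap x) * (mixedEmbedding.norm (x + c) ^ (-s) - mixedEmbedding.norm x ^ (-s)) := by
    unfold GG; ring
  rw [hsplit]
  refine (abs_add_le _ _).trans ?_
  have hA : |(TT K (logMap (x + c)) - TT K (logMap x)) * mixedEmbedding.norm (x + c) ^ (-s)| ≤
      CT * (4 * (D / m)) * (m ^ n)⁻¹ := by
    rw [abs_mul, abs_of_nonneg (Real.rpow_nonneg (mixedEmbedding.norm_nonneg _) _)]
    refine mul_le_mul (hT.trans (mul_le_mul_of_nonneg_left hlm hCT0)) (hpow _ hNy)
      (Real.rpow_nonneg (mixedEmbedding.norm_nonneg _) _) (by positivity)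
  have hB : |TT K (logMap x) * (mixedEmbedding.norm (x + c) ^ (-s) -
      mixedEmbedding.norm x ^ (-s))| ≤ 2 * (n * (D / m)) * (m ^ n)⁻¹ := by
    rw [abs_mul, abs_of_nonneg (TT_nonneg K _)]
    exact (mul_le_of_le_one_left (abs_nonneg _) (TT_le_one K _)).trans hdiff
  refine (add_le_add hA hB).trans (le_of_eq ?_)
  rw [hm, pow_succ, mul_pow, div_pow, div_pow]
  field_simp
  ring

open scoped Classical in
/-- The weight is Lipschitz at infinity, uniformly in `s ∈ [1, 2]`. -/
theorem GG_lip (K : Type*) [Field K] [NumberField K] (D : ℝ) (hD : 0 ≤ D) :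
    ∃ C R : ℝ, 0 ≤ C ∧ 0 ≤ R ∧ ∀ s : ℝ, 1 ≤ s → s ≤ 2 → ∀ x c : mixedSpace K, ‖c‖ ≤ D → R ≤ ‖x‖ →
      |GG s (x + c) - GG s x| ≤ C * (‖x‖ ^ (finrank ℚ K + 1))⁻¹ := by
  classical
  obtain ⟨δ, hδ0, hδ1, hδ⟩ := comparable K
  obtain ⟨C, R, hC, hR, h⟩ := lip_core K δ D hδ0 hD
  set n : ℕ := finrank ℚ K with hn
  refine ⟨C * 2 ^ (n + 1), 2 * R + 2 * D + 1, by positivity, by positivity, ?_⟩
  intro s hs1 hs2 x c hc hx
  have hx0 : 0 < ‖x‖ := by linarith
  have hzero : ∀ y : mixedSpace K, ¬ (mixedEmbedding.norm y ≠ 0 ∧ TT K (logMap y) ≠ 0) →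
      GG s y = 0 := by
    intro y hy
    unfold GG
    by_cases h0 : mixedEmbedding.norm y = 0
    · rw [h0, Real.zero_rpow (by linarith), mul_zero]
    · have : TT K (logMap y) = 0 := by
        by_contra h1
        exact hy ⟨h0, h1⟩
      rw [this, zero_mul]
  have h2 : (1:ℝ) ≤ 2 ^ (n + 1) := one_le_pow₀ (by norm_num)
  by_cases h1 : mixedEmbedding.norm x ≠ 0 ∧ TT K (logMap x) ≠ 0
  · refine (h s hs1 hs2 x c hc (by linarith) (hδ x h1.1 h1.2)).trans ?_
    refine mul_le_mul_of_nonneg_right ?_ (by positivity)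
    exact le_mul_of_one_le_right hC h2
  · by_cases h3 : mixedEmbedding.norm (x + c) ≠ 0 ∧ TT K (logMap (x + c)) ≠ 0
    · have h4 : ‖x‖ ≤ ‖x + c‖ + ‖c‖ := by
        have := norm_sub_le (x + c) c
        rwa [add_sub_cancel_right] at this
      have h5 : ‖x‖ / 2 ≤ ‖x + c‖ := by linarith
      have h6 := h s hs1 hs2 (x + c) (-c) (by rwa [norm_neg]) (by linarith)
        (hδ _ h3.1 h3.2)
      rw [add_neg_cancel_right, abs_sub_comm] at h6
      refine h6.trans ?_
      rw [mul_assoc]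
      refine mul_le_mul_of_nonneg_left ?_ hC
      have hxc : 0 < ‖x + c‖ := by linarith
      rw [inv_le_iff_one_le_mul₀ (by positivity)]
      have h7 : (‖x‖ / 2) ^ (n + 1) ≤ ‖x + c‖ ^ (n + 1) := pow_le_pow_left₀ (by positivity) h5 _
      have h8 : (2:ℝ) ^ (n + 1) * (‖x‖ ^ (n + 1))⁻¹ * (‖x‖ / 2) ^ (n + 1) = 1 := by
        rw [div_pow]; field_simp
      calc (1:ℝ) = (2:ℝ) ^ (n + 1) * (‖x‖ ^ (n + 1))⁻¹ * (‖x‖ / 2) ^ (n + 1) := h8.symm
        _ ≤ (2:ℝ) ^ (n + 1) * (‖x‖ ^ (n + 1))⁻¹ * ‖x + c‖ ^ (n + 1) :=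
          mul_le_mul_of_nonneg_left h7 (by positivity)
    · rw [hzero _ h1, hzero _ h3, sub_zero, abs_zero]
      positivity

end TatePole.AT
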