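import Mathlib
import Pool.Agent.Lib.MP_058a58_ag.AT.Tent

open NumberField NumberField.Units NumberField.mixedEmbedding NumberField.Units.dirichletUnitTheorem
open NumberField.InfinitePlace Module
open scoped nonZeroDivisors

namespace TatePole.AT

variable {K : Type*} [Field K] [NumberField K]

/-- an algebraic integer as a point of the mixed space -/
noncomputable def em (α : 𝓞 K) : mixedSpace K := mixedEmbedding K (α : K)

lemma em_inj {α β : 𝓞 K} : em α = em β ↔ α = β := by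
  unfold em
  rw [(mixedEmbedding_injective K).eq_iff, RingOfIntegers.ext_iff]

lemma em_zero : em (0 : 𝓞 K) = 0 := by simp [em]

lemma em_add (α β : 𝓞 K) : em (α + β) = em α + em β := by simp [em]

lemma em_mul (α β : 𝓞 K) : em (α * β) = em α * em β := by simp [em]

/-- absolute norm of an algebraic integer -/
noncomputable def an (α : 𝓞 K) : ℕ := (Algebra.norm ℤ α).natAbs

lemma an_eq (α : 𝓞 K) : an α = Ideal.absNorm (Ideal.span {α}) := by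
  rw [Ideal.absNorm_span_singleton, an]

lemma an_zero : an (0 : 𝓞 K) = 0 := by simp [an]

lemma norm_em (α : 𝓞 K) : mixedEmbedding.norm (em α) = an α := by
  rw [em, norm_eq_norm, an, Nat.cast_natAbs, ← Rat.cast_intCast, Int.cast_abs,
    Algebra.coe_norm_int]

lemma norm_em_ne_zero {α : 𝓞 K} (h : α ≠ 0) : mixedEmbedding.norm (em α) ≠ 0 := by
  rw [norm_em, an_eq]
  simpa [Ideal.absNorm_eq_zero_iff] using h

lemma logMap_em_unit_mul (u : (𝓞 K)ˣ) {α : 𝓞 K} (h : α ≠ 0) :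
    logMap (em ((u : 𝓞 K) * α)) = logEmbedding K (Additive.ofMul u) + logMap (em α) := by
  have h1 : em ((u : 𝓞 K) * α) = u • em α := by
    rw [em_mul, unitSMul_smul]; rfl
  rw [h1, logMap_unit_smul u (norm_em_ne_zero h)]

/-- an integral ideal in the inverse of a given class -/
noncomputable def JC (C : ClassGroup (𝓞 K)) : (Ideal (𝓞 K))⁰ :=
  (ClassGroup.mk0_surjective C⁻¹).choose

lemma mk0_JC (C : ClassGroup (𝓞 K)) : ClassGroup.mk0 (JC C) = C⁻¹ :=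
  (ClassGroup.mk0_surjective C⁻¹).choose_spec

lemma exists_gen (𝔞 : (Ideal (𝓞 K))⁰) : ∃ α : 𝓞 K,
    Ideal.span {α} = (𝔞 : Ideal (𝓞 K)) * (JC (ClassGroup.mk0 𝔞) : Ideal (𝓞 K)) := by
  have h1 : ClassGroup.mk0 (𝔞 * JC (ClassGroup.mk0 𝔞)) = 1 := by
    rw [map_mul, mk0_JC, mul_inv_cancel]
  rw [ClassGroup.mk0_eq_one_iff] at h1
  obtain ⟨⟨α, hα⟩⟩ := h1
  exact ⟨α, by rw [← Submonoid.coe_mul, hα]⟩

/-- a generator of `𝔞 * JC [𝔞]` -/
noncomputable def gen (𝔞 : (Ideal (𝓞 K))⁰) : 𝓞 K := (exists_gen 𝔞).choose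

lemma gen_spec (𝔞 : (Ideal (𝓞 K))⁰) :
    Ideal.span {gen 𝔞} = (𝔞 : Ideal (𝓞 K)) * (JC (ClassGroup.mk0 𝔞) : Ideal (𝓞 K)) :=
  (exists_gen 𝔞).choose_spec

lemma gen_ne_zero (𝔞 : (Ideal (𝓞 K))⁰) : gen 𝔞 ≠ 0 := by
  intro h
  have h1 := gen_spec 𝔞
  rw [h, Ideal.span_singleton_eq_bot.mpr rfl] at h1
  rcases (mul_eq_zero.mp h1.symm) with h2 | h2
  · exact nonZeroDivisors.coe_ne_zero 𝔞 h2
  · exact nonZeroDivisors.coe_ne_zero _ h2

/-- the parametrisation of lattice points by ideals and units -/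
noncomputable def ee (a : (Ideal (𝓞 K))⁰ × (𝓞 K)ˣ) : ClassGroup (𝓞 K) × 𝓞 K :=
  (ClassGroup.mk0 a.1, (a.2 : 𝓞 K) * gen a.1)

lemma span_unit_mul (u : (𝓞 K)ˣ) (α : 𝓞 K) :
    Ideal.span {(u : 𝓞 K) * α} = Ideal.span {α} :=
  Ideal.span_singleton_mul_left_unit u.isUnit α

lemma ee_injective : Function.Injective (ee (K := K)) := by
  rintro ⟨𝔞, u⟩ ⟨𝔟, v⟩ h
  simp only [ee, Prod.mk.injEq] at h
  obtain ⟨h1, h2⟩ := h
  have h3 := congrArg (fun x => Ideal.span {x}) h2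
  simp only [span_unit_mul, gen_spec, h1] at h3
  have h4 : 𝔞 = 𝔟 := Subtype.ext
    (mul_right_cancel₀ (nonZeroDivisors.coe_ne_zero (JC (ClassGroup.mk0 𝔟))) h3)
  subst h4
  have h5 : (u : 𝓞 K) = v := mul_right_cancel₀ (gen_ne_zero 𝔞) h2
  rw [Units.ext h5]

lemma mem_range_ee {C : ClassGroup (𝓞 K)} {α : 𝓞 K} (h0 : α ≠ 0)
    (h : α ∈ (JC C : Ideal (𝓞 K))) : (C, α) ∈ Set.range (ee (K := K)) := by
  have h1 : (JC C : Ideal (𝓞 K)) ∣ Ideal.span {α} := by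
    rw [Ideal.dvd_iff_le, Ideal.span_singleton_le_iff_mem]; exact h
  obtain ⟨𝔞, h𝔞⟩ := h1
  have h2 : Ideal.span {α} ≠ ⊥ := by simpa using h0
  have h3 : 𝔞 ≠ ⊥ := by
    rintro rfl
    exact h2 (by rw [h𝔞, Ideal.mul_bot])
  set A : (Ideal (𝓞 K))⁰ := ⟨𝔞, mem_nonZeroDivisors_of_ne_zero h3⟩ with hA
  have h4 : ClassGroup.mk0 A = C := by
    have h5 : ClassGroup.mk0 (JC C * A) = 1 := by
      rw [ClassGroup.mk0_eq_one_iff]
      exact ⟨⟨α, by rw [Submonoid.coe_mul]; exact h𝔞.symm⟩⟩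
    rw [map_mul, mk0_JC, inv_mul_eq_one] at h5
    exact h5.symm
  have h6 : Ideal.span {α} = Ideal.span {gen A} := by
    rw [gen_spec, h4, h𝔞, mul_comm]
  rw [Ideal.span_singleton_eq_span_singleton] at h6
  obtain ⟨u, hu⟩ := h6.symm
  refine ⟨(A, u), ?_⟩
  simp only [ee, h4, Prod.mk.injEq, true_and]
  rw [mul_comm]
  exact hu

lemma an_ee (𝔞 : (Ideal (𝓞 K))⁰) (u : (𝓞 K)ˣ) :
    an ((u : 𝓞 K) * gen 𝔞) = Ideal.absNorm (𝔞 : Ideal (𝓞 K)) *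
      Ideal.absNorm (JC (ClassGroup.mk0 𝔞) : Ideal (𝓞 K)) := by
  rw [an_eq, span_unit_mul, gen_spec, map_mul]

/-- a function of the norm of an ideal, on pairs of a class and an algebraic integer -/
noncomputable def FF (h : ℕ → ℂ) (a : ClassGroup (𝓞 K) × 𝓞 K) : ℂ := by
  classical
  exact if a.2 ∈ (JC a.1 : Ideal (𝓞 K)) then
    (TT K (logMap (em a.2)) : ℂ) * h (an a.2 / Ideal.absNorm (JC a.1 : Ideal (𝓞 K))) else 0

lemma FF_ee (h : ℕ → ℂ) (𝔞 : (Ideal (𝓞 K))⁰) (u : (𝓞 K)ˣ) :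
    FF h (ee (𝔞, u)) =
      (TT K (logEmbedding K (Additive.ofMul u) + logMap (em (gen 𝔞))) : ℂ) *
        h (Ideal.absNorm (𝔞 : Ideal (𝓞 K))) := by
  have h1 : (u : 𝓞 K) * gen 𝔞 ∈ (JC (ClassGroup.mk0 𝔞) : Ideal (𝓞 K)) := by
    rw [← Ideal.span_singleton_le_iff_mem, span_unit_mul, gen_spec]
    exact Ideal.mul_le_right
  have h2 : Ideal.absNorm (JC (ClassGroup.mk0 𝔞) : Ideal (𝓞 K)) ≠ 0 := by
    rw [Ne, Ideal.absNorm_eq_zero_iff]
    exact nonZeroDivisors.coe_ne_zero _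
  simp only [FF, ee, h1, if_true, an_ee]
  rw [Nat.mul_div_cancel _ (Nat.pos_of_ne_zero h2), logMap_em_unit_mul u (gen_ne_zero 𝔞)]

/-- Unfolding: a sum over ideals is a sum over lattice points. -/
theorem unfold (h : ℕ → ℂ) (h0 : h 0 = 0)
    (hs : Summable fun 𝔞 : (Ideal (𝓞 K))⁰ => ‖h (Ideal.absNorm (𝔞 : Ideal (𝓞 K)))‖) :
    HasSum (FF h : ClassGroup (𝓞 K) × 𝓞 K → ℂ)
      ((torsionOrder K : ℂ) * ∑' 𝔞 : (Ideal (𝓞 K))⁰, h (Ideal.absNorm (𝔞 : Ideal (𝓞 K)))) := by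
  rw [← ee_injective.hasSum_iff]
  · have hfib : ∀ 𝔞 : (Ideal (𝓞 K))⁰, HasSum (fun u : (𝓞 K)ˣ => (FF h ∘ ee) (𝔞, u))
        ((torsionOrder K : ℂ) * h (Ideal.absNorm (𝔞 : Ideal (𝓞 K)))) := by
      intro 𝔞
      simp only [Function.comp_apply, FF_ee]
      have h1 := hasSum_TT K (logMap (em (gen 𝔞)))
      have h2 := (Complex.hasSum_ofReal (x := (torsionOrder K : ℝ))).mpr h1
      have h3 := h2.mul_right (h (Ideal.absNorm (𝔞 : Ideal (𝓞 K))))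
      simpa using h3
    have hfibn : ∀ 𝔞 : (Ideal (𝓞 K))⁰, HasSum (fun u : (𝓞 K)ˣ => ‖(FF h ∘ ee) (𝔞, u)‖)
        ((torsionOrder K : ℝ) * ‖h (Ideal.absNorm (𝔞 : Ideal (𝓞 K)))‖) := by
      intro 𝔞
      simp only [Function.comp_apply, FF_ee, norm_mul, Complex.norm_real, Real.norm_eq_abs,
        abs_of_nonneg (TT_nonneg K _)]
      exact (hasSum_TT K (logMap (em (gen 𝔞)))).mul_right _
    have hsum : Summable (FF h ∘ ee : (Ideal (𝓞 K))⁰ × (𝓞 K)ˣ → ℂ) := by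
      refine Summable.of_norm ?_
      rw [summable_prod_of_nonneg (fun _ => norm_nonneg _)]
      refine ⟨fun 𝔞 => (hfibn 𝔞).summable, ?_⟩
      simp only [fun 𝔞 => (hfibn 𝔞).tsum_eq]
      exact hs.mul_left _
    have h4 := hsum.hasSum.prod_fiberwise hfib
    have h5 : HasSum (fun 𝔞 : (Ideal (𝓞 K))⁰ =>
        (torsionOrder K : ℂ) * h (Ideal.absNorm (𝔞 : Ideal (𝓞 K))))
        ((torsionOrder K : ℂ) * ∑' 𝔞 : (Ideal (𝓞 K))⁰, h (Ideal.absNorm (𝔞 : Ideal (𝓞 K)))) :=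
      (hs.of_norm.hasSum).mul_left _
    rw [← h4.unique h5]
    exact hsum.hasSum
  · rintro ⟨C, α⟩ hα
    simp only [FF]
    by_cases h1 : α ∈ (JC C : Ideal (𝓞 K))
    · by_cases h2 : α = 0
      · subst h2
        simp [an_zero, h0]
      · exact (hα (mem_range_ee h2 h1)).elim
    · simp [h1]

end TatePole.AT
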