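import Mathlib
import Pool.Agent.Lib.MP_058a58_ag.AT.Lip
import Pool.Agent.Lib.MP_058a58_ag.AT.Unfold
import Pool.Agent.Lib.MP_058a58_ag.Dedekind

open NumberField NumberField.Units NumberField.mixedEmbedding NumberField.Units.dirichletUnitTheorem
open NumberField.InfinitePlace Module Filter Topology
open scoped nonZeroDivisors

namespace TatePole.AT

variable {K : Type*} [Field K] [NumberField K]

open scoped Classical in
lemma summable_em (K : Type*) [Field K] [NumberField K] :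
    Summable fun α : 𝓞 K => (‖em α‖ ^ (finrank ℚ K + 1))⁻¹ := by
  have hrank : finrank ℤ (mixedEmbedding.integerLattice K) < finrank ℚ K + 1 := by
    rw [ZLattice.rank ℝ (mixedEmbedding.integerLattice K), mixedEmbedding.finrank]
    exact Nat.lt_succ_self _
  have h1 := ZLattice.summable_norm_pow_inv (mixedEmbedding.integerLattice K)
    (finrank ℚ K + 1) hrank
  let g : 𝓞 K → mixedEmbedding.integerLattice K := fun α => ⟨em α, ⟨α, rfl⟩⟩
  have hg : Function.Injective g := by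
    intro α β h
    exact em_inj.mp (congrArg Subtype.val h)
  have h2 := h1.comp_injective hg
  refine h2.congr fun α => ?_
  simp only [Function.comp_apply, g, inv_pow]
  rfl

lemma GG_em_le_one {s : ℝ} (hs : 0 < s) (α : 𝓞 K) : GG s (em α) ≤ 1 := by
  unfold GG
  rw [norm_em]
  refine mul_le_one₀ (TT_le_one K _) (Real.rpow_nonneg (Nat.cast_nonneg _) _) ?_
  rcases Nat.eq_zero_or_pos (an α) with h | h
  · rw [h, Nat.cast_zero, Real.zero_rpow (by linarith)]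
    exact zero_le_one
  · exact Real.rpow_le_one_of_one_le_of_nonpos (by exact_mod_cast h) (by linarith)

lemma em_natCast_mul (q : ℕ) (α : 𝓞 K) : em ((q : 𝓞 K) * α) = (q : ℝ) • em α := by
  rw [em_mul]
  have : em (q : 𝓞 K) = (q : mixedSpace K) := by
    simp [em]
  rw [this, Nat.cast_smul_eq_nsmul, nsmul_eq_mul]

lemma GG_smul {s : ℝ} (hs : s ≠ 0) {c : ℝ} (hc : 0 < c) (x : mixedSpace K) :
    GG s (c • x) = c ^ (-(finrank ℚ K * s)) * GG s x := by
  unfold GG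
  rw [mixedEmbedding.norm_smul, abs_of_pos hc]
  by_cases h : mixedEmbedding.norm x = 0
  · rw [h, mul_zero, Real.zero_rpow (by simpa using hs)]
    ring
  · rw [logMap_real_smul h hc.ne', Real.mul_rpow (by positivity) (mixedEmbedding.norm_nonneg _),
      ← Real.rpow_natCast, ← Real.rpow_mul hc.le]
    ring_nf

/-- Comparison of a coset with the lattice. -/
theorem coset_bound (q : ℕ) (hq : q ≠ 0) (c : 𝓞 K) : ∃ b : 𝓞 K → ℝ, Summable b ∧
    ∀ s : ℝ, 1 ≤ s → s ≤ 2 → ∀ α : 𝓞 K,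
      |GG s (em (c + (q : 𝓞 K) * α)) - GG s (em ((q : 𝓞 K) * α))| ≤ b α := by
  classical
  obtain ⟨C, R, hC, hR, h⟩ := GG_lip K ‖em c‖ (norm_nonneg _)
  have hq0 : (0 : ℝ) < q := by positivity
  have hsum := summable_em K
  set n := finrank ℚ K with hn
  have hinj : Function.Injective fun α : 𝓞 K => (q : 𝓞 K) * α := by
    intro α β hαβ
    exact mul_left_cancel₀ (by exact_mod_cast hq) hαβ
  have hsumq : Summable fun α : 𝓞 K => (‖em ((q : 𝓞 K) * α)‖ ^ (n + 1))⁻¹ :=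
    hsum.comp_injective hinj
  -- finitely many small points
  have hfin : {α : 𝓞 K | ‖em ((q : 𝓞 K) * α)‖ < R + 1}.Finite := by
    have h1 : ∀ᶠ α : 𝓞 K in cofinite, (‖em ((q : 𝓞 K) * α)‖ ^ (n + 1))⁻¹ <
        ((R + 1) ^ (n + 1))⁻¹ :=
      hsumq.tendsto_cofinite_zero.eventually (gt_mem_nhds (by positivity))
    have h2 : ∀ᶠ α : 𝓞 K in cofinite, α ≠ 0 := by
      simpa using (Set.finite_singleton (0 : 𝓞 K)).compl_mem_cofinite
    have h3 : ∀ᶠ α : 𝓞 K in cofinite, ¬ (‖em ((q : 𝓞 K) * α)‖ < R + 1) := by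
      filter_upwards [h1, h2] with α h1 h2 h3
      have h4 : 0 < ‖em ((q : 𝓞 K) * α)‖ := by
        rw [norm_pos_iff]
        intro h5
        rw [← em_zero, em_inj] at h5
        rcases mul_eq_zero.mp h5 with h6 | h6
        · exact hq (by exact_mod_cast h6)
        · exact h2 h6
      have h7 := inv_anti₀ (by positivity : (0:ℝ) < ‖em ((q : 𝓞 K) * α)‖ ^ (n + 1))
        (pow_le_pow_left₀ h4.le h3.le (n + 1))
      exact absurd h1 (not_lt.mpr h7)
    rw [Filter.eventually_cofinite] at h3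
    simpa using h3
  refine ⟨fun α => C * (‖em ((q : 𝓞 K) * α)‖ ^ (n + 1))⁻¹ +
    Set.indicator {α : 𝓞 K | ‖em ((q : 𝓞 K) * α)‖ < R + 1} (fun _ => 1) α,
    (hsumq.mul_left C).add ?_, ?_⟩
  · exact summable_of_finite_support (hfin.subset (Function.support_subset_iff'.mpr fun α hα =>
      Set.indicator_of_notMem hα _))
  · intro s hs1 hs2 α
    simp only
    by_cases hα : ‖em ((q : 𝓞 K) * α)‖ < R + 1
    · rw [Set.indicator_of_mem (by exact hα)]
      have h1 := GG_em_le_one (K := K) (by linarith : (0:ℝ) < s) (c + (q : 𝓞 K) * α)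
      have h2 := GG_em_le_one (K := K) (by linarith : (0:ℝ) < s) ((q : 𝓞 K) * α)
      have h3 := GG_nonneg (K := K) s (em (c + (q : 𝓞 K) * α))
      have h4 := GG_nonneg (K := K) s (em ((q : 𝓞 K) * α))
      have h5 : 0 ≤ C * (‖em ((q : 𝓞 K) * α)‖ ^ (n + 1))⁻¹ := by positivity
      rw [abs_le]
      constructor <;> linarith
    · rw [Set.indicator_of_notMem (by exact hα), add_zero, em_add, add_comm (em c)]
      exact h s hs1 hs2 _ _ le_rfl (by linarith)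

/-- the character of a Dirichlet series over the ideals -/
noncomputable def hh {m : ℕ} (χ : DirichletCharacter ℂ m) (s : ℝ) (N : ℕ) : ℂ :=
  χ (N : ZMod m) * (((N : ℝ) ^ (-s) : ℝ) : ℂ)

lemma hh_zero {m : ℕ} (χ : DirichletCharacter ℂ m) {s : ℝ} (hs : s ≠ 0) : hh χ s 0 = 0 := by
  unfold hh
  rw [Nat.cast_zero (R := ℝ), Real.zero_rpow (by simpa using hs)]
  simp

lemma norm_hh_le {m : ℕ} (χ : DirichletCharacter ℂ m) (s : ℝ) (N : ℕ) :
    ‖hh χ s N‖ ≤ (N : ℝ) ^ (-s) := by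
  unfold hh
  rw [norm_mul, Complex.norm_real, Real.norm_of_nonneg (Real.rpow_nonneg (Nat.cast_nonneg _) _)]
  exact mul_le_of_le_one_left (Real.rpow_nonneg (Nat.cast_nonneg _) _) (χ.norm_le_one _)

lemma sum_ideals_le {s : ℝ} (hs : 1 < s) (u : Finset (Ideal (𝓞 K))⁰) :
    ∑ 𝔞 ∈ u, ((Ideal.absNorm (𝔞 : Ideal (𝓞 K)) : ℝ) ^ (-s)) ≤ Ded.Z K s := by
  classical
  obtain ⟨N, hN⟩ : ∃ N : ℕ, ∀ 𝔞 ∈ u, Ideal.absNorm (𝔞 : Ideal (𝓞 K)) ≤ N :=
    ⟨u.sup fun 𝔞 => Ideal.absNorm (𝔞 : Ideal (𝓞 K)), fun 𝔞 h𝔞 =>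
      Finset.le_sup (f := fun 𝔞 : (Ideal (𝓞 K))⁰ => Ideal.absNorm (𝔞 : Ideal (𝓞 K))) h𝔞⟩
  refine le_trans ?_ (Ded.sum_JJ_le_Z K hs N)
  have hmap := Finset.sum_map u (Function.Embedding.subtype _)
    (fun I : Ideal (𝓞 K) => Ded.f K s I)
  refine le_trans (le_of_eq hmap.symm) ?_
  refine Finset.sum_le_sum_of_subset_of_nonneg ?_ fun I _ _ => Ded.f_nonneg K s I
  intro I hI
  rw [Finset.mem_map] at hI
  obtain ⟨𝔞, h𝔞, rfl⟩ := hI
  rw [Ded.mem_JJ]
  exact ⟨hN 𝔞 h𝔞, nonZeroDivisors.coe_ne_zero 𝔞⟩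

lemma summable_ideals {s : ℝ} (hs : 1 < s) :
    Summable fun 𝔞 : (Ideal (𝓞 K))⁰ => ((Ideal.absNorm (𝔞 : Ideal (𝓞 K)) : ℝ) ^ (-s)) :=
  summable_of_sum_le (fun _ => Real.rpow_nonneg (Nat.cast_nonneg _) _) (sum_ideals_le hs)

lemma summable_hh {m : ℕ} (χ : DirichletCharacter ℂ m) {s : ℝ} (hs : 1 < s) :
    Summable fun 𝔞 : (Ideal (𝓞 K))⁰ => ‖hh χ s (Ideal.absNorm (𝔞 : Ideal (𝓞 K)))‖ :=
  Summable.of_nonneg_of_le (fun _ => norm_nonneg _) (fun _ => norm_hh_le χ s _)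
    (summable_ideals hs)

/-- the Dirichlet series `∑ χ(N 𝔞) N 𝔞^(-s)` over the nonzero ideals -/
noncomputable def LK (K : Type*) [Field K] [NumberField K] {m : ℕ} (χ : DirichletCharacter ℂ m)
    (s : ℝ) : ℂ :=
  ∑' 𝔞 : (Ideal (𝓞 K))⁰, hh χ s (Ideal.absNorm (𝔞 : Ideal (𝓞 K)))

/-- the coefficient of a lattice point -/
noncomputable def ph {m : ℕ} (χ : DirichletCharacter ℂ m) (C : ClassGroup (𝓞 K)) (α : 𝓞 K) : ℂ := by
  classical
  exact if α ∈ (JC C : Ideal (𝓞 K)) then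
    χ ((an α / Ideal.absNorm (JC C : Ideal (𝓞 K)) : ℕ) : ZMod m) else 0

lemma absNorm_JC_pos (C : ClassGroup (𝓞 K)) : 0 < Ideal.absNorm (JC C : Ideal (𝓞 K)) := by
  refine Nat.pos_of_ne_zero ?_
  rw [Ne, Ideal.absNorm_eq_zero_iff]
  exact nonZeroDivisors.coe_ne_zero _

lemma absNorm_dvd_an {J : Ideal (𝓞 K)} {α : 𝓞 K} (h : α ∈ J) : Ideal.absNorm J ∣ an α := by
  rw [an_eq]
  exact Ideal.absNorm_dvd_absNorm_of_le ((Ideal.span_singleton_le_iff_mem _).mpr h)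

lemma FF_hh {m : ℕ} (χ : DirichletCharacter ℂ m) {s : ℝ} (C : ClassGroup (𝓞 K))
    (α : 𝓞 K) : FF (hh χ s) (C, α) =
      (((Ideal.absNorm (JC C : Ideal (𝓞 K)) : ℝ) ^ s : ℝ) : ℂ) * (ph χ C α * (GG s (em α) : ℂ)) := by
  classical
  unfold FF ph
  simp only
  split_ifs with h
  · have hd := absNorm_dvd_an h
    have hp := absNorm_JC_pos C
    have h1 : (((an α / Ideal.absNorm (JC C : Ideal (𝓞 K)) : ℕ) : ℝ)) =
        (an α : ℝ) / Ideal.absNorm (JC C : Ideal (𝓞 K)) :=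
      Nat.cast_div hd (by exact_mod_cast hp.ne')
    have h2 : ((an α : ℝ) / Ideal.absNorm (JC C : Ideal (𝓞 K))) ^ (-s) =
        (Ideal.absNorm (JC C : Ideal (𝓞 K)) : ℝ) ^ s * (an α : ℝ) ^ (-s) := by
      rw [Real.div_rpow (Nat.cast_nonneg _) (Nat.cast_nonneg _), Real.rpow_neg (Nat.cast_nonneg
        (Ideal.absNorm (JC C : Ideal (𝓞 K)))), div_inv_eq_mul, mul_comm]
    unfold hh GG
    rw [h1, h2, norm_em]
    push_cast
    ring
  · simp

/-- The Dirichlet series as a sum over classes and lattice points. -/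
theorem hasSum_classes {m : ℕ} (χ : DirichletCharacter ℂ m) {s : ℝ} (hs : 1 < s) :
    HasSum (fun a : ClassGroup (𝓞 K) × 𝓞 K =>
      (((Ideal.absNorm (JC a.1 : Ideal (𝓞 K)) : ℝ) ^ s : ℝ) : ℂ) *
        (ph χ a.1 a.2 * (GG s (em a.2) : ℂ)))
      ((torsionOrder K : ℂ) * LK K χ s) := by
  have h := unfold (K := K) (hh χ s) (hh_zero χ (by linarith)) (summable_hh χ hs)
  have h1 : (FF (hh χ s) : ClassGroup (𝓞 K) × 𝓞 K → ℂ) = fun a =>
      (((Ideal.absNorm (JC a.1 : Ideal (𝓞 K)) : ℝ) ^ s : ℝ) : ℂ) *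
        (ph χ a.1 a.2 * (GG s (em a.2) : ℂ)) := by
    funext a
    exact FF_hh χ a.1 a.2
  rw [h1] at h
  exact h

lemma summable_GG {s : ℝ} (hs : 1 < s) : Summable fun α : 𝓞 K => GG s (em α) := by
  classical
  have h := (hasSum_classes (K := K) (1 : DirichletCharacter ℂ 1) hs).summable
  set C : ClassGroup (𝓞 K) := 1
  set q : ℕ := Ideal.absNorm (JC C : Ideal (𝓞 K)) with hq
  have hqpos : 0 < q := absNorm_JC_pos C
  have hq0 : (0 : ℝ) < q := by exact_mod_cast hqpos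
  have hinj : Function.Injective fun α : 𝓞 K => (C, (q : 𝓞 K) * α) := by
    intro α β hαβ
    simp only [Prod.mk.injEq, true_and] at hαβ
    exact mul_left_cancel₀ (by exact_mod_cast hqpos.ne') hαβ
  have h1 := h.comp_injective hinj
  have h2 : ∀ α : 𝓞 K, ph (1 : DirichletCharacter ℂ 1) C ((q : 𝓞 K) * α) = 1 := by
    intro α
    have hmem : (q : 𝓞 K) * α ∈ (JC C : Ideal (𝓞 K)) :=
      Ideal.mul_mem_right _ _ (Ideal.absNorm_mem _)
    unfold ph
    rw [if_pos hmem]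
    exact MulChar.one_apply (isUnit_of_subsingleton _)
  have h3 : (fun α : 𝓞 K => GG s (em α)) = fun α : 𝓞 K =>
      ((q : ℝ) ^ s)⁻¹ * ((q : ℝ) ^ (-(finrank ℚ K * s)))⁻¹ *
      ((((fun a : ClassGroup (𝓞 K) × 𝓞 K =>
      (((Ideal.absNorm (JC a.1 : Ideal (𝓞 K)) : ℝ) ^ s : ℝ) : ℂ) *
        (ph (1 : DirichletCharacter ℂ 1) a.1 a.2 * (GG s (em a.2) : ℂ))) ∘
        fun α : 𝓞 K => (C, (q : 𝓞 K) * α)) α).re) := by
    funext α
    simp only [Function.comp_apply, h2, one_mul]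
    rw [em_natCast_mul, GG_smul (by linarith) hq0, ← hq, ← Complex.ofReal_mul, Complex.ofReal_re]
    have h4 : (q : ℝ) ^ s ≠ 0 := (Real.rpow_pos_of_pos hq0 _).ne'
    have h5 : (q : ℝ) ^ (-(finrank ℚ K * s)) ≠ 0 := (Real.rpow_pos_of_pos hq0 _).ne'
    field_simp
  rw [h3]
  exact ((Complex.hasSum_re h1.hasSum).summable).mul_left _

end TatePole.AT
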