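import Mathlib
import Pool.Agent.Lib.MP_058a58_ag.TraceMean

open Polynomial Filter Topology NumberField Set

namespace TatePole.AT

section
variable (m : ℕ) [NeZero m]

lemma exists_zt : ∃ ζ : QBar, IsPrimitiveRoot ζ m := by
  have : NeZero (m : QBar) := ⟨by exact_mod_cast NeZero.ne m⟩
  exact HasEnoughRootsOfUnity.exists_primitiveRoot QBar m

/-- a primitive `m`-th root of unity -/
noncomputable def zt : QBar := (exists_zt m).choose

lemma zt_spec : IsPrimitiveRoot (zt m) m := (exists_zt m).choose_spec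

/-- the cyclotomic character modulo `m` -/
noncomputable def cyc : GQ →* (ZMod m)ˣ := (zt_spec m).autToPow ℚ

variable {m}

lemma cyc_spec (g : GQ) : g (zt m) = (zt m) ^ (cyc m g : ZMod m).val :=
  ((zt_spec m).autToPow_spec ℚ g).symm

lemma prim_mod {ζ : QBar} (h : IsPrimitiveRoot ζ m) {a b : ℕ} (hab : ζ ^ a = ζ ^ b) :
    a ≡ b [MOD m] := by
  have h1 : ∀ c : ℕ, ζ ^ c = ζ ^ (c % m) := fun c => by
    conv_lhs => rw [← Nat.div_add_mod c m, pow_add, pow_mul, h.pow_eq_one, one_pow, one_mul]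
  rw [h1 a, h1 b] at hab
  exact h.pow_inj (Nat.mod_lt _ (NeZero.pos m)) (Nat.mod_lt _ (NeZero.pos m)) hab

lemma cyc_eq_one {g : GQ} (h : g (zt m) = zt m) : cyc m g = 1 := by
  have h1 := cyc_spec (m := m) g
  rw [h] at h1
  have h2 : (zt m) ^ 1 = (zt m) ^ (cyc m g : ZMod m).val := by rw [pow_one]; exact h1
  have h3 := prim_mod (zt_spec m) h2
  have h4 : ((1 : ℕ) : ZMod m) = (((cyc m g : ZMod m).val : ℕ) : ZMod m) := by
    rw [ZMod.natCast_eq_natCast_iff]; exact h3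
  rw [ZMod.natCast_zmod_val, Nat.cast_one] at h4
  exact Units.ext h4.symm

lemma isIntegral_zt : IsIntegral ℤ (zt m) := (zt_spec m).isIntegral (NeZero.pos m)

/-- Frobenius elements act on roots of unity as they should. -/
lemma cyc_frob {p : ℕ} (hp : p.Prime) (hpm : ¬ p ∣ m) {𝔓 : Ideal ZBar} (h𝔓 : 𝔓.IsPrime)
    (hp𝔓 : (p : ZBar) ∈ 𝔓) {g : GQ} (hg : IsArithFrob p 𝔓 g) : (cyc m g : ZMod m) = p := by
  by_contra hne
  set ζ := zt m with hζ
  have hprim := zt_spec m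
  let z : ZBar := ⟨ζ, isIntegral_zt⟩
  have hzm : z ^ m = 1 := Subtype.ext (by
    push_cast
    exact hprim.pow_eq_one)
  set a := (cyc m g : ZMod m).val with ha
  obtain ⟨y, hy, hgy⟩ := hg z
  have h1 : y = z ^ a - z ^ p := by
    apply Subtype.ext
    push_cast
    have h2 : g ζ = ζ ^ a := cyc_spec g
    have h3 : g ζ = ζ ^ p + (y : QBar) := hgy
    rw [h2] at h3
    change (y : QBar) = ζ ^ a - ζ ^ p
    rw [h3]; ring
  -- key: a nontrivial difference of powers in `𝔓` gives `m ∈ 𝔓`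
  have key : ∀ i j : ℕ, j ≤ i → ζ ^ i ≠ ζ ^ j → z ^ i - z ^ j ∈ 𝔓 → (m : ZBar) ∈ 𝔓 := by
    intro i j hij hne hmem
    obtain ⟨k, rfl⟩ := Nat.exists_eq_add_of_le hij
    have h2 : z ^ (j + k) - z ^ j = z ^ j * (z ^ k - 1) := by ring
    have hunit : IsUnit z := IsUnit.of_pow_eq_one hzm (NeZero.ne m)
    have h3 : z ^ k - 1 ∈ 𝔓 := by
      rw [h2] at hmem
      rcases h𝔓.mem_or_mem hmem with h4 | h4
      · exact (h𝔓.ne_top (Ideal.eq_top_of_isUnit_mem _ h4 (hunit.pow j))).elim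
      · exact h4
    have hk1 : z ^ k ≠ 1 := by
      intro h
      apply hne
      have h5 := congrArg (Subtype.val) h
      push_cast at h5
      rw [pow_add]
      have h6 : ζ ^ k = 1 := h5
      rw [h6, mul_one]
    have h7 : ∑ i ∈ Finset.range m, (z ^ k) ^ i = 0 := by
      have h8 := mul_geom_sum (z ^ k) m
      have h9 : (z ^ k) ^ m - 1 = 0 := by rw [← pow_mul, mul_comm, pow_mul, hzm, one_pow, sub_self]
      rw [h9] at h8
      rcases mul_eq_zero.mp h8 with h10 | h10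
      · exact (hk1 (sub_eq_zero.mp h10)).elim
      · exact h10
    have h11 : ∑ i ∈ Finset.range m, ((z ^ k) ^ i - 1) ∈ 𝔓 := by
      refine Ideal.sum_mem _ fun i _ => ?_
      obtain ⟨c, hc⟩ : z ^ k - 1 ∣ (z ^ k) ^ i - 1 := by
        have := sub_dvd_pow_sub_pow (z ^ k) 1 i
        rwa [one_pow] at this
      rw [hc]
      exact Ideal.mul_mem_right _ _ h3
    rw [Finset.sum_sub_distrib, h7, Finset.sum_const, Finset.card_range, nsmul_eq_mul, mul_one,
      zero_sub] at h11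
    exact neg_mem_iff.mp h11
  have hne' : ζ ^ a ≠ ζ ^ p := by
    intro h
    have h2 := prim_mod hprim h
    apply hne
    have h3 : ((a : ℕ) : ZMod m) = ((p : ℕ) : ZMod m) := by
      rw [ZMod.natCast_eq_natCast_iff]; exact h2
    rwa [ha, ZMod.natCast_zmod_val] at h3
  have hm𝔓 : (m : ZBar) ∈ 𝔓 := by
    rcases le_total p a with h | h
    · exact key a p h hne' (h1 ▸ hy)
    · refine key p a h hne'.symm ?_
      have : z ^ p - z ^ a = -y := by rw [h1]; ring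
      rw [this]
      exact neg_mem hy
  have hcop : Nat.Coprime p m := (Nat.Prime.coprime_iff_not_dvd hp).mpr hpm
  obtain ⟨u, v, huv⟩ := (Nat.isCoprime_iff_coprime.mpr hcop)
  have h12 : (1 : ZBar) ∈ 𝔓 := by
    have h13 : (1 : ZBar) = (u : ZBar) * (p : ZBar) + (v : ZBar) * (m : ZBar) := by
      have := congrArg (fun t : ℤ => (t : ZBar)) huv
      push_cast at this
      exact this.symm
    rw [h13]
    exact Ideal.add_mem _ (Ideal.mul_mem_left _ _ hp𝔓) (Ideal.mul_mem_left _ _ hm𝔓)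
  exact h𝔓.ne_top ((Ideal.eq_top_iff_one _).mpr h12)

lemma cyc_frobSys {σ : ℕ → GQ} (hσ : FrobSys σ) {p : ℕ} (hp : p.Prime) (hpm : ¬ p ∣ m) :
    (cyc m (σ p) : ZMod m) = p := by
  obtain ⟨𝔓, h𝔓, hp𝔓, hf⟩ := hσ p hp
  exact cyc_frob hp hpm h𝔓 hp𝔓 hf

end

/-- mean of a function on `GQ` that depends only on the cyclic group generated by `g` in a finite
quotient, up to conjugation. -/
lemma GQ_mean (N : Subgroup GQ) [N.Normal] {M : IntermediateField ℚ QBar}
    [FiniteDimensional ℚ M] (hN : N = M.fixingSubgroup) (F : GQ → ℝ)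
    (hF : ∀ g h : GQ, (g : GQ ⧸ N) = h → F g = F h)
    (hconj : ∀ g x : GQ, F (x * g * x⁻¹) = F g)
    (hgen : ∀ g h : GQ, Subgroup.zpowers (g : GQ ⧸ N) = Subgroup.zpowers (h : GQ ⧸ N) → F g = F h)
    {σ : ℕ → GQ} (hσ : FrobSys σ) :
    HasMean (fun p => F (σ p)) (gavg fun γ : GQ ⧸ N => F γ.out) := by
  have hmk : ∀ g : GQ, F ((g : GQ ⧸ N).out) = F g := fun g => hF _ _ (QuotientGroup.out_eq' _)
  have h := classFun_mean N hN (fun γ : GQ ⧸ N => F γ.out) ?_ ?_ hσ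
  · have hfun : (fun p => F (σ p)) = fun p => F ((σ p : GQ ⧸ N).out) := by
      funext p; rw [hmk]
    rw [hfun]
    exact h
  · intro γ ξ
    obtain ⟨g, rfl⟩ := QuotientGroup.mk_surjective γ
    obtain ⟨x, rfl⟩ := QuotientGroup.mk_surjective ξ
    rw [← QuotientGroup.mk_inv, ← QuotientGroup.mk_mul, ← QuotientGroup.mk_mul, hmk, hmk, hconj]
  · intro γ δ hγδ
    obtain ⟨g, rfl⟩ := QuotientGroup.mk_surjective γ
    obtain ⟨h, rfl⟩ := QuotientGroup.mk_surjective δ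
    rw [hmk, hmk]
    exact hgen g h hγδ

section
variable (K : Type*) [Field K] [NumberField K]

open scoped Classical in
/-- fixed embeddings counted on a set of Galois elements -/
noncomputable def FP (P : GQ → Prop) (g : GQ) : ℝ := (fixCount K g : ℝ) * (if P g then 1 else 0)

lemma FP_nonneg (P : GQ → Prop) (g : GQ) : 0 ≤ FP K P g := by
  unfold FP
  split_ifs
  · simp
  · simp

lemma FP_le (P : GQ → Prop) (g : GQ) : FP K P g ≤ Nat.card (K →ₐ[ℚ] QBar) := by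
  unfold FP
  have h1 : (fixCount K g : ℝ) ≤ Nat.card (K →ₐ[ℚ] QBar) := by exact_mod_cast fixCount_le K g
  split_ifs
  · rwa [mul_one]
  · rw [mul_zero]; exact Nat.cast_nonneg _

lemma bdd_FP (P : GQ → Prop) (σ : ℕ → GQ) : BddPrimes (fun p => FP K P (σ p)) :=
  ⟨Nat.card (K →ₐ[ℚ] QBar), fun p _ => by
    simp only
    rw [abs_of_nonneg (FP_nonneg K P _)]
    exact FP_le K P _⟩

section
variable {K}
variable {N : Subgroup GQ} [N.Normal]
    (hsplit : ∀ g ∈ N, ∀ φ : K →ₐ[ℚ] QBar, g • φ = φ) {P : GQ → Prop}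
    (hPgen : ∀ (a b : GQ) (i j : ℕ), (a : GQ ⧸ N) ^ j = b → (b : GQ ⧸ N) ^ i = a → P a → P b)

include hsplit in
lemma fix_pow (a b : GQ) (j : ℕ) (hab : (a : GQ ⧸ N) ^ j = b) (φ : K →ₐ[ℚ] QBar)
    (hφ : a • φ = φ) : b • φ = φ := by
  have h1 : ((a ^ j : GQ) : GQ ⧸ N) = b := by rw [QuotientGroup.mk_pow, hab]
  have h2 : (a ^ j)⁻¹ * b ∈ N := QuotientGroup.eq.mp h1
  have h3 : b = a ^ j * ((a ^ j)⁻¹ * b) := by group
  rw [h3, mul_smul, hsplit _ h2]
  clear h3 h2 h1 hab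
  induction j with
  | zero => simp
  | succ n ih => rw [pow_succ, mul_smul, hφ, ih]

include hsplit hPgen in
lemma FP_gen (hfin : Finite (GQ ⧸ N)) (g h : GQ)
    (hgh : Subgroup.zpowers (g : GQ ⧸ N) = Subgroup.zpowers (h : GQ ⧸ N)) :
    FP K P g = FP K P h := by
  have hmem : (h : GQ ⧸ N) ∈ Subgroup.zpowers (g : GQ ⧸ N) := by
    rw [hgh]; exact Subgroup.mem_zpowers _
  have hmem' : (g : GQ ⧸ N) ∈ Subgroup.zpowers (h : GQ ⧸ N) := by
    rw [← hgh]; exact Subgroup.mem_zpowers _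
  obtain ⟨j, hj⟩ := (mem_powers_iff_mem_zpowers.mpr hmem)
  obtain ⟨i, hi⟩ := (mem_powers_iff_mem_zpowers.mpr hmem')
  have h1 : fixCount K g = fixCount K h :=
    fixCount_congr fun φ => ⟨fix_pow hsplit g h j hj φ, fix_pow hsplit h g i hi φ⟩
  have h2 : P g ↔ P h := ⟨hPgen g h i j hj hi, hPgen h g j i hi hj⟩
  unfold FP
  rw [h1]
  by_cases h3 : P g
  · rw [if_pos h3, if_pos (h2.mp h3)]
  · rw [if_neg h3, if_neg (fun h => h3 (h2.mpr h))]

include hsplit hPgen in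
lemma FP_out (hfin : Finite (GQ ⧸ N)) (g : GQ) :
    FP K P ((g : GQ ⧸ N).out) = FP K P g :=
  FP_gen hsplit hPgen hfin _ _ (by rw [QuotientGroup.out_eq'])

include hsplit hPgen in
/-- mean of `FP` -/
lemma FP_mean {M : IntermediateField ℚ QBar}
    [FiniteDimensional ℚ M] (hN : N = M.fixingSubgroup)
    (hPconj : ∀ g x : GQ, P (x * g * x⁻¹) ↔ P g) {σ : ℕ → GQ} (hσ : FrobSys σ) :
    HasMean (fun p => FP K P (σ p)) (gavg fun γ : GQ ⧸ N => FP K P γ.out) := by
  have hfin : Finite (GQ ⧸ N) := finite_quot N hN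
  refine GQ_mean N hN (FP K P) ?_ ?_ (FP_gen hsplit hPgen hfin) hσ
  · intro g h hgh
    exact FP_gen hsplit hPgen hfin g h (by rw [hgh])
  · intro g x
    unfold FP
    rw [fixCount_conj]
    by_cases h3 : P g
    · rw [if_pos h3, if_pos ((hPconj g x).mpr h3)]
    · rw [if_neg h3, if_neg (fun h => h3 ((hPconj g x).mp h))]

end

end

end TatePole.AT
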