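import Mathlib
import Pool.Agent.Lib.MP_058a58_ag.AT.Coset
import Pool.Agent.Lib.MP_058a58_ag.Dedekind2

open NumberField NumberField.Units NumberField.mixedEmbedding NumberField.Units.dirichletUnitTheorem
open NumberField.InfinitePlace Module Filter Topology
open scoped nonZeroDivisors

namespace TatePole.AT

variable {K : Type*} [Field K] [NumberField K]

lemma norm_rat_nonneg [IsTotallyComplex K] (x : K) : 0 ≤ Algebra.norm ℚ x := by
  classical
  have h1 : ((Algebra.norm ℚ x : ℚ) : ℂ) = ∏ φ : K →+* ℂ, φ x := by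
    have h := Algebra.norm_eq_prod_embeddings ℚ ℂ x
    rw [eq_ratCast] at h
    rw [h]
    exact (Fintype.prod_equiv (RingHom.equivRatAlgHom K ℂ) (fun f => f x)
      (fun φ => φ x) fun _ => by simp [RingHom.equivRatAlgHom_apply]).symm
  have h2 : ∏ φ : K →+* ℂ, φ x = ∏ w : InfinitePlace K, (((w x) ^ 2 : ℝ) : ℂ) := by
    rw [← Finset.prod_fiberwise Finset.univ InfinitePlace.mk (fun φ : K →+* ℂ => φ x)]
    refine Finset.prod_congr rfl fun w _ => ?_
    have h3 : (Finset.univ.filter fun φ : K →+* ℂ => InfinitePlace.mk φ = w) =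
        {w.embedding, ComplexEmbedding.conjugate w.embedding} := by
      ext φ
      simp only [Finset.mem_filter, Finset.mem_univ, true_and, Finset.mem_insert,
        Finset.mem_singleton]
      constructor
      · intro h
        have h4 : InfinitePlace.mk w.embedding = InfinitePlace.mk φ := by rw [mk_embedding, h]
        rcases mk_eq_iff.mp h4 with h5 | h5
        · exact Or.inl h5.symm
        · exact Or.inr h5.symm
      · rintro (h | h)
        · rw [h, mk_embedding]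
        · rw [h, mk_conjugate_eq, mk_embedding]
    have h6 : w.embedding ≠ ComplexEmbedding.conjugate w.embedding := by
      intro h
      exact IsTotallyComplex.complexEmbedding_not_isReal w.embedding h.symm
    rw [h3, Finset.prod_pair h6, ComplexEmbedding.conjugate_coe_eq, Complex.mul_conj,
      Complex.normSq_eq_norm_sq, norm_embedding_eq]
  rw [h2, ← Complex.ofReal_prod, ← Complex.ofReal_ratCast, Complex.ofReal_inj] at h1
  have h3 : (0 : ℝ) ≤ ((Algebra.norm ℚ x : ℚ) : ℝ) := by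
    rw [h1]; positivity
  exact_mod_cast h3

lemma an_cast [IsTotallyComplex K] (α : 𝓞 K) : (an α : ℤ) = Algebra.norm ℤ α := by
  unfold an
  refine Int.natAbs_of_nonneg ?_
  have h1 := norm_rat_nonneg (α : K)
  rw [← Algebra.coe_norm_int] at h1
  exact_mod_cast h1

lemma norm_add_mul (M : ℕ) (α β : 𝓞 K) :
    ((Algebra.norm ℤ (α + (M : 𝓞 K) * β) : ℤ) : ZMod M) = ((Algebra.norm ℤ α : ℤ) : ZMod M) := by
  classical
  rw [Algebra.norm_eq_matrix_det (RingOfIntegers.basis K),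
    Algebra.norm_eq_matrix_det (RingOfIntegers.basis K)]
  have h1 : ∀ A : Matrix (Module.Free.ChooseBasisIndex ℤ (𝓞 K))
      (Module.Free.ChooseBasisIndex ℤ (𝓞 K)) ℤ, ((A.det : ℤ) : ZMod M) =
      (A.map (Int.castRingHom (ZMod M))).det := fun A => by
    rw [← RingHom.mapMatrix_apply, ← RingHom.map_det]; rfl
  rw [h1, h1]
  congr 1
  rw [map_add, map_mul]
  have h2 : Algebra.leftMulMatrix (RingOfIntegers.basis K) ((M : ℕ) : 𝓞 K) = (M : Matrix _ _ ℤ) :=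
    map_natCast _ M
  rw [h2]
  ext i j
  have h3 : ((M : Matrix (Module.Free.ChooseBasisIndex ℤ (𝓞 K))
      (Module.Free.ChooseBasisIndex ℤ (𝓞 K)) ℤ) *
      Algebra.leftMulMatrix (RingOfIntegers.basis K) β) i j =
      (M : ℤ) * Algebra.leftMulMatrix (RingOfIntegers.basis K) β i j := by
    rw [← nsmul_eq_mul, Matrix.smul_apply, nsmul_eq_mul]
  rw [Matrix.map_apply, Matrix.map_apply, Matrix.add_apply, h3, map_add, map_mul]
  simp

lemma an_add_mul [IsTotallyComplex K] (M : ℕ) (α β : 𝓞 K) :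
    an (α + (M : 𝓞 K) * β) ≡ an α [MOD M] := by
  rw [← ZMod.natCast_eq_natCast_iff]
  have h := norm_add_mul M α β
  rw [← an_cast, ← an_cast] at h
  exact_mod_cast h

lemma ph_periodic [IsTotallyComplex K] {m : ℕ} (χ : DirichletCharacter ℂ m)
    (C : ClassGroup (𝓞 K)) {q : ℕ} (hq : m * Ideal.absNorm (JC C : Ideal (𝓞 K)) ∣ q) (α β : 𝓞 K) :
    ph χ C (α + (q : 𝓞 K) * β) = ph χ C α := by
  classical
  set N := Ideal.absNorm (JC C : Ideal (𝓞 K)) with hN
  have hNpos : 0 < N := absNorm_JC_pos C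
  have hmem : (q : 𝓞 K) * β ∈ (JC C : Ideal (𝓞 K)) := by
    obtain ⟨k, hk⟩ := hq
    rw [hk]
    have h1 : ((m * N * k : ℕ) : 𝓞 K) * β = (N : 𝓞 K) * ((m : 𝓞 K) * (k : 𝓞 K) * β) := by
      push_cast; ring
    rw [h1]
    exact Ideal.mul_mem_right _ _ (Ideal.absNorm_mem _)
  unfold ph
  by_cases h : α ∈ (JC C : Ideal (𝓞 K))
  · have h' : α + (q : 𝓞 K) * β ∈ (JC C : Ideal (𝓞 K)) := Ideal.add_mem _ h hmem
    rw [if_pos h, if_pos h', ← hN]
    congr 1
    rw [ZMod.natCast_eq_natCast_iff]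
    obtain ⟨a, ha⟩ := absNorm_dvd_an h
    obtain ⟨b, hb⟩ := absNorm_dvd_an h'
    rw [← hN] at ha hb
    have h2 : an (α + (q : 𝓞 K) * β) ≡ an α [MOD m * N] := (an_add_mul q α β).of_dvd hq
    rw [ha, hb, mul_comm m N] at h2
    rw [ha, hb, Nat.mul_div_cancel_left _ hNpos, Nat.mul_div_cancel_left _ hNpos]
    exact Nat.ModEq.mul_left_cancel' hNpos.ne' h2
  · have h' : α + (q : 𝓞 K) * β ∉ (JC C : Ideal (𝓞 K)) := fun h1 =>
      h (by simpa using Ideal.sub_mem _ h1 hmem)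
    rw [if_neg h, if_neg h']

lemma norm_ph_le {m : ℕ} (χ : DirichletCharacter ℂ m) (C : ClassGroup (𝓞 K)) (α : 𝓞 K) :
    ‖ph χ C α‖ ≤ 1 := by
  classical
  unfold ph
  split_ifs
  · exact χ.norm_le_one _
  · simp

/-- the comparison function -/
noncomputable def ZZ (K : Type*) [Field K] [NumberField K] (s : ℝ) : ℝ := ∑' α : 𝓞 K, GG s (em α)

lemma ZZ_nonneg (s : ℝ) : 0 ≤ ZZ K s := tsum_nonneg fun _ => GG_nonneg _ _

/-- splitting `𝓞 K` into cosets of `q 𝓞 K` -/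
noncomputable def cosetEquiv (K : Type*) [Field K] [NumberField K] (q : ℕ) (hq : q ≠ 0) :
    (𝓞 K ⧸ Ideal.span {(q : 𝓞 K)}) × 𝓞 K ≃ 𝓞 K :=
  Equiv.ofBijective (fun a => Quotient.out a.1 + (q : 𝓞 K) * a.2) <| by
    have hmk : ∀ c : 𝓞 K ⧸ Ideal.span {(q : 𝓞 K)},
        Ideal.Quotient.mk (Ideal.span {(q : 𝓞 K)}) (Quotient.out c) = c := fun c => by
      exact Quotient.out_eq c
    have hq0 : ∀ β : 𝓞 K, Ideal.Quotient.mk (Ideal.span {(q : 𝓞 K)}) ((q : 𝓞 K) * β) = 0 :=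
      fun β => Ideal.Quotient.eq_zero_iff_mem.mpr
        (Ideal.mul_mem_right _ _ (Ideal.mem_span_singleton_self _))
    constructor
    · rintro ⟨c, α⟩ ⟨d, β⟩ h
      simp only at h
      have h1 := congrArg (Ideal.Quotient.mk (Ideal.span {(q : 𝓞 K)})) h
      rw [map_add, map_add, hq0, hq0, add_zero, add_zero, hmk, hmk] at h1
      subst h1
      have h2 := mul_left_cancel₀ (by exact_mod_cast hq) (add_left_cancel h)
      rw [h2]
    · intro α
      set c := Ideal.Quotient.mk (Ideal.span {(q : 𝓞 K)}) α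
      have h1 : α - Quotient.out c ∈ Ideal.span {(q : 𝓞 K)} := by
        rw [← Ideal.Quotient.eq_zero_iff_mem, map_sub, hmk, sub_self]
      rw [Ideal.mem_span_singleton] at h1
      obtain ⟨β, hβ⟩ := h1
      exact ⟨(c, β), by simp only; rw [← hβ]; ring⟩

/-- Comparison of a periodic lattice sum with `ZZ`. -/
theorem periodic_sum (q : ℕ) (hq : q ≠ 0) (φ : 𝓞 K → ℂ) (hφ : ∀ α, ‖φ α‖ ≤ 1)
    (hper : ∀ α β, φ (α + (q : 𝓞 K) * β) = φ α) :
    ∃ B : ℝ, ∀ s : ℝ, 1 < s → s ≤ 2 →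
      ‖∑' α : 𝓞 K, φ α * (GG s (em α) : ℂ) -
        (∑ᶠ c : 𝓞 K ⧸ Ideal.span {(q : 𝓞 K)}, φ (Quotient.out c)) *
          (((q : ℝ) ^ (-(finrank ℚ K * s)) * ZZ K s : ℝ) : ℂ)‖ ≤ B := by
  classical
  have hqne : Ideal.span {(q : 𝓞 K)} ≠ ⊥ := by
    rw [Ne, Ideal.span_singleton_eq_bot]
    exact_mod_cast hq
  have hfin : Finite (𝓞 K ⧸ Ideal.span {(q : 𝓞 K)}) := Ideal.finiteQuotientOfFreeOfNeBot _ hqne
  have : Fintype (𝓞 K ⧸ Ideal.span {(q : 𝓞 K)}) := Fintype.ofFinite _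
  choose b hb hbb using fun c : 𝓞 K ⧸ Ideal.span {(q : 𝓞 K)} =>
    coset_bound (K := K) q hq (Quotient.out c)
  refine ⟨∑ c, ∑' α, b c α, ?_⟩
  intro s hs1 hs2
  have hq0 : (0 : ℝ) < q := by positivity
  have hG := summable_GG (K := K) hs1
  -- the sum over `q 𝓞 K`
  have hinj : Function.Injective fun α : 𝓞 K => (q : 𝓞 K) * α := by
    intro α β hαβ
    exact mul_left_cancel₀ (by exact_mod_cast hq) hαβ
  have hGq : Summable fun α : 𝓞 K => GG s (em ((q : 𝓞 K) * α)) := hG.comp_injective hinj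
  have hZq : ∑' α : 𝓞 K, GG s (em ((q : 𝓞 K) * α)) = (q : ℝ) ^ (-(finrank ℚ K * s)) * ZZ K s := by
    rw [ZZ, ← tsum_mul_left]
    refine tsum_congr fun α => ?_
    rw [em_natCast_mul, GG_smul (by linarith) hq0]
  -- the sum over a coset
  have hcos : ∀ c : 𝓞 K ⧸ Ideal.span {(q : 𝓞 K)},
      Summable fun α : 𝓞 K => GG s (em (Quotient.out c + (q : 𝓞 K) * α)) := by
    intro c
    refine hG.comp_injective (i := fun α : 𝓞 K => Quotient.out c + (q : 𝓞 K) * α) ?_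
    intro α β hαβ
    exact hinj (add_left_cancel hαβ)
  have hdiff : ∀ c : 𝓞 K ⧸ Ideal.span {(q : 𝓞 K)},
      |∑' α : 𝓞 K, GG s (em (Quotient.out c + (q : 𝓞 K) * α)) -
        (q : ℝ) ^ (-(finrank ℚ K * s)) * ZZ K s| ≤ ∑' α, b c α := by
    intro c
    rw [← hZq, ← (hcos c).tsum_sub hGq]
    have h1 : Summable fun α : 𝓞 K => GG s (em (Quotient.out c + (q : 𝓞 K) * α)) -
      GG s (em ((q : 𝓞 K) * α)) := (hcos c).sub hGq
    rw [← Real.norm_eq_abs]
    refine tsum_of_norm_bounded (hb c).hasSum fun α => ?_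
    rw [Real.norm_eq_abs]
    exact hbb c s hs1.le hs2 α
  -- the total sum
  have hsum : Summable fun α : 𝓞 K => φ α * (GG s (em α) : ℂ) := by
    refine Summable.of_norm (Summable.of_nonneg_of_le (fun _ => norm_nonneg _) (fun α => ?_) hG)
    rw [norm_mul, Complex.norm_real, Real.norm_of_nonneg (GG_nonneg _ _)]
    exact mul_le_of_le_one_left (GG_nonneg _ _) (hφ α)
  have htot : ∑' α : 𝓞 K, φ α * (GG s (em α) : ℂ) =
      ∑ c : 𝓞 K ⧸ Ideal.span {(q : 𝓞 K)}, φ (Quotient.out c) *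
        ((∑' α : 𝓞 K, GG s (em (Quotient.out c + (q : 𝓞 K) * α)) : ℝ) : ℂ) := by
    rw [← (cosetEquiv K q hq).tsum_eq]
    have h1 : ∀ a : (𝓞 K ⧸ Ideal.span {(q : 𝓞 K)}) × 𝓞 K,
        φ (cosetEquiv K q hq a) * (GG s (em (cosetEquiv K q hq a)) : ℂ) =
        φ (Quotient.out a.1) * (GG s (em (Quotient.out a.1 + (q : 𝓞 K) * a.2)) : ℂ) := by
      intro a
      simp only [cosetEquiv, Equiv.ofBijective_apply, hper]
    have h2 : Summable fun a : (𝓞 K ⧸ Ideal.span {(q : 𝓞 K)}) × 𝓞 K =>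
        φ (cosetEquiv K q hq a) * (GG s (em (cosetEquiv K q hq a)) : ℂ) :=
      (cosetEquiv K q hq).summable_iff.mpr hsum
    rw [h2.tsum_prod, tsum_fintype]
    refine Finset.sum_congr rfl fun c _ => ?_
    rw [Complex.ofReal_tsum, ← tsum_mul_left]
    exact tsum_congr fun α => h1 (c, α)
  rw [htot, finsum_eq_sum_of_fintype, Finset.sum_mul, ← Finset.sum_sub_distrib]
  refine (norm_sum_le _ _).trans (Finset.sum_le_sum fun c _ => ?_)
  rw [← mul_sub, norm_mul, ← Complex.ofReal_sub, Complex.norm_real, Real.norm_eq_abs]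
  exact (mul_le_of_le_one_left (abs_nonneg _) (hφ _)).trans (hdiff c)

/-- the coefficient of a class -/
noncomputable def AC {m : ℕ} (χ : DirichletCharacter ℂ m) (q : ℕ) (C : ClassGroup (𝓞 K)) : ℂ :=
  ∑ᶠ c : 𝓞 K ⧸ Ideal.span {(q : 𝓞 K)}, ph χ C (Quotient.out c)

/-- the base of a class -/
noncomputable def ac (q : ℕ) (C : ClassGroup (𝓞 K)) : ℝ :=
  (Ideal.absNorm (JC C : Ideal (𝓞 K)) : ℝ) / (q : ℝ) ^ finrank ℚ K

/-- the modulus -/
noncomputable def qq (K : Type*) [Field K] [NumberField K] (m : ℕ) : ℕ :=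
  m * ∏ C : ClassGroup (𝓞 K), Ideal.absNorm (JC C : Ideal (𝓞 K))

lemma qq_ne_zero (m : ℕ) [NeZero m] : qq K m ≠ 0 :=
  mul_ne_zero (NeZero.ne m) (Finset.prod_ne_zero_iff.mpr fun C _ => (absNorm_JC_pos C).ne')

lemma dvd_qq (m : ℕ) (C : ClassGroup (𝓞 K)) :
    m * Ideal.absNorm (JC C : Ideal (𝓞 K)) ∣ qq K m :=
  mul_dvd_mul_left m (Finset.dvd_prod_of_mem _ (Finset.mem_univ C))

/-- `w L_K(s, χ) = κ(s) Z(s) + O(1)`. -/
theorem LK_eq [IsTotallyComplex K] {m : ℕ} [NeZero m] (χ : DirichletCharacter ℂ m) :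
    ∃ B : ℝ, ∀ s : ℝ, 1 < s → s ≤ 2 →
      ‖(torsionOrder K : ℂ) * LK K χ s -
        (∑ C : ClassGroup (𝓞 K), AC χ (qq K m) C * ((ac (qq K m) C ^ s : ℝ) : ℂ)) *
          (ZZ K s : ℂ)‖ ≤ B := by
  classical
  set q := qq K m with hq
  have hq0 : q ≠ 0 := qq_ne_zero m
  have hqpos : (0 : ℝ) < q := by positivity
  choose B hB using fun C : ClassGroup (𝓞 K) => periodic_sum (K := K) q hq0 (ph χ C)
    (norm_ph_le χ C) (ph_periodic χ C (dvd_qq m C))
  set N : ClassGroup (𝓞 K) → ℝ := fun C => (Ideal.absNorm (JC C : Ideal (𝓞 K)) : ℝ) with hN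
  have hN1 : ∀ C, 1 ≤ N C := fun C => by
    simp only [hN]
    exact_mod_cast absNorm_JC_pos C
  refine ⟨∑ C, N C ^ (2 : ℝ) * B C, fun s hs1 hs2 => ?_⟩
  have h1 := hasSum_classes (K := K) χ hs1
  have h2 : (torsionOrder K : ℂ) * LK K χ s = ∑ C : ClassGroup (𝓞 K), ((N C ^ s : ℝ) : ℂ) *
      ∑' α : 𝓞 K, ph χ C α * (GG s (em α) : ℂ) := by
    rw [← h1.tsum_eq, h1.summable.tsum_prod, tsum_fintype]
    refine Finset.sum_congr rfl fun C _ => ?_
    simp only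
    rw [tsum_mul_left]
  have h3 : ∀ C : ClassGroup (𝓞 K), ((ac q C ^ s : ℝ)) =
      N C ^ s * (q : ℝ) ^ (-(finrank ℚ K * s)) := by
    intro C
    unfold ac
    rw [Real.div_rpow (by positivity) (by positivity), ← Real.rpow_natCast, ← Real.rpow_mul
      hqpos.le, Real.rpow_neg hqpos.le, div_eq_mul_inv]
  rw [h2, Finset.sum_mul, ← Finset.sum_sub_distrib]
  refine (norm_sum_le _ _).trans (Finset.sum_le_sum fun C _ => ?_)
  have h4 : ((N C ^ s : ℝ) : ℂ) * ∑' α : 𝓞 K, ph χ C α * (GG s (em α) : ℂ) -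
      AC χ q C * ((ac q C ^ s : ℝ) : ℂ) * (ZZ K s : ℂ) =
      ((N C ^ s : ℝ) : ℂ) * (∑' α : 𝓞 K, ph χ C α * (GG s (em α) : ℂ) - AC χ q C *
        (((q : ℝ) ^ (-(finrank ℚ K * s)) * ZZ K s : ℝ) : ℂ)) := by
    rw [h3]; push_cast; ring
  rw [h4, norm_mul, Complex.norm_real, Real.norm_of_nonneg (Real.rpow_nonneg (by
    linarith [hN1 C]) _)]
  exact mul_le_mul (Real.rpow_le_rpow_of_exponent_le (hN1 C) hs2) (hB C s hs1 hs2)
    (norm_nonneg _) (Real.rpow_nonneg (by linarith [hN1 C]) _)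

end TatePole.AT
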