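import Mathlib
import Pool.Agent.Lib.MP_058a58_ag.AT.Dich

open NumberField NumberField.Units NumberField.mixedEmbedding NumberField.Units.dirichletUnitTheorem
open NumberField.InfinitePlace Module Filter Topology
open scoped nonZeroDivisors

namespace TatePole.AT

variable {K : Type*} [Field K] [NumberField K]

lemma tendsto_Z (K : Type*) [Field K] [NumberField K] :
    Tendsto (fun x : ℝ => (x - 1) * Ded.Z K x) (𝓝[>] 1)
      (𝓝 (NumberField.dedekindZeta_residue K)) := by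
  have hres := NumberField.tendsto_sub_one_mul_dedekindZeta_nhdsGT K
  have h2 : Tendsto (fun x : ℝ => (((x - 1) * Ded.Z K x : ℝ) : ℂ)) (𝓝[>] 1)
      (𝓝 ((NumberField.dedekindZeta_residue K : ℝ) : ℂ)) := by
    refine hres.congr' ?_
    filter_upwards [self_mem_nhdsWithin] with x hx
    have hx' : (1 : ℝ) < x := hx
    rw [Ded.dedekindZeta_eq K (by linarith : x ≠ 0)]
    push_cast
    rfl
  exact (Complex.continuous_re.tendsto _).comp h2

/-- the real zeta function as a sum over ideals -/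
noncomputable def zr (K : Type*) [Field K] [NumberField K] (s : ℝ) : ℝ :=
  ∑' 𝔞 : (Ideal (𝓞 K))⁰, ((Ideal.absNorm (𝔞 : Ideal (𝓞 K)) : ℝ) ^ (-s))

lemma zr_eq {s : ℝ} (hs : 1 < s) : zr K s = Ded.Z K s := by
  refine le_antisymm ?_ ?_
  · exact (summable_ideals hs).tsum_le_of_sum_le (sum_ideals_le hs)
  · refine le_of_tendsto' (Ded.tendsto_sum_JJ K hs) fun N => ?_
    classical
    have h1 : ∀ I ∈ Ded.JJ K N, I ∈ (Ideal (𝓞 K))⁰ := fun I hI =>
      mem_nonZeroDivisors_of_ne_zero ((Ded.mem_JJ K).mp hI).2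
    have h2 : ∑ I ∈ Ded.JJ K N, Ded.f K s I =
        ∑ 𝔞 ∈ (Ded.JJ K N).subtype (fun I => I ∈ (Ideal (𝓞 K))⁰),
          ((Ideal.absNorm (𝔞 : Ideal (𝓞 K)) : ℝ) ^ (-s)) := by
      rw [← Finset.sum_subtype_of_mem (fun I => Ded.f K s I) h1]
      rfl
    rw [h2]
    exact (summable_ideals hs).sum_le_tsum _ fun _ _ => Real.rpow_nonneg (Nat.cast_nonneg _) _

lemma LK_one (s : ℝ) : LK K (1 : DirichletCharacter ℂ 1) s = ((zr K s : ℝ) : ℂ) := by
  unfold LK zr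
  rw [Complex.ofReal_tsum]
  refine tsum_congr fun 𝔞 => ?_
  unfold hh
  rw [MulChar.one_apply (isUnit_of_subsingleton _), one_mul]

lemma AC_one (q : ℕ) (hq : q ≠ 0) (C : ClassGroup (𝓞 K))
    (hd : Ideal.absNorm (JC C : Ideal (𝓞 K)) ∣ q) :
    ∃ n : ℕ, 1 ≤ n ∧ AC (1 : DirichletCharacter ℂ 1) q C = n := by
  classical
  have hqne : Ideal.span {(q : 𝓞 K)} ≠ ⊥ := by
    rw [Ne, Ideal.span_singleton_eq_bot]
    exact_mod_cast hq
  have hfin : Finite (𝓞 K ⧸ Ideal.span {(q : 𝓞 K)}) := Ideal.finiteQuotientOfFreeOfNeBot _ hqne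
  have : Fintype (𝓞 K ⧸ Ideal.span {(q : 𝓞 K)}) := Fintype.ofFinite _
  refine ⟨(Finset.univ.filter fun c : 𝓞 K ⧸ Ideal.span {(q : 𝓞 K)} =>
    Quotient.out c ∈ (JC C : Ideal (𝓞 K))).card, ?_, ?_⟩
  · rw [Nat.one_le_iff_ne_zero, ← Nat.pos_iff_ne_zero, Finset.card_pos]
    refine ⟨0, ?_⟩
    rw [Finset.mem_filter]
    refine ⟨Finset.mem_univ _, ?_⟩
    have h1 : Quotient.out (0 : 𝓞 K ⧸ Ideal.span {(q : 𝓞 K)}) ∈ Ideal.span {(q : 𝓞 K)} := by
      rw [← Ideal.Quotient.eq_zero_iff_mem]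
      exact Quotient.out_eq (0 : 𝓞 K ⧸ Ideal.span {(q : 𝓞 K)})
    have h2 : Ideal.span {(q : 𝓞 K)} ≤ (JC C : Ideal (𝓞 K)) := by
      rw [Ideal.span_singleton_le_iff_mem]
      obtain ⟨k, hk⟩ := hd
      rw [hk, Nat.cast_mul]
      exact Ideal.mul_mem_right _ _ (Ideal.absNorm_mem _)
    exact h2 h1
  · unfold AC
    rw [finsum_eq_sum_of_fintype, Finset.card_filter]
    push_cast
    refine Finset.sum_congr rfl fun c _ => ?_
    unfold ph
    split_ifs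
    · exact MulChar.one_apply (isUnit_of_subsingleton _)
    · rfl

/-- `ZZ` has exact order `1/(s-1)`. -/
theorem ZZ_bounds (K : Type*) [Field K] [NumberField K] [IsTotallyComplex K] :
    ∃ c C : ℝ, 0 < c ∧ 0 < C ∧ ∀ᶠ s in 𝓝[>] (1:ℝ), c ≤ (s - 1) * ZZ K s ∧
      (s - 1) * ZZ K s ≤ C := by
  classical
  obtain ⟨B, hB⟩ := LK_eq (K := K) (1 : DirichletCharacter ℂ 1)
  set q := qq K 1 with hq
  have hq0 : q ≠ 0 := qq_ne_zero 1
  have hqpos : (0 : ℝ) < q := by positivity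
  have hd : ∀ C : ClassGroup (𝓞 K), Ideal.absNorm (JC C : Ideal (𝓞 K)) ∣ q := fun C => by
    have := dvd_qq (K := K) 1 C
    rwa [one_mul] at this
  choose n hn hAC using fun C : ClassGroup (𝓞 K) => AC_one q hq0 C (hd C)
  have hac : ∀ C : ClassGroup (𝓞 K), 0 < ac q C := fun C => by
    unfold ac
    have := absNorm_JC_pos C
    positivity
  set k : ℝ → ℝ := fun s => ∑ C : ClassGroup (𝓞 K), (n C : ℝ) * ac q C ^ s with hk
  set k1 : ℝ := ∑ C : ClassGroup (𝓞 K), min (ac q C ^ (1:ℝ)) (ac q C ^ (2:ℝ)) with hk1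
  set k2 : ℝ := ∑ C : ClassGroup (𝓞 K), (n C : ℝ) * max (ac q C ^ (1:ℝ)) (ac q C ^ (2:ℝ)) with hk2
  have hmono : ∀ C : ClassGroup (𝓞 K), ∀ s : ℝ, 1 ≤ s → s ≤ 2 →
      min (ac q C ^ (1:ℝ)) (ac q C ^ (2:ℝ)) ≤ ac q C ^ s ∧
      ac q C ^ s ≤ max (ac q C ^ (1:ℝ)) (ac q C ^ (2:ℝ)) := by
    intro C s hs1 hs2
    rcases le_total 1 (ac q C) with h | h
    · exact ⟨(min_le_left _ _).trans (Real.rpow_le_rpow_of_exponent_le h hs1),
        (Real.rpow_le_rpow_of_exponent_le h hs2).trans (le_max_right _ _)⟩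
    · exact ⟨(min_le_right _ _).trans (Real.rpow_le_rpow_of_exponent_ge (hac C) h hs2),
        (Real.rpow_le_rpow_of_exponent_ge (hac C) h hs1).trans (le_max_left _ _)⟩
  have hk1pos : 0 < k1 := Finset.sum_pos (fun C _ => lt_min
    (Real.rpow_pos_of_pos (hac C) _) (Real.rpow_pos_of_pos (hac C) _)) Finset.univ_nonempty
  have hkle : ∀ s : ℝ, 1 ≤ s → s ≤ 2 → k1 ≤ k s ∧ k s ≤ k2 := by
    intro s hs1 hs2
    constructor
    · refine Finset.sum_le_sum fun C _ => ?_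
      refine (hmono C s hs1 hs2).1.trans ?_
      refine le_mul_of_one_le_left (Real.rpow_pos_of_pos (hac C) _).le ?_
      exact_mod_cast hn C
    · exact Finset.sum_le_sum fun C _ =>
        mul_le_mul_of_nonneg_left (hmono C s hs1 hs2).2 (Nat.cast_nonneg _)
  have hk2pos : 0 < k2 := hk1pos.trans_le ((hkle 1 le_rfl (by norm_num)).1.trans
    (hkle 1 le_rfl (by norm_num)).2)
  have hmain : ∀ s : ℝ, 1 < s → s ≤ 2 → |(torsionOrder K : ℝ) * zr K s - k s * ZZ K s| ≤ B := by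
    intro s hs1 hs2
    have h := hB s hs1 hs2
    rw [LK_one] at h
    have h1 : (torsionOrder K : ℂ) * ((zr K s : ℝ) : ℂ) -
        (∑ C : ClassGroup (𝓞 K), AC (1 : DirichletCharacter ℂ 1) q C *
          ((ac q C ^ s : ℝ) : ℂ)) * (ZZ K s : ℂ) =
        (((torsionOrder K : ℝ) * zr K s - k s * ZZ K s : ℝ) : ℂ) := by
      simp only [hk, hAC]
      push_cast
      ring
    rw [h1, Complex.norm_real, Real.norm_eq_abs] at h
    exact h
  have hB0 : 0 ≤ B := (abs_nonneg _).trans (hmain 2 (by norm_num) le_rfl)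
  have hw : (0 : ℝ) < torsionOrder K := by
    have : torsionOrder K ≠ 0 := NeZero.ne _
    positivity
  have hρ := NumberField.dedekindZeta_residue_pos K
  set ρ := NumberField.dedekindZeta_residue K with hρdef
  have hlim := tendsto_Z K
  have h1 : ∀ᶠ s in 𝓝[>] (1:ℝ), ρ / 2 < (s - 1) * Ded.Z K s :=
    hlim.eventually (lt_mem_nhds (by linarith))
  have h2 : ∀ᶠ s in 𝓝[>] (1:ℝ), (s - 1) * Ded.Z K s < 2 * ρ :=
    hlim.eventually (gt_mem_nhds (by linarith))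
  set w : ℝ := (torsionOrder K : ℝ) with hwdef
  have h3 : ∀ᶠ s in 𝓝[>] (1:ℝ), s < min 2 (1 + w * ρ / (4 * (B + 1))) := by
    refine (tendsto_id.mono_left nhdsWithin_le_nhds).eventually (gt_mem_nhds ?_)
    have h30 : 0 < w * ρ / (4 * (B + 1)) := by positivity
    exact lt_min (by norm_num) (by linarith)
  refine ⟨w * ρ / 4 / k2, (2 * w * ρ + B) / k1, by positivity, by positivity, ?_⟩
  filter_upwards [h1, h2, h3, self_mem_nhdsWithin] with s h1 h2 h3 hs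
  have hs1 : (1:ℝ) < s := hs
  have hs2 : s ≤ 2 := (h3.trans_le (min_le_left _ _)).le
  have hs3 : s < 1 + w * ρ / (4 * (B + 1)) := h3.trans_le (min_le_right _ _)
  have hs4 : (s - 1) * B ≤ w * ρ / 4 := by
    have h5 : (s - 1) * (4 * (B + 1)) ≤ w * ρ := by
      rw [← le_div_iff₀ (by positivity)]; linarith
    nlinarith
  have h4 := abs_le.mp (hmain s hs1 hs2)
  rw [zr_eq hs1] at h4
  have h5 := hkle s hs1.le hs2
  have h6 := ZZ_nonneg (K := K) s
  have h7 : 0 < s - 1 := by linarith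
  constructor
  · rw [div_le_iff₀ hk2pos]
    have h8 : w * Ded.Z K s - B ≤ k s * ZZ K s := by linarith [h4.2]
    have h9 : (s - 1) * (w * Ded.Z K s - B) ≤ (s - 1) * (k s * ZZ K s) :=
      mul_le_mul_of_nonneg_left h8 h7.le
    have h10 : (s - 1) * (k s * ZZ K s) ≤ (s - 1) * ZZ K s * k2 := by
      have : k s * ZZ K s ≤ k2 * ZZ K s := mul_le_mul_of_nonneg_right h5.2 h6
      nlinarith
    have h11 : w * ρ / 2 ≤ w * ((s - 1) * Ded.Z K s) := by
      have := mul_le_mul_of_nonneg_left h1.le hw.le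
      linarith
    nlinarith
  · rw [le_div_iff₀ hk1pos]
    have h8 : k s * ZZ K s ≤ w * Ded.Z K s + B := by linarith [h4.1]
    have h9 : (s - 1) * (k s * ZZ K s) ≤ (s - 1) * (w * Ded.Z K s + B) :=
      mul_le_mul_of_nonneg_left h8 h7.le
    have h10 : (s - 1) * ZZ K s * k1 ≤ (s - 1) * (k s * ZZ K s) := by
      have : k1 * ZZ K s ≤ k s * ZZ K s := mul_le_mul_of_nonneg_right h5.1 h6
      nlinarith
    have h11 : w * ((s - 1) * Ded.Z K s) ≤ 2 * w * ρ := by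
      have := mul_le_mul_of_nonneg_left h2.le hw.le
      linarith
    have h12 : (s - 1) * B ≤ B := by
      have : s - 1 ≤ 1 := by linarith
      nlinarith
    nlinarith

lemma rpow_lip (a : ℝ) (ha : 0 < a) : ∃ L : ℝ, 0 ≤ L ∧ ∀ s : ℝ, 1 ≤ s → s ≤ 2 →
    |a ^ s - a| ≤ L * (s - 1) := by
  refine ⟨|Real.log a| * Real.exp (2 * |Real.log a|), by positivity, fun s hs1 hs2 => ?_⟩
  have h1 : a ^ s = Real.exp (s * Real.log a) := by
    rw [Real.rpow_def_of_pos ha, mul_comm]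
  have h2 : a = Real.exp (Real.log a) := (Real.exp_log ha).symm
  have h3 : ∀ t : ℝ, 0 ≤ t → t ≤ 2 →
      Real.exp (t * Real.log a) ≤ Real.exp (2 * |Real.log a|) := by
    intro t ht0 ht2
    refine Real.exp_le_exp.mpr ?_
    calc t * Real.log a ≤ t * |Real.log a| := mul_le_mul_of_nonneg_left (le_abs_self _) ht0
      _ ≤ 2 * |Real.log a| := mul_le_mul_of_nonneg_right ht2 (abs_nonneg _)
  have h4 := abs_exp_sub_exp_le (s * Real.log a) (1 * Real.log a) _ (h3 s (by linarith) hs2)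
    (h3 1 (by norm_num) (by norm_num))
  rw [one_mul, ← h2, ← h1] at h4
  refine h4.trans (le_of_eq ?_)
  have h5 : s * Real.log a - Real.log a = Real.log a * (s - 1) := by ring
  rw [h5, abs_mul, abs_of_nonneg (by linarith : (0:ℝ) ≤ s - 1)]
  ring

/-- Either `L_K(s, χ)` is bounded near `1`, or it is at least of the order `1/(s-1)`. -/
theorem dichotomy (K : Type*) [Field K] [NumberField K] [IsTotallyComplex K] {m : ℕ} [NeZero m]
    (χ : DirichletCharacter ℂ m) :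
    (∃ C : ℝ, ∀ᶠ s in 𝓝[>] (1:ℝ), ‖LK K χ s‖ ≤ C) ∨
    (∃ c : ℝ, 0 < c ∧ ∀ᶠ s in 𝓝[>] (1:ℝ), c / (s - 1) ≤ ‖LK K χ s‖) := by
  classical
  obtain ⟨B, hB⟩ := LK_eq (K := K) χ
  obtain ⟨c, C, hc, hC, hZ⟩ := ZZ_bounds K
  set q := qq K m with hq
  have hq0 : q ≠ 0 := qq_ne_zero m
  have hqpos : (0 : ℝ) < q := by positivity
  have hac : ∀ C : ClassGroup (𝓞 K), 0 < ac q C := fun C => by
    unfold ac
    have := absNorm_JC_pos C
    positivity
  set κ : ℝ → ℂ := fun s => ∑ C : ClassGroup (𝓞 K), AC χ q C * ((ac q C ^ s : ℝ) : ℂ) with hκ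
  set κ1 : ℂ := ∑ C : ClassGroup (𝓞 K), AC χ q C * ((ac q C : ℝ) : ℂ) with hκ1
  choose L hL0 hL using fun C : ClassGroup (𝓞 K) => rpow_lip (ac q C) (hac C)
  set Λ : ℝ := ∑ C : ClassGroup (𝓞 K), ‖AC χ q C‖ * L C with hΛ
  have hΛ0 : 0 ≤ Λ := Finset.sum_nonneg fun C _ => mul_nonneg (norm_nonneg _) (hL0 C)
  have hdiff : ∀ s : ℝ, 1 ≤ s → s ≤ 2 → ‖κ s - κ1‖ ≤ Λ * (s - 1) := by
    intro s hs1 hs2
    simp only [hκ, hκ1, hΛ]
    rw [← Finset.sum_sub_distrib, Finset.sum_mul]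
    refine (norm_sum_le _ _).trans (Finset.sum_le_sum fun C _ => ?_)
    rw [← mul_sub, norm_mul, ← Complex.ofReal_sub, Complex.norm_real, Real.norm_eq_abs, mul_assoc]
    exact mul_le_mul_of_nonneg_left (hL C s hs1 hs2) (norm_nonneg _)
  have hw : (0 : ℝ) < torsionOrder K := by
    have : torsionOrder K ≠ 0 := NeZero.ne _
    positivity
  set w : ℝ := (torsionOrder K : ℝ) with hwdef
  have h2 : ∀ᶠ s in 𝓝[>] (1:ℝ), s < 2 :=
    (tendsto_id.mono_left nhdsWithin_le_nhds).eventually (gt_mem_nhds (by norm_num))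
  -- `w L = κ1 Z + O(1)`
  have hmain : ∀ᶠ s in 𝓝[>] (1:ℝ),
      ‖(torsionOrder K : ℂ) * LK K χ s - κ1 * (ZZ K s : ℂ)‖ ≤ B + Λ * C := by
    filter_upwards [hZ, h2, self_mem_nhdsWithin] with s hZ hs2 hs
    have hs1 : (1:ℝ) < s := hs
    have h3 := hB s hs1 hs2.le
    have h4 : (torsionOrder K : ℂ) * LK K χ s - κ1 * (ZZ K s : ℂ) =
        ((torsionOrder K : ℂ) * LK K χ s - κ s * (ZZ K s : ℂ)) + (κ s - κ1) * (ZZ K s : ℂ) := by
      ring
    rw [h4]
    refine (norm_add_le _ _).trans (add_le_add h3 ?_)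
    rw [norm_mul, Complex.norm_real, Real.norm_of_nonneg (ZZ_nonneg s)]
    refine (mul_le_mul_of_nonneg_right (hdiff s hs1.le hs2.le) (ZZ_nonneg s)).trans ?_
    rw [mul_assoc]
    exact mul_le_mul_of_nonneg_left hZ.2 hΛ0
  have hwn : ∀ z : ℂ, ‖(torsionOrder K : ℂ) * z‖ = w * ‖z‖ := fun z => by
    rw [norm_mul, Complex.norm_natCast]
  by_cases hκ0 : κ1 = 0
  · left
    refine ⟨(B + Λ * C) / w, ?_⟩
    filter_upwards [hmain] with s hs
    rw [hκ0, zero_mul, sub_zero, hwn] at hs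
    rw [le_div_iff₀ hw]
    linarith
  · right
    have hκpos : 0 < ‖κ1‖ := norm_pos_iff.mpr hκ0
    set D : ℝ := B + Λ * C with hD
    have h3 : ∀ᶠ s in 𝓝[>] (1:ℝ), s < 1 + ‖κ1‖ * c / (2 * (|D| + 1)) := by
      refine (tendsto_id.mono_left nhdsWithin_le_nhds).eventually (gt_mem_nhds ?_)
      have : 0 < ‖κ1‖ * c / (2 * (|D| + 1)) := by positivity
      linarith
    refine ⟨‖κ1‖ * c / (2 * w), by positivity, ?_⟩
    filter_upwards [hmain, hZ, h3, self_mem_nhdsWithin] with s hs hZ h3 hs'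
    have hs1 : (1:ℝ) < s := hs'
    have h7 : 0 < s - 1 := by linarith
    have h4 : ‖κ1 * (ZZ K s : ℂ)‖ ≤ ‖(torsionOrder K : ℂ) * LK K χ s‖ + D := by
      have h5 := norm_sub_norm_le (κ1 * (ZZ K s : ℂ)) ((torsionOrder K : ℂ) * LK K χ s)
      rw [norm_sub_rev] at h5
      linarith
    rw [hwn, norm_mul, Complex.norm_real, Real.norm_of_nonneg (ZZ_nonneg s)] at h4
    rw [div_le_iff₀ h7]
    have h5 : (s - 1) * |D| ≤ ‖κ1‖ * c / 2 := by
      have h6 : (s - 1) * (2 * (|D| + 1)) ≤ ‖κ1‖ * c := by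
        rw [← le_div_iff₀ (by positivity)]; linarith
      nlinarith
    have h6 : (s - 1) * D ≤ (s - 1) * |D| := mul_le_mul_of_nonneg_left (le_abs_self _) h7.le
    have h8 : (s - 1) * (‖κ1‖ * ZZ K s) ≤ (s - 1) * (w * ‖LK K χ s‖ + D) :=
      mul_le_mul_of_nonneg_left h4 h7.le
    have h9 : ‖κ1‖ * c ≤ ‖κ1‖ * ((s - 1) * ZZ K s) :=
      mul_le_mul_of_nonneg_left hZ.1 hκpos.le
    have h10 : ‖κ1‖ * c / 2 ≤ (s - 1) * (w * ‖LK K χ s‖) := by nlinarith
    have h11 : ‖κ1‖ * c / (2 * w) = (‖κ1‖ * c / 2) / w := by field_simp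
    rw [h11, div_le_iff₀ hw]
    linarith

end TatePole.AT
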