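import Mathlib
import Pool.Agent.Lib.MP_058a58_ag.AT.Coset
import Pool.Agent.Lib.MP_058a58_ag.Dedekind2
import Pool.Agent.Lib.MP_058a58_ag.Pack
import Pool.Agent.Lib.MP_058a58_ag.Bessel

open NumberField Module Filter Topology
open scoped nonZeroDivisors

namespace TatePole.AT

variable {K : Type*} [Field K] [NumberField K] {m : ℕ}

lemma hh_mul (χ : DirichletCharacter ℂ m) (s : ℝ) (a b : ℕ) :
    hh χ s (a * b) = hh χ s a * hh χ s b := by
  unfold hh
  rw [Nat.cast_mul, map_mul, Nat.cast_mul, Real.mul_rpow (Nat.cast_nonneg _) (Nat.cast_nonneg _)]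
  push_cast
  ring

lemma hh_one (χ : DirichletCharacter ℂ m) (s : ℝ) : hh χ s 1 = 1 := by
  unfold hh
  simp

/-- the coefficient of an ideal -/
noncomputable def gi (χ : DirichletCharacter ℂ m) (s : ℝ) (I : Ideal (𝓞 K)) : ℂ :=
  hh χ s (Ideal.absNorm I)

lemma gi_mul (χ : DirichletCharacter ℂ m) (s : ℝ) (I J : Ideal (𝓞 K)) :
    gi χ s (I * J) = gi χ s I * gi χ s J := by
  unfold gi
  rw [map_mul, hh_mul]

lemma norm_gi_le (χ : DirichletCharacter ℂ m) (s : ℝ) (I : Ideal (𝓞 K)) :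
    ‖gi χ s I‖ ≤ Ded.f K s I := norm_hh_le χ s _

lemma gi_not_mem (χ : DirichletCharacter ℂ m) {s : ℝ} (hs : 1 < s) (I : Ideal (𝓞 K))
    (hI : I ∉ Set.range (Subtype.val : (Ideal (𝓞 K))⁰ → Ideal (𝓞 K))) : gi χ s I = 0 := by
  have h1 : I = ⊥ := by
    by_contra h
    exact hI ⟨⟨I, mem_nonZeroDivisors_of_ne_zero h⟩, rfl⟩
  rw [h1, gi, Ideal.absNorm_bot, hh_zero χ (by linarith)]

lemma summable_gi (χ : DirichletCharacter ℂ m) {s : ℝ} (hs : 1 < s) :
    Summable fun I : Ideal (𝓞 K) => ‖gi χ s I‖ := by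
  rw [← (Subtype.val_injective (p := fun I : Ideal (𝓞 K) => I ∈ (Ideal (𝓞 K))⁰)).summable_iff]
  · exact summable_hh χ hs
  · intro I hI
    rw [gi_not_mem χ hs I hI, norm_zero]

lemma tsum_gi (χ : DirichletCharacter ℂ m) {s : ℝ} (hs : 1 < s) :
    ∑' I : Ideal (𝓞 K), gi χ s I = LK K χ s := by
  unfold LK
  have h := (Subtype.val_injective (p := fun I : Ideal (𝓞 K) => I ∈ (Ideal (𝓞 K))⁰)).tsum_eq
    (f := fun I : Ideal (𝓞 K) => gi χ s I) (fun I hI => by
      by_contra h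
      exact hI (gi_not_mem χ hs I h))
  exact h.symm

open scoped Classical in
/-- the coefficients of the ideals prime to `T` -/
noncomputable def ft (χ : DirichletCharacter ℂ m) (s : ℝ) (T : Finset (Ideal (𝓞 K)))
    (I : Ideal (𝓞 K)) : ℂ :=
  if ∀ P ∈ T, ¬ P ∣ I then gi χ s I else 0

lemma norm_ft_le (χ : DirichletCharacter ℂ m) (s : ℝ) (T : Finset (Ideal (𝓞 K)))
    (I : Ideal (𝓞 K)) : ‖ft χ s T I‖ ≤ ‖gi χ s I‖ := by
  unfold ft
  split_ifs
  · exact le_rfl
  · simp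

lemma summable_ft (χ : DirichletCharacter ℂ m) {s : ℝ} (hs : 1 < s) (T : Finset (Ideal (𝓞 K))) :
    Summable fun I : Ideal (𝓞 K) => ft χ s T I :=
  Summable.of_norm (Summable.of_nonneg_of_le (fun _ => norm_nonneg _) (norm_ft_le χ s T)
    (summable_gi χ hs))

lemma ft_insert (χ : DirichletCharacter ℂ m) {s : ℝ} (hs : 1 < s) (T : Finset (Ideal (𝓞 K)))
    (hT : ∀ P ∈ T, P.IsPrime ∧ P ≠ ⊥) (P : Ideal (𝓞 K)) (hP : P.IsPrime) (hP0 : P ≠ ⊥)
    (hPT : P ∉ T) [DecidableEq (Ideal (𝓞 K))] :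
    ∑' I, ft χ s (insert P T) I = (1 - gi χ s P) * ∑' I, ft χ s T I := by
  classical
  have h1 : ∀ I, ft χ s (insert P T) I = ft χ s T I - (if P ∣ I then ft χ s T I else 0) := by
    intro I
    unfold ft
    by_cases h2 : P ∣ I
    · rw [if_neg (by simp [h2]), if_pos h2, sub_self]
    · rw [if_neg h2, sub_zero]
      simp [h2]
  have hprime : ∀ Q ∈ T, ∀ J : Ideal (𝓞 K), Q ∣ P * J ↔ Q ∣ J := by
    intro Q hQ J
    refine ⟨fun h => ?_, fun h => h.mul_left P⟩
    have hQp : Prime Q := Ideal.prime_of_isPrime (hT Q hQ).2 (hT Q hQ).1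
    rcases hQp.dvd_or_dvd h with h3 | h3
    · exfalso
      have hPp : Prime P := Ideal.prime_of_isPrime hP0 hP
      have h4 := hQp.associated_of_dvd hPp h3
      rw [associated_iff_eq] at h4
      exact hPT (h4 ▸ hQ)
    · exact h3
  have hinj : Function.Injective fun J : Ideal (𝓞 K) => P * J := fun I J h =>
    mul_left_cancel₀ hP0 h
  have h2 : ∑' I, (if P ∣ I then ft χ s T I else 0) = gi χ s P * ∑' I, ft χ s T I := by
    have h3 := hinj.tsum_eq (f := fun I => if P ∣ I then ft χ s T I else 0) (fun I hI => by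
      simp only [Function.mem_support, ne_eq, ite_eq_right_iff, Classical.not_imp] at hI
      obtain ⟨J, hJ⟩ := hI.1
      exact ⟨J, hJ.symm⟩)
    rw [← h3, ← tsum_mul_left]
    refine tsum_congr fun J => ?_
    rw [if_pos (Dvd.intro J rfl)]
    unfold ft
    have h4 : (∀ Q ∈ T, ¬ Q ∣ P * J) ↔ (∀ Q ∈ T, ¬ Q ∣ J) := by
      constructor
      · intro h Q hQ h5
        exact h Q hQ ((hprime Q hQ J).mpr h5)
      · intro h Q hQ h5
        exact h Q hQ ((hprime Q hQ J).mp h5)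
    by_cases h5 : ∀ Q ∈ T, ¬ Q ∣ J
    · rw [if_pos h5, if_pos (h4.mpr h5), gi_mul]
    · rw [if_neg h5, if_neg (fun h => h5 (h4.mp h)), mul_zero]
  have hs2 : Summable fun I => (if P ∣ I then ft χ s T I else 0) := by
    refine Summable.of_norm (Summable.of_nonneg_of_le (fun _ => norm_nonneg _) (fun I => ?_)
      (summable_gi χ hs))
    split_ifs
    · exact norm_ft_le χ s T I
    · simp
  simp only [h1]
  rw [(summable_ft χ hs T).tsum_sub hs2, h2]
  ring

lemma ft_prod (χ : DirichletCharacter ℂ m) {s : ℝ} (hs : 1 < s) (T : Finset (Ideal (𝓞 K)))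
    (hT : ∀ P ∈ T, P.IsPrime ∧ P ≠ ⊥) :
    ∑' I, ft χ s T I = (∏ P ∈ T, (1 - gi χ s P)) * LK K χ s := by
  classical
  induction T using Finset.induction_on with
  | empty =>
    rw [Finset.prod_empty, one_mul, ← tsum_gi χ hs]
    refine tsum_congr fun I => ?_
    unfold ft
    simp
  | insert P T hPT ih =>
    rw [ft_insert χ hs T (fun Q hQ => hT Q (Finset.mem_insert_of_mem hQ)) P
      (hT P (Finset.mem_insert_self _ _)).1 (hT P (Finset.mem_insert_self _ _)).2 hPT,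
      ih (fun Q hQ => hT Q (Finset.mem_insert_of_mem hQ)), Finset.prod_insert hPT, mul_assoc]

lemma tendsto_ft (χ : DirichletCharacter ℂ m) {s : ℝ} (hs : 1 < s) :
    Tendsto (fun N => ∑' I, ft χ s (Ded.TT K N) I) atTop (𝓝 1) := by
  classical
  have h1 : ∑' I : Ideal (𝓞 K), (if I = ⊤ then (1:ℂ) else 0) = 1 := tsum_ite_eq _ _
  rw [← h1]
  refine tendsto_tsum_of_dominated_convergence (summable_gi χ hs) (fun I => ?_)
    (Eventually.of_forall fun N I => norm_ft_le χ s _ I)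
  by_cases hI : I = ⊤
  · rw [if_pos hI]
    refine tendsto_const_nhds.congr fun N => ?_
    unfold ft
    rw [if_pos, gi, hI, Ideal.absNorm_top, hh_one]
    intro P hP h
    rw [Ded.mem_TT] at hP
    rw [hI, ← Ideal.one_eq_top] at h
    have := isUnit_of_dvd_one h
    rw [Ideal.isUnit_iff] at this
    exact hP.2.ne_top this
  · rw [if_neg hI]
    by_cases hb : I = ⊥
    · refine tendsto_const_nhds.congr fun N => ?_
      unfold ft
      split_ifs
      · rw [hb, gi, Ideal.absNorm_bot, hh_zero χ (by linarith)]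
      · rfl
    · obtain ⟨P, hPm, hIP⟩ := Ideal.exists_le_maximal I hI
      have hP0 : P ≠ ⊥ := by
        rintro rfl
        exact hb (le_bot_iff.mp hIP)
      refine tendsto_const_nhds.congr' ?_
      filter_upwards [eventually_ge_atTop (Ideal.absNorm P)] with N hN
      unfold ft
      rw [if_neg]
      intro h
      refine h P ?_ (Ideal.dvd_iff_le.mpr hIP)
      rw [Ded.mem_TT]
      exact ⟨⟨hN, hP0⟩, hPm.isPrime⟩

lemma log_norm_one_sub {z : ℂ} (hz : ‖z‖ ≤ 1 / 2) :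
    |Real.log ‖1 - z‖ + z.re| ≤ ‖z‖ ^ 2 := by
  have h1 : ‖-z‖ < 1 := by rw [norm_neg]; linarith
  have h2 := Complex.norm_log_one_add_sub_self_le h1
  rw [norm_neg, ← sub_eq_add_neg, sub_neg_eq_add] at h2
  have h3 : Real.log ‖1 - z‖ + z.re = (Complex.log (1 - z) + z).re := by
    rw [Complex.add_re, Complex.log_re]
  rw [h3]
  refine (Complex.abs_re_le_norm _).trans (h2.trans ?_)
  have h4 : (1 - ‖z‖)⁻¹ ≤ 2 := by
    rw [inv_le_comm₀ (by linarith) (by norm_num)]
    linarith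
  have h5 : 0 ≤ ‖z‖ ^ 2 := by positivity
  nlinarith

lemma two_le_absNorm {P : Ideal (𝓞 K)} (hP : P.IsPrime) (hP0 : P ≠ ⊥) : 2 ≤ Ideal.absNorm P := by
  have h0 : Ideal.absNorm P ≠ 0 := by rwa [Ne, Ideal.absNorm_eq_zero_iff]
  have h1 : Ideal.absNorm P ≠ 1 := by
    rw [Ne, Ideal.absNorm_eq_one_iff]
    exact hP.ne_top
  omega

lemma norm_gi_le_half (χ : DirichletCharacter ℂ m) {s : ℝ} (hs : 1 ≤ s) {P : Ideal (𝓞 K)}
    (hP : P.IsPrime) (hP0 : P ≠ ⊥) : ‖gi χ s P‖ ≤ 1 / 2 := by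
  have h2 : (2 : ℝ) ≤ Ideal.absNorm P := by exact_mod_cast two_le_absNorm hP hP0
  refine (norm_gi_le χ s P).trans ?_
  unfold Ded.f
  calc (Ideal.absNorm P : ℝ) ^ (-s) ≤ (Ideal.absNorm P : ℝ) ^ (-1 : ℝ) :=
        Real.rpow_le_rpow_of_exponent_le (by linarith) (by linarith)
    _ = (Ideal.absNorm P : ℝ)⁻¹ := by rw [Real.rpow_neg_one]
    _ ≤ 1 / 2 := by rw [one_div]; exact inv_anti₀ (by norm_num) h2

lemma sum_TT_prime_re (χ : DirichletCharacter ℂ m) (s : ℝ) (N : ℕ) :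
    ∑ P ∈ (Ded.TT K N).filter (fun P => (Ideal.absNorm P).Prime), (gi χ s P).re =
      ∑ p ∈ Ded.PP N, Ded.A K p * (hh χ s p).re := by
  classical
  have hmaps : ∀ P ∈ (Ded.TT K N).filter (fun P => (Ideal.absNorm P).Prime),
      Ideal.absNorm P ∈ Ded.PP N := by
    intro P hP
    rw [Finset.mem_filter, Ded.mem_TT] at hP
    exact Ded.mem_PP.mpr ⟨hP.1.1.1, hP.2⟩
  rw [← Finset.sum_fiberwise_of_maps_to hmaps]
  refine Finset.sum_congr rfl fun p hp => ?_
  rw [Ded.mem_PP] at hp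
  have hc : Ded.A K p = (((Ded.TT K N).filter (fun P => (Ideal.absNorm P).Prime)).filter
      (fun I => Ideal.absNorm I = p)).card := by
    refine Ded.card_eq_A K _ fun I => ?_
    rw [Finset.mem_filter, Finset.mem_filter, Ded.mem_TT]
    refine ⟨fun h => h.2, fun h => ⟨⟨⟨⟨h.le.trans hp.1, ?_⟩, ?_⟩, ?_⟩, h⟩⟩
    · rintro rfl
      rw [Ideal.absNorm_bot] at h
      exact hp.2.ne_zero h.symm
    · refine Ideal.isPrime_of_irreducible_absNorm ?_
      rw [h]
      exact hp.2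
    · rw [h]
      exact hp.2
  rw [hc, ← nsmul_eq_mul, ← Finset.sum_const]
  refine Finset.sum_congr rfl fun I hI => ?_
  rw [Finset.mem_filter] at hI
  unfold gi
  rw [hI.2]

/-- `log |L_K(s, χ)|` and the prime sum agree up to a bounded amount. -/
theorem log_LK (K : Type*) [Field K] [NumberField K] (χ : DirichletCharacter ℂ m) {s : ℝ}
    (hs : 1 < s) : LK K χ s ≠ 0 ∧
    |Real.log ‖LK K χ s‖ - RR (fun p => Ded.A K p * (χ (p : ZMod m)).re) s| ≤ 2 * Ded.cc K := by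
  classical
  have hTT : ∀ N, ∀ P ∈ Ded.TT K N, P.IsPrime ∧ P ≠ ⊥ := fun N P hP => by
    rw [Ded.mem_TT] at hP
    exact ⟨hP.2, hP.1.2⟩
  have h1 : Tendsto (fun N => (∏ P ∈ Ded.TT K N, (1 - gi χ s P)) * LK K χ s) atTop (𝓝 1) :=
    (tendsto_ft χ hs).congr fun N => ft_prod χ hs _ (hTT N)
  have h0 : LK K χ s ≠ 0 := by
    intro h
    simp only [h, mul_zero] at h1
    exact zero_ne_one (tendsto_nhds_unique tendsto_const_nhds h1)
  refine ⟨h0, ?_⟩
  have hne : ∀ N, ∀ P ∈ Ded.TT K N, ‖1 - gi χ s P‖ ≠ 0 := by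
    intro N P hP h
    rw [norm_eq_zero, sub_eq_zero] at h
    have := norm_gi_le_half χ hs.le (hTT N P hP).1 (hTT N P hP).2
    rw [← h] at this
    norm_num at this
  -- logarithm of the product
  have h2 : Tendsto (fun N => ∑ P ∈ Ded.TT K N, Real.log ‖1 - gi χ s P‖ + Real.log ‖LK K χ s‖)
      atTop (𝓝 0) := by
    have h3 := (h1.norm).log (by simp)
    rw [norm_one, Real.log_one] at h3
    refine h3.congr fun N => ?_
    rw [norm_mul, Real.log_mul, norm_prod, Real.log_prod (hne N)]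
    · rw [norm_prod]
      exact Finset.prod_ne_zero_iff.mpr (hne N)
    · exact norm_ne_zero_iff.mpr h0
  -- the sum over the primes
  have hb : ∀ p : ℕ, p.Prime → |Ded.A K p * (χ (p : ZMod m)).re| ≤ finrank ℚ K := by
    intro p hp
    rw [abs_mul, abs_of_nonneg (Ded.A_nonneg K p)]
    calc Ded.A K p * |(χ (p : ZMod m)).re| ≤ Ded.A K p * 1 :=
          mul_le_mul_of_nonneg_left ((Complex.abs_re_le_norm _).trans (χ.norm_le_one _))
            (Ded.A_nonneg K p)
      _ ≤ finrank ℚ K := by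
          rw [mul_one]
          unfold Ded.A
          exact_mod_cast card_norm_prime_le K p hp
  have h4 : Tendsto (fun N => ∑ p ∈ Ded.PP N, Ded.A K p * (hh χ s p).re) atTop
      (𝓝 (RR (fun p => Ded.A K p * (χ (p : ZMod m)).re) s)) := by
    have h5 := (summable_RR hb hs).hasSum.comp tendsto_primesSub
    refine h5.congr fun N => ?_
    simp only [Function.comp_apply]
    refine Finset.sum_bij (fun p _ => (p : ℕ)) ?_ ?_ ?_ ?_
    · intro p hp
      exact Ded.mem_PP.mpr ⟨mem_primesSub.mp hp, p.2⟩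
    · intro a _ b _ h
      exact Subtype.ext h
    · intro q hq
      exact ⟨(⟨q, (Ded.mem_PP.mp hq).2⟩ : Nat.Primes),
        mem_primesSub.mpr (Ded.mem_PP.mp hq).1, rfl⟩
    · intro p hp
      unfold hh
      rw [Complex.re_mul_ofReal, mul_assoc]
  have h6 : ∀ N, |∑ P ∈ Ded.TT K N, Real.log ‖1 - gi χ s P‖ +
      ∑ p ∈ Ded.PP N, Ded.A K p * (hh χ s p).re| ≤ 2 * Ded.cc K := by
    intro N
    rw [← sum_TT_prime_re χ s N]
    have h7 : ∑ P ∈ Ded.TT K N, Real.log ‖1 - gi χ s P‖ +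
        ∑ P ∈ (Ded.TT K N).filter (fun P => (Ideal.absNorm P).Prime), (gi χ s P).re =
        ∑ P ∈ Ded.TT K N, (Real.log ‖1 - gi χ s P‖ + (gi χ s P).re) -
        ∑ P ∈ (Ded.TT K N).filter (fun P => ¬ (Ideal.absNorm P).Prime), (gi χ s P).re := by
      rw [Finset.sum_add_distrib,
        ← Finset.sum_filter_add_sum_filter_not (Ded.TT K N) (fun P => (Ideal.absNorm P).Prime)
          (fun P => (gi χ s P).re)]
      ring
    rw [h7]
    refine (abs_sub _ _).trans ?_
    have h8 : |∑ P ∈ Ded.TT K N, (Real.log ‖1 - gi χ s P‖ + (gi χ s P).re)| ≤ Ded.cc K := by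
      refine (Finset.abs_sum_le_sum_abs _ _).trans ?_
      refine le_trans (Finset.sum_le_sum fun P hP => ?_) (Ded.sum_TT_sq K hs.le N)
      refine (log_norm_one_sub (norm_gi_le_half χ hs.le (hTT N P hP).1 (hTT N P hP).2)).trans ?_
      exact pow_le_pow_left₀ (norm_nonneg _) (norm_gi_le χ s P) 2
    have h9 : |∑ P ∈ (Ded.TT K N).filter (fun P => ¬ (Ideal.absNorm P).Prime), (gi χ s P).re| ≤
        Ded.cc K := by
      refine (Finset.abs_sum_le_sum_abs _ _).trans ?_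
      refine le_trans (Finset.sum_le_sum fun P _ => ?_) (Ded.sum_TT_nonprime K hs.le N)
      exact (Complex.abs_re_le_norm _).trans (norm_gi_le χ s P)
    linarith
  have h10 := ((h2.sub (tendsto_const_nhds (x := Real.log ‖LK K χ s‖))).add h4).abs
  have h11 : |0 - Real.log ‖LK K χ s‖ + RR (fun p => Ded.A K p * (χ (p : ZMod m)).re) s| ≤
      2 * Ded.cc K := by
    refine le_of_tendsto' h10 fun N => ?_
    rw [add_sub_cancel_right]
    exact h6 N
  rw [abs_sub_comm]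
  convert h11 using 2
  ring

end TatePole.AT
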