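import Mathlib
import Pool.Agent.Lib.MP_058a58_ag.AT.Cyc
import Pool.Agent.Lib.MP_058a58_ag.AT.Prime
import Pool.Agent.Lib.MP_058a58_ag.AT.Dich2

open Polynomial Filter Topology NumberField Set

namespace TatePole.AT

lemma RR_near {g h : ℕ → ℝ} (S : Finset ℕ) (hS : ∀ p : ℕ, p.Prime → p ∉ S → g p = h p)
    (bg : BddPrimes g) (bh : BddPrimes h) : ∃ C : ℝ, ∀ s : ℝ, 1 < s → |RR g s - RR h s| ≤ C := by
  obtain ⟨A, hA⟩ := bg
  obtain ⟨B, hB⟩ := bh
  obtain ⟨K, hK⟩ := RR_finite_support S (A + B)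
  refine ⟨K, fun s hs => ?_⟩
  have hd : ∀ p : ℕ, p.Prime → |(fun p => g p - h p) p| ≤ A + B := fun p hp =>
    (abs_sub _ _).trans (add_le_add (hA p hp) (hB p hp))
  have h1 := hK (fun p => g p - h p) (fun p hp hpS => by rw [hS p hp hpS, sub_self])
    hd s (by linarith)
  have h2 : RR g s = RR h s + RR (fun p => g p - h p) s := by
    rw [← RR_add hB hd hs]
    exact RR_congr (fun p _ => by simp) s
  rw [h2, add_sub_cancel_left]
  exact h1

lemma tendsto_log : Tendsto (fun x : ℝ => Real.log (1 / (x - 1))) (𝓝[>] 1) atTop := by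
  have h1 : Tendsto (fun x : ℝ => x - 1) (𝓝[>] 1) (𝓝[>] 0) := by
    refine tendsto_nhdsWithin_iff.mpr ⟨?_, ?_⟩
    · have : Tendsto (fun x : ℝ => x - 1) (𝓝 1) (𝓝 (1 - 1)) := tendsto_id.sub_const 1
      rw [sub_self] at this
      exact this.mono_left nhdsWithin_le_nhds
    · filter_upwards [self_mem_nhdsWithin] with x hx
      have : (1:ℝ) < x := hx
      simp only [mem_Ioi]; linarith
  have h2 : Tendsto (fun y : ℝ => 1 / y) (𝓝[>] 0) atTop := by
    simpa using tendsto_inv_nhdsGT_zero (𝕜 := ℝ)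
  exact Real.tendsto_log_atTop.comp (h2.comp h1)

lemma HasMean.unique {g : ℕ → ℝ} {c d : ℝ} (hc : HasMean g c) (hd : HasMean g d) : c = d := by
  obtain ⟨A, hA⟩ := hc
  obtain ⟨B, hB⟩ := hd
  by_contra hne
  have hpos : 0 < |c - d| := abs_pos.mpr (sub_ne_zero.mpr hne)
  have h1 := tendsto_log.eventually (eventually_gt_atTop ((A + B) / |c - d|))
  have h2 := tendsto_log.eventually (eventually_gt_atTop 0)
  obtain ⟨x, h1, h2, hA, hB⟩ := (h1.and (h2.and (hA.and hB))).exists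
  rw [div_lt_iff₀ hpos] at h1
  set L := Real.log (1 / (x - 1)) with hL
  have h3 : (d - c) * L = (RR g x - c * L) - (RR g x - d * L) := by ring
  have h4 : |(d - c) * L| ≤ A + B := by
    rw [h3]
    exact (abs_sub _ _).trans (add_le_add hA hB)
  rw [abs_mul, abs_of_pos h2, abs_sub_comm] at h4
  linarith

section
variable {m : ℕ} [NeZero m]

/-- a Dirichlet character on the Galois group -/
noncomputable def cg (χ : DirichletCharacter ℂ m) (g : GQ) : ℂ := χ ((cyc m g : (ZMod m)ˣ) : ZMod m)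

lemma cg_mul (χ : DirichletCharacter ℂ m) (g h : GQ) : cg χ (g * h) = cg χ g * cg χ h := by
  unfold cg
  rw [map_mul, Units.val_mul, map_mul]

lemma cg_one (χ : DirichletCharacter ℂ m) : cg χ 1 = 1 := by
  unfold cg
  rw [map_one, Units.val_one, map_one]

lemma cg_conj (χ : DirichletCharacter ℂ m) (g x : GQ) : cg χ (x * g * x⁻¹) = cg χ g := by
  unfold cg
  have : cyc m (x * g * x⁻¹) = cyc m g := by
    rw [map_mul, map_mul, map_inv, mul_comm, inv_mul_cancel_left]
  rw [this]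

lemma cg_pow (χ : DirichletCharacter ℂ m) (g : GQ) (j : ℕ) : cg χ (g ^ j) = cg χ g ^ j := by
  induction j with
  | zero => rw [pow_zero, pow_zero, cg_one]
  | succ n ih => rw [pow_succ, pow_succ, cg_mul, ih]

lemma norm_cg (χ : DirichletCharacter ℂ m) (g : GQ) : ‖cg χ g‖ = 1 :=
  χ.unit_norm_eq_one _

/-- the character is trivial on the Galois groups of the conjugates of `K` -/
def TrivOn (K : Type*) [Field K] [NumberField K] (χ : DirichletCharacter ℂ m) : Prop :=
  ∀ g : GQ, ∀ φ : K →ₐ[ℚ] QBar, g • φ = φ → cg χ g = 1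

lemma exists_gap (χ : DirichletCharacter ℂ m) : ∃ δ : ℝ, 0 < δ ∧ ∀ g : GQ, cg χ g ≠ 1 →
    δ ≤ 1 - (cg χ g).re := by
  classical
  set s : Finset (ZMod m)ˣ := Finset.univ.filter fun u => χ (u : ZMod m) ≠ 1 with hs
  have hpos : ∀ u ∈ s, 0 < 1 - (χ (u : ZMod m)).re := by
    intro u hu
    rw [hs, Finset.mem_filter] at hu
    have h1 : ‖χ (u : ZMod m)‖ = 1 := χ.unit_norm_eq_one u
    have h2 : (χ (u : ZMod m)).re ≤ 1 := h1 ▸ Complex.re_le_norm _
    have h3 : (χ (u : ZMod m)).re ≠ 1 := by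
      intro h
      apply hu.2
      have h4 : (χ (u : ZMod m)).re ^ 2 + (χ (u : ZMod m)).im ^ 2 = 1 := by
        have := Complex.sq_norm (χ (u : ZMod m))
        rw [h1, Complex.normSq_apply] at this
        nlinarith
      have h5 : (χ (u : ZMod m)).im = 0 := by
        rw [h] at h4
        have : (χ (u : ZMod m)).im ^ 2 = 0 := by linarith
        exact pow_eq_zero_iff (two_ne_zero) |>.mp this
      exact Complex.ext (by simpa using h) (by simpa using h5)
    have : (χ (u : ZMod m)).re < 1 := lt_of_le_of_ne h2 h3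
    linarith
  rcases s.eq_empty_or_nonempty with hE | hne
  · refine ⟨1, one_pos, fun g hg => ?_⟩
    have : cyc m g ∈ s := by rw [hs, Finset.mem_filter]; exact ⟨Finset.mem_univ _, hg⟩
    rw [hE] at this
    exact absurd this (Finset.notMem_empty _)
  · obtain ⟨u, hu, hmin⟩ := s.exists_min_image (fun u => 1 - (χ (u : ZMod m)).re) hne
    refine ⟨1 - (χ (u : ZMod m)).re, hpos u hu, fun g hg => ?_⟩
    exact hmin (cyc m g) (by rw [hs, Finset.mem_filter]; exact ⟨Finset.mem_univ _, hg⟩)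

lemma exists_N (K : Type*) [Field K] [NumberField K] (m : ℕ) [NeZero m] :
    ∃ M : IntermediateField ℚ QBar, FiniteDimensional ℚ M ∧ M.fixingSubgroup.Normal ∧
      (∀ g ∈ M.fixingSubgroup, ∀ φ : K →ₐ[ℚ] QBar, g • φ = φ) ∧
      (∀ g ∈ M.fixingSubgroup, cyc m g = 1) := by
  set M₀ : IntermediateField ℚ QBar := IntermediateField.adjoin ℚ {zt m} with hM₀
  have hfd : FiniteDimensional ℚ M₀ := IntermediateField.adjoin.finiteDimensional
    ((isIntegral_zt (m := m)).tower_top)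
  obtain ⟨M, h1, h2, h3, h4⟩ := exists_normal_field M₀ K
  refine ⟨M, h1, h2, h4, fun g hg => cyc_eq_one ?_⟩
  have h5 := h3 hg
  rw [IntermediateField.mem_fixingSubgroup_iff] at h5
  exact h5 _ (IntermediateField.mem_adjoin_simple_self ℚ _)

variable (K : Type*) [Field K] [NumberField K]

lemma trivOn_mean {χ : DirichletCharacter ℂ m} (hχ : TrivOn K χ) {σ : ℕ → GQ} (hσ : FrobSys σ) :
    HasMean (fun p => (fixCount K (σ p) : ℝ) * (χ (p : ZMod m)).re) 1 := by
  refine (fixCount_mean' K hσ).congr_finite m.primeFactors (fun p hp hpS => ?_)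
    (bdd_fixCount K σ) ?_
  · have hpm : ¬ p ∣ m := fun h => hpS (Nat.mem_primeFactors.mpr ⟨hp, h, NeZero.ne m⟩)
    by_cases h0 : fixCount K (σ p) = 0
    · simp [h0]
    · have h1 : Nonempty {φ : K →ₐ[ℚ] QBar // σ p • φ = φ} := by
        rw [fixCount_eq_card] at h0
        exact (Nat.card_ne_zero.mp h0).1
      obtain ⟨φ, hφ⟩ := h1
      have h2 := hχ (σ p) φ hφ
      unfold cg at h2
      rw [cyc_frobSys hσ hp hpm] at h2
      rw [h2, Complex.one_re, mul_one]
  · refine ⟨Nat.card (K →ₐ[ℚ] QBar), fun p _ => ?_⟩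
    rw [abs_mul, abs_of_nonneg (Nat.cast_nonneg _)]
    calc (fixCount K (σ p) : ℝ) * |(χ (p : ZMod m)).re| ≤ (fixCount K (σ p) : ℝ) * 1 :=
          mul_le_mul_of_nonneg_left ((Complex.abs_re_le_norm _).trans (χ.norm_le_one _))
            (Nat.cast_nonneg _)
      _ ≤ _ := by rw [mul_one]; exact_mod_cast fixCount_le K (σ p)

lemma bdd_fixchi (χ : DirichletCharacter ℂ m) (σ : ℕ → GQ) :
    BddPrimes (fun p => (fixCount K (σ p) : ℝ) * (χ (p : ZMod m)).re) := by
  refine ⟨Nat.card (K →ₐ[ℚ] QBar), fun p _ => ?_⟩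
  rw [abs_mul, abs_of_nonneg (Nat.cast_nonneg _)]
  calc (fixCount K (σ p) : ℝ) * |(χ (p : ZMod m)).re| ≤ (fixCount K (σ p) : ℝ) * 1 :=
        mul_le_mul_of_nonneg_left ((Complex.abs_re_le_norm _).trans (χ.norm_le_one _))
          (Nat.cast_nonneg _)
    _ ≤ _ := by rw [mul_one]; exact_mod_cast fixCount_le K (σ p)

/-- `log |L_K(s, χ)|` and the prime sum over the Frobenius elements. -/
lemma log_LK_fix (χ : DirichletCharacter ℂ m) {σ : ℕ → GQ} (hσ : FrobSys σ) :
    ∃ C : ℝ, ∀ s : ℝ, 1 < s → LK K χ s ≠ 0 ∧ |Real.log ‖LK K χ s‖ -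
      RR (fun p => (fixCount K (σ p) : ℝ) * (χ (p : ZMod m)).re) s| ≤ C := by
  have hb : BddPrimes (fun p => Ded.A K p * (χ (p : ZMod m)).re) := by
    refine ⟨Module.finrank ℚ K, fun p hp => ?_⟩
    rw [abs_mul, abs_of_nonneg (Ded.A_nonneg K p)]
    calc Ded.A K p * |(χ (p : ZMod m)).re| ≤ Ded.A K p * 1 :=
          mul_le_mul_of_nonneg_left ((Complex.abs_re_le_norm _).trans (χ.norm_le_one _))
            (Ded.A_nonneg K p)
      _ ≤ Module.finrank ℚ K := by
          rw [mul_one]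
          unfold Ded.A
          exact_mod_cast card_norm_prime_le K p hp
  obtain ⟨C, hC⟩ := RR_near (finite_bad K).toFinset (fun p hp hpS => by
    have hgood : GoodFor K p := by
      by_contra h
      exact hpS ((finite_bad K).mem_toFinset.mpr ⟨hp, h⟩)
    obtain ⟨𝔓, h𝔓, hp𝔓, hf⟩ := hσ p hp
    change Ded.A K p * (χ (p : ZMod m)).re = (fixCount K (σ p) : ℝ) * (χ (p : ZMod m)).re
    rw [fixCount_eq hp hgood h𝔓 hp𝔓 hf]
    rfl) hb (bdd_fixchi K χ σ)
  refine ⟨2 * Ded.cc K + C, fun s hs => ?_⟩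
  obtain ⟨h0, h1⟩ := log_LK K χ hs
  refine ⟨h0, ?_⟩
  have h2 := hC s hs
  have h3 := abs_add_le (Real.log ‖LK K χ s‖ - RR (fun p => Ded.A K p * (χ (p : ZMod m)).re) s)
    (RR (fun p => Ded.A K p * (χ (p : ZMod m)).re) s -
      RR (fun p => (fixCount K (σ p) : ℝ) * (χ (p : ZMod m)).re) s)
  rw [sub_add_sub_cancel] at h3
  linarith

lemma fixCount_pos {g : GQ} {φ : K →ₐ[ℚ] QBar} (h : g • φ = φ) : 1 ≤ fixCount K g := by
  rw [fixCount_eq_card, Nat.one_le_iff_ne_zero, Nat.card_ne_zero]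
  refine ⟨⟨⟨φ, h⟩⟩, ?_⟩
  infer_instance

/-- The prime sum of a character that is not trivial on `G_K` is bounded above. -/
lemma upper_bound [IsTotallyComplex K] {χ : DirichletCharacter ℂ m} (hχ : ¬ TrivOn K χ)
    {σ : ℕ → GQ} (hσ : FrobSys σ) : ∃ C : ℝ, ∀ᶠ s in 𝓝[>] (1:ℝ),
      RR (fun p => (fixCount K (σ p) : ℝ) * (χ (p : ZMod m)).re) s ≤ C := by
  classical
  obtain ⟨D, hD⟩ := log_LK_fix K χ hσ
  rcases dichotomy K χ with ⟨C, hC⟩ | ⟨c, hc, hC⟩
  · refine ⟨Real.log (max C 1) + D, ?_⟩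
    filter_upwards [hC, self_mem_nhdsWithin] with s hCs hs
    obtain ⟨h0, h1⟩ := hD s hs
    have h2 : Real.log ‖LK K χ s‖ ≤ Real.log (max C 1) :=
      Real.log_le_log (norm_pos_iff.mpr h0) (hCs.trans (le_max_left _ _))
    have h3 := (abs_le.mp h1).1
    linarith
  · exfalso
    obtain ⟨M, hMfd, hnormal, hsplit, hcyc⟩ := exists_N K m
    set N := M.fixingSubgroup with hN
    have hfin : Finite (GQ ⧸ N) := finite_quot N hN
    have hfinT : Fintype (GQ ⧸ N) := Fintype.ofFinite _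
    set P : GQ → Prop := fun g => cg χ g ≠ 1 with hP
    have hcgpow : ∀ (a b : GQ) (j : ℕ), (a : GQ ⧸ N) ^ j = b → cg χ b = cg χ a ^ j := by
      intro a b j hab
      have h1 : ((a ^ j : GQ) : GQ ⧸ N) = b := by rw [QuotientGroup.mk_pow, hab]
      have h2 : (a ^ j)⁻¹ * b ∈ N := QuotientGroup.eq.mp h1
      have h3 : b = a ^ j * ((a ^ j)⁻¹ * b) := by group
      have h4 : cg χ ((a ^ j)⁻¹ * b) = 1 := by
        unfold cg
        rw [hcyc _ h2, Units.val_one, map_one]
      rw [h3, cg_mul, h4, mul_one, cg_pow]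
    have hPgen : ∀ (a b : GQ) (i j : ℕ), (a : GQ ⧸ N) ^ j = b → (b : GQ ⧸ N) ^ i = a →
        P a → P b := by
      intro a b i j h1 h2 ha hb
      apply ha
      rw [hcgpow b a i h2, hb, one_pow]
    have hPconj : ∀ g x : GQ, P (x * g * x⁻¹) ↔ P g := fun g x => by
      simp only [hP, cg_conj]
    have hmean := FP_mean (K := K) hsplit hPgen hN hPconj hσ
    set μ := gavg fun γ : GQ ⧸ N => FP K P γ.out with hμ
    have hμpos : 0 < μ := by
      unfold TrivOn at hχ
      push Not at hχ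
      obtain ⟨g, φ, hφ, hg⟩ := hχ
      have h1 : FP K P ((g : GQ ⧸ N).out) = FP K P g := FP_out hsplit hPgen hfin g
      have h2 : 1 ≤ FP K P g := by
        unfold FP
        rw [if_pos hg, mul_one]
        exact_mod_cast fixCount_pos K hφ
      rw [hμ, gavg, finsum_eq_sum_of_fintype]
      refine div_pos ?_ (by exact_mod_cast Nat.card_pos)
      refine lt_of_lt_of_le (by linarith : (0:ℝ) < FP K P ((g : GQ ⧸ N).out)) ?_
      exact Finset.single_le_sum (f := fun γ : GQ ⧸ N => FP K P γ.out)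
        (fun γ _ => FP_nonneg K P _) (Finset.mem_univ (g : GQ ⧸ N))
    obtain ⟨δ, hδ, hgap⟩ := exists_gap χ
    obtain ⟨A, hA⟩ := hmean
    obtain ⟨B, hB⟩ := fixCount_mean' K hσ
    -- compare
    set g1 : ℕ → ℝ := fun p => (fixCount K (σ p) : ℝ) * (1 - (χ (p : ZMod m)).re) with hg1
    have bchi := bdd_fixchi K χ σ
    have bfix := bdd_fixCount K σ
    obtain ⟨c1, hc1⟩ := bchi
    obtain ⟨c2, hc2⟩ := bfix
    have hbg1 : ∀ p : ℕ, p.Prime → |g1 p| ≤ c2 + c1 := by
      intro p hp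
      have : g1 p = (fixCount K (σ p) : ℝ) - (fixCount K (σ p) : ℝ) * (χ (p : ZMod m)).re := by
        simp only [hg1]; ring
      rw [this]
      exact (abs_sub _ _).trans (add_le_add (hc2 p hp) (hc1 p hp))
    have hbFP : ∀ p : ℕ, p.Prime → |δ * FP K P (σ p)| ≤ δ * Nat.card (K →ₐ[ℚ] QBar) := by
      intro p _
      rw [abs_mul, abs_of_pos hδ, abs_of_nonneg (FP_nonneg K P _)]
      exact mul_le_mul_of_nonneg_left (FP_le K P _) hδ.le
    set h1 : ℕ → ℝ := fun p => if p ∣ m then 0 else g1 p with hh1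
    have hbh1 : ∀ p : ℕ, p.Prime → |h1 p| ≤ |c2 + c1| := by
      intro p hp
      simp only [hh1]
      split_ifs
      · simp
      · exact (hbg1 p hp).trans (le_abs_self _)
    set h2 : ℕ → ℝ := fun p => if p ∣ m then 0 else δ * FP K P (σ p) with hh2
    have hbh2 : ∀ p : ℕ, p.Prime → |h2 p| ≤ δ * Nat.card (K →ₐ[ℚ] QBar) := by
      intro p hp
      simp only [hh2]
      split_ifs
      · rw [abs_zero]; positivity
      · exact hbFP p hp
    have hnot : ∀ p : ℕ, p.Prime → p ∉ m.primeFactors → ¬ p ∣ m := fun p hp hpS h =>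
      hpS (Nat.mem_primeFactors.mpr ⟨hp, h, NeZero.ne m⟩)
    obtain ⟨E1, hE1⟩ := RR_near (g := h1) (h := g1) m.primeFactors (fun p hp hpS => by
      simp only [hh1]; rw [if_neg (hnot p hp hpS)]) ⟨_, hbh1⟩ ⟨_, hbg1⟩
    obtain ⟨E2, hE2⟩ := RR_near (g := h2) (h := fun p => δ * FP K P (σ p)) m.primeFactors
      (fun p hp hpS => by simp only [hh2]; rw [if_neg (hnot p hp hpS)]) ⟨_, hbh2⟩ ⟨_, hbFP⟩
    have hle : ∀ p : ℕ, p.Prime → h2 p ≤ h1 p := by
      intro p hp
      simp only [hh1, hh2, hg1]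
      split_ifs with hpm
      · exact le_rfl
      · have h3 : χ (p : ZMod m) = cg χ (σ p) := by
          unfold cg
          rw [cyc_frobSys hσ hp hpm]
        rw [h3]
        unfold FP
        by_cases h4 : P (σ p)
        · rw [if_pos h4, mul_one, mul_comm]
          exact mul_le_mul_of_nonneg_left (hgap _ h4) (Nat.cast_nonneg _)
        · rw [if_neg h4, mul_zero, mul_zero]
          refine mul_nonneg (Nat.cast_nonneg _) ?_
          have := (Complex.re_le_norm (cg χ (σ p))).trans (norm_cg χ (σ p)).le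
          linarith
    have hlog1 : ∀ s : ℝ, 1 < s → Real.log (c / (s - 1)) = Real.log c + Real.log (1 / (s - 1)) := by
      intro s hs
      have : c / (s - 1) = c * (1 / (s - 1)) := by ring
      have hs' : (0:ℝ) < s - 1 := by linarith
      rw [this, Real.log_mul hc.ne' (by positivity)]
    have hbig := tendsto_log.eventually (eventually_gt_atTop
      ((B + D - Real.log c + E1 + E2 + δ * A) / (δ * μ)))
    have hself : ∀ᶠ s in 𝓝[>] (1:ℝ), s ∈ Ioi (1:ℝ) := self_mem_nhdsWithin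
    obtain ⟨s, hs, hCs, hAs, hBs, hbig⟩ :=
      (hself.and (hC.and (hA.and (hB.and hbig)))).exists
    have hs1 : (1:ℝ) < s := hs
    have hs' : (0:ℝ) < s - 1 := by linarith
    obtain ⟨h0, hDs⟩ := hD s hs1
    have e1 : Real.log c + Real.log (1 / (s - 1)) ≤ Real.log ‖LK K χ s‖ := by
      rw [← hlog1 s hs1]
      exact Real.log_le_log (by positivity) hCs
    have e2 : RR g1 s = RR (fun p => (fixCount K (σ p) : ℝ)) s -
        RR (fun p => (fixCount K (σ p) : ℝ) * (χ (p : ZMod m)).re) s := by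
      have h3 := RR_add (g := g1) (h := fun p => (fixCount K (σ p) : ℝ) * (χ (p : ZMod m)).re)
        hbg1 hc1 hs1
      have h4 : RR (fun p => g1 p + (fixCount K (σ p) : ℝ) * (χ (p : ZMod m)).re) s =
          RR (fun p => (fixCount K (σ p) : ℝ)) s := RR_congr (fun p _ => by simp only [hg1]; ring) s
      rw [h4] at h3
      linarith
    have e3 : RR h2 s ≤ RR h1 s := by
      unfold RR
      exact (summable_RR hbh2 hs1).tsum_le_tsum (fun p => mul_le_mul_of_nonneg_right (hle p p.2)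
        (Real.rpow_nonneg (Nat.cast_nonneg _) _)) (summable_RR hbh1 hs1)
    have e4 := abs_le.mp (hE1 s hs1)
    have e5 := abs_le.mp (hE2 s hs1)
    rw [RR_const_mul] at e5
    have e6 := abs_le.mp hAs
    have e7 := abs_le.mp hBs
    have e8 := abs_le.mp hDs
    rw [div_lt_iff₀ (by positivity)] at hbig
    have e9 : δ * (μ * Real.log (1 / (s - 1)) - A) ≤ δ * RR (fun p => FP K P (σ p)) s :=
      mul_le_mul_of_nonneg_left (by linarith [e6.1]) hδ.le
    nlinarith [e4.1, e4.2, e5.1, e5.2, e6.1, e6.2, e7.1, e7.2, e8.1, e8.2]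

end

end TatePole.AT
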