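import Mathlib
import Pool.Agent.Lib.MP_058a58_ag.AT.CycMean

open Polynomial Filter Topology NumberField Set

namespace TatePole.AT

section
variable {m : ℕ} [NeZero m] (K : Type*) [Field K] [NumberField K]

/-- orthogonality in a finite quotient -/
lemma sum_nontriv {χ : DirichletCharacter ℂ m} (hχ : ¬ TrivOn K χ) (N : Subgroup GQ) [N.Normal]
    [Fintype (GQ ⧸ N)] (hsplit : ∀ g ∈ N, ∀ φ : K →ₐ[ℚ] QBar, g • φ = φ)
    (hcyc : ∀ g ∈ N, cyc m g = 1) :
    ∑ γ : GQ ⧸ N, (fixCount K γ.out : ℂ) * cg χ γ.out = 0 := by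
  classical
  unfold TrivOn at hχ
  push Not at hχ
  obtain ⟨g₀, φ₀, hφ₀, hg₀⟩ := hχ
  have hfix : ∀ g : GQ, (fixCount K g : ℂ) =
      ∑ φ : K →ₐ[ℚ] QBar, if g • φ = φ then (1:ℂ) else 0 := by
    intro g
    rw [fixCount_eq_card, Nat.card_eq_fintype_card, Fintype.card_subtype, Finset.sum_boole]
  simp only [hfix, Finset.sum_mul]
  rw [Finset.sum_comm]
  refine Finset.sum_eq_zero fun φ _ => ?_
  -- an element fixing `φ` with nontrivial character
  obtain ⟨x, hx⟩ := exists_extend φ₀ φ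
  have hx' : x • φ₀ = φ := by
    ext y; exact hx y
  set a : GQ := x * g₀ * x⁻¹ with ha
  have haφ : a • φ = φ := by
    rw [ha, mul_smul, mul_smul, ← hx', inv_smul_smul, hφ₀]
  have hacg : cg χ a ≠ 1 := by rw [ha, cg_conj]; exact hg₀
  set h : GQ ⧸ N → ℂ := fun γ => (if γ.out • φ = φ then (1:ℂ) else 0) * cg χ γ.out with hh
  have hmk : ∀ g : GQ, h (g : GQ ⧸ N) = (if g • φ = φ then (1:ℂ) else 0) * cg χ g := by
    intro g
    have h1 : (g : GQ ⧸ N) = (((g : GQ ⧸ N).out : GQ) : GQ ⧸ N) := (QuotientGroup.out_eq' _).symm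
    have h2 : g⁻¹ * (g : GQ ⧸ N).out ∈ N := QuotientGroup.eq.mp h1
    set b := (g : GQ ⧸ N).out with hb
    have h3 : b = g * (g⁻¹ * b) := by group
    have h4 : b • φ = g • φ := by rw [h3, mul_smul, hsplit _ h2]
    have h5 : cg χ b = cg χ g := by
      rw [h3, cg_mul]
      have : cg χ (g⁻¹ * b) = 1 := by
        unfold cg
        rw [hcyc _ h2, Units.val_one, map_one]
      rw [this, mul_one]
    simp only [hh]
    rw [← hb, h4, h5]
  have hshift : ∑ γ : GQ ⧸ N, h ((a : GQ ⧸ N) * γ) = ∑ γ : GQ ⧸ N, h γ :=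
    Fintype.sum_equiv (Equiv.mulLeft (a : GQ ⧸ N)) _ _ fun γ => rfl
  have hmul : ∀ γ : GQ ⧸ N, h ((a : GQ ⧸ N) * γ) = cg χ a * h γ := by
    intro γ
    obtain ⟨g, rfl⟩ := QuotientGroup.mk_surjective γ
    rw [← QuotientGroup.mk_mul, hmk, hmk, cg_mul]
    have h6 : (a * g) • φ = φ ↔ g • φ = φ := by
      rw [mul_smul]
      constructor
      · intro h7
        have h8 : g • φ = a⁻¹ • φ := by rw [← h7, inv_smul_smul, h7]
        rw [h8, inv_smul_eq_iff, haφ]
      · intro h7; rw [h7, haφ]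
    by_cases h7 : g • φ = φ
    · rw [if_pos h7, if_pos (h6.mpr h7)]; ring
    · rw [if_neg h7, if_neg (fun h => h7 (h6.mp h))]; ring
  simp only [hmul] at hshift
  rw [← Finset.mul_sum] at hshift
  have h9 : (cg χ a - 1) * ∑ γ : GQ ⧸ N, h γ = 0 := by rw [sub_mul, one_mul, hshift, sub_self]
  rcases mul_eq_zero.mp h9 with h10 | h10
  · exact (hacg (sub_eq_zero.mp h10)).elim
  · exact h10

open scoped Classical in
/-- For a totally complex field `K` and a Dirichlet character `χ` that is not trivial on `G_K`,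
`∑_p fix_K(Frob_p) Re χ(p) p^(-s)` is bounded. -/
theorem cyc_mean [IsTotallyComplex K] {χ : DirichletCharacter ℂ m} (hχ : ¬ TrivOn K χ)
    {σ : ℕ → GQ} (hσ : FrobSys σ) :
    HasMean (fun p => (fixCount K (σ p) : ℝ) * (χ (p : ZMod m)).re) 0 := by
  obtain ⟨M, hMfd, hnormal, hsplit, hcyc⟩ := exists_N K m
  set N := M.fixingSubgroup with hN
  have hfin : Finite (GQ ⧸ N) := finite_quot N hN
  have hfinT : Fintype (GQ ⧸ N) := Fintype.ofFinite _
  set R : DirichletCharacter ℂ m → ℕ → ℝ := fun χ' p =>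
    (fixCount K (σ p) : ℝ) * (χ' (p : ZMod m)).re with hR
  set P : GQ → Prop := fun g => cyc m g = 1 with hP
  have hcycpow : ∀ (a b : GQ) (j : ℕ), (a : GQ ⧸ N) ^ j = b → cyc m b = cyc m a ^ j := by
    intro a b j hab
    have h1 : ((a ^ j : GQ) : GQ ⧸ N) = b := by rw [QuotientGroup.mk_pow, hab]
    have h2 : (a ^ j)⁻¹ * b ∈ N := QuotientGroup.eq.mp h1
    have h3 : b = a ^ j * ((a ^ j)⁻¹ * b) := by group
    rw [h3, map_mul, hcyc _ h2, mul_one, map_pow]
  have hPgen : ∀ (a b : GQ) (i j : ℕ), (a : GQ ⧸ N) ^ j = b → (b : GQ ⧸ N) ^ i = a →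
      P a → P b := by
    intro a b i j h1 h2 ha
    simp only [hP] at ha ⊢
    rw [hcycpow a b j h1, ha, one_pow]
  have hPconj : ∀ g x : GQ, P (x * g * x⁻¹) ↔ P g := fun g x => by
    simp only [hP]
    rw [map_mul, map_mul, map_inv, mul_comm, inv_mul_cancel_left]
  have hmean1 := FP_mean (K := K) hsplit hPgen hN hPconj hσ
  set μ := gavg fun γ : GQ ⧸ N => FP K P γ.out with hμ
  -- the total number of fixed points
  have hTrue : ∀ g, FP K (fun _ => True) g = fixCount K g := fun g => by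
    unfold FP; simp
  have hmean0 := FP_mean (K := K) (P := fun _ => True) hsplit (fun _ _ _ _ _ _ _ => trivial) hN
    (fun _ _ => Iff.rfl) hσ
  simp only [hTrue] at hmean0
  have hone : gavg (fun γ : GQ ⧸ N => (fixCount K γ.out : ℝ)) = 1 :=
    HasMean.unique hmean0 (fixCount_mean' K hσ)
  set T : Finset (DirichletCharacter ℂ m) := Finset.univ.filter fun χ' => TrivOn K χ' with hT
  have hcardΓ : (Nat.card (GQ ⧸ N) : ℝ) ≠ 0 := by
    have : 0 < Nat.card (GQ ⧸ N) := Nat.card_pos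
    positivity
  have hsum0 : ∑ γ : GQ ⧸ N, (fixCount K γ.out : ℝ) = Nat.card (GQ ⧸ N) := by
    rw [gavg, finsum_eq_sum_of_fintype, div_eq_one_iff_eq hcardΓ] at hone
    exact hone
  have hS : ∀ χ' : DirichletCharacter ℂ m, ∑ γ : GQ ⧸ N, (fixCount K γ.out : ℂ) * cg χ' γ.out =
      if TrivOn K χ' then (Nat.card (GQ ⧸ N) : ℂ) else 0 := by
    intro χ'
    split_ifs with h
    · have h1 : ∀ γ : GQ ⧸ N, (fixCount K γ.out : ℂ) * cg χ' γ.out =
          (((fixCount K γ.out : ℝ)) : ℂ) := by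
        intro γ
        by_cases h0 : fixCount K γ.out = 0
        · simp [h0]
        · have h1 : Nonempty {φ : K →ₐ[ℚ] QBar // γ.out • φ = φ} := by
            rw [fixCount_eq_card] at h0
            exact (Nat.card_ne_zero.mp h0).1
          obtain ⟨φ, hφ⟩ := h1
          rw [h _ φ hφ, mul_one]
          push_cast
          rfl
      simp only [h1]
      rw [← Complex.ofReal_sum, hsum0]
      push_cast
      rfl
    · exact sum_nontriv K h N hsplit hcyc
  have hμT : (m.totient : ℝ) * μ = T.card := by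
    have h1 : ∑ χ' : DirichletCharacter ℂ m, ∑ γ : GQ ⧸ N, (fixCount K γ.out : ℂ) * cg χ' γ.out =
        T.card * (Nat.card (GQ ⧸ N) : ℂ) := by
      simp only [hS]
      rw [← Finset.sum_filter, Finset.sum_const, nsmul_eq_mul]
    rw [Finset.sum_comm] at h1
    have h2 : ∀ γ : GQ ⧸ N, ∑ χ' : DirichletCharacter ℂ m, (fixCount K γ.out : ℂ) * cg χ' γ.out =
        (((m.totient : ℝ) * FP K P γ.out : ℝ) : ℂ) := by
      intro γ
      rw [← Finset.mul_sum]
      unfold cg
      rw [DirichletCharacter.sum_characters_eq]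
      unfold FP
      by_cases h3 : cyc m γ.out = 1
      · rw [if_pos (by rw [h3, Units.val_one]), if_pos (by exact h3)]
        push_cast; ring
      · have h3' : ((cyc m γ.out : (ZMod m)ˣ) : ZMod m) ≠ 1 := fun h =>
          h3 (Units.ext (by rw [h, Units.val_one]))
        rw [if_neg h3', if_neg (by exact h3)]
        push_cast; ring
    simp only [h2] at h1
    rw [← Complex.ofReal_sum, ← Finset.mul_sum] at h1
    have h4 : (m.totient : ℝ) * ∑ γ : GQ ⧸ N, FP K P γ.out = T.card * Nat.card (GQ ⧸ N) := by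
      exact_mod_cast h1
    rw [hμ, gavg, finsum_eq_sum_of_fintype, ← mul_div_assoc, h4, mul_div_assoc,
      div_self hcardΓ, mul_one]
  -- the total sum over all characters
  have hnot : ∀ p : ℕ, p.Prime → p ∉ m.primeFactors → ¬ p ∣ m := fun p hp hpS h =>
    hpS (Nat.mem_primeFactors.mpr ⟨hp, h, NeZero.ne m⟩)
  choose Cb hCb using fun χ' : DirichletCharacter ℂ m => bdd_fixchi K χ' σ
  have hball : ∀ s : Finset (DirichletCharacter ℂ m), BddPrimes (fun p => ∑ χ' ∈ s, R χ' p) :=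
    fun s => ⟨∑ χ' ∈ s, Cb χ', fun p hp => (Finset.abs_sum_le_sum_abs _ _).trans
      (Finset.sum_le_sum fun χ' _ => hCb χ' p hp)⟩
  have htot : HasMean (fun p => ∑ χ' : DirichletCharacter ℂ m, R χ' p) ((m.totient : ℝ) * μ) := by
    refine (hmean1.const_mul (m.totient : ℝ)).congr_finite m.primeFactors (fun p hp hpS => ?_)
      ((bdd_FP K P σ).const_mul _) (hball _)
    simp only [hR]
    rw [← Finset.mul_sum, ← Complex.re_sum, DirichletCharacter.sum_characters_eq]
    have h3 := cyc_frobSys (m := m) hσ hp (hnot p hp hpS)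
    unfold FP
    by_cases h4 : cyc m (σ p) = 1
    · have h5 : (p : ZMod m) = 1 := by rw [← h3, h4, Units.val_one]
      rw [if_pos h5, if_pos (by exact h4)]
      simp only [Complex.natCast_re]
      ring
    · have h5 : (p : ZMod m) ≠ 1 := fun h => h4 (Units.ext (by rw [h3, h, Units.val_one]))
      rw [if_neg h5, if_neg (by exact h4)]
      simp
  have hTm : HasMean (fun p => ∑ χ' ∈ T, R χ' p) (T.card : ℝ) := by
    have h1 := HasMean.sum T (g := R) (c := fun _ => 1) (fun χ' hχ' => by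
      rw [hT, Finset.mem_filter] at hχ'
      exact trivOn_mean K hχ'.2 hσ) (fun χ' _ => bdd_fixchi K χ' σ)
    simpa using h1
  have hD : HasMean (fun p => ∑ χ' ∈ Finset.univ.filter (fun χ' => ¬ TrivOn K χ'), R χ' p) 0 := by
    have h1 := htot.add (hTm.const_mul (-1)) (hball _) ((hball T).const_mul (-1))
    rw [hμT] at h1
    have h2 : (T.card : ℝ) + -1 * T.card = 0 := by ring
    rw [h2] at h1
    refine h1.congr_finite ∅ (fun p _ _ => ?_) ?_ (hball _)
    · rw [← Finset.sum_filter_add_sum_filter_not Finset.univ (fun χ' => TrivOn K χ')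
        (fun χ' => R χ' p), ← hT]
      ring
    · obtain ⟨c1, hc1⟩ := hball Finset.univ
      obtain ⟨c2, hc2⟩ := (hball T).const_mul (-1)
      exact ⟨c1 + c2, fun p hp => (abs_add_le _ _).trans (add_le_add (hc1 p hp) (hc2 p hp))⟩
  -- conclusion
  obtain ⟨A, hA⟩ := hD
  choose! U hU using fun (χ' : DirichletCharacter ℂ m) (h : ¬ TrivOn K χ') => upper_bound K h hσ
  set T' := Finset.univ.filter (fun χ' : DirichletCharacter ℂ m => ¬ TrivOn K χ') with hT'
  have hUall : ∀ᶠ s in 𝓝[>] (1:ℝ), ∀ χ' ∈ T', RR (R χ') s ≤ U χ' := by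
    rw [Finset.eventually_all]
    intro χ' hχ'
    rw [hT', Finset.mem_filter] at hχ'
    exact hU χ' hχ'.2
  have hχT : χ ∈ T' := by rw [hT', Finset.mem_filter]; exact ⟨Finset.mem_univ _, hχ⟩
  refine ⟨|U χ| + |A| + ∑ χ' ∈ T'.erase χ, |U χ'|, ?_⟩
  filter_upwards [hA, hUall, self_mem_nhdsWithin] with s hA hUs hs
  have hs1 : (1:ℝ) < s := hs
  rw [zero_mul, sub_zero] at hA ⊢
  rw [RR_finset_sum T' R Cb (fun χ' _ => hCb χ') hs1, ← Finset.add_sum_erase T' _ hχT] at hA
  have h1 : ∑ χ' ∈ T'.erase χ, RR (R χ') s ≤ ∑ χ' ∈ T'.erase χ, |U χ'| :=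
    Finset.sum_le_sum fun χ' hχ' => (hUs χ' (Finset.mem_of_mem_erase hχ')).trans (le_abs_self _)
  have h2 := hUs χ hχT
  have h3 := abs_le.mp hA
  have h4 : 0 ≤ ∑ χ' ∈ T'.erase χ, |U χ'| := Finset.sum_nonneg fun _ _ => abs_nonneg _
  have h5 := le_abs_self A
  have h6 := le_abs_self (U χ)
  have h7 := abs_nonneg A
  have h8 := abs_nonneg (U χ)
  change |RR (R χ) s| ≤ _
  rw [abs_le]
  constructor <;> linarith [h3.1, h3.2]

end

end TatePole.AT
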