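import Mathlib

/-!
# Few elements of a cyclic group have order prime to a divisor
-/

namespace TatePole.AT

lemma exists_pow_eq_one {n k t : ℕ} (hn : 0 < n) (hk : 0 < k) (hd : k ^ (t + 1) ∣ n)
    {m : ℕ} (hm : m ∣ n) (hkm : ¬ k ∣ m) :
    ∃ q ∈ k.primeFactors, m ∣ n / q ^ (n.factorization q - k.factorization q + 1) := by
  have hm0 : m ≠ 0 := fun h => by
    rw [h] at hm
    exact hn.ne' (Nat.eq_zero_of_zero_dvd hm)
  rw [← Nat.factorization_le_iff_dvd hk.ne' hm0, Finsupp.le_def] at hkm
  push Not at hkm
  obtain ⟨q, hq⟩ := hkm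
  have hqk : q ∈ k.primeFactors := by
    rw [← Nat.support_factorization, Finsupp.mem_support_iff]
    omega
  have hqp : q.Prime := Nat.prime_of_mem_primeFactors hqk
  refine ⟨q, hqk, ?_⟩
  have he : (t + 1) * k.factorization q ≤ n.factorization q := by
    have h1 := (Nat.factorization_le_iff_dvd (pow_pos hk _).ne' hn.ne').mpr hd
    have h2 := Finsupp.le_def.mp h1 q
    rwa [Nat.factorization_pow, Finsupp.smul_apply, smul_eq_mul] at h2
  have hke : k.factorization q ≤ n.factorization q :=
    le_trans (Nat.le_mul_of_pos_left _ (Nat.succ_pos t)) he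
  set j := n.factorization q - k.factorization q + 1 with hj
  have hmul : m * q ^ j ∣ n := by
    have e1 : m * q ^ j = q ^ (m.factorization q + j) * (m / q ^ m.factorization q) := by
      have := Nat.ordProj_mul_ordCompl_eq_self m q
      calc m * q ^ j = (q ^ m.factorization q * (m / q ^ m.factorization q)) * q ^ j := by rw [this]
        _ = _ := by rw [pow_add]; ring
    rw [e1]
    have hcop : Nat.Coprime (q ^ (m.factorization q + j)) (m / q ^ m.factorization q) :=
      Nat.Coprime.pow_left _ (Nat.coprime_ordCompl hqp hm0)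
    refine hcop.mul_dvd_of_dvd_of_dvd ?_ ?_
    · refine (pow_dvd_pow q ?_).trans (Nat.ordProj_dvd n q)
      omega
    · exact (Nat.ordCompl_dvd m q).trans hm
  have hqj : q ^ j ∣ n := (Dvd.intro_left m rfl).trans hmul
  exact (Nat.dvd_div_iff_mul_dvd hqj).mpr (by rwa [mul_comm])

theorem card_bad {C : Type*} [CommGroup C] [Finite C] [IsCyclic C] (k t : ℕ) (hk : 0 < k)
    (hd : k ^ (t + 1) ∣ Nat.card C) :
    2 ^ t * Nat.card {h : C // ¬ k ∣ orderOf h} ≤ k * Nat.card C := by
  classical
  have := Fintype.ofFinite C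
  set n := Nat.card C with hn
  have hn0 : 0 < n := Nat.card_pos
  have hcard : Nat.card {h : C // ¬ k ∣ orderOf h}
      = (Finset.univ.filter (fun h : C => ¬ k ∣ orderOf h)).card := by
    rw [Nat.card_eq_fintype_card, Fintype.card_subtype]
  have hsub : Finset.univ.filter (fun h : C => ¬ k ∣ orderOf h)
      ⊆ k.primeFactors.biUnion (fun q => Finset.univ.filter
        (fun h : C => h ^ (n / q ^ (n.factorization q - k.factorization q + 1)) = 1)) := by
    intro h hh
    rw [Finset.mem_filter] at hh
    obtain ⟨q, hq, hdq⟩ := exists_pow_eq_one hn0 hk hd (orderOf_dvd_natCard h) hh.2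
    rw [Finset.mem_biUnion]
    exact ⟨q, hq, Finset.mem_filter.mpr ⟨Finset.mem_univ _, orderOf_dvd_iff_pow_eq_one.mp hdq⟩⟩
  rw [hcard]
  have h1 : 2 ^ t * (Finset.univ.filter (fun h : C => ¬ k ∣ orderOf h)).card
      ≤ ∑ q ∈ k.primeFactors, n := by
    refine (Nat.mul_le_mul_left _ ((Finset.card_le_card hsub).trans
      Finset.card_biUnion_le)).trans ?_
    rw [Finset.mul_sum]
    refine Finset.sum_le_sum fun q hq => ?_
    have hqp : q.Prime := Nat.prime_of_mem_primeFactors hq
    have hkq : 1 ≤ k.factorization q :=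
      (hqp.dvd_iff_one_le_factorization hk.ne').mp (Nat.dvd_of_mem_primeFactors hq)
    have he : (t + 1) * k.factorization q ≤ n.factorization q := by
      have h1 := (Nat.factorization_le_iff_dvd (pow_pos hk _).ne' hn0.ne').mpr hd
      have h2 := Finsupp.le_def.mp h1 q
      rwa [Nat.factorization_pow, Finsupp.smul_apply, smul_eq_mul] at h2
    set j := n.factorization q - k.factorization q + 1 with hj
    have hjt : t ≤ j := by
      have : t * 1 ≤ t * k.factorization q := Nat.mul_le_mul_left t hkq
      have e : (t + 1) * k.factorization q = t * k.factorization q + k.factorization q := by ring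
      omega
    have hje : j ≤ n.factorization q := by
      have : k.factorization q ≤ n.factorization q :=
        le_trans (Nat.le_mul_of_pos_left _ (Nat.succ_pos t)) he
      omega
    have hdvd : q ^ j ∣ n := (pow_dvd_pow q hje).trans (Nat.ordProj_dvd n q)
    have hpos : 0 < n / q ^ j := Nat.div_pos (Nat.le_of_dvd hn0 hdvd) (pow_pos hqp.pos _)
    have hle : (Finset.univ.filter (fun h : C => h ^ (n / q ^ j) = 1)).card ≤ n / q ^ j :=
      IsCyclic.card_pow_eq_one_le hpos
    calc 2 ^ t * (Finset.univ.filter (fun h : C => h ^ (n / q ^ j) = 1)).card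
        ≤ q ^ j * (n / q ^ j) := by
          refine Nat.mul_le_mul ?_ hle
          exact (Nat.pow_le_pow_left hqp.two_le t).trans (Nat.pow_le_pow_right hqp.pos hjt)
      _ = n := Nat.mul_div_cancel' hdvd
  refine h1.trans ?_
  rw [Finset.sum_const, smul_eq_mul]
  refine Nat.mul_le_mul_right _ ?_
  calc k.primeFactors.card ≤ (Finset.Icc 1 k).card := Finset.card_le_card (fun q hq =>
        Finset.mem_Icc.mpr ⟨(Nat.prime_of_mem_primeFactors hq).one_le,
          Nat.le_of_dvd hk (Nat.dvd_of_mem_primeFactors hq)⟩)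
    _ = k := by simp

end TatePole.AT
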