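import Mathlib
import Pool.Agent.Lib.MP_058a58_ag.AT.CycMean2

open Polynomial Filter Topology NumberField Set

namespace TatePole.AT

section
variable {m : ℕ} [NeZero m]

lemma char_identity (a u : (ZMod m)ˣ) [DecidableEq (ZMod m)ˣ] :
    ∑ χ : DirichletCharacter ℂ m, (χ (a : ZMod m)).re * (χ (u : ZMod m)).re =
      (m.totient : ℝ) / 2 * ((if u = a then 1 else 0) + (if u = a⁻¹ then 1 else 0)) := by
  have h1 : ∀ χ : DirichletCharacter ℂ m, (χ (a : ZMod m)).re * (χ (u : ZMod m)).re =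
      (χ ((a * u : (ZMod m)ˣ) : ZMod m)).re / 2 + (χ ((a⁻¹ * u : (ZMod m)ˣ) : ZMod m)).re / 2 := by
    intro χ
    have h2 : χ ((a⁻¹ : (ZMod m)ˣ) : ZMod m) = (starRingEnd ℂ) (χ (a : ZMod m)) := by
      have h3 : χ ((a⁻¹ : (ZMod m)ˣ) : ZMod m) * χ (a : ZMod m) = 1 := by
        rw [← map_mul, ← Units.val_mul, inv_mul_cancel, Units.val_one, map_one]
      have h4 : (starRingEnd ℂ) (χ (a : ZMod m)) * χ (a : ZMod m) = 1 := by
        rw [mul_comm, Complex.mul_conj, Complex.normSq_eq_norm_sq, χ.unit_norm_eq_one]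
        simp
      have h5 : χ (a : ZMod m) ≠ 0 := by
        intro h
        rw [h, mul_zero] at h3
        exact zero_ne_one h3
      exact mul_right_cancel₀ h5 (h3.trans h4.symm)
    rw [Units.val_mul, Units.val_mul, map_mul, map_mul, h2, Complex.mul_re, Complex.mul_re,
      Complex.conj_re, Complex.conj_im]
    ring
  simp only [h1]
  rw [Finset.sum_add_distrib, ← Finset.sum_div, ← Finset.sum_div, ← Complex.re_sum,
    ← Complex.re_sum, DirichletCharacter.sum_characters_eq, DirichletCharacter.sum_characters_eq]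
  have h6 : ((a * u : (ZMod m)ˣ) : ZMod m) = 1 ↔ u = a⁻¹ := by
    rw [← Units.val_one, Units.ext_iff.symm, mul_eq_one_iff_eq_inv']
  have h7 : ((a⁻¹ * u : (ZMod m)ˣ) : ZMod m) = 1 ↔ u = a := by
    rw [← Units.val_one, Units.ext_iff.symm, inv_mul_eq_one, eq_comm]
  simp only [h6, h7]
  by_cases h8 : u = a <;> by_cases h9 : u = a⁻¹
  · rw [if_pos h9, if_pos h8, if_pos h8, if_pos h9]; simp; ring
  · rw [if_neg h9, if_pos h8, if_pos h8, if_neg h9]; simp
  · rw [if_pos h9, if_neg h8, if_neg h8, if_pos h9]; simp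
  · rw [if_neg h9, if_neg h8, if_neg h8, if_neg h9]; simp

lemma card_triv (a : (ZMod m)ˣ) :
    (orderOf a : ℝ) * (Finset.univ.filter fun χ : DirichletCharacter ℂ m =>
      χ (a : ZMod m) = 1).card = m.totient := by
  classical
  have h1 : ∑ k ∈ Finset.range (orderOf a), ∑ χ : DirichletCharacter ℂ m,
      χ ((a ^ k : (ZMod m)ˣ) : ZMod m) = (m.totient : ℂ) := by
    simp only [DirichletCharacter.sum_characters_eq]
    have h2 : ∀ k ∈ Finset.range (orderOf a), (if ((a ^ k : (ZMod m)ˣ) : ZMod m) = 1 then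
        (m.totient : ℂ) else 0) = if k = 0 then (m.totient : ℂ) else 0 := by
      intro k hk
      rw [Finset.mem_range] at hk
      have h3 : ((a ^ k : (ZMod m)ˣ) : ZMod m) = 1 ↔ k = 0 := by
        rw [← Units.val_one, Units.ext_iff.symm]
        constructor
        · intro h
          by_contra h0
          exact absurd (orderOf_dvd_of_pow_eq_one h)
            (Nat.not_dvd_of_pos_of_lt (Nat.pos_of_ne_zero h0) hk)
        · rintro rfl; exact pow_zero a
      simp only [h3]
    rw [Finset.sum_congr rfl h2, Finset.sum_ite_eq' (Finset.range (orderOf a)) 0]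
    rw [if_pos (Finset.mem_range.mpr (orderOf_pos a))]
  rw [Finset.sum_comm] at h1
  have h4 : ∀ χ : DirichletCharacter ℂ m, ∑ k ∈ Finset.range (orderOf a),
      χ ((a ^ k : (ZMod m)ˣ) : ZMod m) = if χ (a : ZMod m) = 1 then (orderOf a : ℂ) else 0 := by
    intro χ
    simp only [Units.val_pow_eq_pow_val, map_pow]
    split_ifs with h
    · simp [h]
    · have h5 : (χ (a : ZMod m)) ^ orderOf a = 1 := by
        rw [← map_pow, ← Units.val_pow_eq_pow_val, pow_orderOf_eq_one, Units.val_one, map_one]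
      have h6 := mul_geom_sum (χ (a : ZMod m)) (orderOf a)
      rw [h5, sub_self] at h6
      rcases mul_eq_zero.mp h6 with h7 | h7
      · exact (h (sub_eq_zero.mp h7)).elim
      · exact h7
  simp only [h4] at h1
  rw [← Finset.sum_filter, Finset.sum_const, nsmul_eq_mul, mul_comm] at h1
  exact_mod_cast h1

end

/-- number of elements conjugating `s` to `γ` -/
noncomputable def cc {Γ : Type*} [Group Γ] (γ s : Γ) : ℝ := (Nat.card {x : Γ // x⁻¹ * s * x = γ} : ℝ)

lemma cc_nonneg {Γ : Type*} [Group Γ] (γ s : Γ) : 0 ≤ cc γ s := Nat.cast_nonneg _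

lemma cc_le {Γ : Type*} [Group Γ] [Finite Γ] (γ s : Γ) : cc γ s ≤ Nat.card Γ := by
  unfold cc
  exact_mod_cast Nat.card_le_card_of_injective Subtype.val Subtype.val_injective

/-- an element of `H` fixes the tautological embedding of the fixed field. -/
lemma fix_val (N : Subgroup GQ) [N.Normal] {M : IntermediateField ℚ QBar}
    [FiniteDimensional ℚ M] (hN : N = M.fixingSubgroup) (H : Subgroup (GQ ⧸ N))
    [NumberField (fieldOf N H)] (g : GQ) (hg : (g : GQ ⧸ N) ∈ H) :
    ∃ φ : (fieldOf N H) →ₐ[ℚ] QBar, g • φ = φ := by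
  set φ₀ : (fieldOf N H) →ₐ[ℚ] QBar := (fieldOf N H).val with hφ₀
  refine ⟨φ₀, ?_⟩
  have h1 : g ∈ (fieldOf N H).fixingSubgroup := by
    rw [fixingSubgroup_eq N hN H, Subgroup.mem_comap]
    exact hg
  ext x
  exact (IntermediateField.mem_fixingSubgroup_iff (fieldOf N H) g).mp h1 x x.2

theorem trick1 {m : ℕ} [NeZero m] (N : Subgroup GQ) [N.Normal] {M : IntermediateField ℚ QBar}
    [FiniteDimensional ℚ M] (hN : N = M.fixingSubgroup) (cq : GQ ⧸ N →* (ZMod m)ˣ)
    (hcq : ∀ g : GQ, cq (g : GQ ⧸ N) = cyc m g) (γ : GQ ⧸ N) (hord : orderOf γ = orderOf (cq γ))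
    [NumberField (fieldOf N (Subgroup.zpowers γ))]
    [IsTotallyComplex (fieldOf N (Subgroup.zpowers γ))] {σ : ℕ → GQ} (hσ : FrobSys σ) :
    HasMean (fun p => cc γ (σ p : GQ ⧸ N) + cc γ⁻¹ (σ p : GQ ⧸ N)) 2 := by
  classical
  have hfin : Finite (GQ ⧸ N) := finite_quot N hN
  set H := Subgroup.zpowers γ with hH
  set K := fieldOf N H with hK
  set a := cq γ with ha
  set n := orderOf γ with hn
  have hcardH : Nat.card H = n := Nat.card_zpowers γ
  have hconj : ∀ s : GQ, Nat.card {x : GQ ⧸ N // x⁻¹ * (s : GQ ⧸ N) * x ∈ H} =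
      Nat.card H * fixCount K s := fun s => card_conj_mem N hN H s
  have hnpos : 0 < n := orderOf_pos γ
  -- the quotient character on `H`
  have hinj : ∀ y ∈ H, ∀ z ∈ H, cq y = cq z → y = z := by
    intro y hy z hz h
    obtain ⟨i, rfl⟩ := Subgroup.mem_zpowers_iff.mp hy
    obtain ⟨j, rfl⟩ := Subgroup.mem_zpowers_iff.mp hz
    rw [map_zpow, map_zpow, ← ha] at h
    have h1 : a ^ (i - j) = 1 := by rw [zpow_sub, h, mul_inv_cancel]
    have h2 : γ ^ (i - j) = 1 := by
      rw [← orderOf_dvd_iff_zpow_eq_one] at h1 ⊢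
      rw [← hn, hord]
      exact h1
    rw [zpow_sub, mul_inv_eq_one] at h2
    exact h2
  have hcqconj : ∀ (x : GQ ⧸ N) (s : GQ), cq (x⁻¹ * (s : GQ ⧸ N) * x) = cyc m s := by
    intro x s
    rw [map_mul, map_mul, map_inv, hcq, mul_comm, mul_inv_cancel_left]
  have hcc : ∀ δ ∈ H, ∀ s : GQ, cc δ (s : GQ ⧸ N) =
      (n : ℝ) * fixCount K s * (if cyc m s = cq δ then 1 else 0) := by
    intro δ hδ s
    unfold cc
    split_ifs with h
    · rw [mul_one, ← Nat.cast_mul, ← hcardH, ← hconj s, Nat.cast_inj]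
      refine Nat.card_congr (Equiv.subtypeEquivRight fun x => ?_)
      constructor
      · intro h1; rw [h1]; exact hδ
      · intro h1
        exact hinj _ h1 _ hδ (by rw [hcqconj, h])
    · rw [mul_zero, Nat.cast_eq_zero]
      have : IsEmpty {x : GQ ⧸ N // x⁻¹ * (s : GQ ⧸ N) * x = δ} := by
        refine ⟨fun x => h ?_⟩
        rw [← hcqconj x.1 s, x.2]
      exact Nat.card_of_isEmpty
  have hγH : γ ∈ H := Subgroup.mem_zpowers γ
  have hγH' : γ⁻¹ ∈ H := H.inv_mem hγH
  -- trivial characters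
  have htriv : ∀ χ : DirichletCharacter ℂ m, TrivOn K χ ↔ χ (a : ZMod m) = 1 := by
    intro χ
    constructor
    · intro h
      obtain ⟨g, hg⟩ := QuotientGroup.mk_surjective γ
      obtain ⟨φ, h2⟩ := fix_val N hN H g (hg ▸ hγH)
      have h3 := h g φ h2
      unfold cg at h3
      rw [← hcq, hg] at h3
      exact h3
    · intro h g φ hφ
      have h1 : 0 < Nat.card {x : GQ ⧸ N // x⁻¹ * (g : GQ ⧸ N) * x ∈ H} := by
        rw [hconj, hcardH]
        exact Nat.mul_pos hnpos (fixCount_pos K hφ)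
      obtain ⟨⟨x, hx⟩⟩ := (Nat.card_pos_iff.mp h1).1
      obtain ⟨k, hk⟩ := Subgroup.mem_zpowers_iff.mp hx
      have h2 : cyc m g = a ^ k := by rw [← hcqconj x g, ← hk, map_zpow]
      unfold cg
      rw [h2]
      set χ' : (ZMod m)ˣ →* ℂˣ := Units.map (χ : ZMod m →* ℂ) with hχ'
      have h3 : χ' a = 1 := by
        apply Units.ext
        exact h
      have h4 : ((χ' (a ^ k) : ℂˣ) : ℂ) = 1 := by
        rw [map_zpow, h3, one_zpow, Units.val_one]
      exact h4
  -- the mean of the weighted sum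
  set T : Finset (DirichletCharacter ℂ m) := Finset.univ.filter fun χ => χ (a : ZMod m) = 1 with hT
  have hφpos : (0 : ℝ) < m.totient := by exact_mod_cast Nat.totient_pos.mpr (NeZero.pos m)
  have hmean : HasMean (fun p => ∑ χ : DirichletCharacter ℂ m, (n * (2 / m.totient) *
      (χ (a : ZMod m)).re) * ((fixCount K (σ p) : ℝ) * (χ (p : ZMod m)).re))
      (∑ χ : DirichletCharacter ℂ m, (n * (2 / m.totient) * (χ (a : ZMod m)).re) *
        (if χ (a : ZMod m) = 1 then 1 else 0)) := by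
    refine HasMean.sum Finset.univ (fun χ _ => ?_) (fun χ _ => (bdd_fixchi K χ σ).const_mul _)
    refine HasMean.const_mul ?_ _
    split_ifs with h
    · exact trivOn_mean K ((htriv χ).mpr h) hσ
    · exact cyc_mean K (fun h' => h ((htriv χ).mp h')) hσ
  have hval : ∑ χ : DirichletCharacter ℂ m, (n * (2 / m.totient) * (χ (a : ZMod m)).re) *
        (if χ (a : ZMod m) = 1 then 1 else 0) = (2 : ℝ) := by
    have h1 : ∀ χ : DirichletCharacter ℂ m, (n * (2 / m.totient) * (χ (a : ZMod m)).re) *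
        (if χ (a : ZMod m) = 1 then 1 else 0) =
        if χ (a : ZMod m) = 1 then ((n : ℝ) * (2 / m.totient)) else 0 := by
      intro χ
      split_ifs with h
      · rw [h, Complex.one_re]; ring
      · ring
    simp only [h1]
    rw [← Finset.sum_filter, Finset.sum_const, nsmul_eq_mul]
    have h2 := card_triv a
    rw [← hord] at h2
    rw [show ((Finset.univ.filter fun χ : DirichletCharacter ℂ m => χ (a : ZMod m) = 1).card : ℝ) *
      ((n : ℝ) * (2 / m.totient)) = (n * (Finset.univ.filter fun χ : DirichletCharacter ℂ m =>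
        χ (a : ZMod m) = 1).card) * (2 / m.totient) by ring, h2]
    field_simp
  rw [hval] at hmean
  refine hmean.congr_finite m.primeFactors (fun p hp hpS => ?_) ?_ ?_
  · have hpm : ¬ p ∣ m := fun h => hpS (Nat.mem_primeFactors.mpr ⟨hp, h, NeZero.ne m⟩)
    have hu := cyc_frobSys (m := m) hσ hp hpm
    rw [hcc γ hγH, hcc γ⁻¹ hγH', map_inv, ← ha]
    have h1 := char_identity a (cyc m (σ p))
    rw [hu] at h1
    have h2 : ∑ χ : DirichletCharacter ℂ m, (n * (2 / m.totient) *
        (χ (a : ZMod m)).re) * ((fixCount K (σ p) : ℝ) * (χ (p : ZMod m)).re) =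
        n * (2 / m.totient) * fixCount K (σ p) *
        ∑ χ : DirichletCharacter ℂ m, (χ (a : ZMod m)).re * (χ (p : ZMod m)).re := by
      rw [Finset.mul_sum]
      refine Finset.sum_congr rfl fun χ _ => ?_
      ring
    rw [h2, h1]
    field_simp
  · obtain ⟨C, hC⟩ : ∃ C : DirichletCharacter ℂ m → ℝ, ∀ χ, ∀ p : ℕ, p.Prime →
        |(n * (2 / m.totient) * (χ (a : ZMod m)).re) *
          ((fixCount K (σ p) : ℝ) * (χ (p : ZMod m)).re)| ≤ C χ := by
      choose C hC using fun χ : DirichletCharacter ℂ m => (bdd_fixchi K χ σ).const_mul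
        (n * (2 / m.totient) * (χ (a : ZMod m)).re)
      exact ⟨C, hC⟩
    exact ⟨∑ χ, C χ, fun p hp => (Finset.abs_sum_le_sum_abs _ _).trans
      (Finset.sum_le_sum fun χ _ => hC χ p hp)⟩
  · refine ⟨2 * Nat.card (GQ ⧸ N), fun p _ => ?_⟩
    have h1 := cc_nonneg γ (σ p : GQ ⧸ N)
    have h2 := cc_nonneg γ⁻¹ (σ p : GQ ⧸ N)
    have h3 := cc_le γ (σ p : GQ ⧸ N)
    have h4 := cc_le γ⁻¹ (σ p : GQ ⧸ N)
    rw [abs_of_nonneg (by linarith)]
    linarith

end TatePole.AT
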