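import Mathlib
import Pool.Agent.Lib.MP_058a58_ag.AT.Trick1

open Polynomial Filter Topology NumberField Set

namespace TatePole.AT

/-- an embedding of the algebraic numbers into `ℂ` and the complex conjugation it induces -/
lemma exists_conj : ∃ (j : QBar →ₐ[ℚ] ℂ) (c : GQ), ∀ x, j (c x) = (starRingEnd ℂ) (j x) := by
  let j : QBar →ₐ[ℚ] ℂ := IsAlgClosed.lift
  let alg : Algebra QBar ℂ := (j : QBar →+* ℂ).toAlgebra
  have htower : IsScalarTower ℚ QBar ℂ := IsScalarTower.of_algebraMap_eq fun q => by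
    have : (algebraMap QBar ℂ) = (j : QBar →+* ℂ) := rfl
    rw [this]
    simp
  let cj : ℂ →ₐ[ℚ] ℂ := (starRingEnd ℂ).toRatAlgHom
  refine ⟨j, cj.restrictNormal' QBar, fun x => ?_⟩
  have h := AlgHom.restrictNormal_commutes cj QBar x
  exact h

lemma exists_lift (j : QBar →ₐ[ℚ] ℂ) (K : Type) [Field K] [NumberField K] (ψ : K →ₐ[ℚ] ℂ) :
    ∃ φ : K →ₐ[ℚ] QBar, j.comp φ = ψ := by
  have hinj : Function.Injective fun φ : K →ₐ[ℚ] QBar => j.comp φ := by
    intro φ φ' h
    ext x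
    have := congrArg (fun f : K →ₐ[ℚ] ℂ => f x) h
    exact j.injective this
  have hcard : Nat.card (K →ₐ[ℚ] QBar) = Nat.card (K →ₐ[ℚ] ℂ) := by
    rw [Nat.card_eq_fintype_card, Nat.card_eq_fintype_card, AlgHom.card ℚ K QBar,
      AlgHom.card ℚ K ℂ]
  have hbij := (Nat.bijective_iff_injective_and_card (fun φ : K →ₐ[ℚ] QBar => j.comp φ)).mpr
    ⟨hinj, hcard⟩
  exact hbij.2 ψ

/-- `K` is totally complex if complex conjugation fixes no embedding of `K`. -/
lemma isTotallyComplex_of (j : QBar →ₐ[ℚ] ℂ) (c : GQ)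
    (hc : ∀ x, j (c x) = (starRingEnd ℂ) (j x)) (K : Type) [Field K] [NumberField K]
    (h : ∀ φ : K →ₐ[ℚ] QBar, c • φ ≠ φ) : IsTotallyComplex K where
  isComplex w := by
    rw [← InfinitePlace.not_isReal_iff_isComplex]
    intro hw
    rw [InfinitePlace.isReal_iff] at hw
    obtain ⟨φ, hφ⟩ := exists_lift j K w.embedding.toRatAlgHom
    apply h φ
    ext x
    apply j.injective
    have h1 : j (φ x) = w.embedding x := congrArg (fun f : K →ₐ[ℚ] ℂ => f x) hφ
    show j ((c • φ) x) = j (φ x)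
    rw [smul_emb_apply, hc, h1]
    have h2 := congrArg (fun f : K →+* ℂ => f x) hw
    exact h2

lemma conj_sq (j : QBar →ₐ[ℚ] ℂ) (c : GQ) (hc : ∀ x, j (c x) = (starRingEnd ℂ) (j x)) :
    c * c = 1 := by
  ext x
  apply j.injective
  show j ((c * c) x) = j x
  rw [AlgEquiv.mul_apply, hc, hc, Complex.conj_conj]

lemma cyc_fix_iff {m : ℕ} [NeZero m] (s : GQ) :
    s ∈ (IntermediateField.adjoin ℚ {zt m} : IntermediateField ℚ QBar).fixingSubgroup ↔
      cyc m s = 1 := by
  constructor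
  · intro hs
    rw [IntermediateField.mem_fixingSubgroup_iff] at hs
    exact cyc_eq_one (hs _ (IntermediateField.mem_adjoin_simple_self ℚ _))
  · intro hs
    have h1 : s (zt m) = zt m := by
      rw [cyc_spec, hs, Units.val_one]
      by_cases hm1 : m = 1
      · have h3 : zt m ^ m = 1 := (zt_spec m).pow_eq_one
        have h4 : ∀ k : ℕ, k = 1 → zt m ^ k = zt m := fun k hk => by rw [hk, pow_one]
        have h2 : zt m = 1 := (h4 m hm1).symm.trans h3
        rw [h2, one_pow]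
      · have : Fact (1 < m) := ⟨by have := NeZero.ne m; omega⟩
        rw [ZMod.val_one, pow_one]
    rw [IntermediateField.mem_fixingSubgroup_iff]
    intro x hx
    have h2 : (IntermediateField.adjoin ℚ {zt m} : IntermediateField ℚ QBar) ≤
        IntermediateField.fixedField (Subgroup.zpowers s) := by
      rw [IntermediateField.adjoin_le_iff]
      intro y hy
      rw [Set.mem_singleton_iff] at hy
      subst hy
      rw [SetLike.mem_coe, IntermediateField.mem_fixedField_iff]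
      intro f hf
      have h3 : Subgroup.zpowers s ≤ MulAction.stabilizer GQ (zt m) := by
        rw [Subgroup.zpowers_le]; exact h1
      exact h3 hf
    have h3 := h2 hx
    rw [IntermediateField.mem_fixedField_iff] at h3
    exact h3 s (Subgroup.mem_zpowers s)

/-- counting in a product -/
lemma cc_prod {Γ Γ₁ Γ₂ : Type*} [Group Γ] [Group Γ₁] [CommGroup Γ₂] [DecidableEq Γ₂]
    (e : Γ ≃* Γ₁ × Γ₂) (γ s : Γ) :
    cc γ s = Nat.card Γ₂ * (if (e s).2 = (e γ).2 then cc (e γ).1 (e s).1 else 0) := by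
  unfold cc
  split_ifs with h
  · rw [← Nat.cast_mul, Nat.cast_inj, ← Nat.card_prod]
    refine Nat.card_congr
      { toFun := fun x => ⟨(e x.1).2, (e x.1).1, ?_⟩
        invFun := fun y => ⟨e.symm (y.2.1, y.1), ?_⟩
        left_inv := fun x => ?_
        right_inv := fun y => ?_ }
    · have h1 := congrArg (fun z => (e z).1) x.2
      simp only [map_mul, map_inv, Prod.fst_mul, Prod.fst_inv] at h1
      exact h1
    · apply e.injective
      rw [map_mul, map_mul, map_inv, e.apply_symm_apply]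
      refine Prod.ext ?_ ?_
      · rw [Prod.fst_mul, Prod.fst_mul, Prod.fst_inv]
        exact y.2.2
      · rw [Prod.snd_mul, Prod.snd_mul, Prod.snd_inv]
        rw [mul_comm, mul_inv_cancel_left]
        exact h
    · apply Subtype.ext
      exact e.symm_apply_apply x.1
    · refine Prod.ext ?_ (Subtype.ext ?_)
      · show (e (e.symm (y.2.1, y.1))).2 = y.1
        rw [e.apply_symm_apply]
      · show (e (e.symm (y.2.1, y.1))).1 = y.2.1
        rw [e.apply_symm_apply]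
  · rw [mul_zero, Nat.cast_eq_zero]
    have : IsEmpty {x : Γ // x⁻¹ * s * x = γ} := by
      refine ⟨fun x => h ?_⟩
      have h1 := congrArg (fun z => (e z).2) x.2
      simp only [map_mul, map_inv, Prod.snd_mul, Prod.snd_inv] at h1
      rw [mul_comm, mul_inv_cancel_left] at h1
      exact h1
    exact Nat.card_of_isEmpty

/-- The trick of Chebotarev. -/
theorem trick2 (N : Subgroup GQ) [N.Normal] {M : IntermediateField ℚ QBar}
    [FiniteDimensional ℚ M] (hN : N = M.fixingSubgroup) (j : QBar →ₐ[ℚ] ℂ) (c : GQ)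
    (hc : ∀ x, j (c x) = (starRingEnd ℂ) (j x)) (hcN : c ∉ N) (m : ℕ) [NeZero m]
    (hsurj : ∀ h : (ZMod m)ˣ, ∃ g ∈ N, cyc m g = h) (y : GQ ⧸ N) (h : (ZMod m)ˣ)
    (hdiv : 2 * orderOf y ∣ orderOf h) [DecidableEq (ZMod m)ˣ]
    {σ : ℕ → GQ} (hσ : FrobSys σ) :
    HasMean (fun p => (if cyc m (σ p) = h then cc y (σ p : GQ ⧸ N) else 0) +
      (if cyc m (σ p) = h⁻¹ then cc y⁻¹ (σ p : GQ ⧸ N) else 0)) (2 / m.totient) := by
  have hfinN : Finite (GQ ⧸ N) := finite_quot N hN
  set Θ : GQ →* (GQ ⧸ N) × (ZMod m)ˣ := (QuotientGroup.mk' N).prod (cyc m) with hΘ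
  have hΘs : Function.Surjective Θ := by
    rintro ⟨y, u⟩
    obtain ⟨a, rfl⟩ := QuotientGroup.mk_surjective y
    obtain ⟨b, hb, hbu⟩ := hsurj ((cyc m a)⁻¹ * u)
    refine ⟨a * b, ?_⟩
    rw [hΘ, MonoidHom.prod_apply, map_mul, map_mul, hbu, mul_inv_cancel_left]
    have : (QuotientGroup.mk' N) b = 1 := (QuotientGroup.eq_one_iff b).mpr hb
    rw [this, mul_one]
    rfl
  have hnorm : Θ.ker.Normal := MonoidHom.normal_ker Θ
  have hmemN' : ∀ s : GQ, s ∈ Θ.ker ↔ s ∈ N ∧ cyc m s = 1 := by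
    intro s
    rw [MonoidHom.mem_ker, hΘ, MonoidHom.prod_apply, Prod.mk_eq_one]
    exact and_congr_left fun _ => QuotientGroup.eq_one_iff s
  set M₀ : IntermediateField ℚ QBar := IntermediateField.adjoin ℚ {zt m} with hM₀
  have hfd0 : FiniteDimensional ℚ M₀ := IntermediateField.adjoin.finiteDimensional
    ((isIntegral_zt (m := m)).tower_top)
  have hfd' : FiniteDimensional ℚ (M ⊔ M₀ : IntermediateField ℚ QBar) :=
    IntermediateField.finiteDimensional_sup M M₀
  have hN' : Θ.ker = (M ⊔ M₀ : IntermediateField ℚ QBar).fixingSubgroup := by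
    ext s
    rw [hmemN', hN, ← cyc_fix_iff, ← Subgroup.mem_inf, IntermediateField.fixingSubgroup_sup]
  set e : GQ ⧸ Θ.ker ≃* (GQ ⧸ N) × (ZMod m)ˣ :=
    QuotientGroup.quotientKerEquivOfSurjective Θ hΘs with he
  have hemk : ∀ s : GQ, e (s : GQ ⧸ Θ.ker) = ((s : GQ ⧸ N), cyc m s) := fun s => rfl
  set cq : GQ ⧸ Θ.ker →* (ZMod m)ˣ := (MonoidHom.snd _ _).comp e.toMonoidHom with hcq
  have hcqmk : ∀ s : GQ, cq (s : GQ ⧸ Θ.ker) = cyc m s := fun s => rfl
  set γ : GQ ⧸ Θ.ker := e.symm (y, h) with hγ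
  have heγ : e γ = (y, h) := e.apply_symm_apply _
  have hcqγ : cq γ = h := congrArg Prod.snd heγ
  have hyh : y ^ orderOf h = 1 := by
    rw [← orderOf_dvd_iff_pow_eq_one]
    exact (Dvd.intro_left 2 rfl).trans hdiv
  have hord : orderOf γ = orderOf (cq γ) := by
    rw [hcqγ]
    refine Nat.dvd_antisymm ?_ ?_
    · rw [orderOf_dvd_iff_pow_eq_one]
      apply e.injective
      rw [map_pow, heγ, map_one, Prod.pow_mk, pow_orderOf_eq_one, hyh]
      rfl
    · rw [← hcqγ]
      exact orderOf_map_dvd cq γ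
  have hNF : NumberField (fieldOf Θ.ker (Subgroup.zpowers γ)) := numberField_fieldOf Θ.ker hN' _
  have hcsq := conj_sq j c hc
  have hTC : IsTotallyComplex (fieldOf Θ.ker (Subgroup.zpowers γ)) := by
    refine isTotallyComplex_of j c hc _ fun φ hφ => hcN ?_
    have h1 := card_conj_mem Θ.ker hN' (Subgroup.zpowers γ) c
    have hfin : Finite (GQ ⧸ Θ.ker) := finite_quot _ hN'
    have h2 : 0 < Nat.card {x : GQ ⧸ Θ.ker // x⁻¹ * (c : GQ ⧸ Θ.ker) * x ∈
        Subgroup.zpowers γ} := by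
      rw [h1]
      exact Nat.mul_pos Nat.card_pos (fixCount_pos _ hφ)
    obtain ⟨⟨x, hx⟩⟩ := (Nat.card_pos_iff.mp h2).1
    obtain ⟨k, hk⟩ := Subgroup.mem_zpowers_iff.mp hx
    have h3 := congrArg e hk
    rw [map_zpow, heγ, map_mul, map_mul, map_inv, hemk] at h3
    have h4 : y ^ k = (e x).1⁻¹ * (c : GQ ⧸ N) * (e x).1 := congrArg Prod.fst h3
    have h5 : h ^ k = (e x).2⁻¹ * cyc m c * (e x).2 := congrArg Prod.snd h3
    rw [mul_comm, mul_inv_cancel_left] at h5
    have h6 : h ^ (2 * k) = 1 := by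
      rw [mul_comm, zpow_mul, h5, zpow_two, ← map_mul, hcsq, map_one]
    have h7 : ((2 * orderOf y : ℕ) : ℤ) ∣ 2 * k :=
      (Int.natCast_dvd_natCast.mpr hdiv).trans (orderOf_dvd_iff_zpow_eq_one.mpr h6)
    have h8 : ((orderOf y : ℕ) : ℤ) ∣ k := by
      rw [Nat.cast_mul] at h7
      exact (mul_dvd_mul_iff_left (by norm_num : ((2 : ℕ) : ℤ) ≠ 0)).mp h7
    have h9 : y ^ k = 1 := orderOf_dvd_iff_zpow_eq_one.mp h8
    rw [h9] at h4
    have h10 : (c : GQ ⧸ N) = 1 := by
      have h11 : (c : GQ ⧸ N) = (e x).1 * ((e x).1⁻¹ * (c : GQ ⧸ N) * (e x).1) * (e x).1⁻¹ := by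
        group
      rw [h11, ← h4]
      group
    exact (QuotientGroup.eq_one_iff c).mp h10
  have hmain := trick1 Θ.ker hN' cq hcqmk γ hord hσ
  have hcardZ : Nat.card (ZMod m)ˣ = m.totient := by
    rw [Nat.card_eq_fintype_card, ZMod.card_units_eq_totient]
  have hφpos : (0 : ℝ) < m.totient := by exact_mod_cast Nat.totient_pos.mpr (NeZero.pos m)
  have h1 := hmain.const_mul (1 / (m.totient : ℝ))
  have h2 : (fun p => 1 / (m.totient : ℝ) * (cc γ (σ p : GQ ⧸ Θ.ker) +
      cc γ⁻¹ (σ p : GQ ⧸ Θ.ker))) =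
      fun p => (if cyc m (σ p) = h then cc y (σ p : GQ ⧸ N) else 0) +
      (if cyc m (σ p) = h⁻¹ then cc y⁻¹ (σ p : GQ ⧸ N) else 0) := by
    funext p
    rw [cc_prod e γ, cc_prod e γ⁻¹, map_inv, heγ, hemk, hcardZ, Prod.inv_mk]
    field_simp
  rw [h2] at h1
  rw [show (2 : ℝ) / m.totient = 1 / (m.totient : ℝ) * 2 by ring]
  exact h1

end TatePole.AT
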