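import Mathlib
import Pool.Agent.Lib.MP_058a58_ag.FieldFamily
import Pool.Agent.Lib.MP_058a58_ag.AT.Trick2
import Pool.Agent.Lib.MP_058a58_ag.AT.Cyclic

open Polynomial Filter Topology NumberField Set

namespace TatePole.AT

/-- `g` has logarithmic density `c` -/
def HasDens (g : ℕ → ℝ) (c : ℝ) : Prop :=
  ∀ ε : ℝ, 0 < ε → ∀ᶠ x in 𝓝[>] (1:ℝ),
    |RR g x - c * Real.log (1 / (x - 1))| ≤ ε * Real.log (1 / (x - 1))

lemma eventually_log_ge (K : ℝ) : ∀ᶠ x in 𝓝[>] (1:ℝ), K ≤ Real.log (1 / (x - 1)) :=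
  tendsto_log.eventually_ge_atTop K

lemma HasMean.dens {g : ℕ → ℝ} {c : ℝ} (h : HasMean g c) : HasDens g c := by
  obtain ⟨K, hK⟩ := h
  intro ε hε
  filter_upwards [hK, eventually_log_ge (K / ε)] with x h1 h2
  refine h1.trans ?_
  rw [div_le_iff₀ hε] at h2
  linarith

lemma HasDens.const_mul {g : ℕ → ℝ} {c : ℝ} (h : HasDens g c) (a : ℝ) :
    HasDens (fun p => a * g p) (a * c) := by
  intro ε hε
  have ha : 0 < |a| + 1 := by positivity
  filter_upwards [h (ε / (|a| + 1)) (by positivity), eventually_log_ge 0] with x hx h0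
  rw [RR_const_mul, mul_assoc, ← mul_sub, abs_mul]
  calc |a| * |RR g x - c * Real.log (1 / (x - 1))| ≤
      (|a| + 1) * (ε / (|a| + 1) * Real.log (1 / (x - 1))) := by
        refine mul_le_mul (by linarith) hx (abs_nonneg _) ha.le
    _ = ε * Real.log (1 / (x - 1)) := by field_simp

lemma HasDens.sum {ι : Type*} (s : Finset ι) {g : ι → ℕ → ℝ} {c : ι → ℝ}
    (h : ∀ i ∈ s, HasDens (g i) (c i)) (b : ∀ i ∈ s, BddPrimes (g i)) :
    HasDens (fun p => ∑ i ∈ s, g i p) (∑ i ∈ s, c i) := by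
  classical
  intro ε hε
  choose! C hC using b
  have hs : 0 < (s.card : ℝ) + 1 := by positivity
  have hall : ∀ᶠ x in 𝓝[>] (1:ℝ), ∀ i ∈ s,
      |RR (g i) x - c i * Real.log (1 / (x - 1))| ≤
        ε / (s.card + 1) * Real.log (1 / (x - 1)) := by
    rw [Finset.eventually_all]
    exact fun i hi => h i hi _ (by positivity)
  filter_upwards [hall, self_mem_nhdsWithin, eventually_log_ge 0] with x hx hx1 h0
  simp only [mem_Ioi] at hx1
  rw [RR_finset_sum s g C hC hx1, Finset.sum_mul, ← Finset.sum_sub_distrib]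
  refine (Finset.abs_sum_le_sum_abs _ _).trans ((Finset.sum_le_sum fun i hi => hx i hi).trans ?_)
  rw [Finset.sum_const, nsmul_eq_mul, ← mul_assoc]
  refine mul_le_mul_of_nonneg_right ?_ h0
  rw [← mul_div_assoc, div_le_iff₀ hs]
  nlinarith

lemma RR_mono {g h : ℕ → ℝ} (bg : BddPrimes g) (bh : BddPrimes h)
    (hle : ∀ p : ℕ, p.Prime → g p ≤ h p) {x : ℝ} (hx : 1 < x) : RR g x ≤ RR h x := by
  obtain ⟨A, hA⟩ := bg
  obtain ⟨B, hB⟩ := bh
  unfold RR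
  refine (summable_RR hA hx).tsum_le_tsum (fun p => ?_) (summable_RR hB hx)
  exact mul_le_mul_of_nonneg_right (hle p p.2) (Real.rpow_nonneg (Nat.cast_nonneg _) _)

lemma bdd_cc (N : Subgroup GQ) [N.Normal] [Finite (GQ ⧸ N)] (y z : GQ ⧸ N) (σ : ℕ → GQ) :
    BddPrimes (fun p => cc y (σ p : GQ ⧸ N) + cc z (σ p : GQ ⧸ N)) := by
  refine ⟨2 * Nat.card (GQ ⧸ N), fun p _ => ?_⟩
  have h1 := cc_nonneg y (σ p : GQ ⧸ N)
  have h2 := cc_nonneg z (σ p : GQ ⧸ N)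
  have h3 := cc_le y (σ p : GQ ⧸ N)
  have h4 := cc_le z (σ p : GQ ⧸ N)
  rw [abs_of_nonneg (by linarith)]
  linarith

/-- existence of suitable primes -/
def BigPrimes (N : Subgroup GQ) : Prop :=
  ∀ k : ℕ, 0 < k → ∃ (m : ℕ) (_ : NeZero m), m.Prime ∧ k ∣ m - 1 ∧
    ∀ h : (ZMod m)ˣ, ∃ g ∈ N, cyc m g = h

theorem dens_lower (N : Subgroup GQ) [N.Normal] {M : IntermediateField ℚ QBar}
    [FiniteDimensional ℚ M] (hN : N = M.fixingSubgroup) (hbig : BigPrimes N)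
    (j : QBar →ₐ[ℚ] ℂ) (c : GQ)
    (hc : ∀ x, j (c x) = (starRingEnd ℂ) (j x)) (hcN : c ∉ N) (y : GQ ⧸ N)
    {σ : ℕ → GQ} (hσ : FrobSys σ) (ε : ℝ) (hε : 0 < ε) :
    ∀ᶠ x in 𝓝[>] (1:ℝ), (2 - ε) * Real.log (1 / (x - 1)) ≤
      RR (fun p => cc y (σ p : GQ ⧸ N) + cc y⁻¹ (σ p : GQ ⧸ N)) x := by
  classical
  have hfinN : Finite (GQ ⧸ N) := finite_quot N hN
  set n : ℕ := 2 * orderOf y with hn
  have hn0 : 0 < n := Nat.mul_pos two_pos (orderOf_pos y)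
  obtain ⟨t, ht⟩ : ∃ t : ℕ, 4 * (n : ℝ) / ε ≤ 2 ^ t := by
    obtain ⟨t, ht⟩ := pow_unbounded_of_one_lt (4 * (n : ℝ) / ε) (one_lt_two)
    exact ⟨t, ht.le⟩
  obtain ⟨m, hm0, hmp, hdm, hsurj⟩ := hbig (n ^ (t + 1)) (pow_pos hn0 _)
  have hφ : m.totient = m - 1 := Nat.totient_prime hmp
  have hφpos : (0 : ℝ) < m.totient := by exact_mod_cast Nat.totient_pos.mpr (NeZero.pos m)
  have hcardZ : Nat.card (ZMod m)ˣ = m.totient := by
    rw [Nat.card_eq_fintype_card, ZMod.card_units_eq_totient]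
  have hF : Fact m.Prime := ⟨hmp⟩
  have hbad := card_bad (C := (ZMod m)ˣ) n t hn0 (by rw [hcardZ, hφ]; exact hdm)
  rw [hcardZ] at hbad
  set G : Finset (ZMod m)ˣ := Finset.univ.filter (fun h => n ∣ orderOf h) with hG
  have hGc : (G.card : ℝ) + Nat.card {h : (ZMod m)ˣ // ¬ n ∣ orderOf h} = m.totient := by
    have h1 : Nat.card {h : (ZMod m)ˣ // ¬ n ∣ orderOf h} =
        (Finset.univ.filter (fun h : (ZMod m)ˣ => ¬ n ∣ orderOf h)).card := by
      rw [Nat.card_eq_fintype_card, Fintype.card_subtype]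
    rw [h1, hG, ← Nat.cast_add, Finset.card_filter_add_card_filter_not, Finset.card_univ,
      ← Nat.card_eq_fintype_card, hcardZ]
  have hmean : HasMean (fun p => ∑ h ∈ G, ((if cyc m (σ p) = h then cc y (σ p : GQ ⧸ N) else 0) +
      (if cyc m (σ p) = h⁻¹ then cc y⁻¹ (σ p : GQ ⧸ N) else 0))) (∑ _h ∈ G, 2 / m.totient) := by
    refine HasMean.sum G (fun h hh => ?_) (fun h hh => ?_)
    · exact trick2 N hN j c hc hcN m hsurj y h (Finset.mem_filter.mp hh).2 hσ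
    · refine ⟨2 * Nat.card (GQ ⧸ N), fun p _ => ?_⟩
      have h1 := cc_nonneg y (σ p : GQ ⧸ N)
      have h2 := cc_nonneg y⁻¹ (σ p : GQ ⧸ N)
      have h3 := cc_le y (σ p : GQ ⧸ N)
      have h4 := cc_le y⁻¹ (σ p : GQ ⧸ N)
      simp only
      rw [abs_of_nonneg (by split_ifs <;> linarith)]
      split_ifs <;> linarith
  rw [Finset.sum_const, nsmul_eq_mul] at hmean
  obtain ⟨K, hK⟩ := hmean
  filter_upwards [hK, eventually_log_ge (2 * K / ε), eventually_log_ge 0, self_mem_nhdsWithin]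
    with x h1 h2 h3 hx
  have hx1 : 1 < x := hx
  set L := Real.log (1 / (x - 1)) with hL
  have hle : RR (fun p => ∑ h ∈ G, ((if cyc m (σ p) = h then cc y (σ p : GQ ⧸ N) else 0) +
      (if cyc m (σ p) = h⁻¹ then cc y⁻¹ (σ p : GQ ⧸ N) else 0))) x ≤
      RR (fun p => cc y (σ p : GQ ⧸ N) + cc y⁻¹ (σ p : GQ ⧸ N)) x := by
    have key : ∀ p : ℕ, ∑ h ∈ G, ((if cyc m (σ p) = h then cc y (σ p : GQ ⧸ N) else 0) +
        (if cyc m (σ p) = h⁻¹ then cc y⁻¹ (σ p : GQ ⧸ N) else 0)) ≤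
        cc y (σ p : GQ ⧸ N) + cc y⁻¹ (σ p : GQ ⧸ N) := by
      intro p
      rw [Finset.sum_add_distrib]
      have e1 : ∑ h ∈ G, (if cyc m (σ p) = h then cc y (σ p : GQ ⧸ N) else 0) =
          if cyc m (σ p) ∈ G then cc y (σ p : GQ ⧸ N) else 0 := Finset.sum_ite_eq G _ _
      have e2 : ∑ h ∈ G, (if cyc m (σ p) = h⁻¹ then cc y⁻¹ (σ p : GQ ⧸ N) else 0) =
          if (cyc m (σ p))⁻¹ ∈ G then cc y⁻¹ (σ p : GQ ⧸ N) else 0 := by
        rw [← Finset.sum_ite_eq G (cyc m (σ p))⁻¹ fun _ => cc y⁻¹ (σ p : GQ ⧸ N)]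
        refine Finset.sum_congr rfl fun h _ => ?_
        simp only [eq_inv_iff_mul_eq_one, inv_eq_iff_mul_eq_one]
      rw [e1, e2]
      have h4 := cc_nonneg y (σ p : GQ ⧸ N)
      have h5 := cc_nonneg y⁻¹ (σ p : GQ ⧸ N)
      split_ifs <;> linarith
    refine RR_mono ?_ (bdd_cc N y y⁻¹ σ) (fun p _ => key p) hx1
    refine ⟨2 * Nat.card (GQ ⧸ N), fun p _ => ?_⟩
    have h3 := cc_le y (σ p : GQ ⧸ N)
    have h4 := cc_le y⁻¹ (σ p : GQ ⧸ N)
    have h5 := key p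
    have h6 : 0 ≤ ∑ h ∈ G, ((if cyc m (σ p) = h then cc y (σ p : GQ ⧸ N) else 0) +
        (if cyc m (σ p) = h⁻¹ then cc y⁻¹ (σ p : GQ ⧸ N) else 0)) := by
      refine Finset.sum_nonneg fun h _ => ?_
      have h4 := cc_nonneg y (σ p : GQ ⧸ N)
      have h5 := cc_nonneg y⁻¹ (σ p : GQ ⧸ N)
      split_ifs <;> linarith
    rw [abs_of_nonneg h6]
    linarith
  refine le_trans ?_ hle
  have h4 := (abs_le.mp h1).1
  have hc1 : 2 - ε / 2 ≤ (G.card : ℝ) * (2 / m.totient) := by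
    have hb : (2 : ℝ) ^ t * Nat.card {h : (ZMod m)ˣ // ¬ n ∣ orderOf h} ≤ n * m.totient := by
      exact_mod_cast hbad
    have h2t : (0 : ℝ) < 2 ^ t := by positivity
    have hb2 : (Nat.card {h : (ZMod m)ˣ // ¬ n ∣ orderOf h} : ℝ) ≤ ε / 4 * m.totient := by
      have h5 : (n : ℝ) ≤ ε / 4 * 2 ^ t := by
        rw [div_le_iff₀ hε] at ht
        linarith
      have h6 : (2 : ℝ) ^ t * Nat.card {h : (ZMod m)ˣ // ¬ n ∣ orderOf h} ≤
          2 ^ t * (ε / 4 * m.totient) := by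
        refine hb.trans ?_
        calc (n : ℝ) * m.totient ≤ (ε / 4 * 2 ^ t) * m.totient :=
              mul_le_mul_of_nonneg_right h5 hφpos.le
          _ = _ := by ring
      exact le_of_mul_le_mul_left h6 h2t
    have h7 : (1 - ε / 4) * m.totient ≤ G.card := by linarith
    calc 2 - ε / 2 = ((1 - ε / 4) * m.totient) * (2 / m.totient) := by field_simp; ring
      _ ≤ _ := mul_le_mul_of_nonneg_right h7 (by positivity)
  have h5 : K ≤ ε / 2 * L := by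
    rw [div_le_iff₀ hε] at h2
    linarith
  have h6 := mul_le_mul_of_nonneg_right hc1 h3
  have h7 : (2 - ε) * L = (2 - ε / 2) * L - ε / 2 * L := by ring
  rw [h7]
  linarith

lemma sum_cc {Γ : Type*} [Group Γ] [Fintype Γ] (f : Γ → ℝ) (hf : ∀ x g : Γ, f (x⁻¹ * g * x) = f g)
    (s : Γ) : ∑ y, f y * cc y s = Nat.card Γ * f s := by
  classical
  have h1 : ∀ y : Γ, f y * cc y s = ∑ x : Γ, if x⁻¹ * s * x = y then f s else 0 := by
    intro y
    unfold cc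
    rw [Nat.card_eq_fintype_card, Fintype.card_subtype, Finset.card_eq_sum_ones, Nat.cast_sum,
      Finset.mul_sum, Finset.sum_filter]
    refine Finset.sum_congr rfl fun x _ => ?_
    split_ifs with h
    · rw [← h, hf]; simp
    · rfl
  rw [Finset.sum_congr rfl fun y _ => h1 y, Finset.sum_comm]
  have h2 : ∀ x : Γ, ∑ y : Γ, (if x⁻¹ * s * x = y then f s else 0) = f s := by
    intro x
    rw [Finset.sum_ite_eq Finset.univ (x⁻¹ * s * x) (fun _ => f s), if_pos (Finset.mem_univ _)]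
  rw [Finset.sum_congr rfl fun x _ => h2 x, Finset.sum_const, Finset.card_univ, nsmul_eq_mul,
    Nat.card_eq_fintype_card]

lemma sum_cc' {Γ : Type*} [Group Γ] [Fintype Γ] (f : Γ → ℝ) (hf : ∀ x g : Γ, f (x⁻¹ * g * x) = f g)
    (hinv : ∀ g, f g⁻¹ = f g) (s : Γ) :
    ∑ y, f y * (cc y s + cc y⁻¹ s) = 2 * Nat.card Γ * f s := by
  have h1 : ∑ y, f y * cc y⁻¹ s = ∑ y, f y * cc y s := by
    rw [← Equiv.sum_comp (Equiv.inv Γ) fun y => f y * cc y s]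
    refine Finset.sum_congr rfl fun y _ => ?_
    simp only [Equiv.inv_apply]
    rw [hinv]
  simp only [mul_add]
  rw [Finset.sum_add_distrib, h1, sum_cc f hf]
  ring

theorem dens_cc (N : Subgroup GQ) [N.Normal] {M : IntermediateField ℚ QBar}
    [FiniteDimensional ℚ M] (hN : N = M.fixingSubgroup) (hbig : BigPrimes N)
    (j : QBar →ₐ[ℚ] ℂ) (c : GQ)
    (hc : ∀ x, j (c x) = (starRingEnd ℂ) (j x)) (hcN : c ∉ N) (y : GQ ⧸ N)
    {σ : ℕ → GQ} (hσ : FrobSys σ) :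
    HasDens (fun p => cc y (σ p : GQ ⧸ N) + cc y⁻¹ (σ p : GQ ⧸ N)) 2 := by
  classical
  have hfinN : Finite (GQ ⧸ N) := finite_quot N hN
  have : Fintype (GQ ⧸ N) := Fintype.ofFinite _
  intro ε hε
  set r : ℝ := (Nat.card (GQ ⧸ N) : ℝ) with hr
  have hr1 : 1 ≤ r := by
    rw [hr]; exact_mod_cast Nat.card_pos
  set δ : ℝ := ε / (r + 1) with hδ
  have hδ0 : 0 < δ := by positivity
  have hall : ∀ᶠ x in 𝓝[>] (1:ℝ), ∀ z : GQ ⧸ N, (2 - δ) * Real.log (1 / (x - 1)) ≤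
      RR (fun p => cc z (σ p : GQ ⧸ N) + cc z⁻¹ (σ p : GQ ⧸ N)) x :=
    Filter.eventually_all.mpr fun z => dens_lower N hN hbig j c hc hcN z hσ δ hδ0
  filter_upwards [hall, (HasMean.dens (hasMean_one.const_mul (2 * r))) δ hδ0,
    eventually_log_ge 0, self_mem_nhdsWithin] with x h1 h2 h3 hx
  have hx1 : 1 < x := hx
  set L := Real.log (1 / (x - 1)) with hL
  have hsum : RR (fun _ => 2 * r * 1) x = ∑ z : GQ ⧸ N,
      RR (fun p => cc z (σ p : GQ ⧸ N) + cc z⁻¹ (σ p : GQ ⧸ N)) x := by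
    rw [← RR_finset_sum Finset.univ (fun (z : GQ ⧸ N) p =>
      cc z (σ p : GQ ⧸ N) + cc z⁻¹ (σ p : GQ ⧸ N)) (fun z => (bdd_cc N z z⁻¹ σ).choose)
      (fun z _ => (bdd_cc N z z⁻¹ σ).choose_spec) hx1]
    refine RR_congr (fun p _ => ?_) x
    have h4 := sum_cc' (Γ := GQ ⧸ N) (fun _ => 1) (fun _ _ => rfl) (fun _ => rfl) (σ p : GQ ⧸ N)
    simp only [one_mul] at h4
    rw [h4]
  have hsplit : ∑ z : GQ ⧸ N, RR (fun p => cc z (σ p : GQ ⧸ N) + cc z⁻¹ (σ p : GQ ⧸ N)) x =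
      RR (fun p => cc y (σ p : GQ ⧸ N) + cc y⁻¹ (σ p : GQ ⧸ N)) x +
      ∑ z ∈ Finset.univ.erase y,
        RR (fun p => cc z (σ p : GQ ⧸ N) + cc z⁻¹ (σ p : GQ ⧸ N)) x :=
    (Finset.add_sum_erase Finset.univ _ (Finset.mem_univ y)).symm
  have hlow : (r - 1) * ((2 - δ) * L) ≤ ∑ z ∈ Finset.univ.erase y,
        RR (fun p => cc z (σ p : GQ ⧸ N) + cc z⁻¹ (σ p : GQ ⧸ N)) x := by
    have h5 : ((Finset.univ.erase y : Finset (GQ ⧸ N)).card : ℝ) = r - 1 := by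
      rw [Finset.card_erase_of_mem (Finset.mem_univ y), Finset.card_univ,
        ← Nat.card_eq_fintype_card, Nat.cast_sub Nat.card_pos, hr]
      simp
    rw [← h5, ← nsmul_eq_mul]
    exact Finset.card_nsmul_le_sum _ _ _ fun z _ => h1 z
  have h6 := (abs_le.mp h2).2
  rw [hsum, hsplit] at h6
  have h7 := h1 y
  have h8 : δ * (r + 1) = ε := by rw [hδ]; field_simp
  have h9 : 0 ≤ δ * L := by positivity
  rw [abs_le]
  constructor
  · have h10 : δ * L ≤ ε * L := by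
      rw [← h8]
      nlinarith
    nlinarith
  · have h11 : RR (fun p => cc y (σ p : GQ ⧸ N) + cc y⁻¹ (σ p : GQ ⧸ N)) x ≤
        2 * r * 1 * L + δ * L - (r - 1) * ((2 - δ) * L) := by linarith
    have h12 : 2 * r * 1 * L + δ * L - (r - 1) * ((2 - δ) * L) = 2 * L + δ * r * L := by ring
    have h13 : δ * r * L ≤ ε * L := by
      rw [← h8]
      nlinarith
    linarith

/-- The density theorem of Chebotarev, in logarithmic form, for symmetric class functions. -/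
theorem chebotarev_symm (N : Subgroup GQ) [N.Normal] {M : IntermediateField ℚ QBar}
    [FiniteDimensional ℚ M] (hN : N = M.fixingSubgroup) (hbig : BigPrimes N)
    (j : QBar →ₐ[ℚ] ℂ) (c : GQ)
    (hc : ∀ x, j (c x) = (starRingEnd ℂ) (j x)) (hcN : c ∉ N) (f : GQ ⧸ N → ℝ)
    (hf : ∀ x g, f (x⁻¹ * g * x) = f g) (hinv : ∀ g, f g⁻¹ = f g)
    {σ : ℕ → GQ} (hσ : FrobSys σ) :
    HasDens (fun p => f (σ p : GQ ⧸ N)) (gavg f) := by
  classical
  have hfinN : Finite (GQ ⧸ N) := finite_quot N hN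
  have : Fintype (GQ ⧸ N) := Fintype.ofFinite _
  have hr : (0 : ℝ) < Nat.card (GQ ⧸ N) := by exact_mod_cast Nat.card_pos
  have h1 : HasDens (fun p => ∑ y : GQ ⧸ N, (f y / (2 * Nat.card (GQ ⧸ N))) *
      (cc y (σ p : GQ ⧸ N) + cc y⁻¹ (σ p : GQ ⧸ N)))
      (∑ y : GQ ⧸ N, (f y / (2 * Nat.card (GQ ⧸ N))) * 2) :=
    HasDens.sum Finset.univ (fun y _ => (dens_cc N hN hbig j c hc hcN y hσ).const_mul _)
      (fun y _ => (bdd_cc N y y⁻¹ σ).const_mul _)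
  have h2 : (fun p => ∑ y : GQ ⧸ N, (f y / (2 * Nat.card (GQ ⧸ N))) *
      (cc y (σ p : GQ ⧸ N) + cc y⁻¹ (σ p : GQ ⧸ N))) = fun p => f (σ p : GQ ⧸ N) := by
    funext p
    have h3 := sum_cc' f hf hinv (σ p : GQ ⧸ N)
    have h4 : ∀ y : GQ ⧸ N, (f y / (2 * Nat.card (GQ ⧸ N))) *
        (cc y (σ p : GQ ⧸ N) + cc y⁻¹ (σ p : GQ ⧸ N)) =
        (1 / (2 * Nat.card (GQ ⧸ N))) * (f y * (cc y (σ p : GQ ⧸ N) + cc y⁻¹ (σ p : GQ ⧸ N))) :=
      fun y => by ring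
    rw [Finset.sum_congr rfl fun y _ => h4 y, ← Finset.mul_sum, h3]
    field_simp
  have h3 : ∑ y : GQ ⧸ N, (f y / (2 * Nat.card (GQ ⧸ N))) * 2 = gavg f := by
    unfold gavg
    rw [finsum_eq_sum_of_fintype, Finset.sum_div]
    refine Finset.sum_congr rfl fun y _ => ?_
    field_simp
  rw [h2, h3] at h1
  exact h1

end TatePole.AT
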