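import Mathlib
import Pool.Agent.Lib.MP_058a58_ag.CycRank
import Pool.Agent.Lib.MP_058a58_ag.FD.Stm

open Polynomial Filter Topology
open scoped TensorProduct

namespace TatePole

section
variable {ℓ : ℕ} [Fact ℓ.Prime] {W : Type*} [AddCommGroup W] [Module ℚ_[ℓ] W]
  {V : Type*} [AddCommGroup V] [Module ℂ V] [Algebra ℚ_[ℓ] ℂ]

/-- The complexification `ℂ ⊗ W` of an `ℓ`-adic representation `W`. -/
noncomputable def complexRep (ρ : Representation ℚ_[ℓ] GQ W) :
    Representation ℂ GQ (ℂ ⊗[ℚ_[ℓ]] W) where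
  toFun g := (ρ g).baseChange ℂ
  map_one' := by rw [map_one, Module.End.one_eq_id, LinearMap.baseChange_id]; rfl
  map_mul' g h := by rw [map_mul, ← LinearMap.baseChange_mul]

/-- The tensor product `(ℂ ⊗ W) ⊗ V` of an `ℓ`-adic representation `W` and a complex
representation `V` of the absolute Galois group of `ℚ`. -/
noncomputable def twistRep (ρ : Representation ℚ_[ℓ] GQ W) (τ : Representation ℂ GQ V) :
    Representation ℂ GQ ((ℂ ⊗[ℚ_[ℓ]] W) ⊗[ℂ] V) :=
  (complexRep ρ).tprod τ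

/-- `τ` is an irreducible Artin representation: irreducible, and trivial on all elements that fix
a certain finite set of algebraic numbers. -/
structure IsArtin (τ : Representation ℂ GQ V) : Prop where
  irreducible : τ.IsIrreducible
  finite : ∃ F : Finset QBar, ∀ g : GQ, (∀ x ∈ F, g x = x) → τ g = 1

/-- `det (1 - T · g | W ⊗ V)` -/
noncomputable def twistPoly [FiniteDimensional ℚ_[ℓ] W] [FiniteDimensional ℂ V]
    (ρ : Representation ℚ_[ℓ] GQ W) (τ : Representation ℂ GQ V) (g : GQ) : ℂ[X] :=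
  (twistRep ρ τ g).charpoly.reverse

/-- Both `W` and `V` are unramified at `p`, and `Q` is `det (1 - T · Frob_p | W ⊗ V)`. -/
structure IsTwistFactor [FiniteDimensional ℚ_[ℓ] W] [FiniteDimensional ℂ V]
    (ρ : Representation ℚ_[ℓ] GQ W) (τ : Representation ℂ GQ V) (p : ℕ) (Q : ℂ[X]) : Prop where
  unramified : ∀ 𝔓 : Ideal ZBar, 𝔓.IsPrime → (p : ZBar) ∈ 𝔓 → ∀ g : GQ, IsInertia 𝔓 g →
    ρ g = 1 ∧ τ g = 1
  eq_det : ∀ 𝔓 : Ideal ZBar, 𝔓.IsPrime → (p : ZBar) ∈ 𝔓 → ∀ σ : GQ, IsArithFrob p 𝔓 σ →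
    Q = twistPoly ρ τ σ⁻¹

/-- The `Q p` are, for all primes `p` outside the finite set `S`, the local factors of `W ⊗ V`, and
`Q p` does not vanish at `p ^ (-1 - it)`, for any prime `p`. -/
def TwistFactors [FiniteDimensional ℚ_[ℓ] W] [FiniteDimensional ℂ V]
    (ρ : Representation ℚ_[ℓ] GQ W) (τ : Representation ℂ GQ V)
    (S : Finset ℕ) (t : ℝ) (Q : ℕ → ℂ[X]) : Prop :=
  (∀ p : ℕ, p.Prime → p ∉ S → IsTwistFactor ρ τ p (Q p)) ∧
  ∀ p : ℕ, p.Prime → (Q p).eval ((p : ℂ) ^ (-1 - t * Complex.I)) ≠ 0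

/-- The dimension of the space of invariants of `W ⊗ V` if `t = 0`, and `0` otherwise. -/
noncomputable def twistRank (ρ : Representation ℚ_[ℓ] GQ W) (τ : Representation ℂ GQ V)
    (t : ℝ) : ℕ :=
  if t = 0 then Module.finrank ℂ (twistRep ρ τ).invariants else 0

end

/-- The defect `log |L(s + it)| - r log (1 / (s - m - 1))`, for `L(s) = ∏_p Q_p(p^{m-s})⁻¹`. -/
noncomputable def twistDefect (r : ℕ) (Q : ℕ → ℂ[X]) (m : ℕ) (t s : ℝ) : ℝ :=
  Real.log ‖LFun Q m (s + t * Complex.I)‖ - r * Real.log (1 / (s - (m + 1)))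

/-- The representation of the absolute Galois group of `ℚ` that comes from a representation of a
quotient `Γ`. -/
noncomputable def inflate {Γ : Type*} [Group Γ] {V : Type*} [AddCommGroup V] [Module ℂ V]
    (π : GQ →* Γ) (κ : Representation ℂ Γ V) : Representation ℂ GQ V :=
  MonoidHom.comp κ π

/-- The mean over `Γ × [-T, T]` of the absolute value of `(γ, u) ↦ ∑ c_i tr(γ | V_i) e^{i t_i u}`. -/
noncomputable def meanAbs {Γ : Type*} [Group Γ] [Fintype Γ] {J : Type*} [Fintype J] {V : J → Type*}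
    [∀ i, AddCommGroup (V i)] [∀ i, Module ℂ (V i)] (κ : ∀ i, Representation ℂ Γ (V i))
    (t c : J → ℝ) (T : ℝ) : ℝ :=
  (2 * T * Fintype.card Γ)⁻¹ * ∑ γ, ∫ u in (-T)..T,
    ‖∑ i, c i * (κ i).character γ * Complex.exp (t i * u * Complex.I)‖

end TatePole
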