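import Mathlib
import Pool.Agent.Lib.MP_058a58_ag.AT.Stm
import Pool.Agent.Lib.MP_058a58_ag.AT.CycMean2
import Pool.Agent.Lib.MP_058a58_ag.FieldDefect
import Pool.Agent.Lib.MP_058a58_ag.TracePow
import Pool.Agent.Lib.MP_058a58_ag.Invar

/-!
# Averages of characters over a finite quotient of the Galois group
-/

open Polynomial Filter Topology
open scoped TensorProduct

namespace TatePole.AT

section general

/-- complex conjugation on the trace of an operator of finite order -/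
theorem conj_trace_of_pow_eq_one {V : Type*} [AddCommGroup V] [Module ℂ V]
    [FiniteDimensional ℂ V] (T : Module.End ℂ V) (n : ℕ) (hn : 0 < n) (hT : T ^ n = 1) :
    starRingEnd ℂ (LinearMap.trace ℂ V T) = LinearMap.trace ℂ V (T ^ (n - 1)) := by
  have hζ := Complex.isPrimitiveRoot_exp n hn.ne'
  set ζ := Complex.exp (2 * Real.pi * Complex.I / n) with hζdef
  obtain ⟨m, hm⟩ := exists_multiplicities T n hn hT ζ hζ
  have h1 := hm 1
  rw [pow_one] at h1
  rw [h1, hm (n - 1), map_sum]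
  have hnorm : ‖ζ‖ = 1 := hζ.norm'_eq_one hn.ne'
  have hinv : starRingEnd ℂ ζ = ζ ^ (n - 1) := by
    rw [← Complex.inv_eq_conj hnorm]
    have h2 : ζ ^ (n - 1) * ζ = 1 := by
      rw [← pow_succ, Nat.sub_add_cancel hn, hζ.pow_eq_one]
    exact (eq_inv_of_mul_eq_one_left h2).symm
  refine Finset.sum_congr rfl fun i _ => ?_
  rw [map_mul, map_pow, pow_one, hinv, map_natCast]

variable {Γ : Type*} [Group Γ] [Finite Γ]

theorem conj_character {V : Type*} [AddCommGroup V] [Module ℂ V] [FiniteDimensional ℂ V]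
    (τ : Representation ℂ Γ V) (g : Γ) :
    starRingEnd ℂ (τ.character g) = τ.character g⁻¹ := by
  have hn : 0 < orderOf g := orderOf_pos g
  have h1 : (τ g) ^ orderOf g = 1 := by rw [← map_pow, pow_orderOf_eq_one, map_one]
  have h2 := conj_trace_of_pow_eq_one (τ g) (orderOf g) hn h1
  unfold Representation.character
  rw [h2, ← map_pow]
  congr 2
  refine eq_inv_of_mul_eq_one_left ?_
  rw [← pow_succ, Nat.sub_add_cancel hn, pow_orderOf_eq_one]

open scoped Classical in
theorem sum_normSq_characters [Fintype Γ] {J : Type*} [Fintype J] {V : J → Type*}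
    [∀ i, AddCommGroup (V i)] [∀ i, Module ℂ (V i)] [∀ i, FiniteDimensional ℂ (V i)]
    (τ : ∀ i, Representation ℂ Γ (V i)) (hirr : ∀ i, (τ i).IsIrreducible)
    (hne : ∀ i j, i ≠ j → IsEmpty ((τ i).Equiv (τ j))) (d : J → ℝ) :
    ∑ γ : Γ, ‖∑ i, (d i : ℂ) * (τ i).character γ‖ ^ 2 = (Nat.card Γ : ℝ) * ∑ i, d i ^ 2 := by
  have hcard : (Nat.card Γ : ℂ) ≠ 0 := by
    exact_mod_cast Nat.card_pos.ne'
  let inst : Invertible (Nat.card Γ : ℂ) := invertibleOfNonzero hcard
  have horth : ∀ i j, ∑ γ : Γ, (τ i).character γ * (τ j).character γ⁻¹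
      = if i = j then (Nat.card Γ : ℂ) else 0 := by
    intro i j
    have := hirr i
    have := hirr j
    have h := Representation.char_orthonormal (τ i) (τ j)
    have h2 : ∑ γ : Γ, (τ i).character γ * (τ j).character γ⁻¹
        = (Nat.card Γ : ℂ) * (if Nonempty ((τ j).Equiv (τ i)) then 1 else 0) := by
      rw [← h, ← mul_assoc, mul_inv_cancel₀ hcard, one_mul]
    rw [h2]
    by_cases hij : i = j
    · subst hij
      rw [if_pos ⟨Representation.Equiv.refl (τ i)⟩, if_pos rfl, mul_one]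
    · rw [if_neg hij, if_neg, mul_zero]
      rintro ⟨e⟩
      exact (hne j i (Ne.symm hij)).false e
  have hC : ((∑ γ : Γ, ‖∑ i, (d i : ℂ) * (τ i).character γ‖ ^ 2 : ℝ) : ℂ)
      = (((Nat.card Γ : ℝ) * ∑ i, d i ^ 2 : ℝ) : ℂ) := by
    push_cast
    have e1 : ∀ γ : Γ, (‖∑ i, (d i : ℂ) * (τ i).character γ‖ : ℂ) ^ 2
        = ∑ i, ∑ j, (d i : ℂ) * (d j : ℂ) * ((τ i).character γ * (τ j).character γ⁻¹) := by
      intro γ
      rw [← Complex.mul_conj', map_sum, Finset.sum_mul_sum]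
      refine Finset.sum_congr rfl fun i _ => Finset.sum_congr rfl fun j _ => ?_
      rw [map_mul, Complex.conj_ofReal, conj_character]
      ring
    simp_rw [e1]
    rw [Finset.sum_comm, Finset.mul_sum]
    refine Finset.sum_congr rfl fun i _ => ?_
    rw [Finset.sum_comm]
    have e2 : ∀ j, ∑ γ : Γ, (d i : ℂ) * (d j : ℂ) * ((τ i).character γ * (τ j).character γ⁻¹)
        = if i = j then (d i : ℂ) * (d j : ℂ) * (Nat.card Γ : ℂ) else 0 := by
      intro j
      rw [← Finset.mul_sum, horth i j]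
      split <;> simp
    rw [Finset.sum_congr rfl fun j _ => e2 j]
    simp
    ring
  exact_mod_cast hC

end general

section lift

variable {G : Type*} [Group G] (N : Subgroup G) [N.Normal] {V : Type*} [AddCommGroup V]
  [Module ℂ V]

/-- a representation trivial on `N` as a representation of the quotient -/
noncomputable def liftRep (τ : Representation ℂ G V) (hτ : ∀ g ∈ N, τ g = 1) :
    Representation ℂ (G ⧸ N) V := QuotientGroup.lift N τ (fun g hg => hτ g hg)

lemma liftRep_mk (τ : Representation ℂ G V) (hτ : ∀ g ∈ N, τ g = 1) (g : G) :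
    liftRep N τ hτ (g : G ⧸ N) = τ g := rfl

lemma liftRep_out (τ : Representation ℂ G V) (hτ : ∀ g ∈ N, τ g = 1) (γ : G ⧸ N) :
    liftRep N τ hτ γ = τ γ.out := by
  rw [← liftRep_mk N τ hτ, QuotientGroup.out_eq']

/-- the subrepresentations are the same -/
noncomputable def subIso (τ : Representation ℂ G V) (hτ : ∀ g ∈ N, τ g = 1) :
    Subrepresentation (liftRep N τ hτ) ≃o Subrepresentation τ where
  toFun S := ⟨S.toSubmodule, fun g v hv => S.apply_mem_toSubmodule (g : G ⧸ N) hv⟩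
  invFun S := ⟨S.toSubmodule, fun γ v hv => by
    obtain ⟨g, rfl⟩ := QuotientGroup.mk_surjective γ
    exact S.apply_mem_toSubmodule g hv⟩
  left_inv S := rfl
  right_inv S := rfl
  map_rel_iff' := Iff.rfl

lemma liftRep_irr (τ : Representation ℂ G V) (hτ : ∀ g ∈ N, τ g = 1)
    (h : τ.IsIrreducible) : (liftRep N τ hτ).IsIrreducible :=
  (OrderIso.isSimpleOrder_iff (subIso N τ hτ)).mpr h

lemma liftRep_equiv {V' : Type*} [AddCommGroup V'] [Module ℂ V']
    (τ : Representation ℂ G V) (hτ : ∀ g ∈ N, τ g = 1)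
    (τ' : Representation ℂ G V') (hτ' : ∀ g ∈ N, τ' g = 1)
    (e : (liftRep N τ hτ).Equiv (liftRep N τ' hτ')) : Nonempty (τ.Equiv τ') :=
  ⟨Representation.Equiv.mk e.toLinearEquiv fun g => e.isIntertwining' (g : G ⧸ N)⟩

end lift

section

variable {ℓ : ℕ} [Fact ℓ.Prime] {W : Type*} [AddCommGroup W] [Module ℚ_[ℓ] W]
  [FiniteDimensional ℚ_[ℓ] W] [Algebra ℚ_[ℓ] ℂ]

lemma trace_twistRep {V : Type*} [AddCommGroup V] [Module ℂ V] [FiniteDimensional ℂ V]
    (ρ : Representation ℚ_[ℓ] GQ W) (τ : Representation ℂ GQ V) (g : GQ) :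
    LinearMap.trace ℂ _ (twistRep ρ τ g)
      = algebraMap ℚ_[ℓ] ℂ (LinearMap.trace ℚ_[ℓ] W (ρ g)) * τ.character g := by
  have h : twistRep ρ τ g = TensorProduct.map ((ρ g).baseChange ℂ) (τ g) := rfl
  rw [h, LinearMap.trace_tensorProduct', LinearMap.trace_baseChange]
  rfl

theorem gavg_rank {V : Type*} [AddCommGroup V] [Module ℂ V] [FiniteDimensional ℂ V]
    (N : Subgroup GQ) [N.Normal] [Finite (GQ ⧸ N)] (ρ : Representation ℚ_[ℓ] GQ W)
    (hρ : ∀ g ∈ N, ρ g = 1) (q : GQ → ℚ)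
    (hq : ∀ g, LinearMap.trace ℚ_[ℓ] W (ρ g) = (q g : ℚ_[ℓ]))
    (τ : Representation ℂ GQ V) (hτ : ∀ g ∈ N, τ g = 1) :
    gavg (fun γ : GQ ⧸ N => (q γ.out : ℝ) * (τ.character γ.out).re) =
      Module.finrank ℂ (twistRep ρ τ).invariants := by
  classical
  have : Fintype (GQ ⧸ N) := Fintype.ofFinite _
  have htriv : ∀ g ∈ N, twistRep ρ τ g = 1 := by
    intro g hg
    have h : twistRep ρ τ g = TensorProduct.map ((ρ g).baseChange ℂ) (τ g) := rfl
    rw [h, hρ g hg, hτ g hg, Module.End.one_eq_id, Module.End.one_eq_id,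
      LinearMap.baseChange_id, TensorProduct.map_id]
    rfl
  have h1 := card_mul_finrank_invariants (twistRep ρ τ) N htriv
  have h2 : ∀ γ : GQ ⧸ N, LinearMap.trace ℂ _ (twistRep ρ τ γ.out)
      = ((q γ.out : ℝ) : ℂ) * τ.character γ.out := by
    intro γ
    rw [trace_twistRep, hq, map_ratCast]
    push_cast
    rfl
  simp only [h2] at h1
  have h3 := congrArg Complex.re h1
  rw [Complex.re_sum] at h3
  simp only [Complex.re_ofReal_mul] at h3
  have h4 : ((Fintype.card (GQ ⧸ N) : ℂ) * (Module.finrank ℂ (twistRep ρ τ).invariants : ℂ)).re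
      = (Fintype.card (GQ ⧸ N) : ℝ) * (Module.finrank ℂ (twistRep ρ τ).invariants : ℝ) := by
    rw [← Nat.cast_mul, Complex.natCast_re]
    push_cast
    rfl
  rw [h4] at h3
  unfold gavg
  rw [finsum_eq_sum_of_fintype, Nat.card_eq_fintype_card, ← h3, mul_div_cancel_left₀]
  exact_mod_cast Fintype.card_ne_zero

theorem gavg_orth {J : Type*} [Fintype J] {V : J → Type*} [∀ i, AddCommGroup (V i)]
    [∀ i, Module ℂ (V i)] [∀ i, FiniteDimensional ℂ (V i)]
    (N : Subgroup GQ) [N.Normal] [Finite (GQ ⧸ N)]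
    (τ : ∀ i, Representation ℂ GQ (V i)) (hirr : ∀ i, (τ i).IsIrreducible)
    (hτ : ∀ i, ∀ g ∈ N, τ i g = 1) (hne : ∀ i j, i ≠ j → IsEmpty ((τ i).Equiv (τ j)))
    (d : J → ℝ) :
    gavg (fun γ : GQ ⧸ N => ‖∑ i, (d i : ℂ) * (τ i).character γ.out‖ ^ 2) = ∑ i, d i ^ 2 := by
  classical
  have : Fintype (GQ ⧸ N) := Fintype.ofFinite _
  have h := sum_normSq_characters (fun i => liftRep N (τ i) (hτ i))
    (fun i => liftRep_irr N (τ i) (hτ i) (hirr i))
    (fun i j hij => ⟨fun e => by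
      obtain ⟨e'⟩ := liftRep_equiv N (τ i) (hτ i) (τ j) (hτ j) e
      exact (hne i j hij).false e'⟩) d
  have e1 : ∀ (γ : GQ ⧸ N) (i : J), (liftRep N (τ i) (hτ i)).character γ
      = (τ i).character γ.out := by
    intro γ i
    unfold Representation.character
    rw [liftRep_out]
  simp only [e1] at h
  unfold gavg
  rw [finsum_eq_sum_of_fintype, h, mul_div_cancel_left₀]
  exact_mod_cast Nat.card_pos.ne'

end
end TatePole.AT
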