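import Mathlib
import Pool.Agent.Lib.MP_058a58_ag.AT.Stm
import Pool.Agent.Lib.MP_058a58_ag.AT.CycMean2
import Pool.Agent.Lib.MP_058a58_ag.FieldDefect

/-!
# The order of a twisted `L`-function as a mean value
-/

open Polynomial Filter Topology
open scoped TensorProduct

namespace TatePole.AT

section
variable {ℓ : ℕ} [Fact ℓ.Prime] {W : Type*} [AddCommGroup W] [Module ℚ_[ℓ] W]
  [FiniteDimensional ℚ_[ℓ] W] [Algebra ℚ_[ℓ] ℂ]
  {V : Type*} [AddCommGroup V] [Module ℂ V] [FiniteDimensional ℂ V]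

/-- the eigenvalues of a tensor product with an operator of finite order -/
lemma twist_root_norm {ρ : Representation ℚ_[ℓ] GQ W} {τ : Representation ℂ GQ V} {g : GQ}
    (h1 : ∀ y ∈ ((ρ g).charpoly.map (algebraMap ℚ_[ℓ] ℂ)).roots, ‖y‖ = 1)
    {k : ℕ} (hk : 0 < k) (hτ : τ g ^ k = 1) :
    ∀ x ∈ (twistRep ρ τ g).charpoly.roots, ‖x‖ = 1 := by
  intro x hx
  set A : Module.End ℂ (ℂ ⊗[ℚ_[ℓ]] W) := (ρ g).baseChange ℂ with hA
  set T : Module.End ℂ ((ℂ ⊗[ℚ_[ℓ]] W) ⊗[ℂ] V) := twistRep ρ τ g with hT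
  have hTA : T = TensorProduct.map A (τ g) := rfl
  have hx' : x ∈ spectrum ℂ T :=
    (Module.End.mem_spectrum_iff_isRoot_charpoly T x).2 (Polynomial.isRoot_of_mem_roots hx)
  have h2 : x ^ k ∈ spectrum ℂ (T ^ k) := by
    rw [spectrum.map_pow_of_pos T hk]
    exact ⟨x, hx', rfl⟩
  have h3 : T ^ k = Module.End.rTensorAlgHom ℂ (ℂ ⊗[ℚ_[ℓ]] W) V (A ^ k) := by
    rw [hTA, TensorProduct.map_pow, hτ]
    rfl
  rw [h3] at h2
  have h4 := AlgHom.spectrum_apply_subset (Module.End.rTensorAlgHom ℂ (ℂ ⊗[ℚ_[ℓ]] W) V)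
    (A ^ k) h2
  rw [spectrum.map_pow_of_pos A hk] at h4
  obtain ⟨y, hy, hyx⟩ := h4
  have h5 : y ∈ A.charpoly.roots := by
    rw [Polynomial.mem_roots (LinearMap.charpoly_monic A).ne_zero]
    exact (Module.End.mem_spectrum_iff_isRoot_charpoly A y).1 hy
  have h6 : A.charpoly = (ρ g).charpoly.map (algebraMap ℚ_[ℓ] ℂ) :=
    LinearMap.charpoly_baseChange (ρ g) ℂ
  rw [h6] at h5
  have h7 := h1 y h5
  have h8 : ‖x‖ ^ k = 1 := by
    have h9 : y ^ k = x ^ k := hyx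
    rw [← norm_pow, ← h9, norm_pow, h7, one_pow]
  exact (pow_eq_one_iff_of_nonneg (norm_nonneg x) hk.ne').1 h8

omit [FiniteDimensional ℂ V] in
/-- Artin representations have finite order. -/
lemma artin_finite {τ : Representation ℂ GQ V} (F : Finset QBar)
    (hτ : ∀ g : GQ, (∀ x ∈ F, g x = x) → τ g = 1) (g : GQ) : ∃ k : ℕ, 0 < k ∧ τ g ^ k = 1 := by
  set M : IntermediateField ℚ QBar := IntermediateField.adjoin ℚ (F : Set QBar) with hM
  have hfd : FiniteDimensional ℚ M :=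
    IntermediateField.finiteDimensional_adjoin fun x _ => Algebra.IsIntegral.isIntegral x
  have hopen : IsOpen (M.fixingSubgroup : Set GQ) := IntermediateField.fixingSubgroup_isOpen M
  have hfin : Finite (GQ ⧸ M.fixingSubgroup) :=
    M.fixingSubgroup.quotient_finite_of_isOpen hopen
  have hidx : M.fixingSubgroup.index ≠ 0 := Subgroup.index_ne_zero_of_finite
  obtain ⟨k, hk, -, hmem⟩ := Subgroup.exists_pow_mem_of_index_ne_zero hidx g
  refine ⟨k, hk, ?_⟩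
  rw [← map_pow]
  apply hτ
  intro x hx
  exact (IntermediateField.mem_fixingSubgroup_iff _ _).1 hmem x
    (IntermediateField.subset_adjoin ℚ _ hx)

lemma trace_twistRep (ρ : Representation ℚ_[ℓ] GQ W) (τ : Representation ℂ GQ V) (g : GQ) :
    LinearMap.trace ℂ _ (twistRep ρ τ g) =
      algebraMap ℚ_[ℓ] ℂ (LinearMap.trace ℚ_[ℓ] W (ρ g)) * τ.character g := by
  have h : twistRep ρ τ g = TensorProduct.map ((ρ g).baseChange ℂ) (τ g) := rfl
  rw [h, LinearMap.trace_tensorProduct', LinearMap.trace_baseChange]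
  rfl

/-- The logarithm of a twisted `L`-function at real `s` near `m + 1` is, up to a bounded error, the
sum over the primes of the traces of the twisted representation at the Frobenius elements. -/
theorem twist_log_bound {ρ : Representation ℚ_[ℓ] GQ W} {S : Finset ℕ} {P : ℕ → ℂ[X]}
    (hgood : ∀ p : ℕ, p.Prime → p ∉ S → IsPureLocalFactor ρ (algebraMap ℚ_[ℓ] ℂ) p (P p))
    {τ : Representation ℂ GQ V} (F : Finset QBar) (hτ : ∀ g : GQ, (∀ x ∈ F, g x = x) → τ g = 1)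
    {S' : Finset ℕ} {Q : ℕ → ℂ[X]}
    (hQ : ∀ p : ℕ, p.Prime → p ∉ S' → IsTwistFactor ρ τ p (Q p))
    (hQ0 : ∀ p : ℕ, p.Prime → (Q p).eval ((p : ℂ)⁻¹) ≠ 0) (m : ℕ)
    {σ : ℕ → GQ} (hσ : FrobSys σ) :
    ∃ C : ℝ, ∀ᶠ s : ℝ in 𝓝[>] ((m : ℝ) + 1), |Real.log ‖LFun Q m s‖ -
      RR (fun p => (algebraMap ℚ_[ℓ] ℂ (LinearMap.trace ℚ_[ℓ] W (ρ (σ p)⁻¹)) *
        τ.character (σ p)⁻¹).re) (s - m)| ≤ C := by
  classical
  set n := Module.finrank ℂ ((ℂ ⊗[ℚ_[ℓ]] W) ⊗[ℂ] V) with hn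
  -- the eigenvalues
  have hroots : ∀ p : ℕ, ∃ β : Fin n → ℂ,
      Multiset.map β Finset.univ.val = (twistRep ρ τ (σ p)⁻¹).charpoly.roots := by
    intro p
    apply exists_fin_enum
    have hsplit : (twistRep ρ τ (σ p)⁻¹).charpoly.Splits := IsAlgClosed.splits _
    rw [← hsplit.natDegree_eq_card_roots, LinearMap.charpoly_natDegree]
  choose β hβ using hroots
  have hsum : ∀ p : ℕ, ∑ j, β p j = algebraMap ℚ_[ℓ] ℂ (LinearMap.trace ℚ_[ℓ] W (ρ (σ p)⁻¹)) *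
      τ.character (σ p)⁻¹ := by
    intro p
    have h1 : ∑ j, β p j = (twistRep ρ τ (σ p)⁻¹).charpoly.roots.sum := by
      rw [← hβ]; rfl
    have h2 := sum_roots_map_charpoly (RingHom.id ℂ) (twistRep ρ τ (σ p)⁻¹)
    rw [Polynomial.map_id] at h2
    rw [h1, h2, RingHom.id_apply, trace_twistRep]
  have hnorm : ∀ p : ℕ, p.Prime → p ∉ S ∪ S' → ∀ j, ‖β p j‖ = 1 := by
    intro p hp hpS j
    rw [Finset.mem_union, not_or] at hpS
    obtain ⟨𝔓, h𝔓, hp𝔓, hf⟩ := hσ p hp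
    obtain ⟨α, hα, hα1, -⟩ := (hgood p hp hpS.1).roots_of_frob h𝔓 hp𝔓 hf
    obtain ⟨k, hk, hk1⟩ := artin_finite F hτ (σ p)⁻¹
    refine twist_root_norm (ρ := ρ) (τ := τ) (g := (σ p)⁻¹) (fun y hy => ?_) hk hk1 (β p j) ?_
    · rw [← hα] at hy
      obtain ⟨i, -, rfl⟩ := Multiset.mem_map.1 hy
      exact hα1 i
    · rw [← hβ]
      exact Multiset.mem_map.2 ⟨j, Finset.mem_univ j, rfl⟩
  have heval : ∀ p : ℕ, p.Prime → p ∉ S ∪ S' → ∀ x, (Q p).eval x = ∏ j, (1 - β p j * x) := by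
    intro p hp hpS x
    rw [Finset.mem_union, not_or] at hpS
    obtain ⟨𝔓, h𝔓, hp𝔓, hf⟩ := hσ p hp
    rw [(hQ p hp hpS.2).eq_det 𝔓 h𝔓 hp𝔓 (σ p) hf, twistPoly,
      reverse_eval_eq_prod _ (LinearMap.charpoly_monic _), ← hβ, Multiset.map_map]
    rfl
  have hbad' : ∀ p ∈ S ∪ S', p.Prime → (Q p).eval ((fun _ : ℕ => (1:ℂ)) p * pw p 1) ≠ 0 := by
    intro p hpS hp
    simp only [one_mul, pw_one]
    exact hQ0 p hp
  set A : ℕ → ℂ := fun p => if p ∈ S ∪ S' then 0 else ∑ j, β p j with hA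
  have hAbd : ∀ p : ℕ, p.Prime → ‖A p‖ ≤ n := by
    intro p hp
    simp only [hA]
    split_ifs with h
    · rw [norm_zero]; exact Nat.cast_nonneg _
    · refine (norm_sum_le _ _).trans ?_
      rw [Finset.sum_congr rfl fun j _ => hnorm p hp h j, Finset.sum_const, Finset.card_univ,
        Fintype.card_fin, nsmul_eq_mul, mul_one]
  have hbd : BddPrimes (fun p => (algebraMap ℚ_[ℓ] ℂ (LinearMap.trace ℚ_[ℓ] W (ρ (σ p)⁻¹)) *
      τ.character (σ p)⁻¹).re) := by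
    refine ⟨n + ∑ p ∈ S ∪ S', ‖algebraMap ℚ_[ℓ] ℂ (LinearMap.trace ℚ_[ℓ] W (ρ (σ p)⁻¹)) *
      τ.character (σ p)⁻¹‖, fun p hp => (Complex.abs_re_le_norm _).trans ?_⟩
    by_cases h : p ∈ S ∪ S'
    · have h1 := Finset.single_le_sum (f := fun p =>
        ‖algebraMap ℚ_[ℓ] ℂ (LinearMap.trace ℚ_[ℓ] W (ρ (σ p)⁻¹)) * τ.character (σ p)⁻¹‖)
        (fun _ _ => norm_nonneg _) h
      have h2 : (0 : ℝ) ≤ n := Nat.cast_nonneg _
      linarith
    · have h1 := hAbd p hp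
      simp only [hA] at h1
      rw [if_neg h, hsum] at h1
      have h2 : 0 ≤ ∑ p ∈ S ∪ S', ‖algebraMap ℚ_[ℓ] ℂ (LinearMap.trace ℚ_[ℓ] W (ρ (σ p)⁻¹)) *
          τ.character (σ p)⁻¹‖ := Finset.sum_nonneg fun _ _ => norm_nonneg _
      linarith
  obtain ⟨C1, hC1⟩ := log_ZZ_split (Q := Q) (S := S ∪ S') (β := β) (v := fun _ => 1)
    (fun p hp hpS j => (hnorm p hp hpS j).le) heval (fun p _ => by simp) hbad' hAbd
    (R0 := fun _ => 0) (K2 := 0) (fun p _ => by simp) (fun p hp hpS => by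
      simp only [hA, mul_one, add_zero]
      rw [if_neg hpS])
  obtain ⟨C2, hC2⟩ := RR_near (g := fun p => (A p).re)
    (h := fun p => (algebraMap ℚ_[ℓ] ℂ (LinearMap.trace ℚ_[ℓ] W (ρ (σ p)⁻¹)) *
        τ.character (σ p)⁻¹).re) (S ∪ S') (fun p hp hpS => by
      simp only [hA]
      rw [if_neg hpS, hsum])
    ⟨n, fun p hp => (Complex.abs_re_le_norm _).trans (hAbd p hp)⟩ hbd
  refine ⟨C1 + C2, ?_⟩
  have hsh : Tendsto (fun s : ℝ => s - m) (𝓝[>] ((m : ℝ) + 1)) (𝓝[>] (1 : ℝ)) :=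
    (tendsto_shift m (fun x : ℝ => x)).mpr tendsto_id
  filter_upwards [hsh.eventually hC1, hsh.eventually self_mem_nhdsWithin] with s hs1 hs2
  have h0 : RR (fun p : ℕ => ((fun _ : ℕ => (0 : ℂ)) p).re) (s - m) = 0 := by
    unfold RR
    simp
  rw [h0, add_zero] at hs1
  have h5 := TatePole.LFun_eq_ZZ Q m (s - m)
  rw [show ((m : ℝ) + (s - m) : ℝ) = s by ring] at h5
  rw [h5]
  have h6 := hC2 (s - m) hs2
  have h7 := abs_sub_le (Real.log ‖TatePole.ZZ Q (fun _ => 1) (s - m)‖)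
    (RR (fun p => (A p).re) (s - m))
    (RR (fun p => (algebraMap ℚ_[ℓ] ℂ (LinearMap.trace ℚ_[ℓ] W (ρ (σ p)⁻¹)) *
        τ.character (σ p)⁻¹).re) (s - m))
  linarith

end

end TatePole.AT
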