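import Mathlib
import Pool.Agent.Lib.MP_058a58_ag.Gram2
import Pool.Agent.Lib.MP_058a58_ag.AT.Trick3
import Pool.Agent.Lib.MP_058a58_ag.AT.BigPrime
import Pool.Agent.Lib.MP_058a58_ag.AT.TwistLog
import Pool.Agent.Lib.MP_058a58_ag.AT.TwistFin

open Polynomial Filter Topology NumberField Set
open scoped TensorProduct

namespace TatePole.AT

lemma conj_not_fix (j : QBar →ₐ[ℚ] ℂ) (c : GQ) (hc : ∀ x, j (c x) = (starRingEnd ℂ) (j x)) :
    c (zt 4) ≠ zt 4 := by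
  intro h
  have h1 := hc (zt 4)
  rw [h] at h1
  have h2 : (zt 4) ^ 2 = -1 := by
    have h3 : IsPrimitiveRoot ((zt 4) ^ 2) 2 :=
      (zt_spec 4).pow (by norm_num) (by norm_num)
    exact h3.eq_neg_one_of_two_right
  have h3 : (j (zt 4)) ^ 2 = -1 := by rw [← map_pow, h2, map_neg, map_one]
  have h4 : (j (zt 4)).im = 0 := Complex.conj_eq_iff_im.mp h1.symm
  have h5 := congrArg Complex.re h3
  rw [pow_two, Complex.mul_re, h4, Complex.neg_re, Complex.one_re] at h5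
  nlinarith [mul_self_nonneg (j (zt 4)).re]

lemma exists_bigN (F : Finset QBar) : ∃ M : IntermediateField ℚ QBar, FiniteDimensional ℚ M ∧
    M.fixingSubgroup.Normal ∧ ∀ g ∈ M.fixingSubgroup, ∀ x ∈ F, g x = x := by
  obtain ⟨M₀, h1, h2⟩ := exists_field_of_finset F
  obtain ⟨M, h3, h4, h5, _⟩ := exists_normal_field M₀ ℚ
  exact ⟨M, h3, h4, fun g hg => h2 g (h5 hg)⟩

lemma char_inv_conj {V : Type*} [AddCommGroup V] [Module ℂ V] [FiniteDimensional ℂ V]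
    (τ : Representation ℂ GQ V) (g : GQ) (n : ℕ) (hn : 0 < n) (hg : (τ g) ^ n = 1) :
    τ.character g⁻¹ = (starRingEnd ℂ) (τ.character g) := by
  have h1 : τ g⁻¹ = (τ g) ^ (n - 1) := by
    have h2 : τ g⁻¹ * τ g = 1 := by rw [← map_mul, inv_mul_cancel, map_one]
    calc τ g⁻¹ = τ g⁻¹ * (τ g) ^ n := by rw [hg, mul_one]
      _ = τ g⁻¹ * (τ g * (τ g) ^ (n - 1)) := by
          rw [← pow_succ', Nat.sub_add_cancel hn]
      _ = (τ g) ^ (n - 1) := by rw [← mul_assoc, h2, one_mul]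
  set ζ : ℂ := Complex.exp (2 * Real.pi * Complex.I / n) with hζ
  have hprim : IsPrimitiveRoot ζ n := Complex.isPrimitiveRoot_exp n hn.ne'
  obtain ⟨m, hm⟩ := exists_multiplicities (τ g) n hn hg ζ hprim
  have hζc : (starRingEnd ℂ) ζ = ζ ^ (n - 1) := by
    have h3 : ζ * (starRingEnd ℂ) ζ = 1 := by
      rw [Complex.mul_conj, Complex.normSq_eq_norm_sq, hprim.norm'_eq_one hn.ne']
      simp
    have h4 : ζ * ζ ^ (n - 1) = 1 := by
      rw [← pow_succ', Nat.sub_add_cancel hn, hprim.pow_eq_one]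
    exact mul_left_cancel₀ (hprim.ne_zero hn.ne') (h3.trans h4.symm)
  unfold Representation.character
  rw [h1, hm]
  have h5 := hm 1
  rw [pow_one] at h5
  rw [h5, map_sum]
  refine Finset.sum_congr rfl fun i _ => ?_
  rw [map_mul, map_natCast, map_pow, map_pow, hζc, pow_one]

section
variable (N : Subgroup GQ) [N.Normal] {M : IntermediateField ℚ QBar} [FiniteDimensional ℚ M]
    (hN : N = M.fixingSubgroup)

omit [N.Normal] in
lemma char_congr {k V : Type*} [Field k] [AddCommGroup V] [Module k V]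
    (τ : Representation k GQ V) (hτ : ∀ g ∈ N, τ g = 1) {g h : GQ}
    (hgh : (g : GQ ⧸ N) = (h : GQ ⧸ N)) : τ g = τ h := by
  have h1 : g⁻¹ * h ∈ N := QuotientGroup.eq.mp hgh
  have h2 : h = g * (g⁻¹ * h) := by group
  rw [h2, map_mul, hτ _ h1, mul_one]

include hN in
lemma exists_order {k V : Type*} [Field k] [AddCommGroup V] [Module k V]
    (τ : Representation k GQ V) (hτ : ∀ g ∈ N, τ g = 1) (g : GQ) :
    ∃ n : ℕ, 0 < n ∧ (τ g) ^ n = 1 := by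
  have hfin := finite_quot N hN
  refine ⟨orderOf (g : GQ ⧸ N), orderOf_pos _, ?_⟩
  rw [← map_pow]
  refine hτ _ ?_
  rw [← QuotientGroup.eq_one_iff, QuotientGroup.mk_pow, pow_orderOf_eq_one]

/-- uniform upper bound for prime sums of nonnegative symmetric class functions. -/
lemma unif_upper (hN : N = M.fixingSubgroup) (j : QBar →ₐ[ℚ] ℂ) (c : GQ)
    (hc : ∀ x, j (c x) = (starRingEnd ℂ) (j x)) (hcN : c ∉ N) {σ : ℕ → GQ} (hσ : FrobSys σ)
    (δ : ℝ) (hδ : 0 < δ) :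
    ∀ᶠ x in 𝓝[>] (1:ℝ), ∀ f : GQ ⧸ N → ℝ, (∀ γ, 0 ≤ f γ) → (∀ x g, f (x⁻¹ * g * x) = f g) →
      (∀ g, f g⁻¹ = f g) →
      RR (fun p => f (σ p : GQ ⧸ N)) x ≤ (1 + δ) * gavg f * Real.log (1 / (x - 1)) := by
  classical
  have hfinN : Finite (GQ ⧸ N) := finite_quot N hN
  have : Fintype (GQ ⧸ N) := Fintype.ofFinite _
  have hbig : BigPrimes N := exists_prime_surj N hN
  have hr : (0 : ℝ) < Nat.card (GQ ⧸ N) := by exact_mod_cast Nat.card_pos
  have hall : ∀ᶠ x in 𝓝[>] (1:ℝ), ∀ y : GQ ⧸ N,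
      |RR (fun p => cc y (σ p : GQ ⧸ N) + cc y⁻¹ (σ p : GQ ⧸ N)) x -
        2 * Real.log (1 / (x - 1))| ≤ 2 * δ * Real.log (1 / (x - 1)) :=
    Filter.eventually_all.mpr fun y => dens_cc N hN hbig j c hc hcN y hσ (2 * δ) (by positivity)
  filter_upwards [hall, self_mem_nhdsWithin] with x hx hx1 f hf0 hf hinv
  have hx1' : 1 < x := hx1
  set L := Real.log (1 / (x - 1)) with hL
  have h2 : RR (fun p => f (σ p : GQ ⧸ N)) x = ∑ y : GQ ⧸ N, (f y / (2 * Nat.card (GQ ⧸ N))) *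
      RR (fun p => cc y (σ p : GQ ⧸ N) + cc y⁻¹ (σ p : GQ ⧸ N)) x := by
    have e1 : ∀ y ∈ (Finset.univ : Finset (GQ ⧸ N)), (f y / (2 * Nat.card (GQ ⧸ N))) *
        RR (fun p => cc y (σ p : GQ ⧸ N) + cc y⁻¹ (σ p : GQ ⧸ N)) x =
        RR (fun p => (f y / (2 * Nat.card (GQ ⧸ N))) *
          (cc y (σ p : GQ ⧸ N) + cc y⁻¹ (σ p : GQ ⧸ N))) x := fun y _ => by
      rw [RR_const_mul]
    rw [Finset.sum_congr rfl e1, ← RR_finset_sum Finset.univ
      (fun (y : GQ ⧸ N) p => (f y / (2 * Nat.card (GQ ⧸ N))) *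
        (cc y (σ p : GQ ⧸ N) + cc y⁻¹ (σ p : GQ ⧸ N)))
      (fun y => ((bdd_cc N y y⁻¹ σ).const_mul (f y / (2 * Nat.card (GQ ⧸ N)))).choose)
      (fun y _ => ((bdd_cc N y y⁻¹ σ).const_mul (f y / (2 * Nat.card (GQ ⧸ N)))).choose_spec) hx1']
    refine RR_congr (fun p _ => ?_) x
    have h3 := sum_cc' f hf hinv (σ p : GQ ⧸ N)
    have h4 : ∀ y : GQ ⧸ N, (f y / (2 * Nat.card (GQ ⧸ N))) *
        (cc y (σ p : GQ ⧸ N) + cc y⁻¹ (σ p : GQ ⧸ N)) =
        (1 / (2 * Nat.card (GQ ⧸ N))) * (f y * (cc y (σ p : GQ ⧸ N) + cc y⁻¹ (σ p : GQ ⧸ N))) :=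
      fun y => by ring
    rw [Finset.sum_congr rfl fun y _ => h4 y, ← Finset.mul_sum, h3]
    field_simp
  have h3 : (1 + δ) * gavg f * L = ∑ y : GQ ⧸ N, (f y / (2 * Nat.card (GQ ⧸ N))) *
      ((2 + 2 * δ) * L) := by
    unfold gavg
    rw [finsum_eq_sum_of_fintype, ← Finset.sum_mul, ← Finset.sum_div]
    field_simp
  rw [h2, h3]
  refine Finset.sum_le_sum fun y _ => ?_
  refine mul_le_mul_of_nonneg_left ?_ (div_nonneg (hf0 y) (by positivity))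
  have := (abs_le.mp (hx y)).2
  linarith

end

lemma bdd_of_outside {g : ℕ → ℝ} (S : Finset ℕ) (C : ℝ)
    (h : ∀ p : ℕ, p.Prime → p ∉ S → |g p| ≤ C) : BddPrimes g := by
  refine ⟨|C| + ∑ p ∈ S, |g p|, fun p hp => ?_⟩
  by_cases hpS : p ∈ S
  · have h1 : |g p| ≤ ∑ p ∈ S, |g p| :=
      Finset.single_le_sum (f := fun p => |g p|) (fun _ _ => abs_nonneg _) hpS
    linarith [abs_nonneg C]
  · have h1 := h p hp hpS
    have h2 : 0 ≤ ∑ p ∈ S, |g p| := Finset.sum_nonneg fun _ _ => abs_nonneg _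
    linarith [le_abs_self C]

lemma minkowski_aux {J : Type*} [Fintype J] (R E : J → ℝ) (n e : ℝ) (hn : 0 ≤ n) (he : 0 ≤ e)
    (hR : ∑ i, R i ^ 2 ≤ n ^ 2) (hE : ∑ i, E i ^ 2 ≤ e ^ 2) :
    ∑ i, (R i + E i) ^ 2 ≤ (n + e) ^ 2 := by
  have h1 := Finset.sum_mul_sq_le_sq_mul_sq (Finset.univ : Finset J) R E
  have hE0 : 0 ≤ ∑ i, E i ^ 2 := Finset.sum_nonneg fun i _ => sq_nonneg _
  have h2 : (∑ i, R i * E i) ^ 2 ≤ (n * e) ^ 2 := by
    refine h1.trans ?_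
    rw [mul_pow]
    exact mul_le_mul hR hE hE0 (sq_nonneg _)
  have h3 : ∑ i, R i * E i ≤ n * e := by
    exact (abs_le.mp (abs_le_of_sq_le_sq h2 (mul_nonneg hn he))).2
  have h4 : ∑ i, (R i + E i) ^ 2 = ∑ i, R i ^ 2 + 2 * ∑ i, R i * E i + ∑ i, E i ^ 2 := by
    rw [Finset.mul_sum, ← Finset.sum_add_distrib, ← Finset.sum_add_distrib]
    refine Finset.sum_congr rfl fun i _ => ?_
    ring
  rw [h4]
  nlinarith

end TatePole.AT
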