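import Mathlib
import Pool.Agent.Lib.MP_058a58_ag.Ch.Core

/-!
# The weighted norm with a vertical shift: Lipschitz estimates in `s`
-/

namespace Pool.Agent.MP_058a58_ag.Ch

open Finset NumberField NumberField.mixedEmbedding NumberField.Units NumberField.InfinitePlace
  NumberField.Units.dirichletUnitTheorem Module Filter Topology
open scoped Classical

/-- `exp (-(s + i u) ℓ) - exp (-(1 + i u) ℓ)` -/
noncomputable def phi (u s ℓ : ℝ) : ℂ :=
  Complex.exp (-((s : ℂ) + u * Complex.I) * ℓ) - Complex.exp (-((1 : ℂ) + u * Complex.I) * ℓ)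

lemma norm_exp_aux (u s ℓ : ℝ) :
    ‖Complex.exp (-((s : ℂ) + u * Complex.I) * ℓ)‖ = Real.exp (-(s * ℓ)) := by
  rw [Complex.norm_exp]
  congr 1
  simp

lemma norm_phi_le {u s ℓ : ℝ} (hs : 1 ≤ s) (hℓ : 0 ≤ ℓ) :
    ‖phi u s ℓ‖ ≤ Real.exp (-ℓ) * ((s - 1) * ℓ) := by
  have e : phi u s ℓ = Complex.exp (-((1 : ℂ) + u * Complex.I) * ℓ)
      * (Complex.exp ((-((s - 1) * ℓ) : ℝ) : ℂ) - 1) := by
    unfold phi
    rw [mul_sub, mul_one, ← Complex.exp_add]
    congr 2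
    push_cast
    ring
  have h1 := norm_exp_aux u 1 ℓ
  rw [Complex.ofReal_one, one_mul] at h1
  rw [e, norm_mul, h1]
  apply mul_le_mul_of_nonneg_left _ (Real.exp_pos _).le
  rw [← Complex.ofReal_exp, ← Complex.ofReal_one, ← Complex.ofReal_sub, Complex.norm_real,
    Real.norm_eq_abs]
  have h2 : 0 ≤ (s - 1) * ℓ := mul_nonneg (by linarith) hℓ
  have h3 : Real.exp (-((s - 1) * ℓ)) ≤ 1 := Real.exp_le_one_iff.mpr (by linarith)
  have h4 := Real.add_one_le_exp (-((s - 1) * ℓ))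
  rw [abs_of_nonpos (by linarith)]
  linarith

lemma norm_exp_sub_one_le' (z : ℂ) : ‖Complex.exp z - 1‖ ≤ ‖z‖ * Real.exp ‖z‖ := by
  have h := Complex.norm_exp_sub_sum_le_norm_mul_exp z 1
  simpa using h

/-- difference of `phi` -/
lemma norm_phi_sub_le (u : ℝ) (n : ℝ) : ∃ C : ℝ, 0 ≤ C ∧ ∀ s ℓ ℓ' : ℝ, 1 ≤ s → s ≤ 2 →
    0 ≤ ℓ → |ℓ - ℓ'| ≤ n →
    ‖phi u s ℓ' - phi u s ℓ‖ ≤ C * (s - 1) * Real.exp (-ℓ) * (1 + ℓ) * |ℓ - ℓ'| := by
  refine ⟨(2 + |u|) * Real.exp ((2 + |u|) * n) + Real.exp n * Real.exp n, by positivity, ?_⟩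
  intro s ℓ ℓ' hs hs2 hℓ hτ
  set τ := ℓ - ℓ' with hτdef
  have e : phi u s ℓ' - phi u s ℓ = phi u s ℓ * (Complex.exp (((s : ℂ) + u * Complex.I) * τ) - 1)
      + Complex.exp (-((1 : ℂ) + u * Complex.I) * ℓ) * (Complex.exp (((1 : ℂ) + u * Complex.I) * τ)
        * (Complex.exp (((s - 1) * τ : ℝ) : ℂ) - 1)) := by
    have hℓ' : (ℓ' : ℂ) = ℓ - τ := by rw [hτdef]; push_cast; ring
    unfold phi
    have e1 : Complex.exp (-((s : ℂ) + u * Complex.I) * ℓ')
        = Complex.exp (-((s : ℂ) + u * Complex.I) * ℓ) * Complex.exp (((s : ℂ) + u * Complex.I) * τ) := by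
      rw [← Complex.exp_add, hℓ']
      congr 1
      ring
    have e2 : Complex.exp (-((1 : ℂ) + u * Complex.I) * ℓ')
        = Complex.exp (-((1 : ℂ) + u * Complex.I) * ℓ) * Complex.exp (((1 : ℂ) + u * Complex.I) * τ) := by
      rw [← Complex.exp_add, hℓ']
      congr 1
      ring
    have e3 : Complex.exp (((s : ℂ) + u * Complex.I) * τ)
        = Complex.exp (((1 : ℂ) + u * Complex.I) * τ) * Complex.exp (((s - 1) * τ : ℝ) : ℂ) := by
      rw [← Complex.exp_add]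
      congr 1
      push_cast
      ring
    rw [e1, e2, e3]
    ring
  have hz : ‖((s : ℂ) + u * Complex.I) * τ‖ ≤ (2 + |u|) * |τ| := by
    rw [norm_mul, Complex.norm_real, Real.norm_eq_abs]
    apply mul_le_mul_of_nonneg_right _ (abs_nonneg _)
    refine (norm_add_le _ _).trans ?_
    rw [norm_mul, Complex.norm_real, Complex.norm_real, Complex.norm_I, mul_one,
      Real.norm_eq_abs, Real.norm_eq_abs, abs_of_nonneg (by linarith : 0 ≤ s)]
    linarith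
  have h1 : ‖Complex.exp (((s : ℂ) + u * Complex.I) * τ) - 1‖
      ≤ (2 + |u|) * Real.exp ((2 + |u|) * n) * |τ| := by
    refine (norm_exp_sub_one_le' _).trans ?_
    have h2 : Real.exp ‖((s : ℂ) + u * Complex.I) * τ‖ ≤ Real.exp ((2 + |u|) * n) := by
      apply Real.exp_le_exp.mpr
      refine hz.trans ?_
      exact mul_le_mul_of_nonneg_left hτ (by positivity)
    calc _ ≤ ((2 + |u|) * |τ|) * Real.exp ((2 + |u|) * n) :=
          mul_le_mul hz h2 (Real.exp_pos _).le (by positivity)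
      _ = _ := by ring
  have h3 : ‖Complex.exp (((1 : ℂ) + u * Complex.I) * τ)‖ ≤ Real.exp n := by
    rw [Complex.norm_exp]
    apply Real.exp_le_exp.mpr
    have : (((1 : ℂ) + u * Complex.I) * τ).re = τ := by simp
    rw [this]
    exact (le_abs_self _).trans hτ
  have h4 : ‖Complex.exp (((s - 1) * τ : ℝ) : ℂ) - 1‖ ≤ (s - 1) * |τ| * Real.exp n := by
    refine (norm_exp_sub_one_le' _).trans ?_
    rw [Complex.norm_real, Real.norm_eq_abs, abs_mul, abs_of_nonneg (by linarith : 0 ≤ s - 1)]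
    apply mul_le_mul_of_nonneg_left _ (mul_nonneg (by linarith) (abs_nonneg _))
    apply Real.exp_le_exp.mpr
    calc (s - 1) * |τ| ≤ 1 * n := mul_le_mul (by linarith) hτ (abs_nonneg _) (by norm_num)
      _ = n := one_mul n
  have h5 := norm_phi_le (u := u) hs hℓ
  have h6 : ‖Complex.exp (-((1 : ℂ) + u * Complex.I) * ℓ)‖ = Real.exp (-ℓ) := by
    have := norm_exp_aux u 1 ℓ
    rwa [Complex.ofReal_one, one_mul] at this
  rw [e]
  refine (norm_add_le _ _).trans ?_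
  rw [norm_mul, norm_mul, norm_mul, h6]
  have hE : 0 < Real.exp (-ℓ) := Real.exp_pos _
  have hs0 : 0 ≤ s - 1 := by linarith
  have hτ0 : 0 ≤ |τ| := abs_nonneg _
  have hEn : 0 < Real.exp n := Real.exp_pos _
  have hEn2 : 0 < Real.exp ((2 + |u|) * n) := Real.exp_pos _
  have t1 : ‖phi u s ℓ‖ * ‖Complex.exp (((s : ℂ) + u * Complex.I) * τ) - 1‖
      ≤ (Real.exp (-ℓ) * ((s - 1) * ℓ)) * ((2 + |u|) * Real.exp ((2 + |u|) * n) * |τ|) :=
    mul_le_mul h5 h1 (norm_nonneg _) (by positivity)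
  have t2 : Real.exp (-ℓ) * (‖Complex.exp (((1 : ℂ) + u * Complex.I) * τ)‖
      * ‖Complex.exp (((s - 1) * τ : ℝ) : ℂ) - 1‖)
      ≤ Real.exp (-ℓ) * (Real.exp n * ((s - 1) * |τ| * Real.exp n)) := by
    apply mul_le_mul_of_nonneg_left _ hE.le
    exact mul_le_mul h3 h4 (norm_nonneg _) hEn.le
  refine (add_le_add t1 t2).trans ?_
  have g1 : 0 ≤ Real.exp (-ℓ) * (s - 1) * |τ| * ((2 + |u|) * Real.exp ((2 + |u|) * n)) := by
    positivity
  have g2 : 0 ≤ Real.exp (-ℓ) * (s - 1) * |τ| * (Real.exp n * Real.exp n) * ℓ := by positivity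
  nlinarith [g1, g2]

variable (K : Type*) [Field K] [NumberField K]

/-- the difference `H_s - H_1` of the weighted norms -/
noncomputable def HD (u s : ℝ) (x : mixedSpace K) : ℂ :=
  (wt K x : ℂ) * phi u s (Real.log (mixedEmbedding.norm x))

lemma HD_of_wt {u s : ℝ} {x : mixedSpace K} (h : wt K x = 0) : HD K u s x = 0 := by
  unfold HD
  rw [h, Complex.ofReal_zero, zero_mul]

lemma exists_HD_near (u : ℝ) : ∃ C : ℝ, 0 ≤ C ∧ ∀ (δ : ℝ) (x x' : mixedSpace K) (s : ℝ), 1 ≤ s →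
    s ≤ 2 → δ ≤ 1 → Near K δ x x' → 1 ≤ mixedEmbedding.norm x →
    ‖HD K u s x' - HD K u s x‖ ≤ C * (s - 1) * δ * (mixedEmbedding.norm x) ^ (-1 : ℝ)
      * (1 + Real.log (mixedEmbedding.norm x)) := by
  obtain ⟨C, hC, h⟩ := exists_wt_lip K
  have hn0 : (0 : ℝ) ≤ finrank ℚ K := Nat.cast_nonneg _
  obtain ⟨C', hC', h'⟩ := norm_phi_sub_le u (finrank ℚ K : ℝ)
  refine ⟨C + C' * finrank ℚ K, by positivity, ?_⟩
  intro δ x x' s hs hs2 hδ hN h1
  have hδ0 : 0 ≤ δ := by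
    obtain ⟨v⟩ : Nonempty (InfinitePlace K) := inferInstance
    exact (abs_nonneg _).trans (hN.near v)
  set ℓ := Real.log (mixedEmbedding.norm x) with hℓ
  set ℓ' := Real.log (mixedEmbedding.norm x') with hℓ'
  have hℓ0 : 0 ≤ ℓ := Real.log_nonneg h1
  have hexp : Real.exp (-ℓ) = (mixedEmbedding.norm x) ^ (-1 : ℝ) := by
    rw [Real.rpow_def_of_pos (by linarith), hℓ]
    congr 1
    ring
  have hτ : |ℓ - ℓ'| ≤ (finrank ℚ K : ℝ) * δ := hN.log_norm
  have e : HD K u s x' - HD K u s x = ((wt K x' - wt K x : ℝ) : ℂ) * phi u s ℓ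
      + (wt K x' : ℂ) * (phi u s ℓ' - phi u s ℓ) := by
    unfold HD
    push_cast
    ring
  rw [e]
  refine (norm_add_le _ _).trans ?_
  rw [norm_mul, norm_mul, Complex.norm_real, Complex.norm_real, Real.norm_eq_abs,
    Real.norm_eq_abs, abs_of_nonneg (wt_nonneg K x'), ← hexp]
  have hE : 0 < Real.exp (-ℓ) := Real.exp_pos _
  have hs0 : 0 ≤ s - 1 := by linarith
  have t1 : |wt K x' - wt K x| * ‖phi u s ℓ‖ ≤ (C * δ) * (Real.exp (-ℓ) * ((s - 1) * ℓ)) := by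
    refine mul_le_mul ?_ (norm_phi_le hs hℓ0) (norm_nonneg _) (by positivity)
    rw [abs_sub_comm]
    exact h δ x x' hN
  have t2 : wt K x' * ‖phi u s ℓ' - phi u s ℓ‖
      ≤ 1 * (C' * (s - 1) * Real.exp (-ℓ) * (1 + ℓ) * ((finrank ℚ K : ℝ) * δ)) := by
    refine mul_le_mul (wt_le_one K x') ?_ (norm_nonneg _) zero_le_one
    refine (h' s ℓ ℓ' hs hs2 hℓ0 (hτ.trans (mul_le_of_le_one_right hn0 hδ))).trans ?_
    exact mul_le_mul_of_nonneg_left hτ (by positivity)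
  refine (add_le_add t1 t2).trans ?_
  have g1 : 0 ≤ C * δ * (Real.exp (-ℓ) * (s - 1)) := by positivity
  nlinarith [g1]

/-- the norm is at most the power of the sup norm -/
lemma norm_le_pow (x : mixedSpace K) : mixedEmbedding.norm x ≤ ‖x‖ ^ (finrank ℚ K) := by
  rw [mixedEmbedding.norm_apply, ← sum_mult_eq, ← Finset.prod_pow_eq_pow_sum]
  exact Finset.prod_le_prod (fun v _ => pow_nonneg (normAtPlace_nonneg v x) _) (fun v _ =>
    pow_le_pow_left₀ (normAtPlace_nonneg v x) (normAtPlace_le_norm K x v) _)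

lemma one_add_log_le {x : mixedSpace K} (hx : 1 ≤ ‖x‖) (h1 : 1 ≤ mixedEmbedding.norm x) :
    1 + Real.log (mixedEmbedding.norm x) ≤ (1 + 2 * (finrank ℚ K : ℝ)) * ‖x‖ ^ (1 / 2 : ℝ) := by
  have hn0 : (0 : ℝ) ≤ finrank ℚ K := Nat.cast_nonneg _
  have h2 : Real.log (mixedEmbedding.norm x) ≤ (finrank ℚ K : ℝ) * Real.log ‖x‖ := by
    rw [← Real.log_pow]
    exact Real.log_le_log (by linarith) (norm_le_pow K x)
  have h3 := Real.log_le_rpow_div (norm_nonneg x) (by norm_num : (0 : ℝ) < 1 / 2)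
  have h4 : (1 : ℝ) ≤ ‖x‖ ^ (1 / 2 : ℝ) := Real.one_le_rpow hx (by norm_num)
  have h5 : Real.log ‖x‖ ≤ 2 * ‖x‖ ^ (1 / 2 : ℝ) := by linarith
  nlinarith

end Pool.Agent.MP_058a58_ag.Ch
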