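import Mathlib
import Pool.Agent.Lib.MP_058a58_ag.AT.LatT

/-!
# The weighted norm with a vertical shift: the cancellation lemma with a Lipschitz rate
-/

namespace Pool.Agent.MP_058a58_ag.Ch

open Finset NumberField NumberField.mixedEmbedding NumberField.Units NumberField.InfinitePlace
  NumberField.Units.dirichletUnitTheorem Module Filter Topology
open scoped Classical

variable (K : Type*) [Field K] [NumberField K]

lemma exists_HD_aux (u : ℝ) : ∃ C R : ℝ, 0 ≤ C ∧ 1 ≤ R ∧ ∀ (h x : mixedSpace K) (s : ℝ), 1 ≤ s →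
    s ≤ 2 → R ≤ ‖x‖ → R * ‖h‖ ≤ ‖x‖ → wt K x ≠ 0 →
    ‖HD K u s (x + h) - HD K u s x‖
      ≤ C * (s - 1) * ‖h‖ * ‖x‖ ^ (-((finrank ℚ K : ℝ) + 1 / 2)) := by
  obtain ⟨A, hA, hA1, hsup⟩ := exists_support_bound K
  obtain ⟨C, hC, hlip⟩ := exists_HD_near K u
  have hn0 : (0 : ℝ) ≤ finrank ℚ K := Nat.cast_nonneg _
  have hA2 : 0 ≤ A ^ (-((finrank ℚ K : ℝ) * 2)) := Real.rpow_nonneg hA.le _
  refine ⟨C * (2 / A) * A ^ (-((finrank ℚ K : ℝ) * 2)) * (1 + 2 * (finrank ℚ K : ℝ)), 2 / A,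
    by positivity, ?_, ?_⟩
  · rw [le_div_iff₀ hA]
    linarith
  intro h x s hs hs2 hx hR hw
  obtain ⟨h1, h2, h3⟩ := hsup x hw
  have hx1 : 1 ≤ ‖x‖ := by
    refine le_trans ?_ hx
    rw [le_div_iff₀ hA]
    linarith
  have hAx : 1 ≤ A * ‖x‖ := by
    have : 2 / A * A ≤ ‖x‖ * A := mul_le_mul_of_nonneg_right hx hA.le
    rw [div_mul_cancel₀ _ hA.ne'] at this
    linarith [mul_comm ‖x‖ A]
  have hN1 : 1 ≤ mixedEmbedding.norm x := le_trans (one_le_pow₀ hAx) h3
  have hR' : 2 * ‖h‖ ≤ A * ‖x‖ := by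
    have : 2 / A * ‖h‖ * A ≤ ‖x‖ * A := mul_le_mul_of_nonneg_right hR hA.le
    have e : 2 / A * ‖h‖ * A = 2 * ‖h‖ := by field_simp
    linarith [mul_comm ‖x‖ A]
  set δ := 2 * ‖h‖ / (A * ‖x‖) with hδ
  have hδ0 : 0 ≤ δ := by positivity
  have hδ1 : δ ≤ 1 := by
    rw [hδ, div_le_one (by positivity)]
    exact hR'
  have hnear : Near K δ x (x + h) := by
    have hp : ∀ v : InfinitePlace K, 0 < normAtPlace v x := fun v =>
      lt_of_lt_of_le (by positivity) (h2 v)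
    have hd : ∀ v : InfinitePlace K, |normAtPlace v x - normAtPlace v (x + h)| ≤ ‖h‖ := by
      intro v
      have a1 := normAtPlace_add_le v x h
      have a2 := normAtPlace_add_le v (x + h) (-h)
      rw [add_neg_cancel_right, normAtPlace_neg] at a2
      have a3 := normAtPlace_le_norm K h v
      rw [abs_le]
      constructor <;> linarith
    have hq : ∀ v : InfinitePlace K, normAtPlace v x / 2 ≤ normAtPlace v (x + h) := by
      intro v
      have a1 := (abs_le.mp (hd v)).2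
      have a2 := h2 v
      linarith
    refine ⟨hp, fun v => lt_of_lt_of_le (by have := hp v; positivity) (hq v), fun v => ?_⟩
    have hqp : 0 < normAtPlace v (x + h) := lt_of_lt_of_le (by have := hp v; positivity) (hq v)
    refine (abs_log_sub_le (hp v) hqp (hq v) (hd v)).trans ?_
    rw [hδ]
    exact div_le_div_of_nonneg_left (by positivity) (by positivity) (h2 v)
  refine (hlip δ x (x + h) s hs hs2 hδ1 hnear hN1).trans ?_
  have hb := norm_rpow_le' K hA hA1 h1 h3 (by norm_num : (0 : ℝ) ≤ 1) (by norm_num)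
  rw [mul_one] at hb
  have hl := one_add_log_le K hx1 hN1
  have hx0 : 0 ≤ ‖x‖ ^ (-(finrank ℚ K : ℝ)) := Real.rpow_nonneg h1.le _
  have hs0 : 0 ≤ s - 1 := by linarith
  have hN0 : 0 ≤ (mixedEmbedding.norm x) ^ (-1 : ℝ) :=
    Real.rpow_nonneg (mixedEmbedding.norm_nonneg _) _
  have hlog0 : 0 ≤ Real.log (mixedEmbedding.norm x) := Real.log_nonneg hN1
  calc C * (s - 1) * δ * (mixedEmbedding.norm x) ^ (-1 : ℝ)
        * (1 + Real.log (mixedEmbedding.norm x))
      ≤ C * (s - 1) * δ * (A ^ (-((finrank ℚ K : ℝ) * 2)) * ‖x‖ ^ (-(finrank ℚ K : ℝ)))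
        * ((1 + 2 * (finrank ℚ K : ℝ)) * ‖x‖ ^ (1 / 2 : ℝ)) := by
        refine mul_le_mul ?_ hl (by linarith) (by positivity)
        exact mul_le_mul_of_nonneg_left hb (by positivity)
    _ = C * (2 / A) * A ^ (-((finrank ℚ K : ℝ) * 2)) * (1 + 2 * (finrank ℚ K : ℝ)) * (s - 1)
          * ‖h‖ * (‖x‖ ^ (-(finrank ℚ K : ℝ)) * ‖x‖⁻¹ * ‖x‖ ^ (1 / 2 : ℝ)) := by
        rw [hδ]
        field_simp
    _ = _ := by
        congr 1
        rw [← Real.rpow_neg_one ‖x‖, ← Real.rpow_add h1, ← Real.rpow_add h1]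
        congr 1
        ring

/-- **second differences of the weighted norm** -/
theorem exists_HD (u : ℝ) : ∃ C R : ℝ, 0 ≤ C ∧ 0 ≤ R ∧ ∀ (h x : mixedSpace K) (s : ℝ), 1 ≤ s →
    s ≤ 2 → R * (1 + ‖h‖) ≤ ‖x‖ →
    ‖HD K u s (x + h) - HD K u s x‖
      ≤ C * (s - 1) * ‖h‖ * ‖x‖ ^ (-((finrank ℚ K : ℝ) + 1 / 2)) := by
  obtain ⟨C, R, hC, hR, H⟩ := exists_HD_aux K u
  have hn0 : (0 : ℝ) ≤ finrank ℚ K := Nat.cast_nonneg _
  refine ⟨C * 2 ^ ((finrank ℚ K : ℝ) + 1 / 2), 2 * (R + 1), by positivity, by linarith, ?_⟩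
  intro h x s hs hs2 hx
  have hh : 0 ≤ ‖h‖ := norm_nonneg h
  have hRh : 0 ≤ R * ‖h‖ := mul_nonneg (by linarith) hh
  have hs0 : 0 ≤ s - 1 := by linarith
  have hxR : 2 * R ≤ ‖x‖ := by nlinarith
  have hx0 : 0 < ‖x‖ := by linarith
  have hone : (1 : ℝ) ≤ 2 ^ ((finrank ℚ K : ℝ) + 1 / 2) :=
    Real.one_le_rpow (by norm_num) (by positivity)
  by_cases hw : wt K x = 0
  · by_cases hw' : wt K (x + h) = 0
    · rw [HD_of_wt K hw, HD_of_wt K hw', sub_zero, norm_zero]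
      positivity
    · have hge : ‖x‖ / 2 ≤ ‖x + h‖ := by
        have h1 : ‖x‖ ≤ ‖x + h‖ + ‖h‖ := by
          have := norm_sub_le (x + h) h
          rwa [add_sub_cancel_right] at this
        nlinarith
      have key := H (-h) (x + h) s hs hs2 (by linarith) (by rw [norm_neg]; nlinarith) hw'
      rw [add_neg_cancel_right, norm_neg, norm_sub_rev] at key
      refine key.trans ?_
      have e1 : ‖x + h‖ ^ (-((finrank ℚ K : ℝ) + 1 / 2))
          ≤ (‖x‖ / 2) ^ (-((finrank ℚ K : ℝ) + 1 / 2)) :=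
        Real.rpow_le_rpow_of_nonpos (by positivity) hge (by linarith)
      have e2 : (‖x‖ / 2) ^ (-((finrank ℚ K : ℝ) + 1 / 2))
          = 2 ^ ((finrank ℚ K : ℝ) + 1 / 2) * ‖x‖ ^ (-((finrank ℚ K : ℝ) + 1 / 2)) := by
        rw [div_eq_mul_inv, Real.mul_rpow hx0.le (by norm_num), mul_comm]
        congr 1
        rw [Real.inv_rpow (by norm_num), Real.rpow_neg (by norm_num), inv_inv]
      calc C * (s - 1) * ‖h‖ * ‖x + h‖ ^ (-((finrank ℚ K : ℝ) + 1 / 2))
          ≤ C * (s - 1) * ‖h‖ * (2 ^ ((finrank ℚ K : ℝ) + 1 / 2)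
            * ‖x‖ ^ (-((finrank ℚ K : ℝ) + 1 / 2))) := by
            apply mul_le_mul_of_nonneg_left _ (by positivity)
            rw [← e2]
            exact e1
        _ = _ := by ring
  · refine (H h x s hs hs2 (by linarith) (by nlinarith) hw).trans ?_
    have hx1 : 0 ≤ ‖x‖ ^ (-((finrank ℚ K : ℝ) + 1 / 2)) := Real.rpow_nonneg hx0.le _
    have h2 : C * (s - 1) * ‖h‖ * 1 ≤ C * (s - 1) * ‖h‖ * 2 ^ ((finrank ℚ K : ℝ) + 1 / 2) :=
      mul_le_mul_of_nonneg_left hone (by positivity)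
    nlinarith

/-- the weighted norm with a vertical shift on the ring of integers -/
noncomputable def Ht (u s : ℝ) (x : 𝓞 K) : ℂ :=
  ((|(Algebra.norm ℤ x : ℝ)| : ℝ) : ℂ) ^ (-(u * Complex.I)) * (Fs K (ww K) s x : ℂ)

lemma Ht_zero (u s : ℝ) : Ht K u s 0 = 0 := by
  unfold Ht
  rw [Fs_zero, Complex.ofReal_zero, mul_zero]

lemma Ht_eq (u s : ℝ) {x : 𝓞 K} (hx : x ≠ 0) :
    Ht K u s x = (ww K x : ℂ) * Complex.exp (-((s : ℂ) + u * Complex.I)
      * (Real.log |(Algebra.norm ℤ x : ℝ)| : ℝ)) := by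
  have h1 := one_le_abs_norm K hx
  have h0 : (0 : ℝ) < |(Algebra.norm ℤ x : ℝ)| := by linarith
  unfold Ht Fs
  rw [Complex.cpow_def_of_ne_zero (by exact_mod_cast h0.ne'), Real.rpow_def_of_pos h0,
    ← Complex.ofReal_log h0.le]
  push_cast
  rw [mul_left_comm, ← Complex.exp_add]
  congr 2
  ring

lemma Ht_sub (u s : ℝ) (x : 𝓞 K) :
    Ht K u s x - Ht K u 1 x = HD K u s (io K x) / (torsionOrder K : ℂ) := by
  by_cases hx : x = 0
  · subst hx
    rw [Ht_zero, Ht_zero, sub_zero]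
    have h0 : wt K (io K 0) = 0 := by
      unfold wt
      rw [norm_io]
      simp
    rw [HD_of_wt K h0, zero_div]
  · rw [Ht_eq K u s hx, Ht_eq K u 1 hx]
    unfold HD phi ww
    rw [norm_io]
    push_cast
    ring

lemma norm_Ht_le (u : ℝ) (s : ℝ) (x : 𝓞 K) : ‖Ht K u s x‖ ≤ Fs K (ww K) s x := by
  by_cases hx : x = 0
  · subst hx
    rw [Ht_zero, Fs_zero, norm_zero]
  · unfold Ht
    have h1 := one_le_abs_norm K hx
    rw [norm_mul, Complex.norm_cpow_eq_rpow_re_of_pos (by linarith)]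
    have e : (-((u : ℂ) * Complex.I)).re = 0 := by simp
    rw [e, Real.rpow_zero, one_mul, Complex.norm_real, Real.norm_of_nonneg (Fs_nonneg K s x)]

lemma norm_Ht_sub_le (u : ℝ) {s : ℝ} (hs : 1 ≤ s) (x : 𝓞 K) :
    ‖Ht K u s x - Ht K u 1 x‖ ≤ s - 1 := by
  by_cases hx : x = 0
  · subst hx
    rw [Ht_zero, Ht_zero, sub_zero, norm_zero]
    linarith
  · rw [Ht_eq K u s hx, Ht_eq K u 1 hx, ← mul_sub]
    have h1 := one_le_abs_norm K hx
    have hℓ : 0 ≤ Real.log |(Algebra.norm ℤ x : ℝ)| := Real.log_nonneg h1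
    have h2 := norm_phi_le (u := u) hs hℓ
    unfold phi at h2
    rw [norm_mul, Complex.norm_real, Real.norm_of_nonneg (ww_nonneg K x), Complex.ofReal_one]
    have h3 : Real.exp (-Real.log |(Algebra.norm ℤ x : ℝ)|)
        * Real.log |(Algebra.norm ℤ x : ℝ)| ≤ 1 := by
      rw [Real.exp_neg, Real.exp_log (by linarith), inv_mul_le_one₀ (by linarith)]
      exact (Real.log_le_sub_one_of_pos (by linarith)).trans (by linarith)
    calc ww K x * _ ≤ 1 * (Real.exp (-Real.log |(Algebra.norm ℤ x : ℝ)|)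
          * ((s - 1) * Real.log |(Algebra.norm ℤ x : ℝ)|)) :=
          mul_le_mul (ww_le_one K x) h2 (norm_nonneg _) zero_le_one
      _ = (s - 1) * (Real.exp (-Real.log |(Algebra.norm ℤ x : ℝ)|)
          * Real.log |(Algebra.norm ℤ x : ℝ)|) := by ring
      _ ≤ (s - 1) * 1 := mul_le_mul_of_nonneg_left h3 (by linarith)
      _ = s - 1 := mul_one _

/-- second differences on the ring of integers: a summable bound -/
lemma exists_bound_t (u : ℝ) (γ : 𝓞 K) : ∃ B : 𝓞 K → ℝ, Summable B ∧ ∀ (s : ℝ), 1 ≤ s → s ≤ 2 →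
    ∀ x, ‖(Ht K u s (x + γ) - Ht K u s x) - (Ht K u 1 (x + γ) - Ht K u 1 x)‖
      ≤ (s - 1) * B x := by
  obtain ⟨C, R, hC, hR, H⟩ := exists_HD K u
  set n : ℝ := (finrank ℚ K : ℝ) with hn
  have hn0 : (0 : ℝ) < n := Nat.cast_pos.mpr finrank_pos
  set R' : ℝ := R * (1 + ‖io K γ‖) + 1 with hR'
  have hR'0 : 0 < R' := by positivity
  have hsum : Summable (fun x : 𝓞 K => ‖io K x‖ ^ (-(n + 1 / 2))) :=
    summable_io K (by linarith : (finrank ℚ K : ℝ) < n + 1 / 2)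
  refine ⟨fun x => (2 * R' ^ (n + 1 / 2) + C * ‖io K γ‖) * ‖io K x‖ ^ (-(n + 1 / 2))
    + if x = 0 then 2 else 0, ?_, ?_⟩
  · refine (hsum.mul_left _).add ?_
    exact summable_of_hasFiniteSupport ((Set.finite_singleton (0 : 𝓞 K)).subset (by
      intro x hx
      rw [Function.mem_support] at hx
      by_contra hc
      exact hx (if_neg hc)))
  · intro s hs hs2 x
    have hs0 : 0 ≤ s - 1 := by linarith
    have hle2 : ‖(Ht K u s (x + γ) - Ht K u s x) - (Ht K u 1 (x + γ) - Ht K u 1 x)‖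
        ≤ (s - 1) * 2 := by
      have e : (Ht K u s (x + γ) - Ht K u s x) - (Ht K u 1 (x + γ) - Ht K u 1 x)
          = (Ht K u s (x + γ) - Ht K u 1 (x + γ)) - (Ht K u s x - Ht K u 1 x) := by ring
      rw [e]
      refine (norm_sub_le _ _).trans ?_
      have a1 := norm_Ht_sub_le K u hs (x + γ)
      have a2 := norm_Ht_sub_le K u hs x
      linarith
    have hpos : 0 ≤ ‖io K x‖ ^ (-(n + 1 / 2)) := Real.rpow_nonneg (norm_nonneg _) _
    have hγ : 0 ≤ C * ‖io K γ‖ := by positivity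
    have hRp : 0 ≤ R' ^ (n + 1 / 2) := Real.rpow_nonneg hR'0.le _
    refine le_trans ?_ (mul_le_mul_of_nonneg_left
      (b := (2 * R' ^ (n + 1 / 2) + C * ‖io K γ‖) * ‖io K x‖ ^ (-(n + 1 / 2))
        + if x = 0 then 2 else 0) le_rfl hs0)
    by_cases hx : x = 0
    · rw [if_pos hx]
      refine hle2.trans (mul_le_mul_of_nonneg_left ?_ hs0)
      have : 0 ≤ (2 * R' ^ (n + 1 / 2) + C * ‖io K γ‖) * ‖io K x‖ ^ (-(n + 1 / 2)) := by
        positivity
      linarith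
    · rw [if_neg hx, add_zero]
      have hxpos : 0 < ‖io K x‖ := by
        rw [norm_pos_iff]
        intro h0
        apply hx
        apply io_injective K
        rw [h0]
        unfold io
        simp
      by_cases hlt : R' ≤ ‖io K x‖
      · have h1 := H (io K γ) (io K x) s hs hs2 (by linarith)
        have e : (Ht K u s (x + γ) - Ht K u s x) - (Ht K u 1 (x + γ) - Ht K u 1 x)
            = (HD K u s (io K x + io K γ) - HD K u s (io K x)) / (torsionOrder K : ℂ) := by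
          rw [sub_div, ← io_add, ← Ht_sub, ← Ht_sub]
          ring
        rw [e, norm_div, Complex.norm_natCast]
        refine (div_le_self (norm_nonneg _) (one_le_torsionOrder K)).trans (h1.trans ?_)
        have h2 : 0 ≤ (s - 1) * (2 * R' ^ (n + 1 / 2) * ‖io K x‖ ^ (-(n + 1 / 2))) := by
          positivity
        nlinarith
      · push Not at hlt
        refine hle2.trans (mul_le_mul_of_nonneg_left ?_ hs0)
        have h1 : 1 ≤ R' ^ (n + 1 / 2) * ‖io K x‖ ^ (-(n + 1 / 2)) := by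
          rw [Real.rpow_neg hxpos.le, ← div_eq_mul_inv, ← Real.div_rpow hR'0.le hxpos.le]
          apply Real.one_le_rpow _ (by linarith)
          rw [one_le_div hxpos]
          exact hlt.le
        have h2 : 0 ≤ C * ‖io K γ‖ * ‖io K x‖ ^ (-(n + 1 / 2)) := by positivity
        rw [add_mul]
        linarith

lemma summable_gHt (u : ℝ) {g : 𝓞 K → ℂ} {M : ℝ} (hg : ∀ x, ‖g x‖ ≤ M) {s : ℝ} (hs : 1 < s) :
    Summable (fun x : 𝓞 K => g x * Ht K u s x) := by
  refine Summable.of_norm_bounded ((Fs_summable K hs).mul_left M) fun x => ?_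
  rw [norm_mul]
  exact mul_le_mul (hg x) (norm_Ht_le K u s x) (norm_nonneg _) ((norm_nonneg _).trans (hg x))

/-- **the cancellation lemma with a Lipschitz rate** -/
theorem can_t (u : ℝ) (g : 𝓞 K → ℂ) (M : ℝ) (hg : ∀ x, ‖g x‖ ≤ M) (J : Type*) [Fintype J]
    [Nonempty J] (γ : J → 𝓞 K) (h0 : ∀ b : 𝓞 K, ∑ j, g (b + γ j) = 0) :
    ∃ (l : ℂ) (C : ℝ), ∀ s : ℝ, 1 < s → s ≤ 2 →
      ‖∑' x : 𝓞 K, g x * Ht K u s x - l‖ ≤ C * (s - 1) := by
  choose B hB hB2 using fun j => exists_bound_t K u (γ j)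
  have hM : 0 ≤ M := (norm_nonneg _).trans (hg 0)
  let D : ℝ → 𝓞 K → ℂ := fun s x => ∑ j, g (x + γ j) * (Ht K u s (x + γ j) - Ht K u s x)
  have hN0 : (Fintype.card J : ℂ) ≠ 0 := Nat.cast_ne_zero.mpr Fintype.card_ne_zero
  have hshift : ∀ s, 1 < s → ∀ j, Summable (fun x : 𝓞 K => g (x + γ j) * Ht K u s (x + γ j)) :=
    fun s hs j => (Equiv.addRight (γ j)).summable_iff.mpr (summable_gHt K u hg hs)
  have e1 : ∀ s x, D s x = ∑ j, g (x + γ j) * Ht K u s (x + γ j) := by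
    intro s x
    have : ∑ j, g (x + γ j) * Ht K u s x = 0 := by
      rw [← Finset.sum_mul, h0 x, zero_mul]
    simp only [D]
    rw [← sub_eq_zero, ← Finset.sum_sub_distrib, ← neg_eq_zero, ← this, ← Finset.sum_neg_distrib]
    refine Finset.sum_congr rfl fun j _ => ?_
    ring
  have hDsum : ∀ s, 1 < s → Summable (D s) := by
    intro s hs
    refine (summable_sum (f := fun j x => g (x + γ j) * Ht K u s (x + γ j))
      (s := Finset.univ) fun j _ => hshift s hs j).congr fun x => ?_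
    rw [e1]
  have hDtot : ∀ s, 1 < s → ∑' x, D s x
      = (Fintype.card J : ℂ) * ∑' x : 𝓞 K, g x * Ht K u s x := by
    intro s hs
    have hshift2 : ∀ j, ∑' x : 𝓞 K, g (x + γ j) * Ht K u s (x + γ j)
        = ∑' x : 𝓞 K, g x * Ht K u s x :=
      fun j => (Equiv.addRight (γ j)).tsum_eq (fun x : 𝓞 K => g x * Ht K u s x)
    rw [tsum_congr (e1 s), Summable.tsum_finsetSum (fun j _ => hshift s hs j),
      Finset.sum_congr rfl (fun j _ => hshift2 j), Finset.sum_const, Finset.card_univ,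
      nsmul_eq_mul]
  have hdiff : ∀ s, 1 ≤ s → s ≤ 2 → ∀ x, ‖D s x - D 1 x‖ ≤ (s - 1) * ∑ j, M * B j x := by
    intro s hs hs2 x
    simp only [D]
    rw [← Finset.sum_sub_distrib, Finset.mul_sum]
    refine (norm_sum_le _ _).trans (Finset.sum_le_sum fun j _ => ?_)
    rw [← mul_sub, norm_mul]
    calc _ ≤ M * ((s - 1) * B j x) :=
          mul_le_mul (hg _) (hB2 j s hs hs2 x) (norm_nonneg _) hM
      _ = _ := by ring
  have hBs : Summable (fun x => ∑ j, M * B j x) := summable_sum fun j _ => (hB j).mul_left M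
  have hdsum : ∀ s, 1 ≤ s → s ≤ 2 → Summable (fun x => D s x - D 1 x) := fun s hs hs2 =>
    Summable.of_norm_bounded (hBs.mul_left (s - 1)) (hdiff s hs hs2)
  have hD1 : Summable (D 1) := by
    have h := (hDsum 2 (by norm_num)).sub (hdsum 2 (by norm_num) le_rfl)
    refine h.congr fun x => ?_
    ring
  refine ⟨(Fintype.card J : ℂ)⁻¹ * ∑' x, D 1 x,
    ‖(Fintype.card J : ℂ)⁻¹‖ * ∑' x, ∑ j, M * B j x, ?_⟩
  intro s hs hs2
  have e2 : ∑' x : 𝓞 K, g x * Ht K u s x - (Fintype.card J : ℂ)⁻¹ * ∑' x, D 1 x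
      = (Fintype.card J : ℂ)⁻¹ * ∑' x, (D s x - D 1 x) := by
    rw [(hDsum s hs).tsum_sub hD1, hDtot s hs, mul_sub, ← mul_assoc, inv_mul_cancel₀ hN0, one_mul]
  rw [e2, norm_mul, mul_assoc]
  apply mul_le_mul_of_nonneg_left _ (norm_nonneg _)
  have h5 := norm_tsum_le_tsum_norm (hdsum s hs.le hs2).norm
  refine h5.trans ?_
  rw [mul_comm, ← tsum_mul_left]
  exact (hdsum s hs.le hs2).norm.tsum_le_tsum (hdiff s hs.le hs2) (hBs.mul_left (s - 1))

end Pool.Agent.MP_058a58_ag.Ch
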