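import Mathlib
import Pool.Agent.Lib.MP_058a58_ag.AT.LatT2
import Pool.Agent.Lib.MP_058a58_ag.Ch.Bridge

/-!
# Periodic functions on the ring of integers: the weighted sum with a vertical shift has a finite
limit, with a Lipschitz rate
-/

namespace Pool.Agent.MP_058a58_ag.Ch

open Finset NumberField NumberField.mixedEmbedding NumberField.Units NumberField.InfinitePlace
  NumberField.Units.dirichletUnitTheorem Module Filter Topology Asymptotics
open scoped Classical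

/-- a limit at `1+` with a Lipschitz rate -/
def LipAt (f : ℝ → ℂ) (l : ℂ) : Prop := (fun s : ℝ => f s - l) =O[𝓝[>] (1 : ℝ)] (fun s : ℝ => s - 1)

lemma tendsto_sub_one : Tendsto (fun s : ℝ => s - 1) (𝓝[>] (1 : ℝ)) (𝓝 0) := by
  have h : Tendsto (fun s : ℝ => s - 1) (𝓝 (1 : ℝ)) (𝓝 (1 - 1)) := tendsto_id.sub_const 1
  rw [sub_self] at h
  exact h.mono_left nhdsWithin_le_nhds

lemma LipAt.tendsto {f : ℝ → ℂ} {l : ℂ} (h : LipAt f l) : Tendsto f (𝓝[>] (1 : ℝ)) (𝓝 l) :=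
  tendsto_sub_nhds_zero_iff.mp (IsBigO.trans_tendsto h tendsto_sub_one)

lemma LipAt.congr {f g : ℝ → ℂ} {l : ℂ} (h : LipAt f l) (e : ∀ s : ℝ, 1 < s → g s = f s) :
    LipAt g l := by
  refine IsBigO.congr' h ?_ (EventuallyEq.refl _ _)
  filter_upwards [self_mem_nhdsWithin] with s hs
  rw [e s hs]

lemma LipAt.const (l : ℂ) : LipAt (fun _ => l) l := by
  unfold LipAt
  simp only [sub_self]
  exact isBigO_zero _ _

lemma LipAt.add {f g : ℝ → ℂ} {l k : ℂ} (hf : LipAt f l) (hg : LipAt g k) :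
    LipAt (fun s => f s + g s) (l + k) := by
  refine (IsBigO.add hf hg).congr_left fun s => ?_
  ring

lemma LipAt.mul {f g : ℝ → ℂ} {l k : ℂ} (hf : LipAt f l) (hg : LipAt g k) :
    LipAt (fun s => f s * g s) (l * k) := by
  have h1 : (fun s => (f s - l) * g s) =O[𝓝[>] (1 : ℝ)] (fun s : ℝ => (s - 1) * (1 : ℝ)) :=
    IsBigO.mul hf (hg.tendsto.isBigO_one ℝ)
  have h2 : (fun s => l * (g s - k)) =O[𝓝[>] (1 : ℝ)] (fun s : ℝ => s - 1) :=
    IsBigO.const_mul_left hg l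
  simp only [mul_one] at h1
  refine (h1.add h2).congr_left fun s => ?_
  ring

lemma LipAt.sum {ι : Type*} (S : Finset ι) {f : ι → ℝ → ℂ} {l : ι → ℂ}
    (h : ∀ i ∈ S, LipAt (f i) (l i)) : LipAt (fun s => ∑ i ∈ S, f i s) (∑ i ∈ S, l i) := by
  induction S using Finset.induction_on with
  | empty =>
    simp only [Finset.sum_empty]
    exact LipAt.const 0
  | insert i S hi ih =>
    simp only [Finset.sum_insert hi]
    exact (h i (Finset.mem_insert_self _ _)).add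
      (ih fun j hj => h j (Finset.mem_insert_of_mem hj))

/-- division -/
lemma LipAt.of_mul {D T : ℝ → ℂ} {d l : ℂ} (hD : LipAt D d) (hd : d ≠ 0)
    (h : LipAt (fun s => D s * T s) l) : LipAt T (l / d) := by
  have hDt := hD.tendsto
  have hne : ∀ᶠ s in 𝓝[>] (1 : ℝ), D s ≠ 0 := hDt.eventually_ne hd
  have hinv : (fun s => (D s)⁻¹) =O[𝓝[>] (1 : ℝ)] (fun _ : ℝ => (1 : ℝ)) :=
    (hDt.inv₀ hd).isBigO_one ℝ
  have h1 : (fun s => (D s)⁻¹ * (D s * T s - l)) =O[𝓝[>] (1 : ℝ)]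
      (fun s : ℝ => (1 : ℝ) * (s - 1)) := hinv.mul h
  have h2 : (fun s => (D s)⁻¹ * (D s - d)) =O[𝓝[>] (1 : ℝ)]
      (fun s : ℝ => (1 : ℝ) * (s - 1)) := hinv.mul hD
  simp only [one_mul] at h1 h2
  have h3 := h1.add (h2.const_mul_left (-(l / d)))
  refine IsBigO.congr' h3 ?_ (EventuallyEq.refl _ _)
  filter_upwards [hne] with s hs
  field_simp
  ring

lemma LipAt.rpow {a : ℝ} (ha : 0 < a) : LipAt (fun s => ((a ^ s : ℝ) : ℂ)) ((a : ℝ) : ℂ) := by
  have h := (Real.hasStrictDerivAt_const_rpow ha 1).hasDerivAt.differentiableAt.isBigO_sub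
  have h2 : (fun s : ℝ => ((a ^ s - a ^ (1 : ℝ) : ℝ) : ℂ)) =O[𝓝[>] (1 : ℝ)] (fun s : ℝ => s - 1) :=
    (IsBigO.of_norm_left ((h.mono nhdsWithin_le_nhds).norm_left.congr_left fun s => by
      rw [Complex.norm_real]))
  refine h2.congr_left fun s => ?_
  rw [Real.rpow_one, Complex.ofReal_sub]

lemma LipAt.rpow_neg {a : ℝ} (ha : 0 < a) :
    LipAt (fun s => ((a ^ (-s) : ℝ) : ℂ)) ((a⁻¹ : ℝ) : ℂ) := by
  refine (LipAt.rpow (inv_pos.mpr ha)).congr fun s _ => ?_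
  rw [Real.inv_rpow ha.le, Real.rpow_neg ha.le]

/-- vertical shifts are not trivial on an arithmetic progression -/
lemma exists_prog (v : ℝ) (hv : v ≠ 0) (Q : ℕ) (hQ : 1 ≤ Q) : ∃ t : ℕ,
    Complex.exp ((v * Real.log ((1 + Q * t : ℕ) : ℝ) : ℝ) * Complex.I) ≠ 1 := by
  by_contra hcon
  push Not at hcon
  obtain ⟨t, ht⟩ := exists_nat_gt (max |v| 1)
  have ht1 : |v| < t := lt_of_le_of_lt (le_max_left _ _) ht
  have ht2 : (1 : ℝ) < t := lt_of_le_of_lt (le_max_right _ _) ht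
  have hQr : (1 : ℝ) ≤ Q := by exact_mod_cast hQ
  have h1 := hcon t
  have h2 := hcon (t + 1)
  set A : ℝ := Real.log ((1 + Q * t : ℕ) : ℝ) with hA
  set B : ℝ := Real.log ((1 + Q * (t + 1) : ℕ) : ℝ) with hB
  have h3 : Complex.exp ((v * (B - A) : ℝ) * Complex.I) = 1 := by
    have e : ((v * (B - A) : ℝ) : ℂ) * Complex.I
        = (v * B : ℝ) * Complex.I - (v * A : ℝ) * Complex.I := by
      push_cast
      ring
    rw [e, Complex.exp_sub, h1, h2, div_one]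
  have hp1 : (0 : ℝ) < ((1 + Q * t : ℕ) : ℝ) := by positivity
  have hp2 : (0 : ℝ) < ((1 + Q * (t + 1) : ℕ) : ℝ) := by positivity
  have hlt : ((1 + Q * t : ℕ) : ℝ) < ((1 + Q * (t + 1) : ℕ) : ℝ) := by
    push_cast
    linarith
  have hpos : 0 < B - A := sub_pos.mpr (Real.log_lt_log hp1 hlt)
  have hle : B - A ≤ 1 / t := by
    have e : B - A = Real.log (((1 + Q * (t + 1) : ℕ) : ℝ) / ((1 + Q * t : ℕ) : ℝ)) := by
      rw [hA, hB, Real.log_div hp2.ne' hp1.ne']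
    rw [e]
    refine (Real.log_le_sub_one_of_pos (by positivity)).trans ?_
    rw [div_sub_one hp1.ne', div_le_div_iff₀ hp1 (by linarith)]
    push_cast
    nlinarith
  have habs : |v * (B - A)| < 1 := by
    rw [abs_mul, abs_of_pos hpos]
    calc |v| * (B - A) ≤ |v| * (1 / t) := mul_le_mul_of_nonneg_left hle (abs_nonneg _)
      _ = |v| / t := by ring
      _ < 1 := by rw [div_lt_one (by linarith)]; exact ht1
  obtain ⟨n, hn⟩ := Complex.exp_eq_one_iff.mp h3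
  have h4 : v * (B - A) = n * (2 * Real.pi) := by
    have h5 : ((v * (B - A) : ℝ) : ℂ) * Complex.I = ((n * (2 * Real.pi) : ℝ) : ℂ) * Complex.I := by
      rw [hn]
      push_cast
      ring
    exact_mod_cast mul_right_cancel₀ Complex.I_ne_zero h5
  have hn0 : n = 0 := by
    by_contra hne
    have h5 : (1 : ℝ) ≤ |(n : ℝ)| := by exact_mod_cast Int.one_le_abs hne
    rw [h4, abs_mul, abs_of_pos (by positivity : (0 : ℝ) < 2 * Real.pi)] at habs
    have h6 := Real.pi_gt_three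
    nlinarith
  rw [hn0, Int.cast_zero, zero_mul] at h4
  rcases mul_eq_zero.mp h4 with h | h
  · exact hv h
  · linarith

variable (K : Type*) [Field K] [NumberField K]

omit [NumberField K] in
lemma io_nat_mul (k : ℕ) (x : 𝓞 K) : io K (k * x) = (k : ℝ) • io K x := by
  unfold io
  have h : ((k * x : 𝓞 K) : K) = (k : K) * (x : K) := by
    push_cast
    rfl
  rw [h, map_mul, map_natCast]
  ext <;> simp

lemma abs_norm_nat_mul (k : ℕ) (x : 𝓞 K) : |(Algebra.norm ℤ (k * x) : ℝ)|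
    = (k : ℝ) ^ (finrank ℚ K) * |(Algebra.norm ℤ x : ℝ)| := by
  rw [← norm_io, ← norm_io, io_nat_mul, mixedEmbedding.norm_smul,
    abs_of_nonneg (Nat.cast_nonneg k)]

lemma wt_smul {c : ℝ} (hc : c ≠ 0) (x : mixedSpace K) : wt K (c • x) = wt K x := by
  by_cases h : mixedEmbedding.norm x = 0
  · unfold wt
    rw [if_pos h, if_pos (by rw [mixedEmbedding.norm_smul, h, mul_zero])]
  · have h' : mixedEmbedding.norm (c • x) ≠ 0 := by
      rw [mixedEmbedding.norm_smul]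
      exact mul_ne_zero (pow_ne_zero _ (abs_ne_zero.mpr hc)) h
    rw [wt_of_ne K h, wt_of_ne K h']
    unfold uco
    rw [logMap_real_smul h hc]

lemma ww_nat_mul {k : ℕ} (hk : k ≠ 0) (x : 𝓞 K) : ww K (k * x) = ww K x := by
  unfold ww
  rw [io_nat_mul, wt_smul K (Nat.cast_ne_zero.mpr hk)]

lemma Ht_nat_mul (u s : ℝ) {k : ℕ} (hk : k ≠ 0) (x : 𝓞 K) :
    Ht K u s (k * x) = ((((k : ℝ) ^ (finrank ℚ K) : ℝ) : ℂ) ^ (-(u * Complex.I))
      * ((((k : ℝ) ^ (finrank ℚ K)) ^ (-s) : ℝ) : ℂ)) * Ht K u s x := by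
  unfold Ht Fs
  rw [abs_norm_nat_mul, ww_nat_mul K hk]
  set a : ℝ := (k : ℝ) ^ (finrank ℚ K) with ha
  have ha0 : 0 ≤ a := by positivity
  rw [Real.mul_rpow ha0 (abs_nonneg _), Complex.ofReal_mul a,
    Complex.mul_cpow_ofReal_nonneg ha0 (abs_nonneg _), Complex.ofReal_mul (ww K x),
    Complex.ofReal_mul (a ^ (-s)), Complex.ofReal_mul (ww K x)]
  ring

open Pool.Agent.Lib.MP_058a58_ag.Ch (Rk finite_Rk index_Rk)

/-- **periodic functions** -/
theorem per_lip (u : ℝ) (hu : u ≠ 0) {Q : ℕ} (hQ : 1 ≤ Q) (g : 𝓞 K → ℂ) {M : ℝ}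
    (hg : ∀ x, ‖g x‖ ≤ M) (hper : ∀ x y : 𝓞 K, g (x + (Q : 𝓞 K) * y) = g x) :
    ∃ l : ℂ, LipAt (fun s => ∑' x : 𝓞 K, g x * Ht K u s x) l := by
  set n := finrank ℚ K with hn
  have hn0 : (0 : ℝ) < n := Nat.cast_pos.mpr finrank_pos
  have hM : 0 ≤ M := (norm_nonneg _).trans (hg 0)
  obtain ⟨t, ht⟩ := exists_prog (-(n * u)) (neg_ne_zero.mpr (mul_ne_zero hn0.ne' hu)) Q hQ
  set k : ℕ := 1 + Q * t with hk
  have hk1 : 1 ≤ k := by omega
  have hk0 : k ≠ 0 := by omega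
  have hkr : (0 : ℝ) < k := by exact_mod_cast hk1
  set a : ℝ := (k : ℝ) ^ n with ha
  have ha0 : 0 < a := by positivity
  have hkc : (k : 𝓞 K) = 1 + (Q : 𝓞 K) * (t : 𝓞 K) := by
    rw [hk]
    push_cast
    rfl
  have hgk : ∀ x : 𝓞 K, g (k * x) = g x := by
    intro x
    have e : (k : 𝓞 K) * x = x + (Q : 𝓞 K) * (t * x) := by
      linear_combination x * hkc
    rw [e, hper]
  have hfin := finite_Rk (K := K) hk1
  have hft : Fintype (Rk K k) := Fintype.ofFinite _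
  have hcard : (Fintype.card (Rk K k) : ℂ) = ((a : ℝ) : ℂ) := by
    rw [← Nat.card_eq_fintype_card, index_Rk, ha]
    push_cast
    rfl
  set I : Ideal (𝓞 K) := Ideal.span {(k : 𝓞 K)} with hI
  set G : 𝓞 K → ℂ := fun y => ((if y ∈ I then 1 else 0) - ((a : ℝ) : ℂ)⁻¹) * g y with hG
  have ha1 : 1 ≤ a := one_le_pow₀ (by exact_mod_cast hk1)
  have hGb : ∀ y, ‖G y‖ ≤ 2 * M := by
    intro y
    simp only [hG]
    rw [norm_mul]
    refine mul_le_mul ?_ (hg y) (norm_nonneg _) (by norm_num)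
    refine (norm_sub_le _ _).trans ?_
    have h1 : ‖(if y ∈ I then (1 : ℂ) else 0)‖ ≤ 1 := by split_ifs <;> simp
    have h2 : ‖((a : ℝ) : ℂ)⁻¹‖ ≤ 1 := by
      rw [norm_inv, Complex.norm_real, Real.norm_of_nonneg ha0.le]
      exact inv_le_one_of_one_le₀ ha1
    linarith
  obtain ⟨l, C, hl⟩ := can_t K u G (2 * M) hGb (Rk K k)
    (fun j => (Q : 𝓞 K) * (-(t * j.out))) (fun b => by
      simp only [hG, hper]
      rw [← Finset.sum_mul, Finset.sum_sub_distrib, Finset.sum_const, Finset.card_univ,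
        nsmul_eq_mul, hcard]
      have h1 : ∑ j : Rk K k, (if b + (Q : 𝓞 K) * (-(t * j.out)) ∈ I then (1 : ℂ) else 0) = 1 := by
        have h2 : ∀ j : Rk K k, (b + (Q : 𝓞 K) * (-(t * j.out)) ∈ I) ↔
            j = -(Ideal.Quotient.mk I b) := by
          intro j
          have e : b + (Q : 𝓞 K) * (-(t * j.out)) = b + j.out - k * j.out := by
            linear_combination j.out * hkc
          rw [← Ideal.Quotient.eq_zero_iff_mem, e, map_sub, map_add, map_mul,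
            Ideal.Quotient.mk_out]
          have h3 : Ideal.Quotient.mk I (k : 𝓞 K) = 0 :=
            Ideal.Quotient.eq_zero_iff_mem.mpr (Ideal.mem_span_singleton_self _)
          rw [h3, zero_mul, sub_zero, eq_neg_iff_add_eq_zero, add_comm]
        simp only [h2]
        rw [Finset.sum_ite_eq']
        simp
      rw [h1, mul_inv_cancel₀ (by exact_mod_cast ha0.ne'), sub_self, zero_mul])
  have hlip : LipAt (fun s => ∑' x : 𝓞 K, G x * Ht K u s x) l := by
    refine IsBigO.of_bound C ?_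
    filter_upwards [Ioo_mem_nhdsGT (by norm_num : (1 : ℝ) < 2)] with s hs
    rw [Real.norm_of_nonneg (by linarith [hs.1])]
    exact hl s hs.1 hs.2.le
  -- the multiplier
  have hD : LipAt (fun s => ((a : ℝ) : ℂ) ^ (-(u * Complex.I)) * ((a ^ (-s) : ℝ) : ℂ)
      + -((a : ℝ) : ℂ)⁻¹) (((a : ℝ) : ℂ) ^ (-(u * Complex.I)) * ((a⁻¹ : ℝ) : ℂ)
      + -((a : ℝ) : ℂ)⁻¹) :=
    ((LipAt.const _).mul (LipAt.rpow_neg ha0)).add (LipAt.const _)
  have hd : ((a : ℝ) : ℂ) ^ (-(u * Complex.I)) * ((a⁻¹ : ℝ) : ℂ) + -((a : ℝ) : ℂ)⁻¹ ≠ 0 := by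
    intro h
    have hac : ((a : ℝ) : ℂ)⁻¹ ≠ 0 := inv_ne_zero (by exact_mod_cast ha0.ne')
    rw [Complex.ofReal_inv] at h
    have h1 : (((a : ℝ) : ℂ) ^ (-(u * Complex.I)) - 1) * ((a : ℝ) : ℂ)⁻¹ = 0 := by
      rw [← h]
      ring
    have h2 : ((a : ℝ) : ℂ) ^ (-(u * Complex.I)) = 1 :=
      sub_eq_zero.mp ((mul_eq_zero.mp h1).resolve_right hac)
    apply ht
    rw [← h2, Complex.cpow_def_of_ne_zero (by exact_mod_cast ha0.ne'), ← Complex.ofReal_log ha0.le,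
      ha, Real.log_pow]
    congr 1
    push_cast
    ring
  refine ⟨_, LipAt.of_mul hD hd (hlip.congr fun s hs => ?_)⟩
  -- the identity
  have hinj : Function.Injective fun x : 𝓞 K => (k : 𝓞 K) * x := by
    intro x y h
    have hk0' : (k : 𝓞 K) ≠ 0 := by exact_mod_cast hk0
    exact mul_left_cancel₀ hk0' h
  have hsum := summable_gHt K u hg hs
  have hind : Summable fun y : 𝓞 K => (if y ∈ I then (1 : ℂ) else 0) * g y * Ht K u s y := by
    refine summable_gHt K u (M := M) (fun y => ?_) hs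
    rw [norm_mul]
    split_ifs
    · rw [norm_one, one_mul]
      exact hg y
    · rw [norm_zero, zero_mul]
      exact hM
  have h1 : ∑' y : 𝓞 K, (if y ∈ I then (1 : ℂ) else 0) * g y * Ht K u s y
      = (((a : ℝ) : ℂ) ^ (-(u * Complex.I)) * ((a ^ (-s) : ℝ) : ℂ))
        * ∑' x : 𝓞 K, g x * Ht K u s x := by
    rw [← tsum_mul_left, ← hinj.tsum_eq]
    · refine tsum_congr fun x => ?_
      have hm : (k : 𝓞 K) * x ∈ I := Ideal.mul_mem_right _ _ (Ideal.mem_span_singleton_self _)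
      rw [if_pos hm, one_mul, hgk, Ht_nat_mul K u s hk0]
      ring
    · intro y hy
      have hmem : y ∈ I := by
        by_contra hcon
        apply hy
        show (if y ∈ I then (1 : ℂ) else 0) * g y * Ht K u s y = 0
        rw [if_neg hcon, zero_mul, zero_mul]
      obtain ⟨x, hx⟩ := Ideal.mem_span_singleton'.mp hmem
      exact ⟨x, by rw [← hx]; ring⟩
  have h2 : ∑' x : 𝓞 K, G x * Ht K u s x
      = ∑' y : 𝓞 K, (if y ∈ I then (1 : ℂ) else 0) * g y * Ht K u s y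
        - ((a : ℝ) : ℂ)⁻¹ * ∑' x : 𝓞 K, g x * Ht K u s x := by
    rw [← tsum_mul_left, ← hind.tsum_sub (hsum.mul_left _)]
    refine tsum_congr fun y => ?_
    simp only [hG]
    ring
  rw [h2, h1]
  ring

end Pool.Agent.MP_058a58_ag.Ch
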