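import Mathlib
import Pool.Agent.Lib.MP_058a58_ag.AT.LatT3
import Pool.Agent.Lib.MP_058a58_ag.Ch.Period
import Pool.Agent.Lib.MP_058a58_ag.Ch.LogC

/-!
# The twisted zeta function of a number field on the line `Re s = 1`

For `c n = χ(n) n^(-iu)` with `u ≠ 0` the function `L_K(s, c)` has a finite limit at `s = 1+`, with a
Lipschitz rate; the limit is not zero.
-/

namespace Pool.Agent.Lib.MP_058a58_ag.Ch

open NumberField Filter Topology nonZeroDivisors TatePole.Ded Asymptotics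
open Pool.Agent.MP_058a58_ag.Ch (LipAt ww Ht)

variable {K : Type*} [Field K] [NumberField K]

theorem WOK_ww (K : Type*) [Field K] [NumberField K] : WOK K (ww K) :=
  WOK.of_can ⟨Pool.Agent.MP_058a58_ag.Ch.ww_nonneg K, Pool.Agent.MP_058a58_ag.Ch.ww_zero K,
    fun _ hx => Pool.Agent.MP_058a58_ag.Ch.hasSum_ww K hx,
    fun _ hs => Pool.Agent.MP_058a58_ag.Ch.Fs_summable K hs,
    fun g M hg N γ hN h0 => Pool.Agent.MP_058a58_ag.Ch.can_ww K g M hg N γ hN h0⟩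

/-- the character with a vertical shift -/
noncomputable def cu {m : ℕ} (χ : DirichletCharacter ℂ m) (u : ℝ) (n : ℕ) : ℂ :=
  χ (n : ZMod m) * (n : ℂ) ^ (-(u * Complex.I))

variable {m : ℕ} (χ : DirichletCharacter ℂ m) (u : ℝ)

lemma cu_one : cu χ u 1 = 1 := by
  unfold cu
  rw [Nat.cast_one, map_one, Nat.cast_one, Complex.one_cpow, one_mul]

lemma cu_mul (a b : ℕ) : cu χ u (a * b) = cu χ u a * cu χ u b := by
  unfold cu
  rw [Nat.cast_mul, map_mul, Nat.cast_mul, Complex.natCast_mul_natCast_cpow]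
  ring

lemma norm_natCast_cpow_le (n : ℕ) : ‖(n : ℂ) ^ (-((u : ℂ) * Complex.I))‖ ≤ 1 := by
  rcases Nat.eq_zero_or_pos n with h | h
  · subst h
    rw [Nat.cast_zero]
    by_cases hu : -((u : ℂ) * Complex.I) = 0
    · rw [hu, Complex.cpow_zero, norm_one]
    · rw [Complex.zero_cpow hu, norm_zero]
      exact zero_le_one
  · rw [Complex.norm_natCast_cpow_of_pos h]
    have e : (-((u : ℂ) * Complex.I)).re = 0 := by simp
    rw [e, Real.rpow_zero]

lemma norm_cu_le (n : ℕ) : ‖cu χ u n‖ ≤ 1 := by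
  unfold cu
  rw [norm_mul]
  exact mul_le_one₀ (χ.norm_le_one _) (norm_nonneg _) (norm_natCast_cpow_le u n)

lemma cu_sq (n : ℕ) (hn : n ≠ 0) : cu χ u n ^ 2 = cu (χ ^ 2) (2 * u) n := by
  unfold cu
  have e : -(((2 * u : ℝ) : ℂ) * Complex.I) = -((u : ℂ) * Complex.I) + -((u : ℂ) * Complex.I) := by
    push_cast
    ring
  rw [e, Complex.cpow_add _ _ (by exact_mod_cast hn), MulChar.pow_apply' χ two_ne_zero]
  ring

variable {u}

/-- the coefficient function on the ring of integers -/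
lemma psi_cu (J : (Ideal (𝓞 K))⁰) (s : ℝ) (x : 𝓞 K) :
    psi (cu χ u) (J : Ideal (𝓞 K)) x * ((Fs K (ww K) s x : ℝ) : ℂ) =
      (Ideal.absNorm (J : Ideal (𝓞 K)) : ℂ) ^ ((u : ℂ) * Complex.I) *
        (psi (fun n => χ (n : ZMod m)) (J : Ideal (𝓞 K)) x * Ht K u s x) := by
  classical
  have hF : Pool.Agent.MP_058a58_ag.Ch.Fs K (ww K) s x = Fs K (ww K) s x := rfl
  unfold psi
  by_cases hx : x ∈ (J : Ideal (𝓞 K))
  · rw [if_pos hx, if_pos hx]
    by_cases h0 : x = 0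
    · subst h0
      rw [Pool.Agent.MP_058a58_ag.Ch.Ht_zero, ← hF, Pool.Agent.MP_058a58_ag.Ch.Fs_zero]
      simp
    · unfold Ht cu
      rw [hF]
      set N := Ideal.absNorm (J : Ideal (𝓞 K)) with hN
      have hN0 : 0 < N := absNorm_pos' J
      have hdvd : N ∣ (Algebra.norm ℤ x).natAbs :=
        Int.natCast_dvd.1 (Ideal.absNorm_dvd_norm_of_mem hx)
      obtain ⟨y, hy⟩ := hdvd
      have hNc : (N : ℂ) ≠ 0 := by exact_mod_cast hN0.ne'
      have hq : (Algebra.norm ℤ x).natAbs / N = y := by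
        rw [hy, Nat.mul_div_cancel_left _ hN0]
      have habs : ((|(Algebra.norm ℤ x : ℝ)| : ℝ) : ℂ) = (N : ℂ) * (y : ℂ) := by
        have h1 : |(Algebra.norm ℤ x : ℝ)| = (((Algebra.norm ℤ x).natAbs : ℕ) : ℝ) := by
          rw [Nat.cast_natAbs, Int.cast_abs]
        rw [h1, hy]
        push_cast
        rfl
      have hinv : (N : ℂ) ^ ((u : ℂ) * Complex.I) * (N : ℂ) ^ (-((u : ℂ) * Complex.I)) = 1 := by
        rw [← Complex.cpow_add _ _ hNc, add_neg_cancel, Complex.cpow_zero]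
      rw [hq, habs, Complex.natCast_mul_natCast_cpow]
      linear_combination (-(χ (y : ZMod m)) * (y : ℂ) ^ (-((u : ℂ) * Complex.I))
        * ((Fs K (ww K) s x : ℝ) : ℂ)) * hinv
  · rw [if_neg hx, if_neg hx]
    ring

lemma norm_psi_le (J : Ideal (𝓞 K)) (x : 𝓞 K) : ‖psi (fun n => χ (n : ZMod m)) J x‖ ≤ 1 := by
  classical
  unfold psi
  split_ifs
  · exact χ.norm_le_one _
  · rw [norm_zero]
    exact zero_le_one

/-- **the twisted zeta function has a finite limit at `1 + iu`, with a Lipschitz rate** -/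
theorem LK_cu_lip (K : Type*) [Field K] [NumberField K] {m : ℕ} [NeZero m]
    (χ : DirichletCharacter ℂ m) (hχ : χ.Even ∨ ∀ x : 𝓞 K, 0 ≤ Algebra.norm ℤ x) {u : ℝ}
    (hu : u ≠ 0) : ∃ l : ℂ, LipAt (LK K (cu χ u)) l := by
  have hm : 1 ≤ m := Nat.one_le_iff_ne_zero.mpr (NeZero.ne m)
  choose l hl using fun C : ClassGroup (𝓞 K) =>
    Pool.Agent.MP_058a58_ag.Ch.per_lip K u hu
      (Q := m * Ideal.absNorm (rep C : Ideal (𝓞 K))) (Nat.mul_pos hm (absNorm_pos' (rep C)))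
      (psi (fun n => χ (n : ZMod m)) (rep C : Ideal (𝓞 K))) (norm_psi_le χ _)
      (fun x y => psi_per χ hχ (rep C) x y)
  have h1 : ∀ C : ClassGroup (𝓞 K), LipAt (fun s =>
      (((Ideal.absNorm (rep C : Ideal (𝓞 K)) : ℝ) ^ s : ℝ) : ℂ) *
      ((Ideal.absNorm (rep C : Ideal (𝓞 K)) : ℂ) ^ ((u : ℂ) * Complex.I) *
        ∑' x : 𝓞 K, psi (fun n => χ (n : ZMod m)) (rep C : Ideal (𝓞 K)) x * Ht K u s x)) _ :=
    fun C => (LipAt.rpow (by exact_mod_cast absNorm_pos' (rep C))).mul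
      ((LipAt.const _).mul (hl C))
  refine ⟨_, (LipAt.sum Finset.univ fun C _ => h1 C).congr fun s hs => ?_⟩
  unfold LK
  rw [twist_eq (WOK_ww K) (by linarith) (summable_LK K (norm_cu_le χ u) hs)]
  refine Finset.sum_congr rfl fun C _ => ?_
  congr 1
  rw [← tsum_mul_left]
  exact tsum_congr fun x => psi_cu χ (rep C) s x

lemma three_four_one {z : ℂ} (hz : ‖z‖ ≤ 1) : 0 ≤ 3 + 4 * z.re + (z ^ 2).re := by
  have h1 : z.re ^ 2 + z.im ^ 2 ≤ 1 := by
    have h := Complex.sq_norm z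
    rw [Complex.normSq_apply] at h
    nlinarith [norm_nonneg z]
  have h2 : (z ^ 2).re = z.re ^ 2 - z.im ^ 2 := by
    rw [pow_two, Complex.mul_re]
    ring
  nlinarith [sq_nonneg (1 + z.re)]

lemma SC_three_four_one (K : Type*) [Field K] [NumberField K] (u : ℝ) {s : ℝ} (hs : 1 < s) :
    0 ≤ 3 * SC K (fun _ => 1) s + 4 * SC K (cu χ u) s + SC K (cu (χ ^ 2) (2 * u)) s := by
  have h1 := summable_SC (K := K) (c := fun _ => 1) (fun _ => by simp) hs
  have h2 := summable_SC (K := K) (norm_cu_le χ u) hs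
  have h3 := summable_SC (K := K) (norm_cu_le (χ ^ 2) (2 * u)) hs
  unfold SC
  rw [← tsum_mul_left, ← tsum_mul_left, ← (h1.mul_left 3).tsum_add (h2.mul_left 4),
    ← ((h1.mul_left 3).add (h2.mul_left 4)).tsum_add h3]
  refine tsum_nonneg fun p => ?_
  have hp : (p : ℕ) ≠ 0 := p.2.ne_zero
  have h4 := three_four_one (norm_cu_le χ u p)
  rw [cu_sq χ u p hp] at h4
  have h5 := mul_nonneg h4 (term_nonneg K s p)
  simp only [Complex.one_re]
  linarith

lemma tendsto_log_inv : Tendsto (fun x : ℝ => Real.log (1 / (x - 1))) (𝓝[>] 1) atTop := by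
  have h1 : Tendsto (fun x : ℝ => x - 1) (𝓝[>] 1) (𝓝[>] 0) := by
    refine tendsto_nhdsWithin_iff.mpr ⟨Pool.Agent.MP_058a58_ag.Ch.tendsto_sub_one, ?_⟩
    filter_upwards [self_mem_nhdsWithin] with x hx
    have : (1 : ℝ) < x := hx
    show (0 : ℝ) < x - 1
    linarith
  have h2 : Tendsto (fun y : ℝ => 1 / y) (𝓝[>] 0) atTop := by
    simpa using tendsto_inv_nhdsGT_zero (𝕜 := ℝ)
  exact Real.tendsto_log_atTop.comp (h2.comp h1)

/-- a bounded twisted zeta function gives an upper bound for the prime sum -/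
lemma SC_le_of_norm_le {c : ℕ → ℂ} (h1 : c 1 = 1) (hm : ∀ a b, c (a * b) = c a * c b)
    (hc : ∀ n, ‖c n‖ ≤ 1) {s B : ℝ} (hs : 1 < s) (h : ‖LK K c s‖ ≤ B) :
    SC K c s ≤ Real.log B + 2 * cc K := by
  obtain ⟨h0, h2⟩ := log_LK (K := K) h1 hm hc hs
  have h3 := Real.log_le_log (norm_pos_iff.mpr h0) h
  have h4 := (abs_le.mp h2).1
  linarith

lemma SC_one_le (K : Type*) [Field K] [NumberField K] : ∃ B : ℝ, ∀ᶠ s in 𝓝[>] (1 : ℝ),
    SC K (fun _ => 1) s ≤ Real.log (1 / (s - 1)) + B := by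
  have hρ := dedekindZeta_residue_pos K
  set ρ := dedekindZeta_residue K with hρdef
  have h1 : ∀ᶠ s in 𝓝[>] (1 : ℝ), (s - 1) * Z K s < 2 * ρ :=
    (tendsto_Z K).eventually (gt_mem_nhds (by linarith))
  refine ⟨Real.log (2 * ρ) + 2 * cc K, ?_⟩
  filter_upwards [h1, self_mem_nhdsWithin] with s h1 hs
  have hs1 : (1 : ℝ) < s := hs
  have hs0 : 0 < s - 1 := by linarith
  have h2 : ‖LK K (fun _ => 1) s‖ ≤ 2 * ρ * (1 / (s - 1)) := by
    rw [LK_one K hs1, Complex.norm_real, Real.norm_eq_abs]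
    have h3 : 0 ≤ Z K s := tsum_nonneg fun n =>
      mul_nonneg (Nat.cast_nonneg _) (Real.rpow_nonneg (Nat.cast_nonneg _) _)
    rw [abs_of_nonneg h3, mul_one_div, le_div_iff₀ hs0]
    linarith
  have h3 := SC_le_of_norm_le (K := K) (c := fun _ => 1) rfl (fun _ _ => (one_mul 1).symm)
    (fun _ => by simp) hs1 h2
  rw [Real.log_mul (by positivity) (by positivity)] at h3
  linarith

lemma sq_even {m : ℕ} (χ : DirichletCharacter ℂ m) : (χ ^ 2).Even := by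
  unfold DirichletCharacter.Even
  rw [MulChar.pow_apply' χ two_ne_zero, ← map_pow, neg_one_sq, map_one]

/-- **the limit is not zero** -/
theorem LK_cu_ne (K : Type*) [Field K] [NumberField K] {m : ℕ} [NeZero m]
    (χ : DirichletCharacter ℂ m) {u : ℝ} (hu : u ≠ 0) {l : ℂ} (hl : LipAt (LK K (cu χ u)) l) :
    l ≠ 0 := by
  rintro rfl
  obtain ⟨l2, hl2⟩ := LK_cu_lip K (χ ^ 2) (Or.inl (sq_even χ)) (u := 2 * u)
    (mul_ne_zero two_ne_zero hu)
  obtain ⟨C, hC0, hC⟩ := IsBigO.exists_pos hl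
  rw [isBigOWith_iff] at hC
  have h2 : ∀ᶠ s in 𝓝[>] (1 : ℝ), ‖LK K (cu (χ ^ 2) (2 * u)) s‖ < ‖l2‖ + 1 :=
    hl2.tendsto.norm.eventually (gt_mem_nhds (by linarith))
  obtain ⟨B, hB⟩ := SC_one_le K
  have hbig := tendsto_log_inv.eventually (eventually_gt_atTop
    (3 * B + 4 * (Real.log C + 2 * cc K) + (Real.log (‖l2‖ + 1) + 2 * cc K)))
  have hself : ∀ᶠ s in 𝓝[>] (1 : ℝ), s ∈ Set.Ioi (1 : ℝ) := self_mem_nhdsWithin
  obtain ⟨s, hs, hC, h2, hB, hbig⟩ :=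
    (hself.and (hC.and (h2.and (hB.and hbig)))).exists
  have hs1 : (1 : ℝ) < s := hs
  have hs0 : 0 < s - 1 := by linarith
  have e1 := SC_three_four_one χ K u hs1
  have e2 := SC_le_of_norm_le (cu_one (χ ^ 2) (2 * u)) (cu_mul (χ ^ 2) (2 * u))
    (norm_cu_le (χ ^ 2) (2 * u)) hs1 h2.le
  rw [sub_zero, Real.norm_of_nonneg hs0.le] at hC
  have e3 := SC_le_of_norm_le (cu_one χ u) (cu_mul χ u) (norm_cu_le χ u) hs1 hC
  rw [Real.log_mul hC0.ne' hs0.ne'] at e3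
  have e4 : Real.log (1 / (s - 1)) = -Real.log (s - 1) := by
    rw [one_div, Real.log_inv]
  rw [e4] at hB hbig
  linarith

/-- **the prime sum is bounded** -/
theorem SC_cu_bdd (K : Type*) [Field K] [NumberField K] {m : ℕ} [NeZero m]
    (χ : DirichletCharacter ℂ m) (hχ : χ.Even ∨ ∀ x : 𝓞 K, 0 ≤ Algebra.norm ℤ x) {u : ℝ}
    (hu : u ≠ 0) : ∃ B : ℝ, ∀ᶠ s in 𝓝[>] (1 : ℝ), |SC K (cu χ u) s| ≤ B := by
  obtain ⟨l, hl⟩ := LK_cu_lip K χ hχ hu
  have hne : ‖l‖ ≠ 0 := norm_ne_zero_iff.mpr (LK_cu_ne K χ hu hl)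
  have h1 : Tendsto (fun s => |Real.log ‖LK K (cu χ u) s‖|) (𝓝[>] (1 : ℝ))
      (𝓝 |Real.log ‖l‖|) := ((Real.continuousAt_log hne).tendsto.comp hl.tendsto.norm).abs
  have h2 : ∀ᶠ s in 𝓝[>] (1 : ℝ), |Real.log ‖LK K (cu χ u) s‖| < |Real.log ‖l‖| + 1 :=
    h1.eventually (gt_mem_nhds (by linarith))
  refine ⟨|Real.log ‖l‖| + 1 + 2 * cc K, ?_⟩
  filter_upwards [h2, self_mem_nhdsWithin] with s h2 hs
  have h3 := (log_LK (K := K) (cu_one χ u) (cu_mul χ u) (norm_cu_le χ u) hs).2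
  rw [abs_le] at h3 ⊢
  have h4 := abs_lt.mp h2
  constructor <;> linarith [h3.1, h3.2, h4.1, h4.2]

end Pool.Agent.Lib.MP_058a58_ag.Ch
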