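import Mathlib
import Pool.Agent.Lib.MP_058a58_ag.AT.LatT4
import Pool.Agent.Lib.MP_058a58_ag.AT.CycMean

/-!
# The mean value of a twisted fixed point count with a vertical shift

For a number field `K`, a Dirichlet character `χ` and a real number `u ≠ 0` the sum over the primes of
`fix_K(Frob_p) Re (χ(p) p^(-iu)) p^(-x)` is bounded near `x = 1`.
-/

open Polynomial Filter Topology NumberField Set

namespace TatePole.AT

open Pool.Agent.Lib.MP_058a58_ag.Ch (SC cu SC_cu_bdd norm_cu_le)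

variable {m : ℕ}

lemma SC_eq_RR (K : Type*) [Field K] [NumberField K] (c : ℕ → ℂ) (s : ℝ) :
    SC K c s = RR (fun p => Ded.A K p * (c p).re) s := by
  unfold SC RR
  refine tsum_congr fun p => ?_
  ring

/-- the mean value, for every number field and every character of the right parity -/
theorem cyc_mean_t' (K : Type*) [Field K] [NumberField K] [NeZero m]
    (χ : DirichletCharacter ℂ m) (hχ : χ.Even ∨ ∀ x : 𝓞 K, 0 ≤ Algebra.norm ℤ x) {u : ℝ}
    (hu : u ≠ 0) {σ : ℕ → GQ} (hσ : FrobSys σ) :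
    HasMean (fun p => (fixCount K (σ p) : ℝ)
      * (χ (p : ZMod m) * (p : ℂ) ^ (-(u * Complex.I))).re) 0 := by
  obtain ⟨B, hB⟩ := SC_cu_bdd K χ hχ hu
  have hre : ∀ p : ℕ, |(cu χ u p).re| ≤ 1 := fun p =>
    (Complex.abs_re_le_norm _).trans (norm_cu_le χ u p)
  have hb : BddPrimes (fun p => Ded.A K p * (cu χ u p).re) := by
    refine ⟨Module.finrank ℚ K, fun p hp => ?_⟩
    rw [abs_mul, abs_of_nonneg (Ded.A_nonneg K p)]
    calc Ded.A K p * |(cu χ u p).re| ≤ Ded.A K p * 1 :=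
          mul_le_mul_of_nonneg_left (hre p) (Ded.A_nonneg K p)
      _ ≤ Module.finrank ℚ K := by
          rw [mul_one]
          unfold Ded.A
          exact_mod_cast card_norm_prime_le K p hp
  have hb2 : BddPrimes (fun p => (fixCount K (σ p) : ℝ) * (cu χ u p).re) := by
    refine ⟨Nat.card (K →ₐ[ℚ] QBar), fun p _ => ?_⟩
    rw [abs_mul, abs_of_nonneg (Nat.cast_nonneg _)]
    calc (fixCount K (σ p) : ℝ) * |(cu χ u p).re| ≤ (fixCount K (σ p) : ℝ) * 1 :=
          mul_le_mul_of_nonneg_left (hre p) (Nat.cast_nonneg _)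
      _ ≤ _ := by rw [mul_one]; exact_mod_cast fixCount_le K (σ p)
  obtain ⟨C, hC⟩ := RR_near (finite_bad K).toFinset (fun p hp hpS => by
    have hgood : GoodFor K p := by
      by_contra h
      exact hpS ((finite_bad K).mem_toFinset.mpr ⟨hp, h⟩)
    obtain ⟨𝔓, h𝔓, hp𝔓, hf⟩ := hσ p hp
    change Ded.A K p * (cu χ u p).re = (fixCount K (σ p) : ℝ) * (cu χ u p).re
    rw [fixCount_eq hp hgood h𝔓 hp𝔓 hf]
    rfl) hb hb2
  refine ⟨B + C, ?_⟩
  filter_upwards [hB, self_mem_nhdsWithin] with s hB hs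
  rw [zero_mul, sub_zero]
  change |RR (fun p => (fixCount K (σ p) : ℝ) * (cu χ u p).re) s| ≤ B + C
  rw [SC_eq_RR] at hB
  have h2 := hC s hs
  rw [abs_le] at hB h2 ⊢
  constructor <;> linarith [hB.1, hB.2, h2.1, h2.2]

/-- **the mean value with a vertical shift is zero** -/
theorem cyc_mean_t (K : Type*) [Field K] [NumberField K] [IsTotallyComplex K] [NeZero m]
    (χ : DirichletCharacter ℂ m) {u : ℝ} (hu : u ≠ 0) {σ : ℕ → GQ} (hσ : FrobSys σ) :
    HasMean (fun p => (fixCount K (σ p) : ℝ)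
      * (χ (p : ZMod m) * (p : ℂ) ^ (-(u * Complex.I))).re) 0 :=
  cyc_mean_t' K χ (Or.inr fun x => by
    rw [← an_cast]
    exact Int.natCast_nonneg _) hu hσ

end TatePole.AT
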