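import Mathlib
import Pool.Agent.Lib.MP_058a58_ag.AT.Trick3

open Polynomial Filter Topology NumberField Set

namespace TatePole.AT

/-- The sequence `E` of complex numbers of absolute value at most `1` is asymptotically orthogonal
to the fixed point counts of totally complex fields, twisted by Dirichlet characters. -/
def Osc (σ : ℕ → GQ) (E : ℕ → ℂ) : Prop :=
  (∀ p : ℕ, p.Prime → ‖E p‖ ≤ 1) ∧
  ∀ (K : Type) [Field K] [NumberField K] [IsTotallyComplex K] (m : ℕ) [NeZero m]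
    (χ : DirichletCharacter ℂ m),
    HasDens (fun p => (fixCount K (σ p) : ℝ) * (χ (p : ZMod m) * E p).re) 0

lemma HasDens.add {g h : ℕ → ℝ} {c d : ℝ} (hg : HasDens g c) (hh : HasDens h d)
    (bg : BddPrimes g) (bh : BddPrimes h) : HasDens (fun p => g p + h p) (c + d) := by
  obtain ⟨C, hC⟩ := bg
  obtain ⟨C', hC'⟩ := bh
  intro ε hε
  filter_upwards [hg (ε / 2) (by positivity), hh (ε / 2) (by positivity),
    self_mem_nhdsWithin] with x hx hx' hx1
  simp only [mem_Ioi] at hx1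
  rw [RR_add hC hC' hx1]
  have h1 : RR g x + RR h x - (c + d) * Real.log (1 / (x - 1)) =
    (RR g x - c * Real.log (1 / (x - 1))) + (RR h x - d * Real.log (1 / (x - 1))) := by ring
  rw [h1]
  refine (abs_add_le _ _).trans ((add_le_add hx hx').trans (le_of_eq ?_))
  ring

lemma HasDens.congr_finite {g h : ℕ → ℝ} {c : ℝ} (hg : HasDens g c)
    (S : Finset ℕ) (hS : ∀ p : ℕ, p.Prime → p ∉ S → h p = g p)
    (bg : BddPrimes g) (bh : BddPrimes h) : HasDens h c := by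
  obtain ⟨K, hK⟩ := RR_near S hS bh bg
  intro ε hε
  filter_upwards [hg (ε / 2) (by positivity), self_mem_nhdsWithin,
    eventually_log_ge (2 * K / ε)] with x hx hx1 h2
  have h3 := hK x hx1
  rw [div_le_iff₀ hε] at h2
  have h4 : RR h x - c * Real.log (1 / (x - 1)) =
    (RR g x - c * Real.log (1 / (x - 1))) + (RR h x - RR g x) := by ring
  rw [h4]
  refine (abs_add_le _ _).trans ((add_le_add hx h3).trans ?_)
  linarith

section
variable {m : ℕ} [NeZero m]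

lemma char_identity' (a u : (ZMod m)ˣ) [DecidableEq (ZMod m)ˣ] :
    ∑ χ : DirichletCharacter ℂ m, (χ (a : ZMod m)).im * (χ (u : ZMod m)).im =
      (m.totient : ℝ) / 2 * ((if u = a then 1 else 0) - (if u = a⁻¹ then 1 else 0)) := by
  have h1 : ∀ χ : DirichletCharacter ℂ m, (χ (a : ZMod m)).im * (χ (u : ZMod m)).im =
      (χ ((a⁻¹ * u : (ZMod m)ˣ) : ZMod m)).re / 2 - (χ ((a * u : (ZMod m)ˣ) : ZMod m)).re / 2 := by
    intro χ
    have h2 : χ ((a⁻¹ : (ZMod m)ˣ) : ZMod m) = (starRingEnd ℂ) (χ (a : ZMod m)) := by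
      have h3 : χ ((a⁻¹ : (ZMod m)ˣ) : ZMod m) * χ (a : ZMod m) = 1 := by
        rw [← map_mul, ← Units.val_mul, inv_mul_cancel, Units.val_one, map_one]
      have h4 : (starRingEnd ℂ) (χ (a : ZMod m)) * χ (a : ZMod m) = 1 := by
        rw [mul_comm, Complex.mul_conj, Complex.normSq_eq_norm_sq, χ.unit_norm_eq_one]
        simp
      have h5 : χ (a : ZMod m) ≠ 0 := by
        intro h
        rw [h, mul_zero] at h3
        exact zero_ne_one h3
      exact mul_right_cancel₀ h5 (h3.trans h4.symm)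
    rw [Units.val_mul, Units.val_mul, map_mul, map_mul, h2, Complex.mul_re, Complex.mul_re,
      Complex.conj_re, Complex.conj_im]
    ring
  simp only [h1]
  rw [Finset.sum_sub_distrib, ← Finset.sum_div, ← Finset.sum_div, ← Complex.re_sum,
    ← Complex.re_sum, DirichletCharacter.sum_characters_eq, DirichletCharacter.sum_characters_eq]
  have h6 : ((a * u : (ZMod m)ˣ) : ZMod m) = 1 ↔ u = a⁻¹ := by
    rw [← Units.val_one, Units.ext_iff.symm, mul_eq_one_iff_eq_inv']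
  have h7 : ((a⁻¹ * u : (ZMod m)ˣ) : ZMod m) = 1 ↔ u = a := by
    rw [← Units.val_one, Units.ext_iff.symm, inv_mul_eq_one, eq_comm]
  simp only [h6, h7]
  by_cases h8 : u = a <;> by_cases h9 : u = a⁻¹
  · rw [if_pos h9, if_pos h8, if_pos h8, if_pos h9]; simp
  · rw [if_neg h9, if_pos h8, if_pos h8, if_neg h9]; simp
  · rw [if_pos h9, if_neg h8, if_neg h8, if_pos h9]; simp
  · rw [if_neg h9, if_neg h8, if_neg h8, if_neg h9]; simp

end

/-- separation of the real and imaginary parts -/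
lemma Osc.parts {σ : ℕ → GQ} {E : ℕ → ℂ} (hE : Osc σ E) (K : Type) [Field K] [NumberField K]
    [IsTotallyComplex K] {m : ℕ} [NeZero m] (χ : DirichletCharacter ℂ m) :
    HasDens (fun p => (fixCount K (σ p) : ℝ) * ((χ (p : ZMod m)).re * (E p).re)) 0 ∧
    HasDens (fun p => (fixCount K (σ p) : ℝ) * ((χ (p : ZMod m)).im * (E p).im)) 0 := by
  have h1 := hE.2 K m χ
  have h2 := hE.2 K m χ⁻¹
  have hconj : ∀ p : ℕ, (χ⁻¹ (p : ZMod m)) = (starRingEnd ℂ) (χ (p : ZMod m)) := by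
    intro p
    rw [MulChar.inv_apply_eq_inv]
    by_cases h : IsUnit (p : ZMod m)
    · obtain ⟨u, hu⟩ := h
      rw [← hu]
      have h4 : (starRingEnd ℂ) (χ (u : ZMod m)) * χ (u : ZMod m) = 1 := by
        rw [mul_comm, Complex.mul_conj, Complex.normSq_eq_norm_sq, χ.unit_norm_eq_one]
        simp
      rw [Ring.inverse_eq_inv']
      exact (eq_inv_of_mul_eq_one_left h4).symm
    · rw [χ.map_nonunit h]; simp
  have hb : ∀ χ : DirichletCharacter ℂ m,
      BddPrimes (fun p => (fixCount K (σ p) : ℝ) * (χ (p : ZMod m) * E p).re) := by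
    intro χ
    refine (bdd_fixCount K σ).mul ⟨1, fun p hp => ?_⟩
    refine (Complex.abs_re_le_norm _).trans ?_
    rw [norm_mul]
    exact mul_le_one₀ (χ.norm_le_one _) (norm_nonneg _) (hE.1 p hp)
  constructor
  · have h3 := (h1.add h2 (hb χ) (hb χ⁻¹)).const_mul (1 / 2)
    have e1 : (fun p => 1 / 2 * ((fixCount K (σ p) : ℝ) * (χ (p : ZMod m) * E p).re +
        (fixCount K (σ p) : ℝ) * (χ⁻¹ (p : ZMod m) * E p).re)) =
        fun p => (fixCount K (σ p) : ℝ) * ((χ (p : ZMod m)).re * (E p).re) := by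
      funext p
      rw [hconj, Complex.mul_re, Complex.mul_re, Complex.conj_re, Complex.conj_im]
      ring
    rw [e1] at h3
    simpa using h3
  · have h3 := ((h2.add (h1.const_mul (-1)) (hb χ⁻¹) ((hb χ).const_mul (-1)))).const_mul (1 / 2)
    have e1 : (fun p => 1 / 2 * ((fixCount K (σ p) : ℝ) * (χ⁻¹ (p : ZMod m) * E p).re +
        -1 * ((fixCount K (σ p) : ℝ) * (χ (p : ZMod m) * E p).re))) =
        fun p => (fixCount K (σ p) : ℝ) * ((χ (p : ZMod m)).im * (E p).im) := by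
      funext p
      rw [hconj, Complex.mul_re, Complex.mul_re, Complex.conj_re, Complex.conj_im]
      ring
    rw [e1] at h3
    simpa using h3

lemma cc_formula {m : ℕ} [NeZero m] (N : Subgroup GQ) [N.Normal] {M : IntermediateField ℚ QBar}
    [FiniteDimensional ℚ M] (hN : N = M.fixingSubgroup) (cq : GQ ⧸ N →* (ZMod m)ˣ)
    (hcq : ∀ g : GQ, cq (g : GQ ⧸ N) = cyc m g) (γ : GQ ⧸ N) (hord : orderOf γ = orderOf (cq γ))
    [NumberField (fieldOf N (Subgroup.zpowers γ))] [DecidableEq (ZMod m)ˣ] (δ : GQ ⧸ N)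
    (hδ : δ ∈ Subgroup.zpowers γ) (s : GQ) :
    cc δ (s : GQ ⧸ N) = (orderOf γ : ℝ) * fixCount (fieldOf N (Subgroup.zpowers γ)) s *
      (if cyc m s = cq δ then 1 else 0) := by
  classical
  have hfin : Finite (GQ ⧸ N) := finite_quot N hN
  set H := Subgroup.zpowers γ with hH
  set K := fieldOf N H with hK
  set a := cq γ with ha
  set n := orderOf γ with hn
  have hcardH : Nat.card H = n := Nat.card_zpowers γ
  have hconj : ∀ s : GQ, Nat.card {x : GQ ⧸ N // x⁻¹ * (s : GQ ⧸ N) * x ∈ H} =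
      Nat.card H * fixCount K s := fun s => card_conj_mem N hN H s
  have hinj : ∀ y ∈ H, ∀ z ∈ H, cq y = cq z → y = z := by
    intro y hy z hz h
    obtain ⟨i, rfl⟩ := Subgroup.mem_zpowers_iff.mp hy
    obtain ⟨j, rfl⟩ := Subgroup.mem_zpowers_iff.mp hz
    rw [map_zpow, map_zpow, ← ha] at h
    have h1 : a ^ (i - j) = 1 := by rw [zpow_sub, h, mul_inv_cancel]
    have h2 : γ ^ (i - j) = 1 := by
      rw [← orderOf_dvd_iff_zpow_eq_one] at h1 ⊢
      rw [← hn, hord]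
      exact h1
    rw [zpow_sub, mul_inv_eq_one] at h2
    exact h2
  have hcqconj : ∀ (x : GQ ⧸ N) (s : GQ), cq (x⁻¹ * (s : GQ ⧸ N) * x) = cyc m s := by
    intro x s
    rw [map_mul, map_mul, map_inv, hcq, mul_comm, mul_inv_cancel_left]
  unfold cc
  split_ifs with h
  · rw [mul_one, ← Nat.cast_mul, ← hcardH, ← hconj s, Nat.cast_inj]
    refine Nat.card_congr (Equiv.subtypeEquivRight fun x => ?_)
    constructor
    · intro h1; rw [h1]; exact hδ
    · intro h1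
      exact hinj _ h1 _ hδ (by rw [hcqconj, h])
  · rw [mul_zero, Nat.cast_eq_zero]
    have : IsEmpty {x : GQ ⧸ N // x⁻¹ * (s : GQ ⧸ N) * x = δ} := by
      refine ⟨fun x => h ?_⟩
      rw [← hcqconj x.1 s, x.2]
    exact Nat.card_of_isEmpty

lemma HasDens.zero_mul_sum {ι : Type*} (s : Finset ι) {g : ι → ℕ → ℝ} (a : ι → ℝ)
    (h : ∀ i ∈ s, HasDens (g i) 0) (b : ∀ i ∈ s, BddPrimes (g i)) :
    HasDens (fun p => ∑ i ∈ s, a i * g i p) 0 := by
  have h1 := HasDens.sum s (g := fun i p => a i * g i p) (c := fun i => a i * 0)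
    (fun i hi => (h i hi).const_mul (a i)) (fun i hi => (b i hi).const_mul (a i))
  simpa using h1

lemma bdd_of_abs_le {g : ℕ → ℝ} (C : ℝ) (h : ∀ p : ℕ, p.Prime → |g p| ≤ C) : BddPrimes g :=
  ⟨C, h⟩

theorem trick1_t {σ : ℕ → GQ} (hσ : FrobSys σ) {E : ℕ → ℂ} (hE : Osc σ E)
    {m : ℕ} [NeZero m] (N : Subgroup GQ) [N.Normal] {M : IntermediateField ℚ QBar}
    [FiniteDimensional ℚ M] (hN : N = M.fixingSubgroup) (cq : GQ ⧸ N →* (ZMod m)ˣ)
    (hcq : ∀ g : GQ, cq (g : GQ ⧸ N) = cyc m g) (γ : GQ ⧸ N) (hord : orderOf γ = orderOf (cq γ))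
    [NumberField (fieldOf N (Subgroup.zpowers γ))]
    [IsTotallyComplex (fieldOf N (Subgroup.zpowers γ))] :
    HasDens (fun p => (cc γ (σ p : GQ ⧸ N) + cc γ⁻¹ (σ p : GQ ⧸ N)) * (E p).re) 0 ∧
    HasDens (fun p => (cc γ (σ p : GQ ⧸ N) - cc γ⁻¹ (σ p : GQ ⧸ N)) * (E p).im) 0 := by
  classical
  have hfin : Finite (GQ ⧸ N) := finite_quot N hN
  set K := fieldOf N (Subgroup.zpowers γ) with hK
  set a := cq γ with ha
  set n := orderOf γ with hn
  have hγH : γ ∈ Subgroup.zpowers γ := Subgroup.mem_zpowers γ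
  have hγH' : γ⁻¹ ∈ Subgroup.zpowers γ := Subgroup.inv_mem _ hγH
  have hcc1 : ∀ s : GQ, cc γ (s : GQ ⧸ N) = (n : ℝ) * fixCount K s *
      (if cyc m s = cq γ then 1 else 0) :=
    fun s : GQ => cc_formula N hN cq hcq γ hord γ hγH s
  have hcc2 : ∀ s : GQ, cc γ⁻¹ (s : GQ ⧸ N) = (n : ℝ) * fixCount K s *
      (if cyc m s = cq γ⁻¹ then 1 else 0) :=
    fun s : GQ => cc_formula N hN cq hcq γ hord γ⁻¹ hγH' s
  have hφpos : (0 : ℝ) < m.totient := by exact_mod_cast Nat.totient_pos.mpr (NeZero.pos m)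
  have hEre : ∀ p : ℕ, p.Prime → |(E p).re| ≤ 1 := fun p hp =>
    (Complex.abs_re_le_norm _).trans (hE.1 p hp)
  have hEim : ∀ p : ℕ, p.Prime → |(E p).im| ≤ 1 := fun p hp =>
    (Complex.abs_im_le_norm _).trans (hE.1 p hp)
  have hχre : ∀ (χ : DirichletCharacter ℂ m) (p : ℕ), |(χ (p : ZMod m)).re| ≤ 1 := fun χ p =>
    (Complex.abs_re_le_norm _).trans (χ.norm_le_one _)
  have hχim : ∀ (χ : DirichletCharacter ℂ m) (p : ℕ), |(χ (p : ZMod m)).im| ≤ 1 := fun χ p =>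
    (Complex.abs_im_le_norm _).trans (χ.norm_le_one _)
  have hb1 : ∀ χ : DirichletCharacter ℂ m,
      BddPrimes (fun p => (fixCount K (σ p) : ℝ) * ((χ (p : ZMod m)).re * (E p).re)) := fun χ =>
    (bdd_fixCount K σ).mul ⟨1, fun p hp => by
      rw [abs_mul]; exact mul_le_one₀ (hχre χ p) (abs_nonneg _) (hEre p hp)⟩
  have hb2 : ∀ χ : DirichletCharacter ℂ m,
      BddPrimes (fun p => (fixCount K (σ p) : ℝ) * ((χ (p : ZMod m)).im * (E p).im)) := fun χ =>
    (bdd_fixCount K σ).mul ⟨1, fun p hp => by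
      rw [abs_mul]; exact mul_le_one₀ (hχim χ p) (abs_nonneg _) (hEim p hp)⟩
  have hccb : ∀ p : ℕ, |cc γ (σ p : GQ ⧸ N) + cc γ⁻¹ (σ p : GQ ⧸ N)| ≤ 2 * Nat.card (GQ ⧸ N) := by
    intro p
    have h1 := cc_nonneg γ (σ p : GQ ⧸ N)
    have h2 := cc_nonneg γ⁻¹ (σ p : GQ ⧸ N)
    have h3 := cc_le γ (σ p : GQ ⧸ N)
    have h4 := cc_le γ⁻¹ (σ p : GQ ⧸ N)
    rw [abs_of_nonneg (by linarith)]
    linarith
  have hccb' : ∀ p : ℕ, |cc γ (σ p : GQ ⧸ N) - cc γ⁻¹ (σ p : GQ ⧸ N)| ≤ 2 * Nat.card (GQ ⧸ N) := by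
    intro p
    have h1 := cc_nonneg γ (σ p : GQ ⧸ N)
    have h2 := cc_nonneg γ⁻¹ (σ p : GQ ⧸ N)
    have h3 := cc_le γ (σ p : GQ ⧸ N)
    have h4 := cc_le γ⁻¹ (σ p : GQ ⧸ N)
    rw [abs_le]
    constructor <;> linarith
  constructor
  · have hmean := HasDens.zero_mul_sum Finset.univ
      (fun χ : DirichletCharacter ℂ m => n * (2 / (m.totient : ℝ)) * (χ (a : ZMod m)).re)
      (fun χ _ => (hE.parts K χ).1) (fun χ _ => hb1 χ)
    refine hmean.congr_finite m.primeFactors (fun p hp hpS => ?_) ?_ ?_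
    · have hpm : ¬ p ∣ m := fun h => hpS (Nat.mem_primeFactors.mpr ⟨hp, h, NeZero.ne m⟩)
      have hu := cyc_frobSys (m := m) hσ hp hpm
      rw [hcc1, hcc2, map_inv, ← ha]
      have h1 := char_identity a (cyc m (σ p))
      rw [hu] at h1
      have h2 : ∑ χ : DirichletCharacter ℂ m, (n * (2 / (m.totient : ℝ)) *
          (χ (a : ZMod m)).re) * ((fixCount K (σ p) : ℝ) * ((χ (p : ZMod m)).re * (E p).re)) =
          n * (2 / m.totient) * fixCount K (σ p) * (E p).re *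
          ∑ χ : DirichletCharacter ℂ m, (χ (a : ZMod m)).re * (χ (p : ZMod m)).re := by
        rw [Finset.mul_sum]
        refine Finset.sum_congr rfl fun χ _ => ?_
        ring
      rw [h2, h1]
      field_simp
      try ring
    · choose C hC using fun χ : DirichletCharacter ℂ m => (hb1 χ).const_mul
        (n * (2 / (m.totient : ℝ)) * (χ (a : ZMod m)).re)
      exact ⟨∑ χ, C χ, fun p hp => (Finset.abs_sum_le_sum_abs _ _).trans
        (Finset.sum_le_sum fun χ _ => hC χ p hp)⟩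
    · refine ⟨2 * Nat.card (GQ ⧸ N), fun p hp => ?_⟩
      rw [abs_mul]
      calc _ ≤ (2 * Nat.card (GQ ⧸ N)) * (1 : ℝ) :=
            mul_le_mul (hccb p) (hEre p hp) (abs_nonneg _) (by positivity)
        _ = _ := mul_one _
  · have hmean := HasDens.zero_mul_sum Finset.univ
      (fun χ : DirichletCharacter ℂ m => n * (2 / (m.totient : ℝ)) * (χ (a : ZMod m)).im)
      (fun χ _ => (hE.parts K χ).2) (fun χ _ => hb2 χ)
    refine hmean.congr_finite m.primeFactors (fun p hp hpS => ?_) ?_ ?_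
    · have hpm : ¬ p ∣ m := fun h => hpS (Nat.mem_primeFactors.mpr ⟨hp, h, NeZero.ne m⟩)
      have hu := cyc_frobSys (m := m) hσ hp hpm
      rw [hcc1, hcc2, map_inv, ← ha]
      have h1 := char_identity' a (cyc m (σ p))
      rw [hu] at h1
      have h2 : ∑ χ : DirichletCharacter ℂ m, (n * (2 / (m.totient : ℝ)) *
          (χ (a : ZMod m)).im) * ((fixCount K (σ p) : ℝ) * ((χ (p : ZMod m)).im * (E p).im)) =
          n * (2 / m.totient) * fixCount K (σ p) * (E p).im *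
          ∑ χ : DirichletCharacter ℂ m, (χ (a : ZMod m)).im * (χ (p : ZMod m)).im := by
        rw [Finset.mul_sum]
        refine Finset.sum_congr rfl fun χ _ => ?_
        ring
      rw [h2, h1]
      field_simp
      try ring
    · choose C hC using fun χ : DirichletCharacter ℂ m => (hb2 χ).const_mul
        (n * (2 / (m.totient : ℝ)) * (χ (a : ZMod m)).im)
      exact ⟨∑ χ, C χ, fun p hp => (Finset.abs_sum_le_sum_abs _ _).trans
        (Finset.sum_le_sum fun χ _ => hC χ p hp)⟩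
    · refine ⟨2 * Nat.card (GQ ⧸ N), fun p hp => ?_⟩
      rw [abs_mul]
      calc _ ≤ (2 * Nat.card (GQ ⧸ N)) * (1 : ℝ) :=
            mul_le_mul (hccb' p) (hEim p hp) (abs_nonneg _) (by positivity)
        _ = _ := mul_one _

/-- The auxiliary cyclotomic extension in the trick of Chebotarev. -/
lemma trick_setup (N : Subgroup GQ) [N.Normal] {M : IntermediateField ℚ QBar}
    [FiniteDimensional ℚ M] (hN : N = M.fixingSubgroup) (j : QBar →ₐ[ℚ] ℂ) (c : GQ)
    (hc : ∀ x, j (c x) = (starRingEnd ℂ) (j x)) (hcN : c ∉ N) (m : ℕ) [NeZero m]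
    (hsurj : ∀ h : (ZMod m)ˣ, ∃ g ∈ N, cyc m g = h) (y : GQ ⧸ N) (h : (ZMod m)ˣ)
    (hdiv : 2 * orderOf y ∣ orderOf h) [DecidableEq (ZMod m)ˣ] :
    ∃ (N' : Subgroup GQ) (_ : N'.Normal) (M' : IntermediateField ℚ QBar)
      (_ : FiniteDimensional ℚ M') (_ : N' = M'.fixingSubgroup) (cq : GQ ⧸ N' →* (ZMod m)ˣ)
      (γ : GQ ⧸ N'), (∀ g : GQ, cq (g : GQ ⧸ N') = cyc m g) ∧ orderOf γ = orderOf (cq γ) ∧
      ∃ (_ : NumberField (fieldOf N' (Subgroup.zpowers γ))),
      IsTotallyComplex (fieldOf N' (Subgroup.zpowers γ)) ∧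
      (∀ s : GQ, cc γ (s : GQ ⧸ N') = m.totient *
        (if cyc m s = h then cc y (s : GQ ⧸ N) else 0)) ∧
      (∀ s : GQ, cc γ⁻¹ (s : GQ ⧸ N') = m.totient *
        (if cyc m s = h⁻¹ then cc y⁻¹ (s : GQ ⧸ N) else 0)) := by
  have hfinN : Finite (GQ ⧸ N) := finite_quot N hN
  set Θ : GQ →* (GQ ⧸ N) × (ZMod m)ˣ := (QuotientGroup.mk' N).prod (cyc m) with hΘ
  have hΘs : Function.Surjective Θ := by
    rintro ⟨y, u⟩
    obtain ⟨a, rfl⟩ := QuotientGroup.mk_surjective y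
    obtain ⟨b, hb, hbu⟩ := hsurj ((cyc m a)⁻¹ * u)
    refine ⟨a * b, ?_⟩
    rw [hΘ, MonoidHom.prod_apply, map_mul, map_mul, hbu, mul_inv_cancel_left]
    have : (QuotientGroup.mk' N) b = 1 := (QuotientGroup.eq_one_iff b).mpr hb
    rw [this, mul_one]
    rfl
  have hnorm : Θ.ker.Normal := MonoidHom.normal_ker Θ
  have hmemN' : ∀ s : GQ, s ∈ Θ.ker ↔ s ∈ N ∧ cyc m s = 1 := by
    intro s
    rw [MonoidHom.mem_ker, hΘ, MonoidHom.prod_apply, Prod.mk_eq_one]
    exact and_congr_left fun _ => QuotientGroup.eq_one_iff s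
  set M₀ : IntermediateField ℚ QBar := IntermediateField.adjoin ℚ {zt m} with hM₀
  have hfd0 : FiniteDimensional ℚ M₀ := IntermediateField.adjoin.finiteDimensional
    ((isIntegral_zt (m := m)).tower_top)
  have hfd' : FiniteDimensional ℚ (M ⊔ M₀ : IntermediateField ℚ QBar) :=
    IntermediateField.finiteDimensional_sup M M₀
  have hN' : Θ.ker = (M ⊔ M₀ : IntermediateField ℚ QBar).fixingSubgroup := by
    ext s
    rw [hmemN', hN, ← cyc_fix_iff, ← Subgroup.mem_inf, IntermediateField.fixingSubgroup_sup]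
  set e : GQ ⧸ Θ.ker ≃* (GQ ⧸ N) × (ZMod m)ˣ :=
    QuotientGroup.quotientKerEquivOfSurjective Θ hΘs with he
  have hemk : ∀ s : GQ, e (s : GQ ⧸ Θ.ker) = ((s : GQ ⧸ N), cyc m s) := fun s => rfl
  set cq : GQ ⧸ Θ.ker →* (ZMod m)ˣ := (MonoidHom.snd _ _).comp e.toMonoidHom with hcq
  have hcqmk : ∀ s : GQ, cq (s : GQ ⧸ Θ.ker) = cyc m s := fun s => rfl
  set γ : GQ ⧸ Θ.ker := e.symm (y, h) with hγ
  have heγ : e γ = (y, h) := e.apply_symm_apply _
  have hcqγ : cq γ = h := congrArg Prod.snd heγ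
  have hyh : y ^ orderOf h = 1 := by
    rw [← orderOf_dvd_iff_pow_eq_one]
    exact (Dvd.intro_left 2 rfl).trans hdiv
  have hord : orderOf γ = orderOf (cq γ) := by
    rw [hcqγ]
    refine Nat.dvd_antisymm ?_ ?_
    · rw [orderOf_dvd_iff_pow_eq_one]
      apply e.injective
      rw [map_pow, heγ, map_one, Prod.pow_mk, pow_orderOf_eq_one, hyh]
      rfl
    · rw [← hcqγ]
      exact orderOf_map_dvd cq γ
  have hNF : NumberField (fieldOf Θ.ker (Subgroup.zpowers γ)) := numberField_fieldOf Θ.ker hN' _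
  have hcsq := conj_sq j c hc
  have hTC : IsTotallyComplex (fieldOf Θ.ker (Subgroup.zpowers γ)) := by
    refine isTotallyComplex_of j c hc _ fun φ hφ => hcN ?_
    have h1 := card_conj_mem Θ.ker hN' (Subgroup.zpowers γ) c
    have hfin : Finite (GQ ⧸ Θ.ker) := finite_quot _ hN'
    have h2 : 0 < Nat.card {x : GQ ⧸ Θ.ker // x⁻¹ * (c : GQ ⧸ Θ.ker) * x ∈
        Subgroup.zpowers γ} := by
      rw [h1]
      exact Nat.mul_pos Nat.card_pos (fixCount_pos _ hφ)
    obtain ⟨⟨x, hx⟩⟩ := (Nat.card_pos_iff.mp h2).1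
    obtain ⟨k, hk⟩ := Subgroup.mem_zpowers_iff.mp hx
    have h3 := congrArg e hk
    rw [map_zpow, heγ, map_mul, map_mul, map_inv, hemk] at h3
    have h4 : y ^ k = (e x).1⁻¹ * (c : GQ ⧸ N) * (e x).1 := congrArg Prod.fst h3
    have h5 : h ^ k = (e x).2⁻¹ * cyc m c * (e x).2 := congrArg Prod.snd h3
    rw [mul_comm, mul_inv_cancel_left] at h5
    have h6 : h ^ (2 * k) = 1 := by
      rw [mul_comm, zpow_mul, h5, zpow_two, ← map_mul, hcsq, map_one]
    have h7 : ((2 * orderOf y : ℕ) : ℤ) ∣ 2 * k :=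
      (Int.natCast_dvd_natCast.mpr hdiv).trans (orderOf_dvd_iff_zpow_eq_one.mpr h6)
    have h8 : ((orderOf y : ℕ) : ℤ) ∣ k := by
      rw [Nat.cast_mul] at h7
      exact (mul_dvd_mul_iff_left (by norm_num : ((2 : ℕ) : ℤ) ≠ 0)).mp h7
    have h9 : y ^ k = 1 := orderOf_dvd_iff_zpow_eq_one.mp h8
    rw [h9] at h4
    have h10 : (c : GQ ⧸ N) = 1 := by
      have h11 : (c : GQ ⧸ N) = (e x).1 * ((e x).1⁻¹ * (c : GQ ⧸ N) * (e x).1) * (e x).1⁻¹ := by
        group
      rw [h11, ← h4]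
      group
    exact (QuotientGroup.eq_one_iff c).mp h10
  have hcardZ : Nat.card (ZMod m)ˣ = m.totient := by
    rw [Nat.card_eq_fintype_card, ZMod.card_units_eq_totient]
  refine ⟨Θ.ker, hnorm, M ⊔ M₀, hfd', hN', cq, γ, hcqmk, hord, hNF, hTC, fun s => ?_, fun s => ?_⟩
  · rw [cc_prod e γ, heγ, hemk, hcardZ]
  · rw [cc_prod e γ⁻¹, map_inv, heγ, hemk, hcardZ, Prod.inv_mk]

theorem trick2_t {σ : ℕ → GQ} (hσ : FrobSys σ) {E : ℕ → ℂ} (hE : Osc σ E)
    (N : Subgroup GQ) [N.Normal] {M : IntermediateField ℚ QBar}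
    [FiniteDimensional ℚ M] (hN : N = M.fixingSubgroup) (j : QBar →ₐ[ℚ] ℂ) (c : GQ)
    (hc : ∀ x, j (c x) = (starRingEnd ℂ) (j x)) (hcN : c ∉ N) (m : ℕ) [NeZero m]
    (hsurj : ∀ h : (ZMod m)ˣ, ∃ g ∈ N, cyc m g = h) (y : GQ ⧸ N) (h : (ZMod m)ˣ)
    (hdiv : 2 * orderOf y ∣ orderOf h) [DecidableEq (ZMod m)ˣ] :
    HasDens (fun p => ((if cyc m (σ p) = h then cc y (σ p : GQ ⧸ N) else 0) +
      (if cyc m (σ p) = h⁻¹ then cc y⁻¹ (σ p : GQ ⧸ N) else 0)) * (E p).re) 0 ∧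
    HasDens (fun p => ((if cyc m (σ p) = h then cc y (σ p : GQ ⧸ N) else 0) -
      (if cyc m (σ p) = h⁻¹ then cc y⁻¹ (σ p : GQ ⧸ N) else 0)) * (E p).im) 0 := by
  obtain ⟨N', hn', M', hfd', hN', cq, γ, hcq, hord, hNF, hTC, h1, h2⟩ :=
    trick_setup N hN j c hc hcN m hsurj y h hdiv
  have hφpos : (0 : ℝ) < m.totient := by exact_mod_cast Nat.totient_pos.mpr (NeZero.pos m)
  obtain ⟨h3, h4⟩ := trick1_t hσ hE N' hN' cq hcq γ hord
  constructor
  · have h5 := h3.const_mul (1 / (m.totient : ℝ))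
    rw [mul_zero] at h5
    have e1 : (fun p => 1 / (m.totient : ℝ) * ((cc γ (σ p : GQ ⧸ N') +
        cc γ⁻¹ (σ p : GQ ⧸ N')) * (E p).re)) =
        fun p => ((if cyc m (σ p) = h then cc y (σ p : GQ ⧸ N) else 0) +
        (if cyc m (σ p) = h⁻¹ then cc y⁻¹ (σ p : GQ ⧸ N) else 0)) * (E p).re := by
      funext p
      rw [h1, h2]
      field_simp
    rw [e1] at h5
    exact h5
  · have h5 := h4.const_mul (1 / (m.totient : ℝ))
    rw [mul_zero] at h5
    have e1 : (fun p => 1 / (m.totient : ℝ) * ((cc γ (σ p : GQ ⧸ N') -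
        cc γ⁻¹ (σ p : GQ ⧸ N')) * (E p).im)) =
        fun p => ((if cyc m (σ p) = h then cc y (σ p : GQ ⧸ N) else 0) -
        (if cyc m (σ p) = h⁻¹ then cc y⁻¹ (σ p : GQ ⧸ N) else 0)) * (E p).im := by
      funext p
      rw [h1, h2]
      field_simp
    rw [e1] at h5
    exact h5

end TatePole.AT
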