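import Mathlib
import Pool.Agent.Lib.MP_058a58_ag.AT.TrickT
import Pool.Agent.Lib.MP_058a58_ag.AT.BigPrime

open Polynomial Filter Topology NumberField Set

namespace TatePole.AT

lemma sum_ite_add {G : Type*} [Group G] [DecidableEq G] (S : Finset G) (hS : ∀ h ∈ S, h⁻¹ ∈ S)
    (u : G) (a b : ℝ) :
    ∑ h ∈ S, ((if u = h then a else 0) + (if u = h⁻¹ then b else 0)) =
      if u ∈ S then a + b else 0 := by
  have hS' : ∀ h, h⁻¹ ∈ S ↔ h ∈ S := fun h => ⟨fun h1 => by simpa using hS _ h1, hS h⟩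
  have e1 : ∑ h ∈ S, (if u = h then a else 0) = if u ∈ S then a else 0 := Finset.sum_ite_eq S _ _
  have e2 : ∑ h ∈ S, (if u = h⁻¹ then b else 0) = if u ∈ S then b else 0 := by
    have e3 : (if u ∈ S then b else 0) = if u⁻¹ ∈ S then b else 0 := by simp only [hS' u]
    rw [e3, ← Finset.sum_ite_eq S u⁻¹ fun _ => b]
    refine Finset.sum_congr rfl fun h _ => ?_
    simp only [eq_inv_iff_mul_eq_one, inv_eq_iff_mul_eq_one]
  rw [Finset.sum_add_distrib, e1, e2]
  split_ifs <;> simp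

lemma good_dens (N : Subgroup GQ) [N.Normal] {M : IntermediateField ℚ QBar}
    [FiniteDimensional ℚ M] (hN : N = M.fixingSubgroup)
    (j : QBar →ₐ[ℚ] ℂ) (c : GQ)
    (hc : ∀ x, j (c x) = (starRingEnd ℂ) (j x)) (hcN : c ∉ N)
    {σ : ℕ → GQ} (hσ : FrobSys σ) (δ : ℝ) (hδ : 0 < δ) :
    ∃ (m : ℕ) (_ : NeZero m) (G : Finset (ZMod m)ˣ), (∀ h ∈ G, h⁻¹ ∈ G) ∧
      (∀ h ∈ G, ∀ y : GQ ⧸ N, 2 * orderOf y ∣ orderOf h) ∧
      (∀ h : (ZMod m)ˣ, ∃ g ∈ N, cyc m g = h) ∧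
      ∀ᶠ x in 𝓝[>] (1:ℝ), RR (fun p => if cyc m (σ p) ∈ G then 0 else 1) x ≤
        δ * Real.log (1 / (x - 1)) := by
  classical
  have hfinN : Finite (GQ ⧸ N) := finite_quot N hN
  have : Fintype (GQ ⧸ N) := Fintype.ofFinite _
  set r : ℝ := (Nat.card (GQ ⧸ N) : ℝ) with hr
  have hr0 : (0 : ℝ) < r := by rw [hr]; exact_mod_cast Nat.card_pos
  set n : ℕ := 2 * Nat.card (GQ ⧸ N) with hn
  have hn0 : 0 < n := Nat.mul_pos two_pos Nat.card_pos
  obtain ⟨t, ht⟩ : ∃ t : ℕ, 2 * (n : ℝ) / δ ≤ 2 ^ t := by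
    obtain ⟨t, ht⟩ := pow_unbounded_of_one_lt (2 * (n : ℝ) / δ) (one_lt_two)
    exact ⟨t, ht.le⟩
  obtain ⟨m, hm0, hmp, hdm, hsurj⟩ := exists_prime_surj N hN (n ^ (t + 1)) (pow_pos hn0 _)
  have hφ : m.totient = m - 1 := Nat.totient_prime hmp
  have hφpos : (0 : ℝ) < m.totient := by exact_mod_cast Nat.totient_pos.mpr (NeZero.pos m)
  have hcardZ : Nat.card (ZMod m)ˣ = m.totient := by
    rw [Nat.card_eq_fintype_card, ZMod.card_units_eq_totient]
  have hF : Fact m.Prime := ⟨hmp⟩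
  have hbad := card_bad (C := (ZMod m)ˣ) n t hn0 (by rw [hcardZ, hφ]; exact hdm)
  rw [hcardZ] at hbad
  set G : Finset (ZMod m)ˣ := Finset.univ.filter (fun h => n ∣ orderOf h) with hG
  have hGc : (G.card : ℝ) + Nat.card {h : (ZMod m)ˣ // ¬ n ∣ orderOf h} = m.totient := by
    have h1 : Nat.card {h : (ZMod m)ˣ // ¬ n ∣ orderOf h} =
        (Finset.univ.filter (fun h : (ZMod m)ˣ => ¬ n ∣ orderOf h)).card := by
      rw [Nat.card_eq_fintype_card, Fintype.card_subtype]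
    rw [h1, hG, ← Nat.cast_add, Finset.card_filter_add_card_filter_not, Finset.card_univ,
      ← Nat.card_eq_fintype_card, hcardZ]
  have hGinv : ∀ h ∈ G, h⁻¹ ∈ G := by
    intro h hh
    rw [hG, Finset.mem_filter] at hh ⊢
    exact ⟨Finset.mem_univ _, by rw [orderOf_inv]; exact hh.2⟩
  have hGdiv : ∀ h ∈ G, ∀ y : GQ ⧸ N, 2 * orderOf y ∣ orderOf h := fun h hh y =>
    (mul_dvd_mul_left 2 (orderOf_dvd_natCard y)).trans (Finset.mem_filter.mp hh).2
  refine ⟨m, hm0, G, hGinv, hGdiv, hsurj, ?_⟩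
  -- the mean of the indicator of `G`
  have hb : ∀ y : GQ ⧸ N, BddPrimes (fun p => ∑ h ∈ G,
      ((if cyc m (σ p) = h then cc y (σ p : GQ ⧸ N) else 0) +
      (if cyc m (σ p) = h⁻¹ then cc y⁻¹ (σ p : GQ ⧸ N) else 0))) := by
    intro y
    refine ⟨2 * Nat.card (GQ ⧸ N), fun p _ => ?_⟩
    simp only
    rw [sum_ite_add G hGinv]
    have h1 := cc_nonneg y (σ p : GQ ⧸ N)
    have h2 := cc_nonneg y⁻¹ (σ p : GQ ⧸ N)
    have h3 := cc_le y (σ p : GQ ⧸ N)
    have h4 := cc_le y⁻¹ (σ p : GQ ⧸ N)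
    rw [abs_of_nonneg (by split_ifs <;> linarith)]
    split_ifs <;> linarith
  have hmean1 : ∀ y : GQ ⧸ N, HasMean (fun p => ∑ h ∈ G,
      ((if cyc m (σ p) = h then cc y (σ p : GQ ⧸ N) else 0) +
      (if cyc m (σ p) = h⁻¹ then cc y⁻¹ (σ p : GQ ⧸ N) else 0))) (∑ _h ∈ G, 2 / m.totient) := by
    intro y
    refine HasMean.sum G (fun h hh => ?_) (fun h hh => ?_)
    · exact trick2 N hN j c hc hcN m hsurj y h (hGdiv h hh y) hσ
    · refine ⟨2 * Nat.card (GQ ⧸ N), fun p _ => ?_⟩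
      have h1 := cc_nonneg y (σ p : GQ ⧸ N)
      have h2 := cc_nonneg y⁻¹ (σ p : GQ ⧸ N)
      have h3 := cc_le y (σ p : GQ ⧸ N)
      have h4 := cc_le y⁻¹ (σ p : GQ ⧸ N)
      simp only
      rw [abs_of_nonneg (by split_ifs <;> linarith)]
      split_ifs <;> linarith
  have hmean2 := HasMean.sum Finset.univ (fun y _ => hmean1 y) (fun y _ => hb y)
  have hmean3 := hasMean_one.sub (hmean2.const_mul (1 / (2 * r))) bdd_one
    (by
      obtain ⟨C, hC⟩ : ∃ C : (GQ ⧸ N) → ℝ, ∀ y, ∀ p : ℕ, p.Prime →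
        |∑ h ∈ G, ((if cyc m (σ p) = h then cc y (σ p : GQ ⧸ N) else 0) +
          (if cyc m (σ p) = h⁻¹ then cc y⁻¹ (σ p : GQ ⧸ N) else 0))| ≤ C y :=
        ⟨fun y => (hb y).choose, fun y => (hb y).choose_spec⟩
      refine BddPrimes.const_mul ⟨∑ y, C y, fun p hp => ?_⟩ _
      exact (Finset.abs_sum_le_sum_abs _ _).trans (Finset.sum_le_sum fun y _ => hC y p hp))
  have e1 : (fun p => (1:ℝ) - 1 / (2 * r) * ∑ y : GQ ⧸ N, ∑ h ∈ G,
      ((if cyc m (σ p) = h then cc y (σ p : GQ ⧸ N) else 0) +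
      (if cyc m (σ p) = h⁻¹ then cc y⁻¹ (σ p : GQ ⧸ N) else 0))) =
      fun p => if cyc m (σ p) ∈ G then 0 else 1 := by
    funext p
    have h4 := sum_cc' (Γ := GQ ⧸ N) (fun _ => 1) (fun _ _ => rfl) (fun _ => rfl) (σ p : GQ ⧸ N)
    simp only [one_mul, mul_one] at h4
    simp only [sum_ite_add G hGinv]
    split_ifs with h
    · rw [h4, ← hr]
      field_simp
      ring
    · simp
  rw [e1] at hmean3
  have e2 : (1:ℝ) - 1 / (2 * r) * ∑ _y : GQ ⧸ N, ∑ _h ∈ G, 2 / (m.totient : ℝ) ≤ δ / 2 := by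
    rw [Finset.sum_const, Finset.sum_const, Finset.card_univ, ← Nat.card_eq_fintype_card,
      nsmul_eq_mul, nsmul_eq_mul, ← hr]
    have h1 : 1 / (2 * r) * (r * ((G.card : ℝ) * (2 / m.totient))) = G.card / m.totient := by
      field_simp
    rw [h1]
    have hb : (2 : ℝ) ^ t * Nat.card {h : (ZMod m)ˣ // ¬ n ∣ orderOf h} ≤ n * m.totient := by
      exact_mod_cast hbad
    have h2t : (0 : ℝ) < 2 ^ t := by positivity
    have hb2 : (Nat.card {h : (ZMod m)ˣ // ¬ n ∣ orderOf h} : ℝ) ≤ δ / 2 * m.totient := by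
      have h5 : (n : ℝ) ≤ δ / 2 * 2 ^ t := by
        rw [div_le_iff₀ hδ] at ht
        linarith
      have h6 : (2 : ℝ) ^ t * Nat.card {h : (ZMod m)ˣ // ¬ n ∣ orderOf h} ≤
          2 ^ t * (δ / 2 * m.totient) := by
        refine hb.trans ?_
        calc (n : ℝ) * m.totient ≤ (δ / 2 * 2 ^ t) * m.totient :=
              mul_le_mul_of_nonneg_right h5 hφpos.le
          _ = _ := by ring
      exact le_of_mul_le_mul_left h6 h2t
    have h7 : (1 - δ / 2) * m.totient ≤ G.card := by linarith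
    have h8 : 1 - δ / 2 ≤ (G.card : ℝ) / m.totient := by
      rw [le_div_iff₀ hφpos]; exact h7
    linarith
  obtain ⟨K, hK⟩ := hmean3
  filter_upwards [hK, eventually_log_ge (2 * K / δ), eventually_log_ge 0] with x h1 h2 h3
  set L := Real.log (1 / (x - 1)) with hL
  have h4 := (abs_le.mp h1).2
  have h5 : K ≤ δ / 2 * L := by
    rw [div_le_iff₀ hδ] at h2
    linarith
  have h6 := mul_le_mul_of_nonneg_right e2 h3
  linarith

theorem dens_cc_t {σ : ℕ → GQ} (hσ : FrobSys σ) {E : ℕ → ℂ} (hE : Osc σ E)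
    (N : Subgroup GQ) [N.Normal] {M : IntermediateField ℚ QBar}
    [FiniteDimensional ℚ M] (hN : N = M.fixingSubgroup)
    (j : QBar →ₐ[ℚ] ℂ) (c : GQ)
    (hc : ∀ x, j (c x) = (starRingEnd ℂ) (j x)) (hcN : c ∉ N) (y : GQ ⧸ N) :
    HasDens (fun p => (cc y (σ p : GQ ⧸ N) + cc y⁻¹ (σ p : GQ ⧸ N)) * (E p).re) 0 ∧
    HasDens (fun p => (cc y (σ p : GQ ⧸ N) - cc y⁻¹ (σ p : GQ ⧸ N)) * (E p).im) 0 := by
  classical
  have hfinN : Finite (GQ ⧸ N) := finite_quot N hN
  set r : ℝ := (Nat.card (GQ ⧸ N) : ℝ) with hr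
  have hr0 : (0 : ℝ) < r := by rw [hr]; exact_mod_cast Nat.card_pos
  have hEre : ∀ p : ℕ, p.Prime → |(E p).re| ≤ 1 := fun p hp =>
    (Complex.abs_re_le_norm _).trans (hE.1 p hp)
  have hEim : ∀ p : ℕ, p.Prime → |(E p).im| ≤ 1 := fun p hp =>
    (Complex.abs_im_le_norm _).trans (hE.1 p hp)
  -- a general reduction
  have key : ∀ (s : ℝ) (hs : s = 1 ∨ s = -1) (w : ℕ → ℝ) (hw : ∀ p : ℕ, p.Prime → |w p| ≤ 1),
      (∀ (m : ℕ) [NeZero m] (h : (ZMod m)ˣ), (∀ h : (ZMod m)ˣ, ∃ g ∈ N, cyc m g = h) →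
        2 * orderOf y ∣ orderOf h →
        HasDens (fun p => ((if cyc m (σ p) = h then cc y (σ p : GQ ⧸ N) else 0) +
          (if cyc m (σ p) = h⁻¹ then s * cc y⁻¹ (σ p : GQ ⧸ N) else 0)) * w p) 0) →
      HasDens (fun p => (cc y (σ p : GQ ⧸ N) + s * cc y⁻¹ (σ p : GQ ⧸ N)) * w p) 0 := by
    intro s hs w hw hyp ε hε
    have hccb : ∀ p : ℕ, |cc y (σ p : GQ ⧸ N) + s * cc y⁻¹ (σ p : GQ ⧸ N)| ≤ 2 * r := by
      intro p
      have h1 := cc_nonneg y (σ p : GQ ⧸ N)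
      have h2 := cc_nonneg y⁻¹ (σ p : GQ ⧸ N)
      have h3 := cc_le y (σ p : GQ ⧸ N)
      have h4 := cc_le y⁻¹ (σ p : GQ ⧸ N)
      rw [abs_le]
      rcases hs with rfl | rfl <;> constructor <;> linarith
    obtain ⟨m, hm0, G, hGinv, hGdiv, hsurj, hG⟩ := good_dens N hN j c hc hcN hσ (ε / (4 * r))
      (by positivity)
    have hsum := HasDens.zero_mul_sum G (fun _ => (1:ℝ))
      (fun h hh => hyp m h hsurj (hGdiv h hh y)) (fun h hh => by
        refine ⟨2 * r, fun p hp => ?_⟩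
        rw [abs_mul]
        have h1 := cc_nonneg y (σ p : GQ ⧸ N)
        have h2 := cc_nonneg y⁻¹ (σ p : GQ ⧸ N)
        have h3 := cc_le y (σ p : GQ ⧸ N)
        have h4 := cc_le y⁻¹ (σ p : GQ ⧸ N)
        have h5 : |(if cyc m (σ p) = h then cc y (σ p : GQ ⧸ N) else 0) +
          (if cyc m (σ p) = h⁻¹ then s * cc y⁻¹ (σ p : GQ ⧸ N) else 0)| ≤ 2 * r := by
          rw [abs_le]
          rcases hs with rfl | rfl <;> constructor <;> split_ifs <;> linarith
        calc _ ≤ (2 * r) * 1 := mul_le_mul h5 (hw p hp) (abs_nonneg _) (by positivity)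
          _ = 2 * r := mul_one _)
    have e1 : (fun p => ∑ h ∈ G, (1:ℝ) * (((if cyc m (σ p) = h then cc y (σ p : GQ ⧸ N) else 0) +
        (if cyc m (σ p) = h⁻¹ then s * cc y⁻¹ (σ p : GQ ⧸ N) else 0)) * w p)) =
        fun p => (if cyc m (σ p) ∈ G then (cc y (σ p : GQ ⧸ N) + s * cc y⁻¹ (σ p : GQ ⧸ N))
          else 0) * w p := by
      funext p
      simp only [one_mul]
      rw [← Finset.sum_mul, sum_ite_add G hGinv]
    rw [e1] at hsum
    filter_upwards [hsum (ε / 2) (by positivity), hG, eventually_log_ge 0,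
      self_mem_nhdsWithin] with x h1 h2 h3 hx
    have hx1 : 1 < x := hx
    set L := Real.log (1 / (x - 1)) with hL
    rw [zero_mul, sub_zero] at h1 ⊢
    have hb1 : ∀ p : ℕ, p.Prime → |(if cyc m (σ p) ∈ G then (cc y (σ p : GQ ⧸ N) +
        s * cc y⁻¹ (σ p : GQ ⧸ N)) else 0) * w p| ≤ 2 * r := by
      intro p hp
      rw [abs_mul]
      calc _ ≤ (2 * r) * 1 := by
            refine mul_le_mul ?_ (hw p hp) (abs_nonneg _) (by positivity)
            split_ifs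
            · exact hccb p
            · rw [abs_zero]; positivity
        _ = 2 * r := mul_one _
    have hb2 : ∀ p : ℕ, p.Prime → |(if cyc m (σ p) ∈ G then 0 else (cc y (σ p : GQ ⧸ N) +
        s * cc y⁻¹ (σ p : GQ ⧸ N))) * w p| ≤ 2 * r := by
      intro p hp
      rw [abs_mul]
      calc _ ≤ (2 * r) * 1 := by
            refine mul_le_mul ?_ (hw p hp) (abs_nonneg _) (by positivity)
            split_ifs
            · rw [abs_zero]; positivity
            · exact hccb p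
        _ = 2 * r := mul_one _
    have hsplit : RR (fun p => (cc y (σ p : GQ ⧸ N) + s * cc y⁻¹ (σ p : GQ ⧸ N)) * w p) x =
        RR (fun p => (if cyc m (σ p) ∈ G then (cc y (σ p : GQ ⧸ N) +
          s * cc y⁻¹ (σ p : GQ ⧸ N)) else 0) * w p) x +
        RR (fun p => (if cyc m (σ p) ∈ G then 0 else (cc y (σ p : GQ ⧸ N) +
          s * cc y⁻¹ (σ p : GQ ⧸ N))) * w p) x := by
      rw [← RR_add hb1 hb2 hx1]
      refine RR_congr (fun p _ => ?_) x
      split_ifs <;> ring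
    have hbad : |RR (fun p => (if cyc m (σ p) ∈ G then 0 else (cc y (σ p : GQ ⧸ N) +
          s * cc y⁻¹ (σ p : GQ ⧸ N))) * w p) x| ≤ 2 * r * (ε / (4 * r) * L) := by
      have hup : ∀ e : ℝ, |e| ≤ 1 → RR (fun p => e * ((if cyc m (σ p) ∈ G then 0 else
          (cc y (σ p : GQ ⧸ N) + s * cc y⁻¹ (σ p : GQ ⧸ N))) * w p)) x ≤
          2 * r * (ε / (4 * r) * L) := by
        intro e he
        have h4 : RR (fun p => e * ((if cyc m (σ p) ∈ G then 0 else (cc y (σ p : GQ ⧸ N) +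
          s * cc y⁻¹ (σ p : GQ ⧸ N))) * w p)) x ≤
          RR (fun p => 2 * r * (if cyc m (σ p) ∈ G then 0 else 1)) x := by
          refine RR_mono ⟨1 * (2 * r), fun p hp => ?_⟩ ⟨2 * r, fun p _ => ?_⟩ (fun p hp => ?_) hx1
          · rw [abs_mul]
            exact mul_le_mul he (hb2 p hp) (abs_nonneg _) zero_le_one
          · split_ifs
            · rw [mul_zero, abs_zero]; positivity
            · rw [mul_one, abs_of_nonneg (by positivity)]
          · refine (le_abs_self _).trans ?_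
            rw [abs_mul, abs_mul]
            split_ifs
            · simp
            · calc |e| * (|cc y (σ p : GQ ⧸ N) + s * cc y⁻¹ (σ p : GQ ⧸ N)| * |w p|) ≤
                  1 * ((2 * r) * 1) := by
                    refine mul_le_mul he ?_ (by positivity) zero_le_one
                    exact mul_le_mul (hccb p) (hw p hp) (abs_nonneg _) (by positivity)
                _ = 2 * r * 1 := by ring
        refine h4.trans ?_
        rw [RR_const_mul]
        exact mul_le_mul_of_nonneg_left h2 (by positivity)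
      have h5 := hup 1 (by simp)
      have h6 := hup (-1) (by simp)
      rw [RR_const_mul] at h5 h6
      rw [abs_le]
      constructor <;> linarith
    rw [hsplit]
    refine (abs_add_le _ _).trans ?_
    have h7 : 2 * r * (ε / (4 * r) * L) = ε / 2 * L := by field_simp; ring
    rw [h7] at hbad
    linarith
  constructor
  · have h1 := key 1 (Or.inl rfl) (fun p => (E p).re) hEre (fun m _ h hsurj hdiv => by
      have h2 := (trick2_t hσ hE N hN j c hc hcN m hsurj y h hdiv).1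
      simpa using h2)
    simpa using h1
  · have h1 := key (-1) (Or.inr rfl) (fun p => (E p).im) hEim (fun m _ h hsurj hdiv => by
      have h2 := (trick2_t hσ hE N hN j c hc hcN m hsurj y h hdiv).2
      have e1 : ∀ p : ℕ, ((if cyc m (σ p) = h then cc y (σ p : GQ ⧸ N) else 0) +
          (if cyc m (σ p) = h⁻¹ then -1 * cc y⁻¹ (σ p : GQ ⧸ N) else 0)) =
          ((if cyc m (σ p) = h then cc y (σ p : GQ ⧸ N) else 0) -
          (if cyc m (σ p) = h⁻¹ then cc y⁻¹ (σ p : GQ ⧸ N) else 0)) := by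
        intro p
        split_ifs <;> ring
      simp only [e1]
      exact h2)
    have e1 : ∀ p : ℕ, cc y (σ p : GQ ⧸ N) + -1 * cc y⁻¹ (σ p : GQ ⧸ N) =
        cc y (σ p : GQ ⧸ N) - cc y⁻¹ (σ p : GQ ⧸ N) := fun p => by ring
    simp only [e1] at h1
    exact h1

end TatePole.AT
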