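import Mathlib
import Pool.Agent.Lib.MP_058a58_ag.AT.TrickT2
import Pool.Agent.Lib.MP_058a58_ag.AT.TwistFin

open Polynomial Filter Topology NumberField Set

namespace TatePole.AT

lemma sum_cc_anti {Γ : Type*} [Group Γ] [Fintype Γ] (f : Γ → ℝ)
    (hf : ∀ x g : Γ, f (x⁻¹ * g * x) = f g) (hinv : ∀ g, f g⁻¹ = -f g) (s : Γ) :
    ∑ y, f y * (cc y s - cc y⁻¹ s) = 2 * Nat.card Γ * f s := by
  have h1 : ∑ y, f y * cc y⁻¹ s = -∑ y, f y * cc y s := by
    rw [← Equiv.sum_comp (Equiv.inv Γ) fun y => f y * cc y s, ← Finset.sum_neg_distrib]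
    refine Finset.sum_congr rfl fun y _ => ?_
    simp only [Equiv.inv_apply]
    rw [hinv]
    ring
  simp only [mul_sub]
  rw [Finset.sum_sub_distrib, h1, sum_cc f hf]
  ring

lemma bdd_cc' {σ : ℕ → GQ} {w : ℕ → ℝ} (hw : ∀ p : ℕ, p.Prime → |w p| ≤ 1)
    (N : Subgroup GQ) [N.Normal] [Finite (GQ ⧸ N)] (y z : GQ ⧸ N) :
    BddPrimes (fun p => (cc y (σ p : GQ ⧸ N) + cc z (σ p : GQ ⧸ N)) * w p) ∧
    BddPrimes (fun p => (cc y (σ p : GQ ⧸ N) - cc z (σ p : GQ ⧸ N)) * w p) := by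
  have h : ∀ p : ℕ, |cc y (σ p : GQ ⧸ N) + cc z (σ p : GQ ⧸ N)| ≤ 2 * Nat.card (GQ ⧸ N) ∧
      |cc y (σ p : GQ ⧸ N) - cc z (σ p : GQ ⧸ N)| ≤ 2 * Nat.card (GQ ⧸ N) := by
    intro p
    have h1 := cc_nonneg y (σ p : GQ ⧸ N)
    have h2 := cc_nonneg z (σ p : GQ ⧸ N)
    have h3 := cc_le y (σ p : GQ ⧸ N)
    have h4 := cc_le z (σ p : GQ ⧸ N)
    constructor <;> rw [abs_le] <;> constructor <;> linarith
  constructor
  · refine ⟨2 * Nat.card (GQ ⧸ N), fun p hp => ?_⟩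
    rw [abs_mul]
    calc _ ≤ (2 * Nat.card (GQ ⧸ N)) * (1 : ℝ) :=
          mul_le_mul (h p).1 (hw p hp) (abs_nonneg _) (by positivity)
      _ = _ := mul_one _
  · refine ⟨2 * Nat.card (GQ ⧸ N), fun p hp => ?_⟩
    rw [abs_mul]
    calc _ ≤ (2 * Nat.card (GQ ⧸ N)) * (1 : ℝ) :=
          mul_le_mul (h p).2 (hw p hp) (abs_nonneg _) (by positivity)
      _ = _ := mul_one _

/-- Twisted prime sums of class functions have density zero. -/
theorem dens_class_t {σ : ℕ → GQ} (hσ : FrobSys σ) {E : ℕ → ℂ} (hE : Osc σ E)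
    (N : Subgroup GQ) [N.Normal] {M : IntermediateField ℚ QBar}
    [FiniteDimensional ℚ M] (hN : N = M.fixingSubgroup)
    (j : QBar →ₐ[ℚ] ℂ) (c : GQ)
    (hc : ∀ x, j (c x) = (starRingEnd ℂ) (j x)) (hcN : c ∉ N) (f : GQ ⧸ N → ℂ)
    (hf : ∀ x g, f (x⁻¹ * g * x) = f g) (hinv : ∀ g, f g⁻¹ = (starRingEnd ℂ) (f g)) :
    HasDens (fun p => (f (σ p : GQ ⧸ N) * E p).re) 0 := by
  classical
  have hfinN : Finite (GQ ⧸ N) := finite_quot N hN
  have : Fintype (GQ ⧸ N) := Fintype.ofFinite _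
  set r : ℝ := (Nat.card (GQ ⧸ N) : ℝ) with hr
  have hr0 : (0 : ℝ) < r := by rw [hr]; exact_mod_cast Nat.card_pos
  have hEre : ∀ p : ℕ, p.Prime → |(E p).re| ≤ 1 := fun p hp =>
    (Complex.abs_re_le_norm _).trans (hE.1 p hp)
  have hEim : ∀ p : ℕ, p.Prime → |(E p).im| ≤ 1 := fun p hp =>
    (Complex.abs_im_le_norm _).trans (hE.1 p hp)
  have h1 := HasDens.zero_mul_sum Finset.univ
    (fun y : GQ ⧸ N => (f y).re / (2 * r))
    (fun y _ => (dens_cc_t hσ hE N hN j c hc hcN y).1) (fun y _ => (bdd_cc' hEre N y y⁻¹).1)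
  have h2 := HasDens.zero_mul_sum Finset.univ
    (fun y : GQ ⧸ N => -((f y).im / (2 * r)))
    (fun y _ => (dens_cc_t hσ hE N hN j c hc hcN y).2) (fun y _ => (bdd_cc' hEim N y y⁻¹).2)
  have e1 : (fun p => ∑ y : GQ ⧸ N, (f y).re / (2 * r) *
      ((cc y (σ p : GQ ⧸ N) + cc y⁻¹ (σ p : GQ ⧸ N)) * (E p).re)) =
      fun p => (f (σ p : GQ ⧸ N)).re * (E p).re := by
    funext p
    have h3 := sum_cc' (fun y => (f y).re) (fun x g => by rw [hf])
      (fun g => by rw [hinv, Complex.conj_re]) (σ p : GQ ⧸ N)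
    have h4 : ∀ y : GQ ⧸ N, (f y).re / (2 * r) *
        ((cc y (σ p : GQ ⧸ N) + cc y⁻¹ (σ p : GQ ⧸ N)) * (E p).re) =
        (E p).re / (2 * r) * ((f y).re * (cc y (σ p : GQ ⧸ N) + cc y⁻¹ (σ p : GQ ⧸ N))) :=
      fun y => by ring
    rw [Finset.sum_congr rfl fun y _ => h4 y, ← Finset.mul_sum, h3, ← hr]
    field_simp
  have e2 : (fun p => ∑ y : GQ ⧸ N, -((f y).im / (2 * r)) *
      ((cc y (σ p : GQ ⧸ N) - cc y⁻¹ (σ p : GQ ⧸ N)) * (E p).im)) =
      fun p => -((f (σ p : GQ ⧸ N)).im * (E p).im) := by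
    funext p
    have h3 := sum_cc_anti (fun y => (f y).im) (fun x g => by rw [hf])
      (fun g => by rw [hinv, Complex.conj_im]) (σ p : GQ ⧸ N)
    have h4 : ∀ y : GQ ⧸ N, -((f y).im / (2 * r)) *
        ((cc y (σ p : GQ ⧸ N) - cc y⁻¹ (σ p : GQ ⧸ N)) * (E p).im) =
        -((E p).im / (2 * r)) * ((f y).im * (cc y (σ p : GQ ⧸ N) - cc y⁻¹ (σ p : GQ ⧸ N))) :=
      fun y => by ring
    rw [Finset.sum_congr rfl fun y _ => h4 y, ← Finset.mul_sum, h3, ← hr]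
    field_simp
  rw [e1] at h1
  rw [e2] at h2
  obtain ⟨C, hC⟩ := Finite.exists_le (fun γ : GQ ⧸ N => ‖f γ‖)
  have hC0 : 0 ≤ C := (norm_nonneg _).trans (hC 1)
  have b1 : BddPrimes fun p => (f (σ p : GQ ⧸ N)).re * (E p).re := ⟨C * 1, fun p hp => by
    rw [abs_mul]
    exact mul_le_mul ((Complex.abs_re_le_norm _).trans (hC _)) (hEre p hp) (abs_nonneg _) hC0⟩
  have b2 : BddPrimes fun p => -((f (σ p : GQ ⧸ N)).im * (E p).im) := ⟨C * 1, fun p hp => by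
    rw [abs_neg, abs_mul]
    exact mul_le_mul ((Complex.abs_im_le_norm _).trans (hC _)) (hEim p hp) (abs_nonneg _) hC0⟩
  have h3 := h1.add h2 b1 b2
  rw [add_zero] at h3
  have e3 : (fun p => (f (σ p : GQ ⧸ N)).re * (E p).re + -((f (σ p : GQ ⧸ N)).im * (E p).im)) =
      fun p => (f (σ p : GQ ⧸ N) * E p).re := by
    funext p
    rw [Complex.mul_re]
    ring
  rw [e3] at h3
  exact h3

open scoped Classical in
/-- orthogonality of two irreducible characters -/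
theorem gavg_pair {V V' : Type*} [AddCommGroup V] [Module ℂ V] [FiniteDimensional ℂ V]
    [AddCommGroup V'] [Module ℂ V'] [FiniteDimensional ℂ V']
    (N : Subgroup GQ) [N.Normal] [Finite (GQ ⧸ N)]
    (τ : Representation ℂ GQ V) (τ' : Representation ℂ GQ V') (hirr : τ.IsIrreducible)
    (hirr' : τ'.IsIrreducible) (hτ : ∀ g ∈ N, τ g = 1) (hτ' : ∀ g ∈ N, τ' g = 1) :
    gavg (fun γ : GQ ⧸ N => (τ.character γ.out * (starRingEnd ℂ) (τ'.character γ.out)).re) =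
      if Nonempty (τ'.Equiv τ) then 1 else 0 := by
  have : Fintype (GQ ⧸ N) := Fintype.ofFinite _
  have hcard : (Nat.card (GQ ⧸ N) : ℂ) ≠ 0 := by
    exact_mod_cast Nat.card_pos.ne'
  let inst : Invertible (Nat.card (GQ ⧸ N) : ℂ) := invertibleOfNonzero hcard
  have h1 := liftRep_irr N τ hτ hirr
  have h2 := liftRep_irr N τ' hτ' hirr'
  have h3 := Representation.char_orthonormal (liftRep N τ hτ) (liftRep N τ' hτ')
  have h4 : ∀ γ : GQ ⧸ N, (liftRep N τ hτ).character γ * (liftRep N τ' hτ').character γ⁻¹ =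
      τ.character γ.out * (starRingEnd ℂ) (τ'.character γ.out) := by
    intro γ
    rw [← conj_character]
    unfold Representation.character
    rw [liftRep_out, liftRep_out]
  have h5 : (Nonempty ((liftRep N τ' hτ').Equiv (liftRep N τ hτ))) ↔ Nonempty (τ'.Equiv τ) := by
    constructor
    · rintro ⟨e⟩
      exact liftRep_equiv N τ' hτ' τ hτ e
    · rintro ⟨e⟩
      refine ⟨Representation.Equiv.mk e.toLinearEquiv fun γ => ?_⟩
      obtain ⟨g, rfl⟩ := QuotientGroup.mk_surjective γ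
      exact e.isIntertwining' g
  rw [Finset.sum_congr rfl fun γ _ => h4 γ] at h3
  unfold gavg
  rw [finsum_eq_sum_of_fintype]
  have h6 := congrArg Complex.re h3
  have h7 : ((Nat.card (GQ ⧸ N) : ℂ)⁻¹ * ∑ γ : GQ ⧸ N,
      τ.character γ.out * (starRingEnd ℂ) (τ'.character γ.out)).re =
      (∑ γ : GQ ⧸ N, (τ.character γ.out * (starRingEnd ℂ) (τ'.character γ.out)).re) /
        Nat.card (GQ ⧸ N) := by
    have e1 : (Nat.card (GQ ⧸ N) : ℂ)⁻¹ = (((Nat.card (GQ ⧸ N) : ℝ)⁻¹ : ℝ) : ℂ) := by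
      push_cast; rfl
    rw [e1, Complex.re_ofReal_mul, Complex.re_sum]
    ring
  rw [h7] at h6
  rw [h6]
  by_cases h : Nonempty (τ'.Equiv τ)
  · rw [if_pos h, if_pos (h5.mpr h)]; simp
  · rw [if_neg h, if_neg (fun h' => h (h5.mp h'))]; simp

end TatePole.AT
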