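import Mathlib
import Pool.Agent.Lib.MP_058a58_ag.AT.TwistLog
import Pool.Agent.Lib.MP_058a58_ag.Defect2

/-!
# The logarithm of a twisted `L`-function on vertical lines
-/

open Polynomial Filter Topology
open scoped TensorProduct

namespace TatePole.AT

section
variable {ℓ : ℕ} [Fact ℓ.Prime] {W : Type*} [AddCommGroup W] [Module ℚ_[ℓ] W]
  [FiniteDimensional ℚ_[ℓ] W] [Algebra ℚ_[ℓ] ℂ]
  {V : Type*} [AddCommGroup V] [Module ℂ V] [FiniteDimensional ℂ V]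

/-- The logarithm of a twisted `L`-function, with an additional twist `v` by complex numbers of
absolute value at most one, is, up to a bounded error, the sum over the primes of the traces of the
twisted representation at the Frobenius elements. -/
theorem twist_log_v {ρ : Representation ℚ_[ℓ] GQ W} {S : Finset ℕ} {P : ℕ → ℂ[X]}
    (hgood : ∀ p : ℕ, p.Prime → p ∉ S → IsPureLocalFactor ρ (algebraMap ℚ_[ℓ] ℂ) p (P p))
    {τ : Representation ℂ GQ V} (F : Finset QBar) (hτ : ∀ g : GQ, (∀ x ∈ F, g x = x) → τ g = 1)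
    {S' : Finset ℕ} {Q : ℕ → ℂ[X]}
    (hQ : ∀ p : ℕ, p.Prime → p ∉ S' → IsTwistFactor ρ τ p (Q p))
    {v : ℕ → ℂ} (hv : ∀ p : ℕ, p.Prime → ‖v p‖ ≤ 1)
    (hbad : ∀ p : ℕ, p.Prime → (Q p).eval (v p * (p : ℂ)⁻¹) ≠ 0)
    {σ : ℕ → GQ} (hσ : FrobSys σ) :
    ∃ C : ℝ, ∀ᶠ x : ℝ in 𝓝[>] (1 : ℝ), |Real.log ‖TatePole.ZZ Q v x‖ -
      RR (fun p => (algebraMap ℚ_[ℓ] ℂ (LinearMap.trace ℚ_[ℓ] W (ρ (σ p)⁻¹)) *
        τ.character (σ p)⁻¹ * v p).re) x| ≤ C := by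
  classical
  set n := Module.finrank ℂ ((ℂ ⊗[ℚ_[ℓ]] W) ⊗[ℂ] V) with hn
  -- the eigenvalues
  have hroots : ∀ p : ℕ, ∃ β : Fin n → ℂ,
      Multiset.map β Finset.univ.val = (twistRep ρ τ (σ p)⁻¹).charpoly.roots := by
    intro p
    apply exists_fin_enum
    have hsplit : (twistRep ρ τ (σ p)⁻¹).charpoly.Splits := IsAlgClosed.splits _
    rw [← hsplit.natDegree_eq_card_roots, LinearMap.charpoly_natDegree]
  choose β hβ using hroots
  have hsum : ∀ p : ℕ, ∑ j, β p j = algebraMap ℚ_[ℓ] ℂ (LinearMap.trace ℚ_[ℓ] W (ρ (σ p)⁻¹)) *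
      τ.character (σ p)⁻¹ := by
    intro p
    have h1 : ∑ j, β p j = (twistRep ρ τ (σ p)⁻¹).charpoly.roots.sum := by
      rw [← hβ]; rfl
    have h2 := sum_roots_map_charpoly (RingHom.id ℂ) (twistRep ρ τ (σ p)⁻¹)
    rw [Polynomial.map_id] at h2
    rw [h1, h2, RingHom.id_apply, trace_twistRep]
  have hnorm : ∀ p : ℕ, p.Prime → p ∉ S ∪ S' → ∀ j, ‖β p j‖ = 1 := by
    intro p hp hpS j
    rw [Finset.mem_union, not_or] at hpS
    obtain ⟨𝔓, h𝔓, hp𝔓, hf⟩ := hσ p hp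
    obtain ⟨α, hα, hα1, -⟩ := (hgood p hp hpS.1).roots_of_frob h𝔓 hp𝔓 hf
    obtain ⟨k, hk, hk1⟩ := artin_finite F hτ (σ p)⁻¹
    refine twist_root_norm (ρ := ρ) (τ := τ) (g := (σ p)⁻¹) (fun y hy => ?_) hk hk1 (β p j) ?_
    · rw [← hα] at hy
      obtain ⟨i, -, rfl⟩ := Multiset.mem_map.1 hy
      exact hα1 i
    · rw [← hβ]
      exact Multiset.mem_map.2 ⟨j, Finset.mem_univ j, rfl⟩
  have heval : ∀ p : ℕ, p.Prime → p ∉ S ∪ S' → ∀ x, (Q p).eval x = ∏ j, (1 - β p j * x) := by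
    intro p hp hpS x
    rw [Finset.mem_union, not_or] at hpS
    obtain ⟨𝔓, h𝔓, hp𝔓, hf⟩ := hσ p hp
    rw [(hQ p hp hpS.2).eq_det 𝔓 h𝔓 hp𝔓 (σ p) hf, twistPoly,
      reverse_eval_eq_prod _ (LinearMap.charpoly_monic _), ← hβ, Multiset.map_map]
    rfl
  have hbad' : ∀ p ∈ S ∪ S', p.Prime → (Q p).eval (v p * pw p 1) ≠ 0 := by
    intro p hpS hp
    simp only [pw_one]
    exact hbad p hp
  set A : ℕ → ℂ := fun p => if p ∈ S ∪ S' then 0 else (∑ j, β p j) * v p with hA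
  have hAbd : ∀ p : ℕ, p.Prime → ‖A p‖ ≤ n := by
    intro p hp
    simp only [hA]
    split_ifs with h
    · rw [norm_zero]; exact Nat.cast_nonneg _
    · rw [norm_mul]
      have h1 : ‖∑ j, β p j‖ ≤ n := by
        refine (norm_sum_le _ _).trans ?_
        rw [Finset.sum_congr rfl fun j _ => hnorm p hp h j, Finset.sum_const, Finset.card_univ,
          Fintype.card_fin, nsmul_eq_mul, mul_one]
      have h2 := mul_le_mul h1 (hv p hp) (norm_nonneg _) (Nat.cast_nonneg _)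
      rwa [mul_one] at h2
  have hbd : BddPrimes (fun p => (algebraMap ℚ_[ℓ] ℂ (LinearMap.trace ℚ_[ℓ] W (ρ (σ p)⁻¹)) *
      τ.character (σ p)⁻¹ * v p).re) := by
    refine ⟨n + ∑ p ∈ S ∪ S', ‖algebraMap ℚ_[ℓ] ℂ (LinearMap.trace ℚ_[ℓ] W (ρ (σ p)⁻¹)) *
      τ.character (σ p)⁻¹ * v p‖, fun p hp => (Complex.abs_re_le_norm _).trans ?_⟩
    by_cases h : p ∈ S ∪ S'
    · have h1 := Finset.single_le_sum (f := fun p =>
        ‖algebraMap ℚ_[ℓ] ℂ (LinearMap.trace ℚ_[ℓ] W (ρ (σ p)⁻¹)) * τ.character (σ p)⁻¹ * v p‖)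
        (fun _ _ => norm_nonneg _) h
      have h2 : (0 : ℝ) ≤ n := Nat.cast_nonneg _
      linarith
    · have h1 := hAbd p hp
      simp only [hA] at h1
      rw [if_neg h, hsum] at h1
      have h2 : 0 ≤ ∑ p ∈ S ∪ S', ‖algebraMap ℚ_[ℓ] ℂ (LinearMap.trace ℚ_[ℓ] W (ρ (σ p)⁻¹)) *
          τ.character (σ p)⁻¹ * v p‖ := Finset.sum_nonneg fun _ _ => norm_nonneg _
      linarith
  obtain ⟨C1, hC1⟩ := log_ZZ_split (Q := Q) (S := S ∪ S') (β := β) (v := v)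
    (fun p hp hpS j => (hnorm p hp hpS j).le) heval hv hbad' hAbd
    (R0 := fun _ => 0) (K2 := 0) (fun p _ => by simp) (fun p hp hpS => by
      simp only [hA, add_zero]
      rw [if_neg hpS])
  obtain ⟨C2, hC2⟩ := RR_near (g := fun p => (A p).re)
    (h := fun p => (algebraMap ℚ_[ℓ] ℂ (LinearMap.trace ℚ_[ℓ] W (ρ (σ p)⁻¹)) *
        τ.character (σ p)⁻¹ * v p).re) (S ∪ S') (fun p hp hpS => by
      simp only [hA]
      rw [if_neg hpS, hsum])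
    ⟨n, fun p hp => (Complex.abs_re_le_norm _).trans (hAbd p hp)⟩ hbd
  refine ⟨C1 + C2, ?_⟩
  filter_upwards [hC1, self_mem_nhdsWithin] with x hs1 hs2
  have h0 : RR (fun p : ℕ => ((fun _ : ℕ => (0 : ℂ)) p).re) x = 0 := by
    unfold RR
    simp
  rw [h0, add_zero] at hs1
  have h6 := hC2 x hs2
  have h7 := abs_sub_le (Real.log ‖TatePole.ZZ Q v x‖)
    (RR (fun p => (A p).re) x)
    (RR (fun p => (algebraMap ℚ_[ℓ] ℂ (LinearMap.trace ℚ_[ℓ] W (ρ (σ p)⁻¹)) *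
        τ.character (σ p)⁻¹ * v p).re) x)
  linarith

/-- The logarithm of a twisted `L`-function at `s + it`, for real `s` near `m + 1`. -/
theorem twist_log_bound_t {ρ : Representation ℚ_[ℓ] GQ W} {S : Finset ℕ} {P : ℕ → ℂ[X]}
    (hgood : ∀ p : ℕ, p.Prime → p ∉ S → IsPureLocalFactor ρ (algebraMap ℚ_[ℓ] ℂ) p (P p))
    {τ : Representation ℂ GQ V} (F : Finset QBar) (hτ : ∀ g : GQ, (∀ x ∈ F, g x = x) → τ g = 1)
    {S' : Finset ℕ} {Q : ℕ → ℂ[X]}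
    (hQ : ∀ p : ℕ, p.Prime → p ∉ S' → IsTwistFactor ρ τ p (Q p)) (m : ℕ) (t : ℝ)
    (hbad : ∀ p : ℕ, p.Prime → (Q p).eval (vt t p * (p : ℂ)⁻¹) ≠ 0)
    {σ : ℕ → GQ} (hσ : FrobSys σ) :
    ∃ C : ℝ, ∀ᶠ s : ℝ in 𝓝[>] ((m : ℝ) + 1), |Real.log ‖LFun Q m ((s : ℂ) + t * Complex.I)‖ -
      RR (fun p => (algebraMap ℚ_[ℓ] ℂ (LinearMap.trace ℚ_[ℓ] W (ρ (σ p)⁻¹)) *
        τ.character (σ p)⁻¹ * vt t p).re) (s - m)| ≤ C := by
  obtain ⟨C, hC⟩ := twist_log_v hgood F hτ hQ (norm_vt t) hbad hσ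
  refine ⟨C, ?_⟩
  have hsh : Tendsto (fun s : ℝ => s - m) (𝓝[>] ((m : ℝ) + 1)) (𝓝[>] (1 : ℝ)) :=
    (tendsto_shift m (fun x : ℝ => x)).mpr tendsto_id
  filter_upwards [hsh.eventually hC] with s hs
  have h5 := LFun_eq_ZZ_vt Q m t (s - m)
  rw [show ((m : ℝ) + (s - m) : ℝ) = s by ring] at h5
  rw [h5]
  exact hs

end

end TatePole.AT
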