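import Mathlib
import Pool.Agent.Lib.MP_058a58_ag.AT.FinalT

/-!
# The moments of an Artin character
-/

open Polynomial Filter Topology NumberField Set
open scoped TensorProduct

namespace TatePole.AT

/-- `|p^(-it)| = 1` -/
lemma norm_vt_eq (t : ℝ) {p : ℕ} (hp : p.Prime) : ‖vt t p‖ = 1 := norm_cpow_it hp t

/-- The `2k`-th absolute moment of the character of a representation with finite image. -/
theorem dens_moment (N : Subgroup GQ) [N.Normal] {M : IntermediateField ℚ QBar}
    [FiniteDimensional ℚ M] (hN : N = M.fixingSubgroup) (j : QBar →ₐ[ℚ] ℂ) (c : GQ)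
    (hc : ∀ x, j (c x) = (starRingEnd ℂ) (j x)) (hcN : c ∉ N)
    {V : Type*} [AddCommGroup V] [Module ℂ V] [FiniteDimensional ℂ V]
    (τ : Representation ℂ GQ V) (hτ : ∀ g ∈ N, τ g = 1) {σ : ℕ → GQ} (hσ : FrobSys σ)
    (t : ℝ) (k : ℕ) :
    HasDens (fun p => ‖τ.character (σ p)⁻¹ * vt t p‖ ^ (2 * k))
      (gavg fun γ : GQ ⧸ N => ‖τ.character γ.out‖ ^ (2 * k)) := by
  have hbig : BigPrimes N := exists_prime_surj N hN
  have hχinv : ∀ g, τ.character g⁻¹ = (starRingEnd ℂ) (τ.character g) := by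
    intro g
    obtain ⟨n, hn, hg⟩ := exists_order N hN τ hτ g
    exact char_inv_conj τ g n hn hg
  have hχcongr : ∀ {g h : GQ}, (g : GQ ⧸ N) = (h : GQ ⧸ N) → τ.character g = τ.character h := by
    intro g h hgh
    show LinearMap.trace _ _ (τ g) = LinearMap.trace _ _ (τ h)
    rw [char_congr N τ hτ hgh]
  have hχout : ∀ (g : GQ), τ.character (g : GQ ⧸ N).out = τ.character g := fun g =>
    hχcongr (QuotientGroup.out_eq' _)
  have hχconj : ∀ (x g : GQ), τ.character (x⁻¹ * g * x) = τ.character g := by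
    intro x g
    have h1 := Representation.char_conj τ g x⁻¹
    rwa [inv_inv] at h1
  have h1 := chebotarev_symm N hN hbig j c hc hcN
    (fun γ => ‖τ.character γ.out‖ ^ (2 * k)) (fun x g => by
      obtain ⟨x', rfl⟩ := QuotientGroup.mk_surjective x
      obtain ⟨g', rfl⟩ := QuotientGroup.mk_surjective g
      rw [← QuotientGroup.mk_inv, ← QuotientGroup.mk_mul, ← QuotientGroup.mk_mul, hχout, hχout,
        hχconj]) (fun g => by
      obtain ⟨g', rfl⟩ := QuotientGroup.mk_surjective g
      rw [← QuotientGroup.mk_inv, hχout, hχout, hχinv, Complex.norm_conj]) hσ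
  intro ε hε
  filter_upwards [h1 ε hε] with x hx
  have h2 : RR (fun p => ‖τ.character (σ p)⁻¹ * vt t p‖ ^ (2 * k)) x =
      RR (fun p => ‖τ.character (σ p : GQ ⧸ N).out‖ ^ (2 * k)) x := by
    refine RR_congr (fun p hp => ?_) x
    rw [hχout, norm_mul, norm_vt_eq t hp, mul_one, hχinv, Complex.norm_conj]
  rw [h2]
  exact hx

end TatePole.AT
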