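import Mathlib
import Pool.Agent.Lib.MP_058a58_ag.Defs

open scoped TensorProduct

namespace TatePole

section
variable {k : Type*} [Field k] {W : Type*} [AddCommGroup W] [Module k W]

/-- The quotient `T = W / B` of a representation `W` by a stable subspace `B`. -/
noncomputable def quoRep (ρ : Representation k GQ W) (B : Submodule k W)
    (hB : ∀ g : GQ, ∀ w ∈ B, ρ g w ∈ B) : Representation k GQ (W ⧸ B) :=
  ρ.quotient B hB

/-- The Rankin-Selberg square `T ⊗ T^∨` of `T = W / B`. -/
noncomputable def selfRep (ρ : Representation k GQ W) (B : Submodule k W)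
    (hB : ∀ g : GQ, ∀ w ∈ B, ρ g w ∈ B) :
    Representation k GQ ((W ⧸ B) ⊗[k] Module.Dual k (W ⧸ B)) :=
  (quoRep ρ B hB).tprod (quoRep ρ B hB).dual

end

end TatePole
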