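import Mathlib
import Pool.Agent.Lib.MP_058a58_ag.AT.TwistLog
import Pool.Agent.Lib.MP_058a58_ag.AT.StmRS
import Pool.Agent.Lib.MP_058a58_ag.Defect2

/-!
# The Rankin-Selberg square of the transcendental part

For a stable subspace `B` of `W` and `T = W / B` the logarithm of the `L`-function of `T ⊗ T^∨` is,
up to a bounded error, the sum over the primes of the squared absolute values of the traces of
Frobenius on `T`.
-/

open Polynomial Filter Topology
open scoped TensorProduct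

namespace TatePole

namespace AT

/-- the trace of the inverse of a matrix whose eigenvalues have absolute value one -/
lemma trace_inv_conj {n : Type*} [Fintype n] [DecidableEq n] (M : Matrix n n ℂ)
    (h1 : ∀ z ∈ M.charpoly.roots, ‖z‖ = 1) : (M⁻¹).trace = (starRingEnd ℂ) M.trace := by
  have hdet : M.det ≠ 0 := by
    intro h0
    have h2 : (0 : ℂ) ∈ M.charpoly.roots := by
      rw [mem_roots (Matrix.charpoly_monic M).ne_zero, IsRoot.def, ← coeff_zero_eq_eval_zero]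
      have h3 := Matrix.det_eq_sign_charpoly_coeff M
      rw [h0] at h3
      rcases mul_eq_zero.mp h3.symm with h | h
      · exact absurd h (pow_ne_zero _ (by norm_num))
      · exact h
    have h3 := h1 0 h2
    rw [norm_zero] at h3
    exact zero_ne_one h3
  have hunit : IsUnit M := (Matrix.isUnit_iff_isUnit_det M).mpr hdet.isUnit
  set R := M.charpoly.roots with hR
  have hsplit : M.charpoly.Splits := IsAlgClosed.splits _
  have hcard : Multiset.card R = Fintype.card n := by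
    rw [hR, ← hsplit.natDegree_eq_card_roots, Matrix.charpoly_natDegree_eq_dim]
  have hne : ∀ a ∈ R, a ≠ 0 := by
    intro a ha h0
    have h3 := h1 a ha
    rw [h0, norm_zero] at h3
    exact zero_ne_one h3
  have hdetR : M.det = R.prod := Matrix.det_eq_prod_roots_charpoly M
  have h2 : (M⁻¹).charpoly = ((R.map (fun a => a⁻¹)).map (fun a => X - C a)).prod := by
    apply Polynomial.funext
    intro x
    have h3 := Matrix.charpoly_inv M hunit
    rw [← Matrix.reverse_charpoly] at h3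
    rw [h3, eval_mul, eval_mul, eval_C, eval_pow, eval_neg, eval_one,
      reverse_eval_eq_prod _ (Matrix.charpoly_monic M), Ring.inverse_eq_inv', hdetR, ← hR,
      eval_multiset_prod, Multiset.map_map, Multiset.map_map, ← hcard]
    have h4 : ((-1 : ℂ)) ^ Multiset.card R = (R.map (fun _ => (-1 : ℂ))).prod := by
      rw [Multiset.map_const', Multiset.prod_replicate]
    have h5 : (R.prod)⁻¹ = (R.map (fun a => a⁻¹)).prod := by
      rw [Multiset.prod_map_inv, Multiset.map_id']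
    rw [h4, h5, ← Multiset.prod_map_mul, ← Multiset.prod_map_mul]
    refine congrArg Multiset.prod (Multiset.map_congr rfl fun a ha => ?_)
    have h6 := hne a ha
    simp only [Function.comp_apply, eval_sub, eval_X, eval_C]
    field_simp
    ring
  have h3 : (M⁻¹).charpoly.roots = R.map (fun a => a⁻¹) := by
    rw [h2, roots_multiset_prod_X_sub_C]
  rw [Matrix.trace_eq_sum_roots_charpoly, h3, Matrix.trace_eq_sum_roots_charpoly M, ← hR,
    map_multiset_sum]
  refine congrArg Multiset.sum (Multiset.map_congr rfl fun a ha => ?_)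
  exact (Complex.inv_eq_conj (h1 a ha))

/-- the same for an operator defined over a subfield -/
lemma trace_inv_conj' {K T : Type*} [Field K] [AddCommGroup T] [Module K T]
    [FiniteDimensional K T] (ι : K →+* ℂ) (φ ψ : T →ₗ[K] T) (hφψ : φ * ψ = 1)
    (h1 : ∀ z ∈ (φ.charpoly.map ι).roots, ‖z‖ = 1) :
    ι (LinearMap.trace K T ψ) = (starRingEnd ℂ) (ι (LinearMap.trace K T φ)) := by
  classical
  let b := Module.Free.chooseBasis K T
  set M := (LinearMap.toMatrix b b φ).map ι with hM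
  set M' := (LinearMap.toMatrix b b ψ).map ι with hM'
  have h2 : M * M' = 1 := by
    rw [hM, hM', ← Matrix.map_mul, ← LinearMap.toMatrix_mul, hφψ, LinearMap.toMatrix_one,
      Matrix.map_one ι (map_zero ι) (map_one ι)]
  have h3 : M⁻¹ = M' := Matrix.inv_eq_right_inv h2
  have h4 : M.charpoly = φ.charpoly.map ι := by
    rw [hM, Matrix.charpoly_map, LinearMap.charpoly_toMatrix]
  have h5 := trace_inv_conj M (by rw [h4]; exact h1)
  rw [h3] at h5
  have h6 : M.trace = ι (LinearMap.trace K T φ) := by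
    rw [LinearMap.trace_eq_matrix_trace K b, hM]
    exact (AddMonoidHom.map_trace ι.toAddMonoidHom _).symm
  have h7 : M'.trace = ι (LinearMap.trace K T ψ) := by
    rw [LinearMap.trace_eq_matrix_trace K b, hM']
    exact (AddMonoidHom.map_trace ι.toAddMonoidHom _).symm
  rw [← h7, h5, h6]

section
variable {k : Type*} [Field k] {W : Type*} [AddCommGroup W] [Module k W] [FiniteDimensional k W]

lemma trace_selfRep (ρ : Representation k GQ W) (B : Submodule k W)
    (hB : ∀ g : GQ, ∀ w ∈ B, ρ g w ∈ B) (g : GQ) :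
    LinearMap.trace k _ (selfRep ρ B hB g) =
      LinearMap.trace k _ (quoRep ρ B hB g) * LinearMap.trace k _ (quoRep ρ B hB g⁻¹) := by
  have h1 := congrFun (Representation.char_tensor (quoRep ρ B hB) (quoRep ρ B hB).dual) g
  have h2 := Representation.char_dual (quoRep ρ B hB) g
  have h3 : LinearMap.trace k _ (selfRep ρ B hB g) =
      (quoRep ρ B hB).character g * (quoRep ρ B hB).dual.character g := h1
  rw [h3, h2]
  rfl

lemma trace_quoRep (ρ : Representation k GQ W) (B : Submodule k W)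
    (hB : ∀ g : GQ, ∀ w ∈ B, ρ g w ∈ B) (ι : k →+* ℂ) (g : GQ) :
    ι (LinearMap.trace k W (ρ g)) = ι (LinearMap.trace k B (resRep ρ B hB g)) +
      ι (LinearMap.trace k _ (quoRep ρ B hB g)) := by
  have h1 : (ρ g).charpoly = (resRep ρ B hB g).charpoly * (quoRep ρ B hB g).charpoly :=
    charpoly_eq_mul B (ρ g) (hB g)
  have hmB : ((resRep ρ B hB g).charpoly.map ι).Monic := (LinearMap.charpoly_monic _).map ι
  have hmQ : ((quoRep ρ B hB g).charpoly.map ι).Monic := (LinearMap.charpoly_monic _).map ι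
  rw [← sum_roots_map_charpoly, h1, Polynomial.map_mul,
    roots_mul (mul_ne_zero hmB.ne_zero hmQ.ne_zero), Multiset.sum_add, sum_roots_map_charpoly,
    sum_roots_map_charpoly]

lemma quo_root_norm (ρ : Representation k GQ W) (B : Submodule k W)
    (hB : ∀ g : GQ, ∀ w ∈ B, ρ g w ∈ B) (ι : k →+* ℂ) (g : GQ)
    (h1 : ∀ z ∈ ((ρ g).charpoly.map ι).roots, ‖z‖ = 1) :
    ∀ z ∈ ((quoRep ρ B hB g).charpoly.map ι).roots, ‖z‖ = 1 := by
  intro z hz
  refine h1 z ?_
  have h2 : (ρ g).charpoly = (resRep ρ B hB g).charpoly * (quoRep ρ B hB g).charpoly :=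
    charpoly_eq_mul B (ρ g) (hB g)
  have hmB : ((resRep ρ B hB g).charpoly.map ι).Monic := (LinearMap.charpoly_monic _).map ι
  have hmQ : ((quoRep ρ B hB g).charpoly.map ι).Monic := (LinearMap.charpoly_monic _).map ι
  rw [h2, Polynomial.map_mul, roots_mul (mul_ne_zero hmB.ne_zero hmQ.ne_zero)]
  exact Multiset.mem_add.mpr (Or.inr hz)

end

section
variable {ℓ : ℕ} [Fact ℓ.Prime] {W : Type*} [AddCommGroup W] [Module ℚ_[ℓ] W]
  [FiniteDimensional ℚ_[ℓ] W] {ι : ℚ_[ℓ] →+* ℂ}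

/-- The logarithm of the `L`-function of `T ⊗ T^∨`. -/
theorem rs_log {ρ : Representation ℚ_[ℓ] GQ W} {S : Finset ℕ} {P : ℕ → ℂ[X]}
    (hgood : ∀ p : ℕ, p.Prime → p ∉ S → IsPureLocalFactor ρ ι p (P p))
    (B : Submodule ℚ_[ℓ] W) (hB : ∀ g : GQ, ∀ w ∈ B, ρ g w ∈ B) (q : GQ → ℚ)
    (hq : ∀ g, LinearMap.trace ℚ_[ℓ] B (resRep ρ B hB g) = (q g : ℚ_[ℓ]))
    {S₂ : Finset ℕ} {N : ℕ → ℂ[X]}
    (hN : ∀ p : ℕ, p.Prime → p ∉ S₂ → IsPureLocalFactor (selfRep ρ B hB) ι p (N p))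
    (hbad : ∀ p : ℕ, p.Prime → (N p).eval ((p : ℂ)⁻¹) ≠ 0)
    {σ : ℕ → GQ} (hσ : FrobSys σ) :
    ∃ C : ℝ, ∀ᶠ x : ℝ in 𝓝[>] (1 : ℝ), |Real.log ‖TatePole.ZZ N (fun _ => 1) x‖ -
      RR (fun p => ‖defA ρ ι S q σ p‖ ^ 2) x| ≤ C := by
  classical
  set A := defA ρ ι S q σ with hA
  set D := (Module.finrank ℚ_[ℓ] W : ℝ) - Module.finrank ℚ_[ℓ] B with hD
  have hD0 : 0 ≤ D := by
    rw [hD, sub_nonneg]
    exact_mod_cast Submodule.finrank_le B
  have hAb : ∀ p : ℕ, p.Prime → ‖A p‖ ≤ D := norm_defA_le hgood B hB q hq hσ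
  -- the eigenvalues at the good primes
  have hex : ∀ p : ℕ, ∃ β : Fin (Module.finrank ℚ_[ℓ]
      ((W ⧸ B) ⊗[ℚ_[ℓ]] Module.Dual ℚ_[ℓ] (W ⧸ B))) → ℂ, p.Prime → p ∉ S ∪ S₂ →
      (∀ j, ‖β j‖ = 1) ∧ (∀ x : ℂ, (N p).eval x = ∏ j, (1 - β j * x)) ∧
      ∑ j, β j = ((‖A p‖ ^ 2 : ℝ) : ℂ) := by
    intro p
    by_cases hpp : p.Prime ∧ p ∉ S ∪ S₂
    · obtain ⟨hp, hpS⟩ := hpp
      rw [Finset.mem_union, not_or] at hpS
      obtain ⟨𝔓, h𝔓, hp𝔓, hf⟩ := hσ p hp
      obtain ⟨β, hβ, hβ1, heval⟩ := (hN p hp hpS.2).roots_of_frob h𝔓 hp𝔓 hf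
      obtain ⟨α, hα, hα1, -⟩ := (hgood p hp hpS.1).roots_of_frob h𝔓 hp𝔓 hf
      refine ⟨β, fun _ _ => ⟨hβ1, heval, ?_⟩⟩
      have h1 : ∑ j, β j = ι (LinearMap.trace ℚ_[ℓ] _ (selfRep ρ B hB (σ p)⁻¹)) := by
        rw [← sum_roots_map_charpoly, ← hβ]
        rfl
      have hroots : ∀ z ∈ ((ρ (σ p)⁻¹).charpoly.map ι).roots, ‖z‖ = 1 := by
        intro z hz
        rw [← hα] at hz
        obtain ⟨i, -, rfl⟩ := Multiset.mem_map.1 hz
        exact hα1 i
      have h2 := trace_inv_conj' ι (quoRep ρ B hB (σ p)⁻¹) (quoRep ρ B hB (σ p)⁻¹⁻¹)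
        (by rw [← map_mul, mul_inv_cancel, map_one]) (quo_root_norm ρ B hB ι _ hroots)
      have h3 : A p = ι (LinearMap.trace ℚ_[ℓ] _ (quoRep ρ B hB (σ p)⁻¹)) := by
        rw [hA]
        unfold defA
        rw [if_neg hpS.1, trace_quoRep ρ B hB ι, hq, map_ratCast]
        ring
      rw [h1, trace_selfRep, map_mul, h2, ← h3, Complex.mul_conj, Complex.normSq_eq_norm_sq]
    · exact ⟨fun _ => 0, fun h1 h2 => (hpp ⟨h1, h2⟩).elim⟩
  choose β hβ using hex
  have hA2 : ∀ p : ℕ, p.Prime → ‖((‖A p‖ ^ 2 : ℝ) : ℂ)‖ ≤ D ^ 2 := by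
    intro p hp
    rw [Complex.norm_real, Real.norm_eq_abs, abs_of_nonneg (sq_nonneg _)]
    exact pow_le_pow_left₀ (norm_nonneg _) (hAb p hp) 2
  obtain ⟨K, hK⟩ := log_ZZ_split (Q := N) (S := S ∪ S₂) (β := β) (v := fun _ => 1)
    (fun p hp hpS j => ((hβ p hp hpS).1 j).le) (fun p hp hpS => (hβ p hp hpS).2.1)
    (fun p _ => by simp) (fun p _ hp => by
      simp only [one_mul, pw_one]
      exact hbad p hp) (A := fun p => ((‖A p‖ ^ 2 : ℝ) : ℂ)) (K1 := D ^ 2) hA2
    (R0 := fun _ => 0) (K2 := 0) (fun p _ => by simp) (fun p hp hpS => by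
      rw [(hβ p hp hpS).2.2, mul_one, add_zero])
  refine ⟨K, ?_⟩
  filter_upwards [hK] with x hx
  have h0 : RR (fun p : ℕ => ((fun _ : ℕ => (0 : ℂ)) p).re) x = 0 := by
    unfold RR
    simp
  rw [h0, add_zero] at hx
  simp only [Complex.ofReal_re] at hx
  exact hx

end

end AT

end TatePole
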