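import Mathlib
import Pool.Agent.Lib.MP_058a58_ag.AT.FinalT
import Pool.Agent.Lib.MP_058a58_ag.AT.RSLog

/-!
# The Rankin-Selberg form of the inequality for Artin twists

The proof follows `artin_core_t`; the bound `dim W - dim B` for the values is replaced by the
logarithm of the `L`-function of `T ⊗ T^∨`.
-/

open Polynomial Filter Topology NumberField Set
open scoped TensorProduct

namespace TatePole.AT

section
variable {ℓ : ℕ} [Fact ℓ.Prime] {W : Type*} [AddCommGroup W] [Module ℚ_[ℓ] W]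
  [FiniteDimensional ℚ_[ℓ] W] [Algebra ℚ_[ℓ] ℂ]

/-- The relation between the logarithm of the `L`-function of `T ⊗ T^∨` and the prime sum. -/
theorem rs_log_LFun {ρ : Representation ℚ_[ℓ] GQ W} {S : Finset ℕ} {P : ℕ → ℂ[X]}
    (hgood : ∀ p : ℕ, p.Prime → p ∉ S → IsPureLocalFactor ρ (algebraMap ℚ_[ℓ] ℂ) p (P p))
    (B : Submodule ℚ_[ℓ] W) (hB : ∀ g : GQ, ∀ w ∈ B, ρ g w ∈ B) (q : GQ → ℚ)
    (hq : ∀ g, LinearMap.trace ℚ_[ℓ] B (resRep ρ B hB g) = (q g : ℚ_[ℓ]))
    {S₂ : Finset ℕ} {N' : ℕ → ℂ[X]}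
    (hN' : ∀ p : ℕ, p.Prime → p ∉ S₂ →
      IsPureLocalFactor (selfRep ρ B hB) (algebraMap ℚ_[ℓ] ℂ) p (N' p))
    (hbad : ∀ p ∈ S₂, p.Prime → (N' p).eval ((p : ℂ)⁻¹) ≠ 0)
    {σ : ℕ → GQ} (hσ : FrobSys σ) (m : ℕ) :
    ∃ C : ℝ, ∀ᶠ s : ℝ in 𝓝[>] ((m : ℝ) + 1), |Real.log ‖LFun N' m s‖ -
      RR (fun p => ‖defA ρ (algebraMap ℚ_[ℓ] ℂ) S q σ p‖ ^ 2) (s - m)| ≤ C := by
  have hbad' : ∀ p : ℕ, p.Prime → (N' p).eval ((p : ℂ)⁻¹) ≠ 0 := by
    intro p hp
    by_cases hpS : p ∈ S₂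
    · exact hbad p hpS hp
    · intro h0
      have h1 := (hN' p hp hpS).pure _ h0
      rw [norm_inv, Complex.norm_natCast, inv_eq_one] at h1
      have h2 : (p : ℕ) = 1 := by exact_mod_cast h1
      exact hp.one_lt.ne' h2
  obtain ⟨C, hC⟩ := rs_log hgood B hB q hq hN' hbad' hσ
  refine ⟨C, ?_⟩
  have hsh : Tendsto (fun s : ℝ => s - m) (𝓝[>] ((m : ℝ) + 1)) (𝓝[>] (1 : ℝ)) :=
    (tendsto_shift m (fun x : ℝ => x)).mpr tendsto_id
  filter_upwards [hsh.eventually hC] with s hs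
  have h5 := TatePole.LFun_eq_ZZ N' m (s - m)
  have h6 : ((m : ℝ) + (s - m) : ℝ) = s := by ring
  rw [h6] at h5
  rw [h5]
  exact hs

theorem artin_core_rs {ρ : Representation ℚ_[ℓ] GQ W} {S : Finset ℕ} {P : ℕ → ℂ[X]}
    (hgood : ∀ p : ℕ, p.Prime → p ∉ S → IsPureLocalFactor ρ (algebraMap ℚ_[ℓ] ℂ) p (P p))
    (B : Submodule ℚ_[ℓ] W) (hB : CycleSpace ρ B)
    {J : Type*} [Fintype J] {V : J → Type*} [∀ i, AddCommGroup (V i)]
    [∀ i, Module ℂ (V i)] [∀ i, FiniteDimensional ℂ (V i)]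
    (τ : ∀ i, Representation ℂ GQ (V i)) (t : J → ℝ) (hτ : ∀ i, IsArtin (τ i))
    (hne : ∀ i j, i ≠ j → t i = t j → IsEmpty ((τ i).Equiv (τ j)))
    (S' : J → Finset ℕ) (Q : J → ℕ → ℂ[X])
    (hQ : ∀ i, TwistFactors ρ (τ i) (S' i) (t i) (Q i))
    (S₂ : Finset ℕ) (N' : ℕ → ℂ[X])
    (hN' : ∀ p : ℕ, p.Prime → p ∉ S₂ →
      IsPureLocalFactor (selfRep ρ B hB.stable) (algebraMap ℚ_[ℓ] ℂ) p (N' p))
    (hbad : ∀ p ∈ S₂, p.Prime → (N' p).eval ((p : ℂ)⁻¹) ≠ 0)
    (m : ℕ) (ε : ℝ) (hε : 0 < ε) :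
    ∀ᶠ s : ℝ in 𝓝[>] ((m : ℝ) + 1),
      ∑ i, (twistDefect (twistRank (resRep ρ B hB.stable) (τ i) (t i)) (Q i) m (t i) s) ^ 2 ≤
      (Real.log ‖LFun N' m s‖ + ε * Real.log (1 / (s - (m + 1)))) *
        Real.log (1 / (s - (m + 1))) := by
  classical
  obtain ⟨σ, hσ⟩ := exists_frobSys
  obtain ⟨q, hq⟩ := exists_q B hB.stable hB.rational
  obtain ⟨FB, hFB⟩ := hB.fixed
  choose Fi hFi using fun i => (hτ i).finite
  set F : Finset QBar := FB ∪ (Finset.univ.biUnion Fi ∪ {zt 4}) with hF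
  obtain ⟨M, hMfin, hnorm, hMF⟩ := exists_bigN F
  set N := M.fixingSubgroup with hN
  have hfinN : Finite (GQ ⧸ N) := finite_quot N hN
  obtain ⟨j, c, hc⟩ := exists_conj
  have hcN : c ∉ N := fun h => conj_not_fix j c hc (hMF c h (zt 4) (by
    rw [hF]
    exact Finset.mem_union_right _ (Finset.mem_union_right _ (Finset.mem_singleton_self _))))
  have hτN : ∀ i, ∀ g ∈ N, τ i g = 1 := fun i g hg => hFi i g fun x hx => hMF g hg x (by
    rw [hF]
    exact Finset.mem_union_right _ (Finset.mem_union_left _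
      (Finset.mem_biUnion.mpr ⟨i, Finset.mem_univ i, hx⟩)))
  have hBN : ∀ g ∈ N, resRep ρ B hB.stable g = 1 := by
    intro g hg
    ext w
    rw [resRep_apply]
    refine hFB g (fun x hx => hMF g hg x ?_) w w.2
    rw [hF]
    exact Finset.mem_union_left _ hx
  set D := (Module.finrank ℚ_[ℓ] W : ℝ) - Module.finrank ℚ_[ℓ] B with hD
  have hD0 : 0 ≤ D := by
    rw [hD, sub_nonneg]
    exact_mod_cast Submodule.finrank_le B
  set A := defA ρ (algebraMap ℚ_[ℓ] ℂ) S q σ with hA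
  have hAb : ∀ p : ℕ, p.Prime → ‖A p‖ ≤ D :=
    norm_defA_le (ρ := ρ) (ι := algebraMap ℚ_[ℓ] ℂ) hgood B hB.stable q hq hσ
  set r : J → ℕ := fun i => Module.finrank ℂ (twistRep (resRep ρ B hB.stable) (τ i)).invariants
    with hr
  -- characters
  set χ : J → GQ → ℂ := fun i g => (τ i).character g with hχ
  have hχinv : ∀ i g, χ i g⁻¹ = (starRingEnd ℂ) (χ i g) := by
    intro i g
    obtain ⟨n, hn, hg⟩ := exists_order N hN (τ i) (hτN i) g
    exact char_inv_conj (τ i) g n hn hg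
  have hχcongr : ∀ i {g h : GQ}, (g : GQ ⧸ N) = (h : GQ ⧸ N) → χ i g = χ i h := by
    intro i g h hgh
    show LinearMap.trace _ _ (τ i g) = LinearMap.trace _ _ (τ i h)
    rw [char_congr N (τ i) (hτN i) hgh]
  have hχout : ∀ i (g : GQ), χ i (g : GQ ⧸ N).out = χ i g := fun i g =>
    hχcongr i (QuotientGroup.out_eq' _)
  have hχconj : ∀ i (x g : GQ), χ i (x⁻¹ * g * x) = χ i g := by
    intro i x g
    have h1 := Representation.char_conj (τ i) g x⁻¹
    rwa [inv_inv] at h1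
  have hqcongr : ∀ {g h : GQ}, (g : GQ ⧸ N) = (h : GQ ⧸ N) → q g = q h := by
    intro g h hgh
    have h1 := hq g
    have h2 := hq h
    rw [char_congr N (resRep ρ B hB.stable) hBN hgh, h2] at h1
    exact_mod_cast h1.symm
  have hqout : ∀ g : GQ, q (g : GQ ⧸ N).out = q g := fun g =>
    hqcongr (QuotientGroup.out_eq' _)
  have hqconj : ∀ (x g : GQ), q (x⁻¹ * g * x) = q g := by
    intro x g
    have h1 := Representation.char_conj (resRep ρ B hB.stable) g x⁻¹
    rw [inv_inv] at h1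
    unfold Representation.character at h1
    rw [hq, hq] at h1
    exact_mod_cast h1
  have hqinv : ∀ g : GQ, q g⁻¹ = q g := by
    intro g
    obtain ⟨n, hn, hg⟩ := exists_order N hN (resRep ρ B hB.stable) hBN g
    have h1 : resRep ρ B hB.stable g⁻¹ = (resRep ρ B hB.stable g) ^ (n - 1) := by
      have h2 : resRep ρ B hB.stable g⁻¹ * resRep ρ B hB.stable g = 1 := by
        rw [← map_mul, inv_mul_cancel, map_one]
      calc resRep ρ B hB.stable g⁻¹ =
            resRep ρ B hB.stable g⁻¹ * (resRep ρ B hB.stable g) ^ n := by rw [hg, mul_one]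
        _ = resRep ρ B hB.stable g⁻¹ * (resRep ρ B hB.stable g *
            (resRep ρ B hB.stable g) ^ (n - 1)) := by
            rw [← pow_succ', Nat.sub_add_cancel hn]
        _ = (resRep ρ B hB.stable g) ^ (n - 1) := by rw [← mul_assoc, h2, one_mul]
    have hcop : Nat.Coprime (n - 1) n := by
      have h3 : Nat.Coprime (n - 1) (n - 1 + 1) := by
        rw [Nat.coprime_self_add_right]
        exact Nat.coprime_one_right _
      rwa [Nat.sub_add_cancel hn] at h3
    have h3 := trace_pow_of_rational (resRep ρ B hB.stable g) n hn hg (q g) (hq g) (n - 1) hcop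
    rw [← h1, hq] at h3
    exact_mod_cast h3
  -- bounds
  have hχb : ∀ i, ∃ C : ℝ, 0 ≤ C ∧ ∀ g, ‖χ i g‖ ≤ C := by
    intro i
    obtain ⟨C, hC⟩ := Finite.exists_le (fun γ : GQ ⧸ N => ‖χ i γ.out‖)
    refine ⟨C, (norm_nonneg _).trans (hC 1), fun g => ?_⟩
    have := hC (g : GQ ⧸ N)
    rwa [hχout] at this
  choose Cχ hCχ0 hCχ using hχb
  obtain ⟨Cq, hCq⟩ := q_bdd ρ B hB.stable M (fun g hg w hw => by
    have h1 := congrArg (fun f : B →ₗ[ℚ_[ℓ]] B => ((f ⟨w, hw⟩ : B) : W)) (hBN g hg)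
    exact h1) q hq
  have hCq0 : 0 ≤ Cq := (abs_nonneg _).trans (hCq 1)
  -- the twisted characters
  have hvt : ∀ u : ℝ, ∀ p : ℕ, p.Prime → ‖vt u p‖ ≤ 1 := fun u p hp => norm_vt u p hp
  set Z : J → ℕ → ℂ := fun i p => χ i (σ p)⁻¹ * vt (t i) p with hZ
  have hZb : ∀ i, ∀ p : ℕ, p.Prime → ‖Z i p‖ ≤ Cχ i := by
    intro i p hp
    simp only [hZ]
    rw [norm_mul]
    calc _ ≤ Cχ i * 1 := mul_le_mul (hCχ i _) (hvt _ p hp) (norm_nonneg _) (hCχ0 i)
      _ = Cχ i := mul_one _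
  set R : J → ℝ → ℝ := fun i x => RR (fun p => (A p * Z i p).re) x with hR
  have hAχ : ∀ i, ∀ p : ℕ, p.Prime → |(A p * Z i p).re| ≤ D * Cχ i := by
    intro i p hp
    refine (Complex.abs_re_le_norm _).trans ?_
    rw [norm_mul]
    exact mul_le_mul (hAb p hp) (hZb i p hp) (norm_nonneg _) hD0
  -- class functions
  have hcls : ∀ (f : GQ ⧸ N → ℂ) (F : GQ → ℂ), (∀ g : GQ, f (g : GQ ⧸ N) = F g) →
      (∀ x g : GQ, F (x⁻¹ * g * x) = F g) → ∀ x g, f (x⁻¹ * g * x) = f g := by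
    intro f F hfF hF x g
    obtain ⟨x', rfl⟩ := QuotientGroup.mk_surjective x
    obtain ⟨g', rfl⟩ := QuotientGroup.mk_surjective g
    rw [← QuotientGroup.mk_inv, ← QuotientGroup.mk_mul, ← QuotientGroup.mk_mul, hfF, hfF, hF]
  have hinvc : ∀ (f : GQ ⧸ N → ℂ) (F : GQ → ℂ), (∀ g : GQ, f (g : GQ ⧸ N) = F g) →
      (∀ g : GQ, F g⁻¹ = (starRingEnd ℂ) (F g)) → ∀ g, f g⁻¹ = (starRingEnd ℂ) (f g) := by
    intro f F hfF hF g
    obtain ⟨g', rfl⟩ := QuotientGroup.mk_surjective g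
    rw [← QuotientGroup.mk_inv, hfF, hfF, hF]
  have hbig : BigPrimes N := exists_prime_surj N hN
  -- a general density: symmetric case
  have hcheb : ∀ (f : GQ ⧸ N → ℂ) (F : GQ → ℂ), (∀ g : GQ, f (g : GQ ⧸ N) = F g) →
      (∀ x g : GQ, F (x⁻¹ * g * x) = F g) → (∀ g : GQ, F g⁻¹ = (starRingEnd ℂ) (F g)) →
      HasDens (fun p => (F (σ p)).re) (gavg fun γ => (f γ).re) := by
    intro f F hfF hF1 hF2
    have h1 := chebotarev_symm N hN hbig j c hc hcN (fun γ => (f γ).re)
      (fun x g => by rw [hcls f F hfF hF1 x g]) (fun g => by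
        rw [hinvc f F hfF hF2 g, Complex.conj_re]) hσ
    have h2 : (fun p => (f (σ p : GQ ⧸ N)).re) = fun p => (F (σ p)).re := by
      funext p
      rw [hfF]
    rw [h2] at h1
    exact h1
  have hosc : ∀ (u : ℝ) (hu : u ≠ 0) (f : GQ ⧸ N → ℂ) (F : GQ → ℂ),
      (∀ g : GQ, f (g : GQ ⧸ N) = F g) →
      (∀ x g : GQ, F (x⁻¹ * g * x) = F g) → (∀ g : GQ, F g⁻¹ = (starRingEnd ℂ) (F g)) →
      HasDens (fun p => (F (σ p) * vt u p).re) 0 := by
    intro u hu f F hfF hF1 hF2
    have h1 := dens_class_t hσ (osc_vt hσ u hu) N hN j c hc hcN f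
      (hcls f F hfF hF1) (hinvc f F hfF hF2)
    have h2 : (fun p => (f (σ p : GQ ⧸ N) * vt u p).re) = fun p => (F (σ p) * vt u p).re := by
      funext p
      rw [hfF]
    rw [h2] at h1
    exact h1
  have hcongr : ∀ {g h : ℕ → ℝ} {a : ℝ}, HasDens g a → (∀ p : ℕ, p.Prime → h p = g p) →
      HasDens h a := by
    intro g h a hg hgh ε' hε'
    filter_upwards [hg ε' hε'] with x hx
    rwa [RR_congr hgh x]
  -- density of the algebraic part
  have hdens : ∀ i, HasDens (fun p => ((q (σ p)⁻¹ : ℝ) : ℂ) * Z i p |>.re)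
      (if t i = 0 then (r i : ℝ) else 0) := by
    intro i
    set F : GQ → ℂ := fun g => ((q g : ℝ) : ℂ) * χ i g⁻¹ with hF
    set f : GQ ⧸ N → ℂ := fun γ => F γ.out with hf
    have hFcongr : ∀ {g h : GQ}, (g : GQ ⧸ N) = (h : GQ ⧸ N) → F g = F h := by
      intro g h hgh
      simp only [hF]
      rw [hqcongr hgh, hχinv, hχinv, hχcongr i hgh]
    have hfF : ∀ g : GQ, f (g : GQ ⧸ N) = F g := fun g => hFcongr (QuotientGroup.out_eq' _)
    have hF1 : ∀ x g : GQ, F (x⁻¹ * g * x) = F g := by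
      intro x g
      simp only [hF]
      rw [hqconj, hχinv, hχinv, hχconj]
    have hF2 : ∀ g : GQ, F g⁻¹ = (starRingEnd ℂ) (F g) := by
      intro g
      simp only [hF]
      rw [hqinv, map_mul, Complex.conj_ofReal, inv_inv, hχinv, Complex.conj_conj]
    have hFp : ∀ p : ℕ, ((q (σ p)⁻¹ : ℝ) : ℂ) * Z i p = F (σ p) * vt (t i) p := by
      intro p
      simp only [hF, hZ]
      rw [hqinv]
      ring
    by_cases hti : t i = 0
    · rw [if_pos hti]
      have h1 := hcheb f F hfF hF1 hF2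
      have h2 : (gavg fun γ => (f γ).re) = r i := by
        have h3 := gavg_rank N (resRep ρ B hB.stable) hBN q hq (τ i) (hτN i)
        have h4 : (fun γ : GQ ⧸ N => (f γ).re) =
            fun γ : GQ ⧸ N => (q γ.out : ℝ) * ((τ i).character γ.out).re := by
          funext γ
          simp only [hf, hF]
          rw [Complex.re_ofReal_mul, hχinv, Complex.conj_re]
        rw [h4]
        exact h3
      rw [h2] at h1
      refine hcongr h1 fun p hp => ?_
      rw [hFp, hti, vt_zero hp, mul_one]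
    · rw [if_neg hti]
      refine hcongr (hosc (t i) hti f F hfF hF1 hF2) fun p hp => ?_
      rw [hFp]
  -- the Gram matrix
  have hgram : ∀ i j', HasDens (fun p => (Z i p * (starRingEnd ℂ) (Z j' p)).re)
      (if i = j' then 1 else 0) := by
    intro i j'
    set F : GQ → ℂ := fun g => χ i g⁻¹ * (starRingEnd ℂ) (χ j' g⁻¹) with hF
    set f : GQ ⧸ N → ℂ := fun γ => F γ.out with hf
    have hFcongr : ∀ {g h : GQ}, (g : GQ ⧸ N) = (h : GQ ⧸ N) → F g = F h := by
      intro g h hgh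
      simp only [hF]
      rw [hχinv, hχinv, hχinv, hχinv, hχcongr i hgh, hχcongr j' hgh]
    have hfF : ∀ g : GQ, f (g : GQ ⧸ N) = F g := fun g => hFcongr (QuotientGroup.out_eq' _)
    have hF1 : ∀ x g : GQ, F (x⁻¹ * g * x) = F g := by
      intro x g
      simp only [hF]
      rw [hχinv, hχinv, hχinv, hχinv, hχconj, hχconj]
    have hF2 : ∀ g : GQ, F g⁻¹ = (starRingEnd ℂ) (F g) := by
      intro g
      simp only [hF]
      rw [map_mul, inv_inv, Complex.conj_conj, hχinv, hχinv, Complex.conj_conj]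
    have hFp : ∀ p : ℕ, p.Prime → Z i p * (starRingEnd ℂ) (Z j' p) =
        F (σ p) * vt (t i - t j') p := by
      intro p hp
      simp only [hF, hZ]
      rw [map_mul, ← vt_conj_mul (t i) (t j') hp]
      ring
    by_cases hti : t i = t j'
    · have h1 := hcheb f F hfF hF1 hF2
      have h2 : (gavg fun γ => (f γ).re) = if i = j' then 1 else 0 := by
        have h3 := gavg_pair N (τ j') (τ i) (hτ j').irreducible (hτ i).irreducible
          (hτN j') (hτN i)
        have h4 : (fun γ : GQ ⧸ N => (f γ).re) =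
            fun γ : GQ ⧸ N => ((τ j').character γ.out *
              (starRingEnd ℂ) ((τ i).character γ.out)).re := by
          funext γ
          simp only [hf, hF]
          rw [hχinv, hχinv, Complex.conj_conj, mul_comm]
        rw [h4, h3]
        by_cases hij : i = j'
        · subst hij
          rw [if_pos ⟨Representation.Equiv.refl (τ i)⟩, if_pos rfl]
        · rw [if_neg hij, if_neg]
          rintro ⟨e⟩
          exact (hne i j' hij hti).false e
      rw [h2] at h1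
      refine hcongr h1 fun p hp => ?_
      rw [hFp p hp, hti, sub_self, vt_zero hp, mul_one]
    · have hij : i ≠ j' := fun h => hti (by rw [h])
      rw [if_neg hij]
      refine hcongr (hosc (t i - t j') (sub_ne_zero.mpr hti) f F hfF hF1 hF2) fun p hp => ?_
      rw [hFp p hp]
  -- comparison of the logarithm with `R`
  set k : ℝ := (Fintype.card J : ℝ) with hk
  have hk0 : 0 ≤ k := Nat.cast_nonneg _
  obtain ⟨C0, hC0⟩ := rs_log_LFun hgood B hB.stable q hq hN' hbad hσ m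
  set K : ℝ := 2 * (1 + 2 * k) * D ^ 2 + 2 * k + 1 with hK
  have hK0 : 0 < K := by positivity
  set δ : ℝ := min 1 (ε / (2 * K)) with hδ
  have hδ0 : 0 < δ := lt_min one_pos (by positivity)
  have hδ1 : δ ≤ 1 := min_le_left _ _
  have hδK : δ * K ≤ ε / 2 := by
    have h1 : δ ≤ ε / (2 * K) := min_le_right _ _
    have h2 := mul_le_mul_of_nonneg_right h1 hK0.le
    have h3 : ε / (2 * K) * K = ε / 2 := by field_simp
    rwa [h3] at h2
  have hcmp : ∀ i, ∀ᶠ s : ℝ in 𝓝[>] ((m : ℝ) + 1),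
      |(Real.log ‖LFun (Q i) m ((s : ℂ) + t i * Complex.I)‖ -
        (if t i = 0 then (r i : ℝ) else 0) * Real.log (1 / (s - (m + 1)))) - R i (s - m)| ≤
        δ * Real.log (1 / (s - (m + 1))) := by
    intro i
    obtain ⟨C1, hC1⟩ := twist_log_bound_t hgood (Fi i) (hFi i) (hQ i).1 m (t i)
      (fun p hp => by rw [vt_mul_inv (t i) hp]; exact (hQ i).2 p hp) hσ
    set g1 : ℕ → ℝ := fun p => (algebraMap ℚ_[ℓ] ℂ (LinearMap.trace ℚ_[ℓ] W (ρ (σ p)⁻¹)) *
        (τ i).character (σ p)⁻¹ * vt (t i) p).re with hg1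
    set g2 : ℕ → ℝ := fun p => (A p * Z i p).re + (((q (σ p)⁻¹ : ℝ) : ℂ) * Z i p).re
      with hg2
    have hg12 : ∀ p : ℕ, p.Prime → p ∉ S → g1 p = g2 p := by
      intro p hp hpS
      simp only [hg1, hg2, hA, defA, hZ]
      rw [if_neg hpS]
      have h1 : ((q (σ p)⁻¹ : ℚ) : ℂ) = (((q (σ p)⁻¹ : ℚ) : ℝ) : ℂ) := by push_cast; rfl
      rw [← Complex.add_re, h1]
      congr 1
      simp only [hχ]
      ring
    have hb2' : ∀ p : ℕ, p.Prime → |(((q (σ p)⁻¹ : ℝ) : ℂ) * Z i p).re| ≤ Cq * Cχ i := by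
      intro p hp
      refine (Complex.abs_re_le_norm _).trans ?_
      rw [norm_mul, Complex.norm_real, Real.norm_eq_abs]
      exact mul_le_mul (hCq _) (hZb i p hp) (norm_nonneg _) hCq0
    have hb2 : BddPrimes g2 := by
      refine ⟨D * Cχ i + Cq * Cχ i, fun p hp => ?_⟩
      exact (abs_add_le _ _).trans (add_le_add (hAχ i p hp) (hb2' p hp))
    have hb1 : BddPrimes g1 := by
      obtain ⟨C, hC⟩ := hb2
      refine bdd_of_outside S C fun p hp hpS => ?_
      rw [hg12 p hp hpS]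
      exact hC p hp
    obtain ⟨C2, hC2⟩ := RR_near S hg12 hb1 hb2
    have hd := hdens i (δ / 2) (by positivity)
    have hshift : Tendsto (fun s : ℝ => s - m) (𝓝[>] ((m : ℝ) + 1)) (𝓝[>] (1 : ℝ)) :=
      (tendsto_shift m (fun x : ℝ => x)).mpr tendsto_id
    filter_upwards [hC1, hshift.eventually hd, hshift.eventually self_mem_nhdsWithin,
      hshift.eventually (eventually_log_ge (2 * (C1 + C2) / δ))] with s h1 h2 h3 h4
    have h5 : s - m - 1 = s - (m + 1) := by ring
    rw [h5] at h2 h4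
    set L := Real.log (1 / (s - (m + 1))) with hL
    have h3' : 1 < s - m := h3
    have h6 := hC2 (s - m) h3'
    have h7 : RR g2 (s - m) = R i (s - m) +
        RR (fun p => (((q (σ p)⁻¹ : ℝ) : ℂ) * Z i p).re) (s - m) :=
      RR_add (hAχ i) hb2' h3'
    rw [h7] at h6
    have h8 : C1 + C2 ≤ δ / 2 * L := by
      rw [div_le_iff₀ hδ0] at h4
      linarith
    have h9 := abs_le.mp h1
    have h10 := abs_le.mp h6
    have h11 := abs_le.mp h2
    rw [abs_le]
    constructor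
    · linarith [h9.1, h10.1, h11.1]
    · linarith [h9.2, h10.2, h11.2]
  -- the core inequality for `R`
  have hcore : ∀ᶠ x in 𝓝[>] (1:ℝ), ∑ i, R i x ^ 2 ≤
      (1 + k * δ) * Real.log (1 / (x - 1)) * RR (fun p => ‖A p‖ ^ 2) x := by
    have hallg : ∀ᶠ x in 𝓝[>] (1:ℝ), ∀ i j', |RR (fun p => (Z i p * (starRingEnd ℂ) (Z j' p)).re) x -
        (if i = j' then 1 else 0) * Real.log (1 / (x - 1))| ≤ δ * Real.log (1 / (x - 1)) :=
      Filter.eventually_all.mpr fun i => Filter.eventually_all.mpr fun j' => hgram i j' δ hδ0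
    filter_upwards [hallg, eventually_log_ge 1,
      self_mem_nhdsWithin] with x hx h0 hx1
    have hx1' : 1 < x := hx1
    set L := Real.log (1 / (x - 1)) with hL
    set Fp : ℕ → ℂ := fun p => ∑ i, (R i x : ℂ) * Z i p with hFp
    set n := Real.sqrt (∑ i, R i x ^ 2) with hn
    have hsum0 : 0 ≤ ∑ i, R i x ^ 2 := Finset.sum_nonneg fun i _ => sq_nonneg _
    have hnn : n ^ 2 = ∑ i, R i x ^ 2 := Real.sq_sqrt hsum0
    have hn0 : 0 ≤ n := Real.sqrt_nonneg _
    set G : ℝ := ∑ i, |R i x| * Cχ i with hG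
    have hG0 : 0 ≤ G := Finset.sum_nonneg fun i _ => mul_nonneg (abs_nonneg _) (hCχ0 i)
    have hFb : ∀ p : ℕ, p.Prime → ‖Fp p‖ ≤ G := by
      intro p hp
      refine (norm_sum_le _ _).trans (Finset.sum_le_sum fun i _ => ?_)
      rw [norm_mul, Complex.norm_real, Real.norm_eq_abs]
      exact mul_le_mul_of_nonneg_left (hZb i p hp) (abs_nonneg _)
    -- the sum of squares as a prime sum
    have h2 : n ^ 2 = RR (fun p => (A p * Fp p).re) x := by
      rw [hnn]
      have e1 : ∀ i ∈ (Finset.univ : Finset J), R i x ^ 2 =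
          RR (fun p => R i x * (A p * Z i p).re) x := fun i _ => by
        rw [RR_const_mul, pow_two]
      rw [Finset.sum_congr rfl e1, ← RR_finset_sum Finset.univ
        (fun i p => R i x * (A p * Z i p).re) (fun i => |R i x| * (D * Cχ i))
        (fun i _ p hp => by
          rw [abs_mul]
          exact mul_le_mul_of_nonneg_left (hAχ i p hp) (abs_nonneg _)) hx1']
      refine RR_congr (fun p _ => ?_) x
      simp only [hFp]
      rw [Finset.mul_sum, Complex.re_sum]
      refine Finset.sum_congr rfl fun i _ => ?_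
      rw [← Complex.re_ofReal_mul]
      congr 1
      ring
    -- the norm of `Fp`
    have h3 : RR (fun p => ‖Fp p‖ ^ 2) x ≤ n ^ 2 * (1 + k * δ) * L := by
      have e1 : ∀ p : ℕ, ‖Fp p‖ ^ 2 = ∑ i, ∑ j', R i x * R j' x *
          (Z i p * (starRingEnd ℂ) (Z j' p)).re := by
        intro p
        have h4 := normSq_expand (Finset.univ : Finset J) 0 (fun i => Z i p) (fun i => R i x)
        simp only [zero_sub, norm_neg, norm_zero, zero_mul, Complex.zero_re, mul_zero,
          Finset.sum_const_zero] at h4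
        simp only [hFp]
        rw [h4]
        ring
      have e2 : RR (fun p => ‖Fp p‖ ^ 2) x = ∑ i, ∑ j', R i x * R j' x *
          RR (fun p => (Z i p * (starRingEnd ℂ) (Z j' p)).re) x := by
        have hzz : ∀ i j', ∀ p : ℕ, p.Prime →
            |(Z i p * (starRingEnd ℂ) (Z j' p)).re| ≤ Cχ i * Cχ j' := by
          intro i j' p hp
          refine (Complex.abs_re_le_norm _).trans ?_
          rw [norm_mul, Complex.norm_conj]
          exact mul_le_mul (hZb i p hp) (hZb j' p hp) (norm_nonneg _) (hCχ0 i)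
        have e3 : RR (fun p => ‖Fp p‖ ^ 2) x = RR (fun p => ∑ i, ∑ j', R i x * R j' x *
          (Z i p * (starRingEnd ℂ) (Z j' p)).re) x := RR_congr (fun p _ => e1 p) x
        rw [e3, RR_finset_sum Finset.univ (fun i p => ∑ j', R i x * R j' x *
          (Z i p * (starRingEnd ℂ) (Z j' p)).re)
          (fun i => ∑ j', |R i x * R j' x| * (Cχ i * Cχ j')) (fun i _ p hp => by
            refine (Finset.abs_sum_le_sum_abs _ _).trans (Finset.sum_le_sum fun j' _ => ?_)
            rw [abs_mul]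
            exact mul_le_mul_of_nonneg_left (hzz i j' p hp) (abs_nonneg _)) hx1']
        refine Finset.sum_congr rfl fun i _ => ?_
        rw [RR_finset_sum Finset.univ (fun j' p => R i x * R j' x *
          (Z i p * (starRingEnd ℂ) (Z j' p)).re)
          (fun j' => |R i x * R j' x| * (Cχ i * Cχ j')) (fun j' _ p hp => by
            rw [abs_mul]
            exact mul_le_mul_of_nonneg_left (hzz i j' p hp) (abs_nonneg _)) hx1']
        refine Finset.sum_congr rfl fun j' _ => ?_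
        rw [RR_const_mul]
      rw [e2]
      have e4 : ∀ i j', R i x * R j' x * RR (fun p => (Z i p * (starRingEnd ℂ) (Z j' p)).re) x ≤
          R i x * R j' x * ((if i = j' then 1 else 0) * L) + |R i x| * |R j' x| * (δ * L) := by
        intro i j'
        have h5 : R i x * R j' x * (RR (fun p => (Z i p * (starRingEnd ℂ) (Z j' p)).re) x -
            (if i = j' then 1 else 0) * L) ≤ |R i x| * |R j' x| * (δ * L) := by
          refine (le_abs_self _).trans ?_
          rw [abs_mul, abs_mul]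
          exact mul_le_mul_of_nonneg_left (hx i j') (by positivity)
        linarith
      refine (Finset.sum_le_sum fun i _ => Finset.sum_le_sum fun j' _ => e4 i j').trans ?_
      have e5 : ∑ i, ∑ j', (R i x * R j' x * ((if i = j' then 1 else 0) * L) +
          |R i x| * |R j' x| * (δ * L)) = n ^ 2 * L + (∑ i, |R i x|) ^ 2 * (δ * L) := by
        rw [hnn, pow_two (∑ i, |R i x|), Finset.sum_mul_sum, Finset.sum_mul, Finset.sum_mul,
          ← Finset.sum_add_distrib]
        refine Finset.sum_congr rfl fun i _ => ?_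
        rw [Finset.sum_add_distrib, Finset.sum_mul]
        congr 1
        have : ∀ j' ∈ (Finset.univ : Finset J), R i x * R j' x * ((if i = j' then 1 else 0) * L) =
            if i = j' then R i x * R j' x * L else 0 := by
          intro j' _
          split_ifs <;> ring
        rw [Finset.sum_congr rfl this, Finset.sum_ite_eq Finset.univ i, if_pos (Finset.mem_univ i)]
        ring
      rw [e5]
      have e6 : (∑ i, |R i x|) ^ 2 ≤ k * n ^ 2 := by
        have h6 := sq_sum_le_card_mul_sum_sq (s := (Finset.univ : Finset J)) (f := fun i => |R i x|)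
        rw [Finset.card_univ] at h6
        simp only [sq_abs] at h6
        rw [hnn, hk]
        exact h6
      have e7 := mul_le_mul_of_nonneg_right e6 (by positivity : 0 ≤ δ * L)
      calc n ^ 2 * L + (∑ i, |R i x|) ^ 2 * (δ * L) ≤ n ^ 2 * L + k * n ^ 2 * (δ * L) := by
            linarith
        _ = n ^ 2 * (1 + k * δ) * L := by ring
    have hL0 : 0 < L := lt_of_lt_of_le one_pos h0
    set u : ℝ := (1 + k * δ) * L with hu
    have hu0 : 0 < u := by positivity
    have h6 : RR (fun p => (A p * Fp p).re) x ≤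
        RR (fun p => u / 2 * ‖A p‖ ^ 2 + 1 / (2 * u) * ‖Fp p‖ ^ 2) x := by
      refine RR_mono ⟨D * G, fun p hp => ?_⟩
        ⟨u / 2 * D ^ 2 + 1 / (2 * u) * G ^ 2, fun p hp => ?_⟩ (fun p hp => ?_) hx1'
      · refine (Complex.abs_re_le_norm _).trans ?_
        rw [norm_mul]
        exact mul_le_mul (hAb p hp) (hFb p hp) (norm_nonneg _) hD0
      · rw [abs_of_nonneg (by positivity)]
        have h7 : ‖A p‖ ^ 2 ≤ D ^ 2 := pow_le_pow_left₀ (norm_nonneg _) (hAb p hp) 2
        have h8 : ‖Fp p‖ ^ 2 ≤ G ^ 2 := pow_le_pow_left₀ (norm_nonneg _) (hFb p hp) 2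
        exact add_le_add (mul_le_mul_of_nonneg_left h7 (by positivity))
          (mul_le_mul_of_nonneg_left h8 (by positivity))
      · refine (Complex.re_le_norm _).trans ?_
        rw [norm_mul]
        have h9 : u / 2 * ‖A p‖ ^ 2 + 1 / (2 * u) * ‖Fp p‖ ^ 2 - ‖A p‖ * ‖Fp p‖ =
            (u * ‖A p‖ - ‖Fp p‖) ^ 2 / (2 * u) := by
          field_simp
          ring
        have h10 : 0 ≤ (u * ‖A p‖ - ‖Fp p‖) ^ 2 / (2 * u) := by positivity
        linarith
    have h7 : RR (fun p => u / 2 * ‖A p‖ ^ 2 + 1 / (2 * u) * ‖Fp p‖ ^ 2) x =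
        u / 2 * RR (fun p => ‖A p‖ ^ 2) x + 1 / (2 * u) * RR (fun p => ‖Fp p‖ ^ 2) x := by
      rw [← RR_const_mul, ← RR_const_mul]
      refine RR_add (C := u / 2 * D ^ 2) (D := 1 / (2 * u) * G ^ 2) (fun p hp => ?_)
        (fun p hp => ?_) hx1'
      · rw [abs_of_nonneg (by positivity)]
        exact mul_le_mul_of_nonneg_left (pow_le_pow_left₀ (norm_nonneg _) (hAb p hp) 2)
          (by positivity)
      · rw [abs_of_nonneg (by positivity)]
        exact mul_le_mul_of_nonneg_left (pow_le_pow_left₀ (norm_nonneg _) (hFb p hp) 2)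
          (by positivity)
    rw [← h2, h7] at h6
    have h10 : 1 / (2 * u) * RR (fun p => ‖Fp p‖ ^ 2) x ≤ 1 / (2 * u) * (n ^ 2 * (1 + k * δ) * L) :=
      mul_le_mul_of_nonneg_left h3 (by positivity)
    have h11 : 1 / (2 * u) * (n ^ 2 * (1 + k * δ) * L) = n ^ 2 / 2 := by
      have : n ^ 2 * (1 + k * δ) * L = n ^ 2 * u := by rw [hu]; ring
      rw [this]
      field_simp
    rw [← hnn]
    linarith
  have hshift : Tendsto (fun s : ℝ => s - m) (𝓝[>] ((m : ℝ) + 1)) (𝓝[>] (1 : ℝ)) :=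
    (tendsto_shift m (fun x : ℝ => x)).mpr tendsto_id
  filter_upwards [Filter.eventually_all.mpr hcmp, hshift.eventually hcore,
    hshift.eventually (eventually_log_ge 1), hshift.eventually self_mem_nhdsWithin, hC0,
    hshift.eventually (HasMean.dens hasMean_one δ hδ0),
    hshift.eventually (eventually_log_ge (2 * C0 / ε))] with s h1 h2 h3 hs1 hrs hone hbig'
  have h5 : s - m - 1 = s - (m + 1) := by ring
  rw [h5] at h2 h3 hone hbig'
  set L := Real.log (1 / (s - (m + 1))) with hL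
  have hL0 : 0 < L := lt_of_lt_of_le one_pos h3
  have hx1 : 1 < s - m := hs1
  set Q2 := RR (fun p => ‖A p‖ ^ 2) (s - m) with hQ2
  set E : J → ℝ := fun i => (Real.log ‖LFun (Q i) m ((s : ℂ) + t i * Complex.I)‖ -
    (if t i = 0 then (r i : ℝ) else 0) * L) - R i (s - m) with hE
  have hEb : ∑ i, E i ^ 2 ≤ k * (δ * L) ^ 2 := by
    have e1 : ∑ i, E i ^ 2 ≤ ∑ _i : J, (δ * L) ^ 2 := by
      refine Finset.sum_le_sum fun i _ => ?_
      exact sq_le_sq' (abs_le.mp (h1 i)).1 (abs_le.mp (h1 i)).2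
    rw [Finset.sum_const, Finset.card_univ, nsmul_eq_mul, ← hk] at e1
    exact e1
  have hQ2le : Q2 ≤ 2 * D ^ 2 * L := by
    have e1 : Q2 ≤ RR (fun _ => D ^ 2 * 1) (s - m) := by
      refine RR_mono ⟨D ^ 2, fun p hp => ?_⟩ ⟨D ^ 2, fun p hp => ?_⟩ (fun p hp => ?_) hx1
      · rw [abs_of_nonneg (by positivity)]
        exact pow_le_pow_left₀ (norm_nonneg _) (hAb p hp) 2
      · rw [mul_one, abs_of_nonneg (by positivity)]
      · rw [mul_one]
        exact pow_le_pow_left₀ (norm_nonneg _) (hAb p hp) 2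
    rw [RR_const_mul] at e1
    have e2 : RR (fun _ => (1:ℝ)) (s - m) ≤ 2 * L := by
      have e3 := (abs_le.mp hone).2
      have e4 : δ * L ≤ 1 * L := mul_le_mul_of_nonneg_right hδ1 hL0.le
      linarith
    have e3 := mul_le_mul_of_nonneg_left e2 (sq_nonneg D)
    linarith
  have hQ2log : Q2 ≤ Real.log ‖LFun N' m s‖ + ε / 2 * L := by
    have e1 := (abs_le.mp hrs).1
    have e2 : C0 ≤ ε / 2 * L := by
      rw [div_le_iff₀ hε] at hbig'
      linarith
    linarith
  have hsum : ∑ i, (Real.log ‖LFun (Q i) m ((s : ℂ) + t i * Complex.I)‖ -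
      (if t i = 0 then (r i : ℝ) else 0) * L) ^ 2 = ∑ i, (R i (s - m) + E i) ^ 2 := by
    refine Finset.sum_congr rfl fun i _ => ?_
    simp only [hE]
    ring
  have hdef : ∑ i, (twistDefect (twistRank (resRep ρ B hB.stable) (τ i) (t i)) (Q i) m (t i) s) ^ 2
      = ∑ i, (Real.log ‖LFun (Q i) m ((s : ℂ) + t i * Complex.I)‖ -
      (if t i = 0 then (r i : ℝ) else 0) * L) ^ 2 := by
    refine Finset.sum_congr rfl fun i _ => ?_
    unfold twistDefect twistRank
    rw [← hL]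
    by_cases hti : t i = 0
    · rw [if_pos hti, if_pos hti]
    · rw [if_neg hti, if_neg hti, Nat.cast_zero]
  rw [hdef, hsum]
  have hstep : ∑ i, (R i (s - m) + E i) ^ 2 ≤
      (1 + δ) * ∑ i, R i (s - m) ^ 2 + (1 + 1 / δ) * ∑ i, E i ^ 2 := by
    rw [Finset.mul_sum, Finset.mul_sum, ← Finset.sum_add_distrib]
    refine Finset.sum_le_sum fun i _ => ?_
    have e1 : (1 + δ) * R i (s - m) ^ 2 + (1 + 1 / δ) * E i ^ 2 - (R i (s - m) + E i) ^ 2 =
        (δ * R i (s - m) - E i) ^ 2 / δ := by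
      field_simp
      ring
    have e2 : 0 ≤ (δ * R i (s - m) - E i) ^ 2 / δ := by positivity
    linarith
  have h7 : (1 + δ) * ∑ i, R i (s - m) ^ 2 ≤ (1 + δ) * ((1 + k * δ) * L * Q2) :=
    mul_le_mul_of_nonneg_left h2 (by positivity)
  have h8 : (1 + 1 / δ) * ∑ i, E i ^ 2 ≤ (1 + 1 / δ) * (k * (δ * L) ^ 2) :=
    mul_le_mul_of_nonneg_left hEb (by positivity)
  have h9 : (1 + 1 / δ) * (k * (δ * L) ^ 2) = (δ ^ 2 + δ) * k * L * L := by
    field_simp
  have h10 : (δ ^ 2 + δ) * k * L ≤ 2 * δ * k * L := by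
    have e1 : δ ^ 2 ≤ δ := by
      rw [pow_two]
      exact mul_le_of_le_one_left hδ0.le hδ1
    have e2 : 0 ≤ k * L := mul_nonneg hk0 hL0.le
    nlinarith
  have h11 : (1 + δ) * (1 + k * δ) * Q2 ≤ Q2 + (1 + 2 * k) * δ * (2 * D ^ 2 * L) := by
    have e1 : (1 + δ) * (1 + k * δ) ≤ 1 + (1 + 2 * k) * δ := by
      have e2 : k * δ * δ ≤ k * δ * 1 := mul_le_mul_of_nonneg_left hδ1 (by positivity)
      nlinarith
    have hQ20 : 0 ≤ Q2 := by
      have e2 : RR (fun _ => (0:ℝ)) (s - m) ≤ Q2 := by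
        refine RR_mono ⟨0, fun p hp => by simp⟩ ⟨D ^ 2, fun p hp => ?_⟩ (fun p hp => ?_) hx1
        · rw [abs_of_nonneg (by positivity)]
          exact pow_le_pow_left₀ (norm_nonneg _) (hAb p hp) 2
        · positivity
      have e3 : RR (fun _ => (0:ℝ)) (s - m) = 0 := by
        unfold RR
        simp
      rwa [e3] at e2
    have e3 := mul_le_mul_of_nonneg_right e1 hQ20
    have e4 : (1 + 2 * k) * δ * Q2 ≤ (1 + 2 * k) * δ * (2 * D ^ 2 * L) :=
      mul_le_mul_of_nonneg_left hQ2le (by positivity)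
    linarith
  have h12 : (1 + δ) * (1 + k * δ) * Q2 + (δ ^ 2 + δ) * k * L ≤
      Real.log ‖LFun N' m s‖ + ε * L := by
    have e1 : (1 + 2 * k) * δ * (2 * D ^ 2 * L) + 2 * δ * k * L = δ * (K - 1) * L := by
      rw [hK]
      ring
    have e2 : δ * (K - 1) * L ≤ ε / 2 * L := by
      refine mul_le_mul_of_nonneg_right ?_ hL0.le
      linarith
    linarith
  calc ∑ i, (R i (s - m) + E i) ^ 2 ≤
      (1 + δ) * ((1 + k * δ) * L * Q2) + (1 + 1 / δ) * (k * (δ * L) ^ 2) := by linarith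
    _ = ((1 + δ) * (1 + k * δ) * Q2 + (δ ^ 2 + δ) * k * L) * L := by rw [h9]; ring
    _ ≤ (Real.log ‖LFun N' m s‖ + ε * L) * L := mul_le_mul_of_nonneg_right h12 hL0.le

end

end TatePole.AT
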