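import Mathlib
import Pool.Agent.Lib.MP_058a58_ag.AT.FinalRS

/-!
# The powers of the Rankin-Selberg square

Let `T = W / B` and let `R` be a representation with the character of `(T ⊗ T^∨)^{⊗ k}`.  The
logarithm of its `L`-function is, up to a bounded error, the sum over the primes of the `2k`-th
powers of the absolute values of the traces of Frobenius on `T`.
-/

open Polynomial Filter Topology
open scoped TensorProduct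

namespace TatePole

namespace AT

section
variable {ℓ : ℕ} [Fact ℓ.Prime] {W : Type*} [AddCommGroup W] [Module ℚ_[ℓ] W]
  [FiniteDimensional ℚ_[ℓ] W] {ι : ℚ_[ℓ] →+* ℂ}
  {U : Type*} [AddCommGroup U] [Module ℚ_[ℓ] U] [FiniteDimensional ℚ_[ℓ] U]

theorem rs_log_pow {ρ : Representation ℚ_[ℓ] GQ W} {S : Finset ℕ} {P : ℕ → ℂ[X]}
    (hgood : ∀ p : ℕ, p.Prime → p ∉ S → IsPureLocalFactor ρ ι p (P p))
    (B : Submodule ℚ_[ℓ] W) (hB : ∀ g : GQ, ∀ w ∈ B, ρ g w ∈ B) (q : GQ → ℚ)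
    (hq : ∀ g, LinearMap.trace ℚ_[ℓ] B (resRep ρ B hB g) = (q g : ℚ_[ℓ]))
    {R : Representation ℚ_[ℓ] GQ U} (k : ℕ)
    (hR : ∀ g, LinearMap.trace ℚ_[ℓ] U (R g) = (LinearMap.trace ℚ_[ℓ] _ (quoRep ρ B hB g) *
      LinearMap.trace ℚ_[ℓ] _ (quoRep ρ B hB g⁻¹)) ^ k)
    {S₂ : Finset ℕ} {N : ℕ → ℂ[X]}
    (hN : ∀ p : ℕ, p.Prime → p ∉ S₂ → IsPureLocalFactor R ι p (N p))
    (hbad : ∀ p : ℕ, p.Prime → (N p).eval ((p : ℂ)⁻¹) ≠ 0)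
    {σ : ℕ → GQ} (hσ : FrobSys σ) :
    ∃ C : ℝ, ∀ᶠ x : ℝ in 𝓝[>] (1 : ℝ), |Real.log ‖TatePole.ZZ N (fun _ => 1) x‖ -
      RR (fun p => ‖defA ρ ι S q σ p‖ ^ (2 * k)) x| ≤ C := by
  classical
  set A := defA ρ ι S q σ with hA
  set D := (Module.finrank ℚ_[ℓ] W : ℝ) - Module.finrank ℚ_[ℓ] B with hD
  have hD0 : 0 ≤ D := by
    rw [hD, sub_nonneg]
    exact_mod_cast Submodule.finrank_le B
  have hAb : ∀ p : ℕ, p.Prime → ‖A p‖ ≤ D := norm_defA_le hgood B hB q hq hσ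
  -- the eigenvalues at the good primes
  have hex : ∀ p : ℕ, ∃ β : Fin (Module.finrank ℚ_[ℓ] U) → ℂ, p.Prime → p ∉ S ∪ S₂ →
      (∀ j, ‖β j‖ = 1) ∧ (∀ x : ℂ, (N p).eval x = ∏ j, (1 - β j * x)) ∧
      ∑ j, β j = ((‖A p‖ ^ (2 * k) : ℝ) : ℂ) := by
    intro p
    by_cases hpp : p.Prime ∧ p ∉ S ∪ S₂
    · obtain ⟨hp, hpS⟩ := hpp
      rw [Finset.mem_union, not_or] at hpS
      obtain ⟨𝔓, h𝔓, hp𝔓, hf⟩ := hσ p hp
      obtain ⟨β, hβ, hβ1, heval⟩ := (hN p hp hpS.2).roots_of_frob h𝔓 hp𝔓 hf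
      obtain ⟨α, hα, hα1, -⟩ := (hgood p hp hpS.1).roots_of_frob h𝔓 hp𝔓 hf
      refine ⟨β, fun _ _ => ⟨hβ1, heval, ?_⟩⟩
      have h1 : ∑ j, β j = ι (LinearMap.trace ℚ_[ℓ] _ (R (σ p)⁻¹)) := by
        rw [← sum_roots_map_charpoly, ← hβ]
        rfl
      have hroots : ∀ z ∈ ((ρ (σ p)⁻¹).charpoly.map ι).roots, ‖z‖ = 1 := by
        intro z hz
        rw [← hα] at hz
        obtain ⟨i, -, rfl⟩ := Multiset.mem_map.1 hz
        exact hα1 i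
      have h2 := trace_inv_conj' ι (quoRep ρ B hB (σ p)⁻¹) (quoRep ρ B hB (σ p)⁻¹⁻¹)
        (by rw [← map_mul, mul_inv_cancel, map_one]) (quo_root_norm ρ B hB ι _ hroots)
      have h3 : A p = ι (LinearMap.trace ℚ_[ℓ] _ (quoRep ρ B hB (σ p)⁻¹)) := by
        rw [hA]
        unfold defA
        rw [if_neg hpS.1, trace_quoRep ρ B hB ι, hq, map_ratCast]
        ring
      rw [h1, hR, map_pow, map_mul, h2, ← h3, Complex.mul_conj, Complex.normSq_eq_norm_sq,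
        pow_mul]
      push_cast
      rfl
    · exact ⟨fun _ => 0, fun h1 h2 => (hpp ⟨h1, h2⟩).elim⟩
  choose β hβ using hex
  have hA2 : ∀ p : ℕ, p.Prime → ‖((‖A p‖ ^ (2 * k) : ℝ) : ℂ)‖ ≤ D ^ (2 * k) := by
    intro p hp
    rw [Complex.norm_real, Real.norm_eq_abs, abs_of_nonneg (pow_nonneg (norm_nonneg _) _)]
    exact pow_le_pow_left₀ (norm_nonneg _) (hAb p hp) _
  obtain ⟨K, hK⟩ := log_ZZ_split (Q := N) (S := S ∪ S₂) (β := β) (v := fun _ => 1)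
    (fun p hp hpS j => ((hβ p hp hpS).1 j).le) (fun p hp hpS => (hβ p hp hpS).2.1)
    (fun p _ => by simp) (fun p _ hp => by
      simp only [one_mul, pw_one]
      exact hbad p hp) (A := fun p => ((‖A p‖ ^ (2 * k) : ℝ) : ℂ)) (K1 := D ^ (2 * k)) hA2
    (R0 := fun _ => 0) (K2 := 0) (fun p _ => by simp) (fun p hp hpS => by
      rw [(hβ p hp hpS).2.2, mul_one, add_zero])
  refine ⟨K, ?_⟩
  filter_upwards [hK] with x hx
  have h0 : RR (fun p : ℕ => ((fun _ : ℕ => (0 : ℂ)) p).re) x = 0 := by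
    unfold RR
    simp
  rw [h0, add_zero] at hx
  simp only [Complex.ofReal_re] at hx
  exact hx

end

section
variable {ℓ : ℕ} [Fact ℓ.Prime] {W : Type*} [AddCommGroup W] [Module ℚ_[ℓ] W]
  [FiniteDimensional ℚ_[ℓ] W] [Algebra ℚ_[ℓ] ℂ]
  {U : Type*} [AddCommGroup U] [Module ℚ_[ℓ] U] [FiniteDimensional ℚ_[ℓ] U]

/-- The same for `LFun`. -/
theorem rs_log_pow_LFun {ρ : Representation ℚ_[ℓ] GQ W} {S : Finset ℕ} {P : ℕ → ℂ[X]}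
    (hgood : ∀ p : ℕ, p.Prime → p ∉ S → IsPureLocalFactor ρ (algebraMap ℚ_[ℓ] ℂ) p (P p))
    (B : Submodule ℚ_[ℓ] W) (hB : ∀ g : GQ, ∀ w ∈ B, ρ g w ∈ B) (q : GQ → ℚ)
    (hq : ∀ g, LinearMap.trace ℚ_[ℓ] B (resRep ρ B hB g) = (q g : ℚ_[ℓ]))
    {R : Representation ℚ_[ℓ] GQ U} (k : ℕ)
    (hR : ∀ g, LinearMap.trace ℚ_[ℓ] U (R g) = (LinearMap.trace ℚ_[ℓ] _ (quoRep ρ B hB g) *
      LinearMap.trace ℚ_[ℓ] _ (quoRep ρ B hB g⁻¹)) ^ k)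
    {S₂ : Finset ℕ} {N' : ℕ → ℂ[X]}
    (hN' : ∀ p : ℕ, p.Prime → p ∉ S₂ → IsPureLocalFactor R (algebraMap ℚ_[ℓ] ℂ) p (N' p))
    (hbad : ∀ p ∈ S₂, p.Prime → (N' p).eval ((p : ℂ)⁻¹) ≠ 0)
    {σ : ℕ → GQ} (hσ : FrobSys σ) (m : ℕ) :
    ∃ C : ℝ, ∀ᶠ s : ℝ in 𝓝[>] ((m : ℝ) + 1), |Real.log ‖LFun N' m s‖ -
      RR (fun p => ‖defA ρ (algebraMap ℚ_[ℓ] ℂ) S q σ p‖ ^ (2 * k)) (s - m)| ≤ C := by
  have hbad' : ∀ p : ℕ, p.Prime → (N' p).eval ((p : ℂ)⁻¹) ≠ 0 := by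
    intro p hp
    by_cases hpS : p ∈ S₂
    · exact hbad p hpS hp
    · intro h0
      have h1 := (hN' p hp hpS).pure _ h0
      rw [norm_inv, Complex.norm_natCast, inv_eq_one] at h1
      have h2 : (p : ℕ) = 1 := by exact_mod_cast h1
      exact hp.one_lt.ne' h2
  obtain ⟨C, hC⟩ := rs_log_pow hgood B hB q hq k hR hN' hbad' hσ
  refine ⟨C, ?_⟩
  have hsh : Tendsto (fun s : ℝ => s - m) (𝓝[>] ((m : ℝ) + 1)) (𝓝[>] (1 : ℝ)) :=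
    (tendsto_shift m (fun x : ℝ => x)).mpr tendsto_id
  filter_upwards [hsh.eventually hC] with s hs
  have h5 := TatePole.LFun_eq_ZZ N' m (s - m)
  have h6 : ((m : ℝ) + (s - m) : ℝ) = s := by ring
  rw [h6] at h5
  rw [h5]
  exact hs

end

end AT

end TatePole
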