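import Mathlib
import Pool.Agent.Lib.MP_058a58_ag.AT.Dist

/-!
# Even powers

If the `L`-functions of all the representations `(T ⊗ T^∨)^{⊗ k}`, for `T = W / B`, have the orders
`-a_k`, with `a_1 = 1` and the Hankel forms of `a` positive definite, then Tate's formula holds for
all twists of `W` by Artin representations, over every number field, whenever the order exists.
-/

open Polynomial Filter Topology NumberField Set
open scoped TensorProduct

namespace TatePole.AT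

/-- close in mean square implies close in all moments -/
lemma moments_close' {f g : ℕ → ℂ} {C : ℝ} (hC : 0 ≤ C) (hf : ∀ p : ℕ, p.Prime → ‖f p‖ ≤ C)
    (hg : ∀ p : ℕ, p.Prime → ‖g p‖ ≤ C)
    (h : ∀ ε : ℝ, 0 < ε → ∀ᶠ x in 𝓝[>] (1:ℝ),
      RR (fun p => ‖f p - g p‖ ^ 2) x ≤ ε * Real.log (1 / (x - 1))) (k : ℕ) :
    ∀ ε : ℝ, 0 < ε → ∀ᶠ x in 𝓝[>] (1:ℝ),
      |RR (fun p => ‖f p‖ ^ (2 * k)) x - RR (fun p => ‖g p‖ ^ (2 * k)) x| ≤
        ε * Real.log (1 / (x - 1)) := by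
  intro ε hε
  set K : ℝ := 2 * k * C ^ (2 * k - 1) with hK
  have hK0 : 0 ≤ K := by positivity
  set η : ℝ := ε / 4 with hη
  have hη0 : 0 < η := by positivity
  set ε' : ℝ := ε * η / (K ^ 2 + 1) with hε'
  have hε'0 : 0 < ε' := by positivity
  filter_upwards [h ε' hε'0, HasMean.dens hasMean_one 1 one_pos, self_mem_nhdsWithin,
    eventually_log_ge 0] with x hx hone hx1 hL0
  have hx1' : 1 < x := hx1
  set L := Real.log (1 / (x - 1)) with hL
  have hpt : ∀ p : ℕ, p.Prime → |‖f p‖ ^ (2 * k) - ‖g p‖ ^ (2 * k)| ≤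
      η * 1 + K ^ 2 / (4 * η) * ‖f p - g p‖ ^ 2 := by
    intro p hp
    have h1 := abs_pow_sub_pow_le ‖f p‖ ‖g p‖ (2 * k)
    have h2 : |‖f p‖ - ‖g p‖| ≤ ‖f p - g p‖ := abs_norm_sub_norm_le _ _
    have h3 : max |‖f p‖| |‖g p‖| ^ (2 * k - 1) ≤ C ^ (2 * k - 1) := by
      rw [abs_norm, abs_norm]
      exact pow_le_pow_left₀ (le_max_of_le_left (norm_nonneg _)) (max_le (hf p hp) (hg p hp)) _
    have h4 : |‖f p‖ ^ (2 * k) - ‖g p‖ ^ (2 * k)| ≤ K * ‖f p - g p‖ := by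
      refine h1.trans ?_
      have h5 : |‖f p‖ - ‖g p‖| * ((2 * k : ℕ) : ℝ) * max |‖f p‖| |‖g p‖| ^ (2 * k - 1) ≤
          ‖f p - g p‖ * ((2 * k : ℕ) : ℝ) * C ^ (2 * k - 1) := by
        refine mul_le_mul (mul_le_mul_of_nonneg_right h2 (Nat.cast_nonneg _)) h3
          (by positivity) (by positivity)
      refine h5.trans (le_of_eq ?_)
      rw [hK]
      push_cast
      ring
    refine h4.trans ?_
    have h6 : η * 1 + K ^ 2 / (4 * η) * ‖f p - g p‖ ^ 2 - K * ‖f p - g p‖ =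
        (2 * η - K * ‖f p - g p‖) ^ 2 / (4 * η) := by
      field_simp
      ring
    have h7 : 0 ≤ (2 * η - K * ‖f p - g p‖) ^ 2 / (4 * η) := by positivity
    linarith
  have bf : ∀ p : ℕ, p.Prime → |‖f p‖ ^ (2 * k)| ≤ C ^ (2 * k) := fun p hp => by
    rw [abs_of_nonneg (by positivity)]
    exact pow_le_pow_left₀ (norm_nonneg _) (hf p hp) _
  have bg : ∀ p : ℕ, p.Prime → |‖g p‖ ^ (2 * k)| ≤ C ^ (2 * k) := fun p hp => by
    rw [abs_of_nonneg (by positivity)]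
    exact pow_le_pow_left₀ (norm_nonneg _) (hg p hp) _
  have bd : ∀ p : ℕ, p.Prime → |K ^ 2 / (4 * η) * ‖f p - g p‖ ^ 2| ≤
      K ^ 2 / (4 * η) * (2 * C) ^ 2 := fun p hp => by
    rw [abs_of_nonneg (by positivity)]
    refine mul_le_mul_of_nonneg_left (pow_le_pow_left₀ (norm_nonneg _) ?_ 2) (by positivity)
    exact (norm_sub_le _ _).trans (by linarith [hf p hp, hg p hp])
  have b1 : ∀ p : ℕ, p.Prime → |η * (1 : ℝ)| ≤ η := fun p hp => by
    rw [mul_one, abs_of_pos hη0]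
  have hsum : RR (fun p => η * 1 + K ^ 2 / (4 * η) * ‖f p - g p‖ ^ 2) x ≤ ε * L := by
    rw [RR_add (g := fun _ => η * 1) (h := fun p => K ^ 2 / (4 * η) * ‖f p - g p‖ ^ 2)
      b1 bd hx1', RR_const_mul, RR_const_mul]
    have h1 : RR (fun _ => (1:ℝ)) x ≤ 2 * L := by
      have := (abs_le.mp hone).2
      linarith
    have h2 : η * RR (fun _ => (1:ℝ)) x ≤ η * (2 * L) := mul_le_mul_of_nonneg_left h1 hη0.le
    have h3 : K ^ 2 / (4 * η) * RR (fun p => ‖f p - g p‖ ^ 2) x ≤ K ^ 2 / (4 * η) * (ε' * L) :=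
      mul_le_mul_of_nonneg_left hx (by positivity)
    have h4 : K ^ 2 / (4 * η) * (ε' * L) ≤ ε / 4 * L := by
      have h5 : K ^ 2 / (4 * η) * (ε' * L) = (K ^ 2 / (K ^ 2 + 1)) * (ε / 4 * L) := by
        rw [hε']
        field_simp
      rw [h5]
      have h6 : K ^ 2 / (K ^ 2 + 1) ≤ 1 := by
        rw [div_le_one (by positivity)]
        linarith
      exact mul_le_of_le_one_left (by positivity) h6
    have h7 : η * (2 * L) = ε / 2 * L := by rw [hη]; ring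
    have h8 : 0 ≤ ε * L := by positivity
    linarith
  have hsub : RR (fun p => ‖f p‖ ^ (2 * k)) x - RR (fun p => ‖g p‖ ^ (2 * k)) x =
      RR (fun p => ‖f p‖ ^ (2 * k) + (-1) * ‖g p‖ ^ (2 * k)) x := by
    rw [RR_add (g := fun p => ‖f p‖ ^ (2 * k)) (h := fun p => (-1) * ‖g p‖ ^ (2 * k))
      bf (fun p hp => by rw [abs_mul, abs_neg, abs_one, one_mul]; exact bg p hp) hx1',
      RR_const_mul]
    ring
  rw [hsub, abs_le]
  have bsum : BddPrimes (fun p => ‖f p‖ ^ (2 * k) + (-1) * ‖g p‖ ^ (2 * k)) :=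
    ⟨C ^ (2 * k) + C ^ (2 * k), fun p hp => (abs_add_le _ _).trans (add_le_add (bf p hp) (by
      rw [abs_mul, abs_neg, abs_one, one_mul]; exact bg p hp))⟩
  have bbig : BddPrimes (fun p => η * 1 + K ^ 2 / (4 * η) * ‖f p - g p‖ ^ 2) :=
    ⟨η + K ^ 2 / (4 * η) * (2 * C) ^ 2, fun p hp => (abs_add_le _ _).trans
      (add_le_add (b1 p hp) (bd p hp))⟩
  constructor
  · have h1 : RR (fun p => (-1) * (η * 1 + K ^ 2 / (4 * η) * ‖f p - g p‖ ^ 2)) x ≤
        RR (fun p => ‖f p‖ ^ (2 * k) + (-1) * ‖g p‖ ^ (2 * k)) x := by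
      refine RR_mono ?_ bsum (fun p hp => ?_) hx1'
      · obtain ⟨E, hE⟩ := bbig
        exact ⟨E, fun p hp => by rw [abs_mul, abs_neg, abs_one, one_mul]; exact hE p hp⟩
      · have := (abs_le.mp (hpt p hp)).1
        linarith
    rw [RR_const_mul] at h1
    linarith
  · have h1 : RR (fun p => ‖f p‖ ^ (2 * k) + (-1) * ‖g p‖ ^ (2 * k)) x ≤
        RR (fun p => η * 1 + K ^ 2 / (4 * η) * ‖f p - g p‖ ^ 2) x := by
      refine RR_mono bsum bbig (fun p hp => ?_) hx1'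
      have := (abs_le.mp (hpt p hp)).2
      linarith
    linarith

/-- the moments of the character of an Artin representation -/
lemma dens_moment' {M : IntermediateField ℚ QBar} [FiniteDimensional ℚ M]
    [M.fixingSubgroup.Normal] (j : QBar →ₐ[ℚ] ℂ) (c : GQ)
    (hc : ∀ x, j (c x) = (starRingEnd ℂ) (j x)) (hcN : c ∉ M.fixingSubgroup)
    {V : Type*} [AddCommGroup V] [Module ℂ V] [FiniteDimensional ℂ V]
    (τ : Representation ℂ GQ V) (hτ : ∀ g ∈ M.fixingSubgroup, τ g = 1)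
    {σ : ℕ → GQ} (hσ : FrobSys σ) (k : ℕ) :
    HasDens (fun p => ‖τ.character (σ p)‖ ^ (2 * k))
      (gavg fun γ : GQ ⧸ M.fixingSubgroup => ‖τ.character γ.out‖ ^ (2 * k)) := by
  set N := M.fixingSubgroup with hN
  have hinv : ∀ g, τ.character g⁻¹ = (starRingEnd ℂ) (τ.character g) := by
    intro g
    obtain ⟨n, hn, hg⟩ := exists_order N hN τ hτ g
    exact char_inv_conj τ g n hn hg
  have hcongr : ∀ {g h : GQ}, (g : GQ ⧸ N) = (h : GQ ⧸ N) → τ.character g = τ.character h := by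
    intro g h hgh
    show LinearMap.trace _ _ (τ g) = LinearMap.trace _ _ (τ h)
    rw [char_congr N τ hτ hgh]
  have hout : ∀ g : GQ, τ.character (g : GQ ⧸ N).out = τ.character g := fun g =>
    hcongr (QuotientGroup.out_eq' _)
  have hconj : ∀ x g : GQ, τ.character (x⁻¹ * g * x) = τ.character g := by
    intro x g
    have h1 := Representation.char_conj τ g x⁻¹
    rwa [inv_inv] at h1
  have h1 := chebotarev_symm N hN (exists_prime_surj N hN) j c hc hcN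
    (fun γ : GQ ⧸ N => ‖τ.character γ.out‖ ^ (2 * k)) (fun x g => by
      obtain ⟨x', rfl⟩ := QuotientGroup.mk_surjective x
      obtain ⟨g', rfl⟩ := QuotientGroup.mk_surjective g
      rw [← QuotientGroup.mk_inv, ← QuotientGroup.mk_mul, ← QuotientGroup.mk_mul, hout, hout,
        hconj]) (fun g => by
      obtain ⟨g', rfl⟩ := QuotientGroup.mk_surjective g
      rw [← QuotientGroup.mk_inv, hout, hout, hinv, Complex.norm_conj]) hσ
  have h2 : (fun p => ‖τ.character (σ p : GQ ⧸ N).out‖ ^ (2 * k)) =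
      fun p => ‖τ.character (σ p)‖ ^ (2 * k) := by
    funext p
    rw [hout]
  rw [h2] at h1
  exact h1

/-- moments of finitely many values: the Hankel form degenerates -/
lemma hankel_degenerate {G : Type*} [Finite G] [Nonempty G] (y : G → ℝ) (a : ℕ → ℝ)
    (ha : ∀ k, a k = gavg fun γ => y γ ^ k) :
    ∃ (n : ℕ) (b : ℕ → ℝ), b n ≠ 0 ∧
      ∑ i ∈ Finset.range (n + 1), ∑ l ∈ Finset.range (n + 1), b i * b l * a (i + l) = 0 := by
  classical
  have : Fintype G := Fintype.ofFinite _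
  set F : Finset ℝ := Finset.univ.image y with hF
  set Qp : ℝ[X] := ∏ c ∈ F, (X - C c) with hQp
  have hmonic : Qp.Monic := monic_prod_of_monic _ _ fun c _ => monic_X_sub_C c
  refine ⟨Qp.natDegree, fun i => Qp.coeff i, ?_, ?_⟩
  · have h1 : Qp.coeff Qp.natDegree = 1 := hmonic
    simp only
    rw [h1]
    exact one_ne_zero
  · have hzero : ∀ γ, Qp.eval (y γ) = 0 := by
      intro γ
      have hmem : y γ ∈ F := Finset.mem_image_of_mem y (Finset.mem_univ γ)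
      rw [hQp, eval_prod]
      refine Finset.prod_eq_zero hmem ?_
      rw [eval_sub, eval_X, eval_C, sub_self]
    have h2 : ∀ γ, ∑ i ∈ Finset.range (Qp.natDegree + 1), ∑ l ∈ Finset.range (Qp.natDegree + 1),
        Qp.coeff i * Qp.coeff l * y γ ^ (i + l) = 0 := by
      intro γ
      have h3 := hzero γ
      rw [eval_eq_sum_range] at h3
      have h4 : (∑ i ∈ Finset.range (Qp.natDegree + 1), Qp.coeff i * y γ ^ i) *
          (∑ l ∈ Finset.range (Qp.natDegree + 1), Qp.coeff l * y γ ^ l) = 0 := by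
        rw [h3, zero_mul]
      rw [Finset.sum_mul_sum] at h4
      rw [← h4]
      refine Finset.sum_congr rfl fun i _ => Finset.sum_congr rfl fun l _ => ?_
      rw [pow_add]
      ring
    have h5 : ∀ i l, Qp.coeff i * Qp.coeff l * a (i + l) =
        (∑ γ, Qp.coeff i * Qp.coeff l * y γ ^ (i + l)) / Nat.card G := by
      intro i l
      rw [ha]
      unfold gavg
      rw [finsum_eq_sum_of_fintype, ← Finset.mul_sum]
      ring
    simp only [h5]
    simp only [← Finset.sum_div]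
    rw [div_eq_zero_iff]
    left
    have h6 : ∀ i, ∑ l ∈ Finset.range (Qp.natDegree + 1),
        ∑ γ, Qp.coeff i * Qp.coeff l * y γ ^ (i + l) =
        ∑ γ, ∑ l ∈ Finset.range (Qp.natDegree + 1), Qp.coeff i * Qp.coeff l * y γ ^ (i + l) :=
      fun i => Finset.sum_comm
    rw [Finset.sum_congr rfl fun i _ => h6 i, Finset.sum_comm]
    exact Finset.sum_eq_zero fun γ _ => h2 γ

/-- the limit of the quotient of the logarithm of an `L`-function by `log (1/(s-m-1))` -/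
lemma order_tendsto {N : ℕ → ℂ[X]} {m : ℕ} {n : ℤ} (hn : HasOrder N m n) :
    Tendsto (fun s : ℝ => Real.log ‖LFun N m s‖ / Real.log (1 / (s - (m + 1))))
      (𝓝[>] ((m : ℝ) + 1)) (𝓝 (-(n : ℝ))) := by
  have h3 : HasTwistOrder N m 0 n := by
    obtain ⟨c, hc, ht⟩ := hn
    refine ⟨c, hc, ht.congr fun s => ?_⟩
    rw [Complex.ofReal_zero, zero_mul, add_zero]
  have h4 := twistOrder_tendsto h3 0
  rw [Nat.cast_zero, add_zero] at h4
  refine h4.congr fun s => ?_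
  unfold twistDefect
  rw [Complex.ofReal_zero, zero_mul, add_zero, Nat.cast_zero, zero_mul, sub_zero]

section
variable {ℓ : ℕ} [Fact ℓ.Prime] {W : Type*} [AddCommGroup W] [Module ℚ_[ℓ] W]
  [FiniteDimensional ℚ_[ℓ] W] [Algebra ℚ_[ℓ] ℂ]

/-- The equality case of the Rankin-Selberg form: if an exceptional twist exists, the moments of
the traces of Frobenius on `T` are those of the character of a finite group. -/
theorem exc_moments {ρ : Representation ℚ_[ℓ] GQ W} {S : Finset ℕ} {P : ℕ → ℂ[X]}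
    (hgood : ∀ p : ℕ, p.Prime → p ∉ S → IsPureLocalFactor ρ (algebraMap ℚ_[ℓ] ℂ) p (P p))
    (B : Submodule ℚ_[ℓ] W) (hB : CycleSpace ρ B)
    {U : ℕ → Type*} [∀ k, AddCommGroup (U k)] [∀ k, Module ℚ_[ℓ] (U k)]
    [∀ k, FiniteDimensional ℚ_[ℓ] (U k)] (R : ∀ k, Representation ℚ_[ℓ] GQ (U k))
    (hR : ∀ k g, LinearMap.trace ℚ_[ℓ] (U k) (R k g) =
      (LinearMap.trace ℚ_[ℓ] _ (quoRep ρ B hB.stable g) *
      LinearMap.trace ℚ_[ℓ] _ (quoRep ρ B hB.stable g⁻¹)) ^ k)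
    (S₂ : ℕ → Finset ℕ) (N : ℕ → ℕ → ℂ[X])
    (hN : ∀ k, ∀ p : ℕ, p.Prime → p ∉ S₂ k →
      IsPureLocalFactor (R k) (algebraMap ℚ_[ℓ] ℂ) p (N k p))
    (hbad : ∀ k, ∀ p ∈ S₂ k, p.Prime → (N k p).eval ((p : ℂ)⁻¹) ≠ 0) (m : ℕ)
    (h1 : Tendsto (fun s : ℝ => Real.log ‖LFun (N 1) m s‖ / Real.log (1 / (s - (m + 1))))
      (𝓝[>] ((m : ℝ) + 1)) (𝓝 1))
    {V : Type*} [AddCommGroup V] [Module ℂ V] [FiniteDimensional ℂ V]
    (τ : Representation ℂ GQ V) (hτ : IsArtin τ) (t : ℝ) (S' : Finset ℕ) (Q : ℕ → ℂ[X])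
    (hQ : TwistFactors ρ τ S' t Q) (z : ℤ) (hz : z ≠ 0)
    (hD : Tendsto (fun s : ℝ => twistDefect (twistRank (resRep ρ B hB.stable) τ t) Q m t s /
      Real.log (1 / (s - (m + 1)))) (𝓝[>] ((m : ℝ) + 1)) (𝓝 z)) :
    (z = 1 ∨ z = -1) ∧ ∃ (M : IntermediateField ℚ QBar) (_ : FiniteDimensional ℚ M)
      (_ : M.fixingSubgroup.Normal), (∀ g ∈ M.fixingSubgroup, τ g = 1) ∧
      ∀ k, Tendsto (fun s : ℝ => Real.log ‖LFun (N k) m s‖ / Real.log (1 / (s - (m + 1))))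
        (𝓝[>] ((m : ℝ) + 1))
        (𝓝 (gavg fun γ : GQ ⧸ M.fixingSubgroup => ‖τ.character γ.out‖ ^ (2 * k))) := by
  have hR1 : ∀ g, LinearMap.trace ℚ_[ℓ] (U 1) (R 1 g) =
      LinearMap.trace ℚ_[ℓ] _ (quoRep ρ B hB.stable g) *
      LinearMap.trace ℚ_[ℓ] _ (quoRep ρ B hB.stable g⁻¹) := fun g => by rw [hR 1 g, pow_one]
  obtain ⟨σ, hσ, q, hq, M, hMfin, hnorm, j, c, hc, hcN, hτN, hdist⟩ :=
    rs_dist hgood B hB (J := Unit) (V := fun _ => V) (fun _ => τ) (fun _ => t) (fun _ => hτ)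
      (fun i j hij _ => (hij (Subsingleton.elim i j)).elim) (fun _ => S') (fun _ => Q)
      (fun _ => hQ) hR1 (S₂ 1) (N 1) (hN 1) (hbad 1) m
  have hL := tendsto_logL m
  set A := defA ρ (algebraMap ℚ_[ℓ] ℂ) S q σ with hA
  set Z : ℕ → ℂ := fun p => τ.character (σ p)⁻¹ * vt t p with hZ
  have hdist' : ∀ (x : ℝ) (ε : ℝ), 0 < ε → ∀ᶠ s : ℝ in 𝓝[>] ((m : ℝ) + 1),
      RR (fun p => ‖A p - (x : ℂ) * (starRingEnd ℂ) (Z p)‖ ^ 2) (s - m) ≤
      (1 - 2 * x * z + x ^ 2 + ε) * Real.log (1 / (s - (m + 1))) := by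
    intro x ε hε
    have h2 := hdist (fun _ => x) (ε / 2) (by positivity)
    have h3 : Tendsto (fun s : ℝ => Real.log ‖LFun (N 1) m s‖ / Real.log (1 / (s - (m + 1))) -
        2 * x * (twistDefect (twistRank (resRep ρ B hB.stable) τ t) Q m t s /
          Real.log (1 / (s - (m + 1)))) + x ^ 2 + ε / 2) (𝓝[>] ((m : ℝ) + 1))
        (𝓝 (1 - 2 * x * z + x ^ 2 + ε / 2)) :=
      ((h1.sub (hD.const_mul (2 * x))).add_const _).add_const _
    filter_upwards [h2, h3.eventually (gt_mem_nhds (show 1 - 2 * x * z + x ^ 2 + ε / 2 <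
      1 - 2 * x * z + x ^ 2 + ε by linarith)), hL.eventually_gt_atTop 0] with s e1 e2 e3
    simp only [Finset.univ_unique, Finset.sum_singleton] at e1
    refine e1.trans ?_
    have e4 := mul_le_mul_of_nonneg_right e2.le e3.le
    refine (le_of_eq ?_).trans e4
    field_simp
  -- nonnegativity
  have hnn : ∀ (g : ℕ → ℂ) (s : ℝ), 0 ≤ RR (fun p => ‖g p‖ ^ 2) s := by
    intro g s
    unfold RR
    exact tsum_nonneg fun p => mul_nonneg (sq_nonneg _) (Real.rpow_nonneg (Nat.cast_nonneg _) _)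
  have hz1 : (z : ℝ) ^ 2 ≤ 1 := by
    refine le_of_forall_pos_le_add fun ε hε => ?_
    obtain ⟨s, e1, e2⟩ := ((hdist' z ε hε).and (hL.eventually_gt_atTop 0)).exists
    have e3 := (hnn (fun p => A p - ((z : ℝ) : ℂ) * (starRingEnd ℂ) (Z p)) (s - m)).trans e1
    have e4 : 0 ≤ 1 - 2 * (z : ℝ) * z + (z : ℝ) ^ 2 + ε := by
      by_contra hneg
      rw [not_le] at hneg
      exact absurd e3 (not_le.mpr (mul_neg_of_neg_of_pos hneg e2))
    nlinarith
  have hz2 : z ^ 2 ≤ 1 := by exact_mod_cast hz1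
  have hz3 : z = 1 ∨ z = -1 := by
    have h2 : z ≤ 1 := by nlinarith
    have h3 : -1 ≤ z := by nlinarith
    omega
  refine ⟨hz3, M, hMfin, hnorm, fun g hg => hτN () g hg, fun k => ?_⟩
  have hzsq : (z : ℝ) ^ 2 = 1 := by
    rcases hz3 with h | h <;> rw [h] <;> norm_num
  -- closeness
  have hclose : ∀ ε : ℝ, 0 < ε → ∀ᶠ x in 𝓝[>] (1:ℝ),
      RR (fun p => ‖A p - ((z : ℝ) : ℂ) * (starRingEnd ℂ) (Z p)‖ ^ 2) x ≤
        ε * Real.log (1 / (x - 1)) := by
    intro ε hε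
    have h2 : Tendsto (fun x : ℝ => (m : ℝ) + x) (𝓝[>] (1 : ℝ)) (𝓝[>] ((m : ℝ) + 1)) := by
      rw [tendsto_nhdsWithin_iff]
      refine ⟨?_, ?_⟩
      · have h3 : Continuous (fun x : ℝ => (m : ℝ) + x) := by fun_prop
        exact (h3.tendsto 1).mono_left nhdsWithin_le_nhds
      · filter_upwards [self_mem_nhdsWithin] with x hx
        have hx' : (1 : ℝ) < x := hx
        show (m : ℝ) + 1 < m + x
        linarith
    filter_upwards [h2.eventually (hdist' z ε hε)] with x hx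
    have e1 : (m : ℝ) + x - m = x := by ring
    have e2 : (m : ℝ) + x - (m + 1) = x - 1 := by ring
    rw [e1, e2] at hx
    refine hx.trans (le_of_eq ?_)
    have : 1 - 2 * (z : ℝ) * z + (z : ℝ) ^ 2 + ε = ε := by nlinarith
    rw [this]
  -- bounds
  have hAb : ∀ p : ℕ, p.Prime → ‖A p‖ ≤
      (Module.finrank ℚ_[ℓ] W : ℝ) - Module.finrank ℚ_[ℓ] B :=
    norm_defA_le (ρ := ρ) (ι := algebraMap ℚ_[ℓ] ℂ) hgood B hB.stable q hq hσ
  have hfinN : Finite (GQ ⧸ M.fixingSubgroup) := finite_quot M.fixingSubgroup rfl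
  obtain ⟨Cχ, hCχ⟩ : ∃ C : ℝ, ∀ g : GQ, ‖τ.character g‖ ≤ C := by
    obtain ⟨C, hC⟩ := Finite.exists_le (fun γ : GQ ⧸ M.fixingSubgroup => ‖τ.character γ.out‖)
    refine ⟨C, fun g => ?_⟩
    have h2 := hC (g : GQ ⧸ M.fixingSubgroup)
    have h3 : τ.character (g : GQ ⧸ M.fixingSubgroup).out = τ.character g := by
      show LinearMap.trace _ _ (τ _) = LinearMap.trace _ _ (τ g)
      rw [char_congr M.fixingSubgroup τ (hτN ()) (QuotientGroup.out_eq' _)]
    rwa [h3] at h2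
  have hvt1 : ∀ p : ℕ, p.Prime → ‖vt t p‖ = 1 := fun p hp => norm_cpow_it hp t
  have hinv : ∀ g, τ.character g⁻¹ = (starRingEnd ℂ) (τ.character g) := by
    intro g
    obtain ⟨n, hn, hg⟩ := exists_order M.fixingSubgroup rfl τ (hτN ()) g
    exact char_inv_conj τ g n hn hg
  have hnormz : ∀ p : ℕ, p.Prime → ‖((z : ℝ) : ℂ) * (starRingEnd ℂ) (Z p)‖ =
      ‖τ.character (σ p)‖ := by
    intro p hp
    have h2 : |(z : ℝ)| = 1 := by
      rcases hz3 with h | h <;> rw [h] <;> norm_num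
    rw [norm_mul, Complex.norm_real, Real.norm_eq_abs, h2, one_mul, Complex.norm_conj]
    simp only [hZ]
    rw [norm_mul, hvt1 p hp, mul_one, hinv, Complex.norm_conj]
  set K : ℝ := max ((Module.finrank ℚ_[ℓ] W : ℝ) - Module.finrank ℚ_[ℓ] B) Cχ with hK
  have hK0 : 0 ≤ K := by
    refine le_max_of_le_right ((norm_nonneg _).trans (hCχ 1))
  have hmom := moments_close' (f := A) (g := fun p => ((z : ℝ) : ℂ) * (starRingEnd ℂ) (Z p))
    (C := K) hK0 (fun p hp => (hAb p hp).trans (le_max_left _ _))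
    (fun p hp => by rw [hnormz p hp]; exact (hCχ _).trans (le_max_right _ _)) hclose k
  have hdens := dens_moment' j c hc hcN τ (hτN ()) hσ k
  obtain ⟨C0, hC0⟩ := rs_log_pow_LFun hgood B hB.stable q hq k (hR k) (hN k) (hbad k) hσ m
  set μ := gavg fun γ : GQ ⧸ M.fixingSubgroup => ‖τ.character γ.out‖ ^ (2 * k) with hμ
  have hshift : Tendsto (fun s : ℝ => s - m) (𝓝[>] ((m : ℝ) + 1)) (𝓝[>] (1 : ℝ)) :=
    (tendsto_shift m (fun x : ℝ => x)).mpr tendsto_id
  rw [Metric.tendsto_nhds]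
  intro ε hε
  filter_upwards [hshift.eventually (hmom (ε / 4) (by positivity)),
    hshift.eventually (hdens (ε / 4) (by positivity)), hC0,
    hL.eventually_ge_atTop (4 * C0 / ε), hL.eventually_gt_atTop 0] with s e1 e2 e3 e4 e5
  have e6 : s - m - 1 = s - (m + 1) := by ring
  rw [e6] at e1 e2
  set L := Real.log (1 / (s - (m + 1))) with hLdef
  have e7 : RR (fun p => ‖((z : ℝ) : ℂ) * (starRingEnd ℂ) (Z p)‖ ^ (2 * k)) (s - m) =
      RR (fun p => ‖τ.character (σ p)‖ ^ (2 * k)) (s - m) :=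
    RR_congr (fun p hp => by rw [hnormz p hp]) _
  rw [e7] at e1
  have e8 : C0 ≤ ε / 4 * L := by
    rw [div_le_iff₀ hε] at e4
    linarith
  have f1 := abs_le.mp e1
  have f2 := abs_le.mp e2
  have f3 := abs_le.mp e3
  have e9 : |Real.log ‖LFun (N k) m s‖ - μ * L| ≤ 3 * (ε / 4) * L := by
    rw [abs_le]
    constructor
    · linarith [f1.1, f2.1, f3.1]
    · linarith [f1.2, f2.2, f3.2]
  rw [Real.dist_eq]
  have e10 : Real.log ‖LFun (N k) m s‖ / L - μ = (Real.log ‖LFun (N k) m s‖ - μ * L) / L := by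
    field_simp
  rw [e10, abs_div, abs_of_pos e5, div_lt_iff₀ e5]
  refine lt_of_le_of_lt e9 ?_
  have : 0 < ε * L := mul_pos hε e5
  linarith

end

end TatePole.AT

namespace TatePole

/-- Even powers decide all twists.  Let `T = W / B` and let `R k` be representations with the
character of `(T ⊗ T^∨)^{⊗ k}`, with orders `-(a k)` at `m + 1`.  If `a 1 = 1` and the Hankel forms
of `a` are positive definite, then every order of an `L`-function of `W ⊗ V`, `V` an irreducible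
Artin representation, at a point `m + 1 + it`, that exists, is the one predicted by Tate's
formula. -/
theorem even_powers {ℓ : ℕ} [Fact ℓ.Prime] [Algebra ℚ_[ℓ] ℂ] {W : Type*} [AddCommGroup W]
    [Module ℚ_[ℓ] W] [FiniteDimensional ℚ_[ℓ] W] (ρ : Representation ℚ_[ℓ] GQ W)
    (S : Finset ℕ) (P : ℕ → ℂ[X])
    (hgood : ∀ p : ℕ, p.Prime → p ∉ S → IsPureLocalFactor ρ (algebraMap ℚ_[ℓ] ℂ) p (P p))
    (B : Submodule ℚ_[ℓ] W) (hB : CycleSpace ρ B)
    (U : ℕ → Type*) [∀ k, AddCommGroup (U k)] [∀ k, Module ℚ_[ℓ] (U k)]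
    [∀ k, FiniteDimensional ℚ_[ℓ] (U k)] (R : ∀ k, Representation ℚ_[ℓ] GQ (U k))
    (hR : ∀ k g, LinearMap.trace ℚ_[ℓ] (U k) (R k g) =
      (LinearMap.trace ℚ_[ℓ] _ (quoRep ρ B hB.stable g) *
      LinearMap.trace ℚ_[ℓ] _ (quoRep ρ B hB.stable g⁻¹)) ^ k)
    (S₂ : ℕ → Finset ℕ) (N : ℕ → ℕ → ℂ[X])
    (hN : ∀ k, ∀ p : ℕ, p.Prime → p ∉ S₂ k →
      IsPureLocalFactor (R k) (algebraMap ℚ_[ℓ] ℂ) p (N k p))
    (hbad : ∀ k, ∀ p ∈ S₂ k, p.Prime → (N k p).eval ((p : ℂ)⁻¹) ≠ 0) (m : ℕ)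
    (a : ℕ → ℤ) (ha : ∀ k, HasOrder (N k) m (-(a k))) (ha1 : a 1 = 1)
    (hpos : ∀ (n : ℕ) (b : ℕ → ℝ), b n ≠ 0 →
      ∑ i ∈ Finset.range (n + 1), ∑ l ∈ Finset.range (n + 1), b i * b l * a (i + l) ≠ 0)
    {V : Type*} [AddCommGroup V] [Module ℂ V] [FiniteDimensional ℂ V]
    (τ : Representation ℂ GQ V) (hτ : IsArtin τ) (t : ℝ) (S' : Finset ℕ) (Q : ℕ → ℂ[X])
    (hQ : TwistFactors ρ τ S' t Q) (k : ℤ) (hk : AT.HasTwistOrder Q m t k) :
    k = -(twistRank (resRep ρ B hB.stable) τ t : ℤ) := by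
  by_contra hne
  set r := twistRank (resRep ρ B hB.stable) τ t with hr
  have hz : -(k + (r : ℤ)) ≠ 0 := fun h => hne (by omega)
  have hD := AT.twistOrder_tendsto hk r
  have h1 := AT.order_tendsto (ha 1)
  rw [ha1] at h1
  have h1' : Tendsto (fun s : ℝ => Real.log ‖LFun (N 1) m s‖ / Real.log (1 / (s - (m + 1))))
      (𝓝[>] ((m : ℝ) + 1)) (𝓝 1) := by
    have : (-((-(1 : ℤ) : ℤ) : ℝ)) = 1 := by push_cast; ring
    rwa [this] at h1
  have hD' : Tendsto (fun s : ℝ => twistDefect r Q m t s /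
      Real.log (1 / (s - (m + 1)))) (𝓝[>] ((m : ℝ) + 1)) (𝓝 ((-(k + (r : ℤ)) : ℤ) : ℝ)) := by
    have : ((-(k + (r : ℤ)) : ℤ) : ℝ) = -((k : ℝ) + r) := by push_cast; ring
    rwa [this]
  obtain ⟨-, M, hMfin, hnorm, -, hmom⟩ := AT.exc_moments hgood B hB R hR S₂ N hN hbad m h1' τ hτ t
    S' Q hQ _ hz hD'
  have hfinN : Finite (GQ ⧸ M.fixingSubgroup) := finite_quot M.fixingSubgroup rfl
  have hne' : (𝓝[>] ((m : ℝ) + 1)).NeBot := inferInstance
  have hval : ∀ i, (a i : ℝ) = gavg fun γ : GQ ⧸ M.fixingSubgroup =>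
      (‖τ.character γ.out‖ ^ 2) ^ i := by
    intro i
    have h2 := AT.order_tendsto (ha i)
    have h3 := tendsto_nhds_unique h2 (hmom i)
    have h4 : (-((-(a i) : ℤ) : ℝ)) = (a i : ℝ) := by push_cast; ring
    rw [h4] at h3
    rw [h3]
    congr 1
    funext γ
    rw [pow_mul]
  obtain ⟨n, b, hb, hzero⟩ := AT.hankel_degenerate
    (fun γ : GQ ⧸ M.fixingSubgroup => ‖τ.character γ.out‖ ^ 2) (fun i => (a i : ℝ)) hval
  exact hpos n b hb hzero

end TatePole
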