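import Mathlib
import Pool.Agent.Lib.MP_058a58_ag.AT.TrickT3

open Polynomial Filter Topology NumberField Set

namespace TatePole.AT

section trig
variable (N : Subgroup GQ)

/-- class functions modulo `N` with `f(g⁻¹) = conj f(g)` -/
structure Cls (f : GQ → ℂ) : Prop where
  congr : ∀ g h : GQ, (g : GQ ⧸ N) = (h : GQ ⧸ N) → f g = f h
  conj : ∀ x g : GQ, f (x⁻¹ * g * x) = f g
  inv : ∀ g : GQ, f g⁻¹ = (starRingEnd ℂ) (f g)

variable {N}

lemma Cls.one : Cls N (fun _ => 1) := ⟨fun _ _ _ => rfl, fun _ _ => rfl, fun _ => (map_one _).symm⟩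

lemma Cls.mul {f h : GQ → ℂ} (hf : Cls N f) (hh : Cls N h) : Cls N (fun g => f g * h g) :=
  ⟨fun a b hab => by rw [hf.congr a b hab, hh.congr a b hab],
   fun x g => by rw [hf.conj, hh.conj], fun g => by rw [hf.inv, hh.inv, map_mul]⟩

lemma Cls.star {f : GQ → ℂ} (hf : Cls N f) : Cls N (fun g => (starRingEnd ℂ) (f g)) :=
  ⟨fun a b hab => by rw [hf.congr a b hab], fun x g => by rw [hf.conj],
   fun g => by rw [hf.inv]⟩

lemma Cls.real_mul {f : GQ → ℂ} (hf : Cls N f) (c : ℝ) : Cls N (fun g => (c : ℂ) * f g) :=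
  ⟨fun a b hab => by rw [hf.congr a b hab], fun x g => by rw [hf.conj],
   fun g => by rw [hf.inv, map_mul, Complex.conj_ofReal]⟩

lemma Cls.bdd [Finite (GQ ⧸ N)] {f : GQ → ℂ} (hf : Cls N f) : ∃ C : ℝ, ∀ g, ‖f g‖ ≤ C := by
  obtain ⟨C, hC⟩ := Finite.exists_le (fun γ : GQ ⧸ N => ‖f γ.out‖)
  refine ⟨C, fun g => ?_⟩
  have h := hC (g : GQ ⧸ N)
  have h2 : f (g : GQ ⧸ N).out = f g := hf.congr _ _ (QuotientGroup.out_eq' _)
  rwa [h2] at h

/-- a class function times an exponential -/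
noncomputable def mono (f : GQ → ℂ) (a : ℝ) : GQ → ℝ → ℂ :=
  fun g u => f g * Complex.exp (a * u * Complex.I)

variable (N) in
/-- the monomials -/
def monos : Submonoid (GQ → ℝ → ℂ) where
  carrier := {H | ∃ f a, Cls N f ∧ H = mono f a}
  one_mem' := ⟨fun _ => 1, 0, Cls.one, by funext g u; simp [mono]⟩
  mul_mem' := by
    rintro _ _ ⟨f, a, hf, rfl⟩ ⟨f', a', hf', rfl⟩
    refine ⟨fun g => f g * f' g, a + a', hf.mul hf', ?_⟩
    funext g u
    simp only [mono, Pi.mul_apply]
    have : Complex.exp (((a + a' : ℝ) : ℂ) * u * Complex.I) =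
        Complex.exp (a * u * Complex.I) * Complex.exp (a' * u * Complex.I) := by
      rw [← Complex.exp_add]
      congr 1
      push_cast
      ring
    rw [this]
    ring

variable (N) in
/-- the mean over `G/N × [-T, T]` -/
noncomputable def avgT (H : GQ → ℝ → ℝ) (T : ℝ) : ℝ :=
  (2 * T)⁻¹ * ∫ u in (-T)..T, gavg (fun γ : GQ ⧸ N => H γ.out u)

lemma gavg_add' {Γ : Type*} [Finite Γ] (f g : Γ → ℝ) :
    gavg (fun γ => f γ + g γ) = gavg f + gavg g := by
  have : Fintype Γ := Fintype.ofFinite _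
  unfold gavg
  rw [finsum_eq_sum_of_fintype, finsum_eq_sum_of_fintype, finsum_eq_sum_of_fintype,
    Finset.sum_add_distrib, add_div]

lemma gavg_mono' {Γ : Type*} [Finite Γ] {f g : Γ → ℝ} (h : ∀ γ, f γ ≤ g γ) :
    gavg f ≤ gavg g := by
  have : Fintype Γ := Fintype.ofFinite _
  unfold gavg
  rw [finsum_eq_sum_of_fintype, finsum_eq_sum_of_fintype]
  exact div_le_div_of_nonneg_right (Finset.sum_le_sum fun i _ => h i) (Nat.cast_nonneg _)

lemma gavg_const' {Γ : Type*} [Finite Γ] [Nonempty Γ] (c : ℝ) : gavg (fun _ : Γ => c) = c := by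
  have : Fintype Γ := Fintype.ofFinite _
  unfold gavg
  rw [finsum_eq_sum_of_fintype, Finset.sum_const, Finset.card_univ, nsmul_eq_mul,
    Nat.card_eq_fintype_card]
  have : (Fintype.card Γ : ℝ) ≠ 0 := Nat.cast_ne_zero.mpr Fintype.card_ne_zero
  field_simp

lemma continuous_gavg {Γ : Type*} [Finite Γ] {H : Γ → ℝ → ℝ} (h : ∀ γ, Continuous (H γ)) :
    Continuous (fun u => gavg (fun γ => H γ u)) := by
  have : Fintype Γ := Fintype.ofFinite _
  unfold gavg
  simp only [finsum_eq_sum_of_fintype]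
  exact (continuous_finsetSum _ fun γ _ => h γ).div_const _

/-- a function with a mean value on the primes equal to its mean value on `G/N × ℝ` -/
structure Good (N : Subgroup GQ) (σ : ℕ → GQ) (H : GQ → ℝ → ℂ) : Prop where
  cont : ∀ g, Continuous (H g)
  bdd : ∃ C : ℝ, ∀ g u, ‖H g u‖ ≤ C
  mean : ∃ M : ℝ, HasDens (fun p => (H (σ p) (-Real.log p)).re) M ∧
    Tendsto (avgT N (fun g u => (H g u).re)) atTop (𝓝 M)

lemma Good.bddP {σ : ℕ → GQ} {H : GQ → ℝ → ℂ} (h : Good N σ H) :
    BddPrimes (fun p => (H (σ p) (-Real.log p)).re) := by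
  obtain ⟨C, hC⟩ := h.bdd
  exact ⟨C, fun p _ => (Complex.abs_re_le_norm _).trans (hC _ _)⟩

variable [N.Normal] [Finite (GQ ⧸ N)]

lemma Good.add {σ : ℕ → GQ} {H H' : GQ → ℝ → ℂ} (h : Good N σ H) (h' : Good N σ H') :
    Good N σ (H + H') := by
  obtain ⟨C, hC⟩ := h.bdd
  obtain ⟨C', hC'⟩ := h'.bdd
  obtain ⟨M, hM1, hM2⟩ := h.mean
  obtain ⟨M', hM1', hM2'⟩ := h'.mean
  refine ⟨fun g => (h.cont g).add (h'.cont g), ⟨C + C', fun g u => ?_⟩, M + M', ?_, ?_⟩
  · exact (norm_add_le _ _).trans (add_le_add (hC g u) (hC' g u))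
  · have h1 := hM1.add hM1' h.bddP h'.bddP
    simpa only [Pi.add_apply, Complex.add_re] using h1
  · refine (hM2.add hM2').congr fun T => ?_
    unfold avgT
    rw [← mul_add, ← intervalIntegral.integral_add]
    · congr 1
      refine intervalIntegral.integral_congr fun u _ => ?_
      simp only [Pi.add_apply, Complex.add_re]
      rw [gavg_add']
    · exact (continuous_gavg fun γ : GQ ⧸ N =>
        Complex.continuous_re.comp (h.cont γ.out)).intervalIntegrable _ _
    · exact (continuous_gavg fun γ : GQ ⧸ N =>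
        Complex.continuous_re.comp (h'.cont γ.out)).intervalIntegrable _ _

lemma Good.smul {σ : ℕ → GQ} {H : GQ → ℝ → ℂ} (h : Good N σ H) (c : ℝ) :
    Good N σ (c • H) := by
  obtain ⟨C, hC⟩ := h.bdd
  obtain ⟨M, hM1, hM2⟩ := h.mean
  have hre : ∀ g u, ((c • H) g u).re = c * (H g u).re := by
    intro g u
    rw [Pi.smul_apply, Pi.smul_apply, Complex.real_smul, Complex.re_ofReal_mul]
  refine ⟨fun g => (h.cont g).const_smul c, ⟨|c| * C, fun g u => ?_⟩, c * M, ?_, ?_⟩
  · rw [Pi.smul_apply, Pi.smul_apply, norm_smul, Real.norm_eq_abs]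
    exact mul_le_mul_of_nonneg_left (hC g u) (abs_nonneg _)
  · simp only [hre]
    exact hM1.const_mul c
  · refine (hM2.const_mul c).congr fun T => ?_
    unfold avgT
    simp only [hre, gavg_const_mul]
    rw [intervalIntegral.integral_const_mul]
    ring

lemma Good.zero {σ : ℕ → GQ} : Good N σ (0 : GQ → ℝ → ℂ) := by
  refine ⟨fun g => continuous_const, ⟨0, fun g u => by simp⟩, 0, ?_, ?_⟩
  · intro ε hε
    filter_upwards [eventually_log_ge 0] with x h0
    have h1 : RR (fun p => ((0 : GQ → ℝ → ℂ) (σ p) (-Real.log p)).re) x = 0 := by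
      unfold RR
      simp
    rw [h1]
    simp only [zero_mul, sub_zero, abs_zero]
    exact mul_nonneg hε.le h0
  · refine tendsto_const_nhds.congr fun T => ?_
    unfold avgT
    simp only [Pi.zero_apply, Complex.zero_re]
    have h1 : (fun u : ℝ => gavg (fun _ : GQ ⧸ N => (0:ℝ))) = fun _ => 0 := by
      funext u
      exact gavg_const' 0
    simp only [gavg_const']
    simp

/-- the basic facts: densities of class functions times powers of the primes -/
def DensFacts (N : Subgroup GQ) (σ : ℕ → GQ) : Prop :=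
  (∀ F : GQ → ℂ, Cls N F → HasDens (fun p => (F (σ p)).re) (gavg fun γ : GQ ⧸ N => (F γ.out).re)) ∧
  ∀ u : ℝ, u ≠ 0 → ∀ F : GQ → ℂ, Cls N F → HasDens (fun p => (F (σ p) * vt u p).re) 0

lemma hasDens_congr {g h : ℕ → ℝ} {a : ℝ} (hg : HasDens g a)
    (hgh : ∀ p : ℕ, p.Prime → h p = g p) : HasDens h a := by
  intro ε' hε'
  filter_upwards [hg ε' hε'] with x hx
  rwa [RR_congr hgh x]

lemma exp_vt (a : ℝ) {p : ℕ} (hp : p.Prime) :
    Complex.exp (a * ((-Real.log p : ℝ) : ℂ) * Complex.I) = vt a p := by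
  unfold vt
  rw [Complex.cpow_def_of_ne_zero (by exact_mod_cast hp.ne_zero), ← Complex.natCast_log]
  congr 1
  push_cast
  ring

lemma integral_exp (c : ℂ) (a : ℝ) (ha : a ≠ 0) (T : ℝ) :
    |∫ u in (-T)..T, (c * Complex.exp (a * u * Complex.I)).re| ≤ 2 * (‖c‖ / |a|) := by
  have haI : (a : ℂ) * Complex.I ≠ 0 :=
    mul_ne_zero (Complex.ofReal_ne_zero.mpr ha) Complex.I_ne_zero
  set G : ℝ → ℂ := fun u => c * (Complex.exp (a * u * Complex.I) / (a * Complex.I)) with hG
  have hder : ∀ u ∈ uIcc (-T) T, HasDerivAt (fun u => (G u).re)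
      ((c * Complex.exp (a * u * Complex.I)).re) u := by
    intro u _
    have h1 : HasDerivAt (fun u : ℝ => (a : ℂ) * u * Complex.I) (a * 1 * Complex.I) u :=
      ((Complex.ofRealCLM.hasDerivAt (x := u)).const_mul (a : ℂ)).mul_const Complex.I
    have h2 := ((h1.cexp).div_const ((a : ℂ) * Complex.I)).const_mul c
    have h3 : c * (Complex.exp (a * u * Complex.I) * (a * 1 * Complex.I) / (a * Complex.I)) =
        c * Complex.exp (a * u * Complex.I) := by
      rw [mul_one, mul_div_assoc, div_self haI, mul_one]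
    rw [h3] at h2
    exact Complex.reCLM.hasFDerivAt.comp_hasDerivAt u h2
  rw [intervalIntegral.integral_eq_sub_of_hasDerivAt hder]
  · have hb : ∀ u : ℝ, |(G u).re| ≤ ‖c‖ / |a| := by
      intro u
      refine (Complex.abs_re_le_norm _).trans (le_of_eq ?_)
      simp only [hG]
      rw [norm_mul, norm_div, norm_mul, Complex.norm_I, mul_one, Complex.norm_real,
        Real.norm_eq_abs]
      have : ‖Complex.exp (a * u * Complex.I)‖ = 1 := by
        rw [show (a : ℂ) * u * Complex.I = ((a * u : ℝ) : ℂ) * Complex.I by push_cast; ring]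
        exact Complex.norm_exp_ofReal_mul_I _
      rw [this]
      ring
    calc |(G T).re - (G (-T)).re| ≤ |(G T).re| + |(G (-T)).re| := abs_sub _ _
      _ ≤ ‖c‖ / |a| + ‖c‖ / |a| := add_le_add (hb T) (hb (-T))
      _ = 2 * (‖c‖ / |a|) := by ring
  · refine Continuous.intervalIntegrable ?_ _ _
    fun_prop

lemma Good.mono {σ : ℕ → GQ} (hd : DensFacts N σ) {f : GQ → ℂ} (hf : Cls N f) (a : ℝ) :
    Good N σ (mono f a) := by
  obtain ⟨C, hC⟩ := hf.bdd
  have hnorm : ∀ u : ℝ, ‖Complex.exp (a * u * Complex.I)‖ = 1 := by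
    intro u
    rw [show (a : ℂ) * u * Complex.I = ((a * u : ℝ) : ℂ) * Complex.I by push_cast; ring]
    exact Complex.norm_exp_ofReal_mul_I _
  refine ⟨fun g => by unfold AT.mono; fun_prop, ⟨C, fun g u => ?_⟩, ?_⟩
  · unfold AT.mono
    rw [norm_mul, hnorm, mul_one]
    exact hC g
  by_cases ha : a = 0
  · subst ha
    refine ⟨gavg fun γ : GQ ⧸ N => (f γ.out).re, ?_, ?_⟩
    · refine hasDens_congr (hd.1 f hf) fun p hp => ?_
      simp [AT.mono]
    · refine tendsto_const_nhds.congr' ?_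
      filter_upwards [eventually_gt_atTop (0:ℝ)] with T hT
      unfold avgT AT.mono
      simp only [Complex.ofReal_zero, zero_mul, Complex.exp_zero, mul_one,
        intervalIntegral.integral_const, smul_eq_mul, sub_neg_eq_add]
      field_simp
      ring
  · refine ⟨0, ?_, ?_⟩
    · refine hasDens_congr (hd.2 a ha f hf) fun p hp => ?_
      unfold AT.mono
      rw [exp_vt a hp]
    · have hfin : Fintype (GQ ⧸ N) := Fintype.ofFinite _
      set c : ℂ := (∑ γ : GQ ⧸ N, f γ.out) / Nat.card (GQ ⧸ N) with hc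
      have h1 : ∀ u : ℝ, gavg (fun γ : GQ ⧸ N => (AT.mono f a γ.out u).re) =
          (c * Complex.exp (a * u * Complex.I)).re := by
        intro u
        unfold gavg AT.mono
        rw [finsum_eq_sum_of_fintype, hc, ← Complex.re_sum, ← Finset.sum_mul, div_mul_eq_mul_div,
          Complex.div_natCast_re]
      have h2 : ∀ T : ℝ, |avgT N (fun g u => (AT.mono f a g u).re) T| ≤
          |(2 * T)⁻¹| * (2 * (‖c‖ / |a|)) := by
        intro T
        unfold avgT
        simp only [h1]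
        rw [abs_mul]
        exact mul_le_mul_of_nonneg_left (integral_exp c a ha T) (abs_nonneg _)
      have h3 : Tendsto (fun T : ℝ => |(2 * T)⁻¹| * (2 * (‖c‖ / |a|))) atTop (𝓝 0) := by
        have h4 : Tendsto (fun T : ℝ => (2 * T)⁻¹) atTop (𝓝 0) :=
          tendsto_inv_atTop_zero.comp (tendsto_id.const_mul_atTop (by norm_num : (0:ℝ) < 2))
        have h5 := (h4.abs).mul_const (2 * (‖c‖ / |a|))
        rwa [abs_zero, zero_mul] at h5
      exact squeeze_zero_norm h2 h3

lemma Good.adjoin {σ : ℕ → GQ} (hd : DensFacts N σ) {H : GQ → ℝ → ℂ}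
    (hH : H ∈ Algebra.adjoin ℝ (monos N : Set (GQ → ℝ → ℂ))) : Good N σ H := by
  have h1 : H ∈ Submodule.span ℝ (monos N : Set (GQ → ℝ → ℂ)) := by
    have h2 : H ∈ Subalgebra.toSubmodule (Algebra.adjoin ℝ (monos N : Set (GQ → ℝ → ℂ))) := hH
    rwa [Algebra.adjoin_eq_span, Submonoid.closure_eq] at h2
  clear hH
  induction h1 using Submodule.span_induction with
  | mem x hx =>
    obtain ⟨f, a, hf, rfl⟩ := hx
    exact Good.mono hd hf a
  | zero => exact Good.zero
  | add x y _ _ hx hy => exact hx.add hy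
  | smul c x _ hx => exact hx.smul c

end trig

end TatePole.AT
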