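import Mathlib
import Pool.Agent.Lib.MP_058a58_ag.AT.Trig

open Polynomial Filter Topology NumberField Set

namespace TatePole.AT

section
variable {N : Subgroup GQ} [N.Normal] [Finite (GQ ⧸ N)]

lemma RR_one_le : ∀ᶠ x in 𝓝[>] (1:ℝ), RR (fun _ => (1:ℝ)) x ≤ 2 * Real.log (1 / (x - 1)) := by
  filter_upwards [HasMean.dens hasMean_one 1 one_pos, eventually_log_ge 0] with x hx h0
  have := (abs_le.mp hx).2
  linarith

/-- the upper bound of the prime sum of `‖F‖` by the mean of `‖F‖` -/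
theorem L1_upper {σ : ℕ → GQ} (hd : DensFacts N σ) {F : GQ → ℝ → ℂ}
    (hF : F ∈ Algebra.adjoin ℝ (monos N : Set (GQ → ℝ → ℂ)))
    (hFc : (fun g u => (starRingEnd ℂ) (F g u)) ∈
      Algebra.adjoin ℝ (monos N : Set (GQ → ℝ → ℂ)))
    (β : ℝ) (hβ : ∀ᶠ T in atTop, avgT N (fun g u => ‖F g u‖) T ≤ β) (δ : ℝ) (hδ : 0 < δ) :
    ∀ᶠ x in 𝓝[>] (1:ℝ), RR (fun p => ‖F (σ p) (-Real.log p)‖) x ≤
      (β + δ) * Real.log (1 / (x - 1)) := by
  have hGF := Good.adjoin hd hF
  obtain ⟨C, hC⟩ := hGF.bdd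
  have hC0 : 0 ≤ C := (norm_nonneg _).trans (hC 1 0)
  obtain ⟨q, hq⟩ := exists_polynomial_near_of_continuousOn 0 (C ^ 2) Real.sqrt
    Real.continuous_sqrt.continuousOn (δ / 4) (by positivity)
  set Fc : GQ → ℝ → ℂ := fun g u => (starRingEnd ℂ) (F g u) with hFcdef
  set H : GQ → ℝ → ℂ := Polynomial.aeval (F * Fc) q with hH
  have hHmem : H ∈ Algebra.adjoin ℝ (monos N : Set (GQ → ℝ → ℂ)) := by
    have h1 : H ∈ Algebra.adjoin ℝ {F * Fc} := Polynomial.aeval_mem_adjoin_singleton ℝ (F * Fc)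
    refine Algebra.adjoin_le ?_ h1
    intro y hy
    rw [Set.mem_singleton_iff] at hy
    rw [hy]
    exact mul_mem hF hFc
  have hHval : ∀ g u, H g u = ((q.eval (‖F g u‖ ^ 2) : ℝ) : ℂ) := by
    intro g u
    have h1 := Polynomial.aeval_algHom_apply
      ((Pi.evalAlgHom ℝ (fun _ : ℝ => ℂ) u).comp (Pi.evalAlgHom ℝ (fun _ : GQ => ℝ → ℂ) g))
      (F * Fc) q
    have h2 : H g u = ((Pi.evalAlgHom ℝ (fun _ : ℝ => ℂ) u).comp
      (Pi.evalAlgHom ℝ (fun _ : GQ => ℝ → ℂ) g)) (Polynomial.aeval (F * Fc) q) := rfl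
    rw [h2, ← h1]
    have h3 : ((Pi.evalAlgHom ℝ (fun _ : ℝ => ℂ) u).comp
      (Pi.evalAlgHom ℝ (fun _ : GQ => ℝ → ℂ) g)) (F * Fc) = algebraMap ℝ ℂ (‖F g u‖ ^ 2) := by
      show F g u * (starRingEnd ℂ) (F g u) = ((‖F g u‖ ^ 2 : ℝ) : ℂ)
      rw [Complex.mul_conj, Complex.normSq_eq_norm_sq]
    rw [h3, Polynomial.aeval_algebraMap_apply_eq_algebraMap_eval]
    rfl
  have hnear : ∀ g u, |(H g u).re - ‖F g u‖| < δ / 4 := by
    intro g u
    have h1 := hq (‖F g u‖ ^ 2) ⟨by positivity, pow_le_pow_left₀ (norm_nonneg _) (hC g u) 2⟩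
    rwa [Real.sqrt_sq (norm_nonneg _), ← Complex.ofReal_re (q.eval (‖F g u‖ ^ 2)), ← hHval] at h1
  have hGH := Good.adjoin hd hHmem
  obtain ⟨M, hM1, hM2⟩ := hGH.mean
  have hMβ : M ≤ β + δ / 4 := by
    refine le_of_tendsto hM2 ?_
    filter_upwards [eventually_gt_atTop (0:ℝ), hβ] with T hT hTβ
    refine le_trans ?_ (add_le_add hTβ le_rfl)
    unfold avgT
    have h1 : ∫ u in (-T)..T, gavg (fun γ : GQ ⧸ N => (H γ.out u).re) ≤
        ∫ u in (-T)..T, (gavg (fun γ : GQ ⧸ N => ‖F γ.out u‖) + δ / 4) := by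
      refine intervalIntegral.integral_mono_on (by linarith) ?_ ?_ ?_
      · exact (continuous_gavg fun γ : GQ ⧸ N =>
          Complex.continuous_re.comp (hGH.cont γ.out)).intervalIntegrable _ _
      · exact ((continuous_gavg fun γ : GQ ⧸ N =>
          (hGF.cont γ.out).norm).add continuous_const).intervalIntegrable _ _
      · intro u _
        have h2 : gavg (fun γ : GQ ⧸ N => ‖F γ.out u‖) + δ / 4 =
            gavg (fun γ : GQ ⧸ N => ‖F γ.out u‖ + δ / 4) := by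
          rw [gavg_add', gavg_const']
        rw [h2]
        exact gavg_mono' fun γ => by linarith [(abs_lt.mp (hnear γ.out u)).2]
    rw [intervalIntegral.integral_add, intervalIntegral.integral_const, smul_eq_mul] at h1
    · have h3 : 0 < (2 * T)⁻¹ := by positivity
      have h4 := mul_le_mul_of_nonneg_left h1 h3.le
      rw [mul_add] at h4
      have h5 : (2 * T)⁻¹ * ((T - -T) * (δ / 4)) = δ / 4 := by
        field_simp
        ring
      rwa [h5] at h4
    · exact (continuous_gavg fun γ : GQ ⧸ N => (hGF.cont γ.out).norm).intervalIntegrable _ _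
    · exact continuous_const.intervalIntegrable _ _
  filter_upwards [hM1 (δ / 4) (by positivity), RR_one_le, eventually_log_ge 0,
    self_mem_nhdsWithin] with x h1 h2 h3 hx
  have hx1 : 1 < x := hx
  set L := Real.log (1 / (x - 1)) with hL
  have hb1 : BddPrimes (fun p => ‖F (σ p) (-Real.log p)‖) :=
    ⟨C, fun p _ => by rw [abs_of_nonneg (norm_nonneg _)]; exact hC _ _⟩
  have hb2 : BddPrimes (fun p => (H (σ p) (-Real.log p)).re) := hGH.bddP
  obtain ⟨C2, hC2⟩ := hb2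
  have hb3 : BddPrimes (fun p => (H (σ p) (-Real.log p)).re + δ / 4 * 1) :=
    ⟨C2 + |δ / 4 * 1|, fun p hp => (abs_add_le _ _).trans (add_le_add (hC2 p hp) le_rfl)⟩
  have h4 := RR_mono hb1 hb3 (fun p _ => by
    have := (abs_lt.mp (hnear (σ p) (-Real.log p))).1
    linarith) hx1
  have h5 : RR (fun p => (H (σ p) (-Real.log p)).re + δ / 4 * 1) x =
      RR (fun p => (H (σ p) (-Real.log p)).re) x + δ / 4 * RR (fun _ => 1) x := by
    rw [RR_add (C := C2) (D := |δ / 4 * 1|) hC2 (fun p _ => le_rfl) hx1, RR_const_mul]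
  rw [h5] at h4
  have h6 := (abs_le.mp h1).2
  have h7 : δ / 4 * RR (fun _ => (1:ℝ)) x ≤ δ / 4 * (2 * L) :=
    mul_le_mul_of_nonneg_left h2 (by positivity)
  have h8 : M * L ≤ (β + δ / 4) * L := mul_le_mul_of_nonneg_right hMβ h3
  linarith

/-- average over a finite quotient -/
lemma gavg_surj {A Γ : Type*} [Group A] [Group Γ] [Finite A] [Finite Γ] (φ : A →* Γ)
    (hφ : Function.Surjective φ) (h : Γ → ℝ) : gavg (fun a => h (φ a)) = gavg h := by
  have : Fintype A := Fintype.ofFinite _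
  have : Fintype Γ := Fintype.ofFinite _
  unfold gavg
  rw [finsum_eq_sum_of_fintype, finsum_eq_sum_of_fintype, Nat.card_eq_fintype_card,
    Nat.card_eq_fintype_card, div_eq_div_iff (Nat.cast_ne_zero.mpr Fintype.card_ne_zero)
    (Nat.cast_ne_zero.mpr Fintype.card_ne_zero)]
  have h1 : ∑ y : Γ, ∑ x : A, h (y * φ x) = (Fintype.card A : ℝ) * ∑ y, h y := by
    rw [Finset.sum_comm]
    have : ∀ x ∈ (Finset.univ : Finset A), ∑ y : Γ, h (y * φ x) = ∑ y, h y := fun x _ =>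
      Equiv.sum_comp (Equiv.mulRight (φ x)) h
    rw [Finset.sum_congr rfl this, Finset.sum_const, Finset.card_univ, nsmul_eq_mul]
  have h2 : ∑ y : Γ, ∑ x : A, h (y * φ x) = (Fintype.card Γ : ℝ) * ∑ x, h (φ x) := by
    have : ∀ y ∈ (Finset.univ : Finset Γ), ∑ x : A, h (y * φ x) = ∑ x, h (φ x) := by
      intro y _
      obtain ⟨a, rfl⟩ := hφ y
      have := Equiv.sum_comp (Equiv.mulLeft a) (fun x => h (φ x))
      simpa only [Equiv.coe_mulLeft, map_mul] using this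
    rw [Finset.sum_congr rfl this, Finset.sum_const, Finset.card_univ, nsmul_eq_mul]
  rw [mul_comm, ← h2, h1, mul_comm]

end

end TatePole.AT
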