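import Mathlib
import Pool.Agent.Lib.MP_058a58_ag.AT.FinalT
import Pool.Agent.Lib.MP_058a58_ag.AT.Trig2

open Polynomial Filter Topology NumberField Set
open scoped TensorProduct

namespace TatePole.AT

/-- the two means agree -/
lemma avgT_eq (N : Subgroup GQ) [N.Normal] [Finite (GQ ⧸ N)] {Γ : Type*} [Group Γ] [Fintype Γ]
    (π : GQ →* Γ) (hπ : Function.Surjective π) (hN : ∀ g ∈ N, π g = 1)
    {J : Type*} [Fintype J] {V : J → Type*} [∀ i, AddCommGroup (V i)] [∀ i, Module ℂ (V i)]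
    (κ : ∀ i, Representation ℂ Γ (V i)) (t c : J → ℝ) (T : ℝ) :
    avgT N (fun g u => ‖∑ i, c i * (inflate π (κ i)).character
      g⁻¹ * Complex.exp (t i * u * Complex.I)‖) T = meanAbs κ t c T := by
  set φ : GQ ⧸ N →* Γ := QuotientGroup.lift N π hN with hφ
  have hφs : Function.Surjective φ := by
    intro y
    obtain ⟨g, rfl⟩ := hπ y
    exact ⟨(g : GQ ⧸ N), rfl⟩
  have h1 : ∀ u : ℝ, gavg (fun γ : GQ ⧸ N => ‖∑ i, c i *
      (inflate π (κ i)).character γ.out⁻¹ *
      Complex.exp (t i * u * Complex.I)‖) =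
      (∑ γ, ‖∑ i, c i * (κ i).character γ * Complex.exp (t i * u * Complex.I)‖) /
        Fintype.card Γ := by
    intro u
    have e1 : (fun γ : GQ ⧸ N => ‖∑ i, c i *
        (inflate π (κ i)).character γ.out⁻¹ *
        Complex.exp (t i * u * Complex.I)‖) = fun γ => (fun y : Γ => ‖∑ i, c i *
        (κ i).character y⁻¹ * Complex.exp (t i * u * Complex.I)‖) (φ γ) := by
      funext γ
      have e2 : φ γ = π γ.out := by
        conv_lhs => rw [← QuotientGroup.out_eq' γ]
        rfl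
      have e3 : ∀ i, (inflate π (κ i)).character γ.out⁻¹ =
          (κ i).character (φ γ)⁻¹ := by
        intro i
        rw [e2, ← map_inv]
        rfl
      simp only [e3]
    rw [e1, gavg_surj φ hφs (fun y : Γ => ‖∑ i, c i *
        (κ i).character y⁻¹ * Complex.exp (t i * u * Complex.I)‖)]
    unfold gavg
    rw [finsum_eq_sum_of_fintype, Nat.card_eq_fintype_card,
      ← Equiv.sum_comp (Equiv.inv Γ) (fun γ => ‖∑ i, c i * (κ i).character γ *
        Complex.exp (t i * u * Complex.I)‖)]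
    rfl
  unfold avgT meanAbs
  simp only [h1]
  rw [intervalIntegral.integral_div, intervalIntegral.integral_finsetSum]
  · have : (Fintype.card Γ : ℝ) ≠ 0 := Nat.cast_ne_zero.mpr Fintype.card_ne_zero
    rw [mul_inv]
    ring
  · intro γ _
    refine Continuous.intervalIntegrable ?_ _ _
    fun_prop

section
variable {ℓ : ℕ} [Fact ℓ.Prime] {W : Type*} [AddCommGroup W] [Module ℚ_[ℓ] W]
  [FiniteDimensional ℚ_[ℓ] W] [Algebra ℚ_[ℓ] ℂ]

theorem artin_L1 {ρ : Representation ℚ_[ℓ] GQ W} {S : Finset ℕ} {P : ℕ → ℂ[X]}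
    (hgood : ∀ p : ℕ, p.Prime → p ∉ S → IsPureLocalFactor ρ (algebraMap ℚ_[ℓ] ℂ) p (P p))
    (B : Submodule ℚ_[ℓ] W) (hB : CycleSpace ρ B)
    {Γ : Type*} [Group Γ] [Fintype Γ] (π : GQ →* Γ) (hπ : Function.Surjective π)
    (F0 : Finset QBar) (hF0 : ∀ g : GQ, (∀ x ∈ F0, g x = x) → π g = 1)
    {J : Type*} [Fintype J] {V : J → Type*} [∀ i, AddCommGroup (V i)]
    [∀ i, Module ℂ (V i)] [∀ i, FiniteDimensional ℂ (V i)]
    (κ : ∀ i, Representation ℂ Γ (V i)) (t : J → ℝ)
    (S' : J → Finset ℕ) (Q : J → ℕ → ℂ[X])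
    (hQ : ∀ i, TwistFactors ρ (inflate π (κ i)) (S' i) (t i) (Q i))
    (m : ℕ) (c : J → ℝ) (β : ℝ) (hβ : ∀ᶠ T in atTop, meanAbs κ t c T ≤ β)
    (ε : ℝ) (hε : 0 < ε) :
    ∀ᶠ s : ℝ in 𝓝[>] ((m : ℝ) + 1),
      |∑ i, c i * twistDefect (twistRank (resRep ρ B hB.stable) (inflate π (κ i)) (t i)) (Q i) m
        (t i) s| ≤
      (((Module.finrank ℚ_[ℓ] W : ℝ) - Module.finrank ℚ_[ℓ] B) * β + ε) *
        Real.log (1 / (s - (m + 1))) := by
  classical
  obtain ⟨σ, hσ⟩ := exists_frobSys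
  obtain ⟨q, hq⟩ := exists_q B hB.stable hB.rational
  obtain ⟨FB, hFB⟩ := hB.fixed
  set τ : ∀ i, Representation ℂ GQ (V i) := fun i => inflate π (κ i) with hτdef
  have hτF : ∀ i, ∀ g : GQ, (∀ x ∈ F0, g x = x) → τ i g = 1 := fun i g hg => by
    show κ i (π g) = 1
    rw [hF0 g hg, map_one]
  set F : Finset QBar := FB ∪ (F0 ∪ {zt 4}) with hF
  obtain ⟨M, hMfin, hnorm, hMF⟩ := exists_bigN F
  set N := M.fixingSubgroup with hN
  have hfinN : Finite (GQ ⧸ N) := finite_quot N hN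
  obtain ⟨j, cj, hcj⟩ := exists_conj
  have hcN : cj ∉ N := fun h => conj_not_fix j cj hcj (hMF cj h (zt 4) (by
    rw [hF]
    exact Finset.mem_union_right _ (Finset.mem_union_right _ (Finset.mem_singleton_self _))))
  have hπN : ∀ g ∈ N, π g = 1 := fun g hg => hF0 g fun x hx => hMF g hg x (by
    rw [hF]
    exact Finset.mem_union_right _ (Finset.mem_union_left _ hx))
  have hτN : ∀ i, ∀ g ∈ N, τ i g = 1 := fun i g hg => by
    show κ i (π g) = 1
    rw [hπN g hg, map_one]
  have hBN : ∀ g ∈ N, resRep ρ B hB.stable g = 1 := by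
    intro g hg
    ext w
    rw [resRep_apply]
    refine hFB g (fun x hx => hMF g hg x ?_) w w.2
    rw [hF]
    exact Finset.mem_union_left _ hx
  set D := (Module.finrank ℚ_[ℓ] W : ℝ) - Module.finrank ℚ_[ℓ] B with hD
  have hD0 : 0 ≤ D := by
    rw [hD, sub_nonneg]
    exact_mod_cast Submodule.finrank_le B
  set A := defA ρ (algebraMap ℚ_[ℓ] ℂ) S q σ with hA
  have hAb : ∀ p : ℕ, p.Prime → ‖A p‖ ≤ D :=
    norm_defA_le (ρ := ρ) (ι := algebraMap ℚ_[ℓ] ℂ) hgood B hB.stable q hq hσ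
  set r : J → ℕ := fun i => Module.finrank ℂ (twistRep (resRep ρ B hB.stable) (τ i)).invariants
    with hr
  -- characters
  set χ : J → GQ → ℂ := fun i g => (τ i).character g with hχ
  have hχinv : ∀ i g, χ i g⁻¹ = (starRingEnd ℂ) (χ i g) := by
    intro i g
    obtain ⟨n, hn, hg⟩ := exists_order N hN (τ i) (hτN i) g
    exact char_inv_conj (τ i) g n hn hg
  have hχcongr : ∀ i {g h : GQ}, (g : GQ ⧸ N) = (h : GQ ⧸ N) → χ i g = χ i h := by
    intro i g h hgh
    show LinearMap.trace _ _ (τ i g) = LinearMap.trace _ _ (τ i h)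
    rw [char_congr N (τ i) (hτN i) hgh]
  have hχout : ∀ i (g : GQ), χ i (g : GQ ⧸ N).out = χ i g := fun i g =>
    hχcongr i (QuotientGroup.out_eq' _)
  have hχconj : ∀ i (x g : GQ), χ i (x⁻¹ * g * x) = χ i g := by
    intro i x g
    have h1 := Representation.char_conj (τ i) g x⁻¹
    rwa [inv_inv] at h1
  have hqcongr : ∀ {g h : GQ}, (g : GQ ⧸ N) = (h : GQ ⧸ N) → q g = q h := by
    intro g h hgh
    have h1 := hq g
    have h2 := hq h
    rw [char_congr N (resRep ρ B hB.stable) hBN hgh, h2] at h1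
    exact_mod_cast h1.symm
  have hqout : ∀ g : GQ, q (g : GQ ⧸ N).out = q g := fun g =>
    hqcongr (QuotientGroup.out_eq' _)
  have hqconj : ∀ (x g : GQ), q (x⁻¹ * g * x) = q g := by
    intro x g
    have h1 := Representation.char_conj (resRep ρ B hB.stable) g x⁻¹
    rw [inv_inv] at h1
    unfold Representation.character at h1
    rw [hq, hq] at h1
    exact_mod_cast h1
  have hqinv : ∀ g : GQ, q g⁻¹ = q g := by
    intro g
    obtain ⟨n, hn, hg⟩ := exists_order N hN (resRep ρ B hB.stable) hBN g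
    have h1 : resRep ρ B hB.stable g⁻¹ = (resRep ρ B hB.stable g) ^ (n - 1) := by
      have h2 : resRep ρ B hB.stable g⁻¹ * resRep ρ B hB.stable g = 1 := by
        rw [← map_mul, inv_mul_cancel, map_one]
      calc resRep ρ B hB.stable g⁻¹ =
            resRep ρ B hB.stable g⁻¹ * (resRep ρ B hB.stable g) ^ n := by rw [hg, mul_one]
        _ = resRep ρ B hB.stable g⁻¹ * (resRep ρ B hB.stable g *
            (resRep ρ B hB.stable g) ^ (n - 1)) := by
            rw [← pow_succ', Nat.sub_add_cancel hn]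
        _ = (resRep ρ B hB.stable g) ^ (n - 1) := by rw [← mul_assoc, h2, one_mul]
    have hcop : Nat.Coprime (n - 1) n := by
      have h3 : Nat.Coprime (n - 1) (n - 1 + 1) := by
        rw [Nat.coprime_self_add_right]
        exact Nat.coprime_one_right _
      rwa [Nat.sub_add_cancel hn] at h3
    have h3 := trace_pow_of_rational (resRep ρ B hB.stable g) n hn hg (q g) (hq g) (n - 1) hcop
    rw [← h1, hq] at h3
    exact_mod_cast h3
  -- bounds
  have hχb : ∀ i, ∃ C : ℝ, 0 ≤ C ∧ ∀ g, ‖χ i g‖ ≤ C := by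
    intro i
    obtain ⟨C, hC⟩ := Finite.exists_le (fun γ : GQ ⧸ N => ‖χ i γ.out‖)
    refine ⟨C, (norm_nonneg _).trans (hC 1), fun g => ?_⟩
    have := hC (g : GQ ⧸ N)
    rwa [hχout] at this
  choose Cχ hCχ0 hCχ using hχb
  obtain ⟨Cq, hCq⟩ := q_bdd ρ B hB.stable M (fun g hg w hw => by
    have h1 := congrArg (fun f : B →ₗ[ℚ_[ℓ]] B => ((f ⟨w, hw⟩ : B) : W)) (hBN g hg)
    exact h1) q hq
  have hCq0 : 0 ≤ Cq := (abs_nonneg _).trans (hCq 1)
  -- the twisted characters
  have hvt : ∀ u : ℝ, ∀ p : ℕ, p.Prime → ‖vt u p‖ ≤ 1 := fun u p hp => norm_vt u p hp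
  set Z : J → ℕ → ℂ := fun i p => χ i (σ p)⁻¹ * vt (t i) p with hZ
  have hZb : ∀ i, ∀ p : ℕ, p.Prime → ‖Z i p‖ ≤ Cχ i := by
    intro i p hp
    simp only [hZ]
    rw [norm_mul]
    calc _ ≤ Cχ i * 1 := mul_le_mul (hCχ i _) (hvt _ p hp) (norm_nonneg _) (hCχ0 i)
      _ = Cχ i := mul_one _
  set R : J → ℝ → ℝ := fun i x => RR (fun p => (A p * Z i p).re) x with hR
  have hAχ : ∀ i, ∀ p : ℕ, p.Prime → |(A p * Z i p).re| ≤ D * Cχ i := by
    intro i p hp
    refine (Complex.abs_re_le_norm _).trans ?_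
    rw [norm_mul]
    exact mul_le_mul (hAb p hp) (hZb i p hp) (norm_nonneg _) hD0
  -- class functions
  have hcls : ∀ (f : GQ ⧸ N → ℂ) (F : GQ → ℂ), (∀ g : GQ, f (g : GQ ⧸ N) = F g) →
      (∀ x g : GQ, F (x⁻¹ * g * x) = F g) → ∀ x g, f (x⁻¹ * g * x) = f g := by
    intro f F hfF hF x g
    obtain ⟨x', rfl⟩ := QuotientGroup.mk_surjective x
    obtain ⟨g', rfl⟩ := QuotientGroup.mk_surjective g
    rw [← QuotientGroup.mk_inv, ← QuotientGroup.mk_mul, ← QuotientGroup.mk_mul, hfF, hfF, hF]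
  have hinvc : ∀ (f : GQ ⧸ N → ℂ) (F : GQ → ℂ), (∀ g : GQ, f (g : GQ ⧸ N) = F g) →
      (∀ g : GQ, F g⁻¹ = (starRingEnd ℂ) (F g)) → ∀ g, f g⁻¹ = (starRingEnd ℂ) (f g) := by
    intro f F hfF hF g
    obtain ⟨g', rfl⟩ := QuotientGroup.mk_surjective g
    rw [← QuotientGroup.mk_inv, hfF, hfF, hF]
  have hbig : BigPrimes N := exists_prime_surj N hN
  -- a general density: symmetric case
  have hcheb : ∀ (f : GQ ⧸ N → ℂ) (F : GQ → ℂ), (∀ g : GQ, f (g : GQ ⧸ N) = F g) →
      (∀ x g : GQ, F (x⁻¹ * g * x) = F g) → (∀ g : GQ, F g⁻¹ = (starRingEnd ℂ) (F g)) →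
      HasDens (fun p => (F (σ p)).re) (gavg fun γ => (f γ).re) := by
    intro f F hfF hF1 hF2
    have h1 := chebotarev_symm N hN hbig j cj hcj hcN (fun γ => (f γ).re)
      (fun x g => by rw [hcls f F hfF hF1 x g]) (fun g => by
        rw [hinvc f F hfF hF2 g, Complex.conj_re]) hσ
    have h2 : (fun p => (f (σ p : GQ ⧸ N)).re) = fun p => (F (σ p)).re := by
      funext p
      rw [hfF]
    rw [h2] at h1
    exact h1
  have hosc : ∀ (u : ℝ) (hu : u ≠ 0) (f : GQ ⧸ N → ℂ) (F : GQ → ℂ),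
      (∀ g : GQ, f (g : GQ ⧸ N) = F g) →
      (∀ x g : GQ, F (x⁻¹ * g * x) = F g) → (∀ g : GQ, F g⁻¹ = (starRingEnd ℂ) (F g)) →
      HasDens (fun p => (F (σ p) * vt u p).re) 0 := by
    intro u hu f F hfF hF1 hF2
    have h1 := dens_class_t hσ (osc_vt hσ u hu) N hN j cj hcj hcN f
      (hcls f F hfF hF1) (hinvc f F hfF hF2)
    have h2 : (fun p => (f (σ p : GQ ⧸ N) * vt u p).re) = fun p => (F (σ p) * vt u p).re := by
      funext p
      rw [hfF]
    rw [h2] at h1
    exact h1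
  have hcongr : ∀ {g h : ℕ → ℝ} {a : ℝ}, HasDens g a → (∀ p : ℕ, p.Prime → h p = g p) →
      HasDens h a := by
    intro g h a hg hgh ε' hε'
    filter_upwards [hg ε' hε'] with x hx
    rwa [RR_congr hgh x]
  -- density of the algebraic part
  have hdens : ∀ i, HasDens (fun p => ((q (σ p)⁻¹ : ℝ) : ℂ) * Z i p |>.re)
      (if t i = 0 then (r i : ℝ) else 0) := by
    intro i
    set F : GQ → ℂ := fun g => ((q g : ℝ) : ℂ) * χ i g⁻¹ with hF
    set f : GQ ⧸ N → ℂ := fun γ => F γ.out with hf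
    have hFcongr : ∀ {g h : GQ}, (g : GQ ⧸ N) = (h : GQ ⧸ N) → F g = F h := by
      intro g h hgh
      simp only [hF]
      rw [hqcongr hgh, hχinv, hχinv, hχcongr i hgh]
    have hfF : ∀ g : GQ, f (g : GQ ⧸ N) = F g := fun g => hFcongr (QuotientGroup.out_eq' _)
    have hF1 : ∀ x g : GQ, F (x⁻¹ * g * x) = F g := by
      intro x g
      simp only [hF]
      rw [hqconj, hχinv, hχinv, hχconj]
    have hF2 : ∀ g : GQ, F g⁻¹ = (starRingEnd ℂ) (F g) := by
      intro g
      simp only [hF]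
      rw [hqinv, map_mul, Complex.conj_ofReal, inv_inv, hχinv, Complex.conj_conj]
    have hFp : ∀ p : ℕ, ((q (σ p)⁻¹ : ℝ) : ℂ) * Z i p = F (σ p) * vt (t i) p := by
      intro p
      simp only [hF, hZ]
      rw [hqinv]
      ring
    by_cases hti : t i = 0
    · rw [if_pos hti]
      have h1 := hcheb f F hfF hF1 hF2
      have h2 : (gavg fun γ => (f γ).re) = r i := by
        have h3 := gavg_rank N (resRep ρ B hB.stable) hBN q hq (τ i) (hτN i)
        have h4 : (fun γ : GQ ⧸ N => (f γ).re) =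
            fun γ : GQ ⧸ N => (q γ.out : ℝ) * ((τ i).character γ.out).re := by
          funext γ
          simp only [hf, hF]
          rw [Complex.re_ofReal_mul, hχinv, Complex.conj_re]
        rw [h4]
        exact h3
      rw [h2] at h1
      refine hcongr h1 fun p hp => ?_
      rw [hFp, hti, vt_zero hp, mul_one]
    · rw [if_neg hti]
      refine hcongr (hosc (t i) hti f F hfF hF1 hF2) fun p hp => ?_
      rw [hFp]
  -- comparison of the logarithm with `R`
  set K : ℝ := ∑ i, |c i| with hK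
  have hK0 : 0 ≤ K := Finset.sum_nonneg fun i _ => abs_nonneg _
  set δ : ℝ := ε / (D + K + 1) with hδ
  have hδ0 : 0 < δ := by positivity
  have hcmp : ∀ i, ∀ᶠ s : ℝ in 𝓝[>] ((m : ℝ) + 1),
      |(Real.log ‖LFun (Q i) m ((s : ℂ) + t i * Complex.I)‖ -
        (if t i = 0 then (r i : ℝ) else 0) * Real.log (1 / (s - (m + 1)))) - R i (s - m)| ≤
        δ * Real.log (1 / (s - (m + 1))) := by
    intro i
    obtain ⟨C1, hC1⟩ := twist_log_bound_t hgood F0 (hτF i) (hQ i).1 m (t i)
      (fun p hp => by rw [vt_mul_inv (t i) hp]; exact (hQ i).2 p hp) hσ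
    set g1 : ℕ → ℝ := fun p => (algebraMap ℚ_[ℓ] ℂ (LinearMap.trace ℚ_[ℓ] W (ρ (σ p)⁻¹)) *
        (τ i).character (σ p)⁻¹ * vt (t i) p).re with hg1
    set g2 : ℕ → ℝ := fun p => (A p * Z i p).re + (((q (σ p)⁻¹ : ℝ) : ℂ) * Z i p).re
      with hg2
    have hg12 : ∀ p : ℕ, p.Prime → p ∉ S → g1 p = g2 p := by
      intro p hp hpS
      simp only [hg1, hg2, hA, defA, hZ]
      rw [if_neg hpS]
      have h1 : ((q (σ p)⁻¹ : ℚ) : ℂ) = (((q (σ p)⁻¹ : ℚ) : ℝ) : ℂ) := by push_cast; rfl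
      rw [← Complex.add_re, h1]
      congr 1
      simp only [hχ]
      ring
    have hb2' : ∀ p : ℕ, p.Prime → |(((q (σ p)⁻¹ : ℝ) : ℂ) * Z i p).re| ≤ Cq * Cχ i := by
      intro p hp
      refine (Complex.abs_re_le_norm _).trans ?_
      rw [norm_mul, Complex.norm_real, Real.norm_eq_abs]
      exact mul_le_mul (hCq _) (hZb i p hp) (norm_nonneg _) hCq0
    have hb2 : BddPrimes g2 := by
      refine ⟨D * Cχ i + Cq * Cχ i, fun p hp => ?_⟩
      exact (abs_add_le _ _).trans (add_le_add (hAχ i p hp) (hb2' p hp))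
    have hb1 : BddPrimes g1 := by
      obtain ⟨C, hC⟩ := hb2
      refine bdd_of_outside S C fun p hp hpS => ?_
      rw [hg12 p hp hpS]
      exact hC p hp
    obtain ⟨C2, hC2⟩ := RR_near S hg12 hb1 hb2
    have hd := hdens i (δ / 2) (by positivity)
    have hshift : Tendsto (fun s : ℝ => s - m) (𝓝[>] ((m : ℝ) + 1)) (𝓝[>] (1 : ℝ)) :=
      (tendsto_shift m (fun x : ℝ => x)).mpr tendsto_id
    filter_upwards [hC1, hshift.eventually hd, hshift.eventually self_mem_nhdsWithin,
      hshift.eventually (eventually_log_ge (2 * (C1 + C2) / δ))] with s h1 h2 h3 h4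
    have h5 : s - m - 1 = s - (m + 1) := by ring
    rw [h5] at h2 h4
    set L := Real.log (1 / (s - (m + 1))) with hL
    have h3' : 1 < s - m := h3
    have h6 := hC2 (s - m) h3'
    have h7 : RR g2 (s - m) = R i (s - m) +
        RR (fun p => (((q (σ p)⁻¹ : ℝ) : ℂ) * Z i p).re) (s - m) :=
      RR_add (hAχ i) hb2' h3'
    rw [h7] at h6
    have h8 : C1 + C2 ≤ δ / 2 * L := by
      rw [div_le_iff₀ hδ0] at h4
      linarith
    have h9 := abs_le.mp h1
    have h10 := abs_le.mp h6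
    have h11 := abs_le.mp h2
    rw [abs_le]
    constructor
    · linarith [h9.1, h10.1, h11.1]
    · linarith [h9.2, h10.2, h11.2]

  -- density facts
  have hfacts : DensFacts N σ := by
    constructor
    · intro F hF
      have hfF : ∀ g : GQ, F (g : GQ ⧸ N).out = F g := fun g =>
        hF.congr _ _ (QuotientGroup.out_eq' _)
      exact hcheb (fun γ => F γ.out) F hfF hF.conj hF.inv
    · intro u hu F hF
      have hfF : ∀ g : GQ, F (g : GQ ⧸ N).out = F g := fun g =>
        hF.congr _ _ (QuotientGroup.out_eq' _)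
      exact hosc u hu (fun γ => F γ.out) F hfF hF.conj hF.inv
  -- the function
  set Ff : GQ → ℝ → ℂ := fun g u => ∑ i, c i * (χ i g⁻¹ * Complex.exp (t i * u * Complex.I))
    with hFf
  have hcl : ∀ i, Cls N (fun g => χ i g⁻¹) := fun i =>
    ⟨fun g h hgh => by rw [hχinv, hχinv, hχcongr i hgh], fun x g => by
      rw [hχinv, hχinv, hχconj], fun g => by rw [inv_inv, hχinv, Complex.conj_conj]⟩
  have hFmem : Ff ∈ Algebra.adjoin ℝ (monos N : Set (GQ → ℝ → ℂ)) := by
    have h1 : Ff = ∑ i, c i • mono (fun g => χ i g⁻¹) (t i) := by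
      funext g u
      rw [Finset.sum_apply, Finset.sum_apply]
      simp only [hFf]
      refine Finset.sum_congr rfl fun i _ => ?_
      rw [Pi.smul_apply, Pi.smul_apply, Complex.real_smul]
      rfl
    rw [h1]
    exact Subalgebra.sum_mem _ fun i _ => Subalgebra.smul_mem _
      (Algebra.subset_adjoin (show mono (fun g => χ i g⁻¹) (t i) ∈ monos N from
        ⟨_, _, hcl i, rfl⟩)) _
  have hFcmem : (fun g u => (starRingEnd ℂ) (Ff g u)) ∈
      Algebra.adjoin ℝ (monos N : Set (GQ → ℝ → ℂ)) := by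
    have h1 : (fun g u => (starRingEnd ℂ) (Ff g u)) =
        ∑ i, c i • mono (fun g => (starRingEnd ℂ) (χ i g⁻¹)) (-t i) := by
      funext g u
      rw [Finset.sum_apply, Finset.sum_apply]
      simp only [hFf]
      rw [map_sum]
      refine Finset.sum_congr rfl fun i _ => ?_
      rw [Pi.smul_apply, Pi.smul_apply, Complex.real_smul, map_mul, Complex.conj_ofReal, map_mul,
        ← Complex.exp_conj]
      unfold mono
      congr 3
      rw [map_mul, map_mul, Complex.conj_ofReal, Complex.conj_ofReal, Complex.conj_I]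
      push_cast
      ring
    rw [h1]
    exact Subalgebra.sum_mem _ fun i _ => Subalgebra.smul_mem _
      (Algebra.subset_adjoin (show mono (fun g => (starRingEnd ℂ) (χ i g⁻¹)) (-t i) ∈ monos N from
        ⟨_, _, (hcl i).star, rfl⟩)) _
  have hFval : ∀ p : ℕ, p.Prime → Ff (σ p) (-Real.log p) = ∑ i, c i * Z i p := by
    intro p hp
    simp only [hFf, hZ]
    refine Finset.sum_congr rfl fun i _ => ?_
    rw [exp_vt (t i) hp]
  -- the mean
  have hmean : ∀ᶠ T in atTop, avgT N (fun g u => ‖Ff g u‖) T ≤ β := by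
    filter_upwards [hβ] with T hT
    rw [← avgT_eq N π hπ hπN κ t c T] at hT
    simpa only [hFf, mul_assoc, hχ, hτdef] using hT
  have hup := L1_upper hfacts hFmem hFcmem β hmean δ hδ0
  have hshift : Tendsto (fun s : ℝ => s - m) (𝓝[>] ((m : ℝ) + 1)) (𝓝[>] (1 : ℝ)) :=
    (tendsto_shift m (fun x : ℝ => x)).mpr tendsto_id
  filter_upwards [Filter.eventually_all.mpr hcmp, hshift.eventually hup,
    hshift.eventually (eventually_log_ge 0), hshift.eventually self_mem_nhdsWithin]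
    with s h1 h2 h3 h4
  have h5 : s - m - 1 = s - (m + 1) := by ring
  rw [h5] at h2 h3
  have h4' : 1 < s - m := h4
  set L := Real.log (1 / (s - (m + 1))) with hL
  have hdef : ∀ i, twistDefect (twistRank (resRep ρ B hB.stable) (τ i) (t i)) (Q i) m (t i) s
      = Real.log ‖LFun (Q i) m ((s : ℂ) + t i * Complex.I)‖ -
      (if t i = 0 then (r i : ℝ) else 0) * L := by
    intro i
    unfold twistDefect twistRank
    rw [← hL]
    by_cases hti : t i = 0
    · rw [if_pos hti, if_pos hti]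
    · rw [if_neg hti, if_neg hti, Nat.cast_zero]
  set E : J → ℝ := fun i => (Real.log ‖LFun (Q i) m ((s : ℂ) + t i * Complex.I)‖ -
    (if t i = 0 then (r i : ℝ) else 0) * L) - R i (s - m) with hE
  have hsum : ∑ i, c i * twistDefect (twistRank (resRep ρ B hB.stable) (inflate π (κ i)) (t i)) (Q i) m
      (t i) s = ∑ i, c i * R i (s - m) + ∑ i, c i * E i := by
    rw [← Finset.sum_add_distrib]
    refine Finset.sum_congr rfl fun i _ => ?_
    have := hdef i
    simp only [hτdef] at this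
    rw [this]
    simp only [hE]
    ring
  have hEb : |∑ i, c i * E i| ≤ K * (δ * L) := by
    refine (Finset.abs_sum_le_sum_abs _ _).trans ?_
    rw [hK, Finset.sum_mul]
    refine Finset.sum_le_sum fun i _ => ?_
    rw [abs_mul]
    exact mul_le_mul_of_nonneg_left (h1 i) (abs_nonneg _)
  have hRb : |∑ i, c i * R i (s - m)| ≤ D * ((β + δ) * L) := by
    have e1 : ∑ i, c i * R i (s - m) = RR (fun p => (A p * ∑ i, c i * Z i p).re) (s - m) := by
      have e2 : ∀ i ∈ (Finset.univ : Finset J), c i * R i (s - m) =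
          RR (fun p => c i * (A p * Z i p).re) (s - m) := fun i _ => by
        rw [RR_const_mul]
      rw [Finset.sum_congr rfl e2, ← RR_finset_sum Finset.univ
        (fun i p => c i * (A p * Z i p).re) (fun i => |c i| * (D * Cχ i))
        (fun i _ p hp => by
          rw [abs_mul]
          exact mul_le_mul_of_nonneg_left (hAχ i p hp) (abs_nonneg _)) h4']
      refine RR_congr (fun p _ => ?_) _
      rw [Finset.mul_sum, Complex.re_sum]
      refine Finset.sum_congr rfl fun i _ => ?_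
      rw [← Complex.re_ofReal_mul]
      congr 1
      ring
    obtain ⟨CF, hCF⟩ := (Good.adjoin hfacts hFmem).bdd
    have hb1 : ∀ p : ℕ, p.Prime → |(A p * ∑ i, c i * Z i p).re| ≤
        D * ‖Ff (σ p) (-Real.log p)‖ := by
      intro p hp
      refine (Complex.abs_re_le_norm _).trans ?_
      rw [norm_mul, hFval p hp]
      exact mul_le_mul_of_nonneg_right (hAb p hp) (norm_nonneg _)
    have hbF : BddPrimes (fun p => D * ‖Ff (σ p) (-Real.log p)‖) :=
      ⟨D * CF, fun p _ => by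
        rw [abs_of_nonneg (mul_nonneg hD0 (norm_nonneg _))]
        exact mul_le_mul_of_nonneg_left (hCF _ _) hD0⟩
    have hbF' : BddPrimes (fun p => -1 * (D * ‖Ff (σ p) (-Real.log p)‖)) := hbF.const_mul _
    have hbA : BddPrimes (fun p => (A p * ∑ i, c i * Z i p).re) :=
      ⟨D * CF, fun p hp => (hb1 p hp).trans (mul_le_mul_of_nonneg_left (hCF _ _) hD0)⟩
    have e3 : RR (fun p => D * ‖Ff (σ p) (-Real.log p)‖) (s - m) ≤ D * ((β + δ) * L) := by
      rw [RR_const_mul]
      exact mul_le_mul_of_nonneg_left h2 hD0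
    rw [e1, abs_le]
    constructor
    · have e4 := RR_mono hbF' hbA (fun p hp => by
        have := (abs_le.mp (hb1 p hp)).1
        linarith) h4'
      rw [RR_const_mul] at e4
      linarith
    · exact (RR_mono hbA hbF (fun p hp => (abs_le.mp (hb1 p hp)).2) h4').trans e3
  rw [hsum]
  refine (abs_add_le _ _).trans ?_
  have h9 : δ * (D + K + 1) = ε := by rw [hδ]; field_simp
  have h10 : D * δ + K * δ ≤ ε := by nlinarith
  have h11 : (D * δ + K * δ) * L ≤ ε * L := mul_le_mul_of_nonneg_right h10 h3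
  calc |∑ i, c i * R i (s - m)| + |∑ i, c i * E i| ≤ D * ((β + δ) * L) + K * (δ * L) :=
        add_le_add hRb hEb
    _ = D * β * L + (D * δ + K * δ) * L := by ring
    _ ≤ D * β * L + ε * L := by linarith
    _ = (D * β + ε) * L := by ring

end

end TatePole.AT
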