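import Mathlib
import Pool.Agent.Lib.MP_058a58_ag.AT.LatT3

/-!
# The weighted norm multiplied by an infinity type: cancellation lemma with a Lipschitz rate
-/

namespace Pool.Agent.MP_058a58_ag.Ch

open Finset NumberField NumberField.mixedEmbedding NumberField.Units NumberField.InfinitePlace
  NumberField.Units.dirichletUnitTheorem Module Filter Topology Asymptotics
open scoped Classical

/-- an infinity type: bounded, Lipschitz away from the coordinate hyperplanes, multiplicative -/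
structure OmegaOK (K : Type*) [Field K] [NumberField K] (om : mixedSpace K → ℂ) : Prop where
  nrm : ∀ x, ‖om x‖ ≤ 1
  lip : ∃ C : ℝ, 0 ≤ C ∧ ∀ (x h : mixedSpace K) (a : ℝ), 0 < a →
    (∀ w : InfinitePlace K, a ≤ normAtPlace w x) → 2 * ‖h‖ ≤ a →
    ‖om (x + h) - om x‖ ≤ C * ‖h‖ / a
  mul : ∀ x y : 𝓞 K, x ≠ 0 → y ≠ 0 → om (io K (x * y)) = om (io K x) * om (io K y)

variable (K : Type*) [Field K] [NumberField K]

lemma norm_HD_le {s : ℝ} (hs : 1 ≤ s) {x : mixedSpace K} (h1 : 1 ≤ mixedEmbedding.norm x) :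
    ‖HD K 0 s x‖ ≤ (mixedEmbedding.norm x) ^ (-1 : ℝ)
      * ((s - 1) * Real.log (mixedEmbedding.norm x)) := by
  have hℓ0 : 0 ≤ Real.log (mixedEmbedding.norm x) := Real.log_nonneg h1
  have hexp : Real.exp (-Real.log (mixedEmbedding.norm x)) = (mixedEmbedding.norm x) ^ (-1 : ℝ) := by
    rw [Real.rpow_def_of_pos (by linarith)]
    congr 1
    ring
  unfold HD
  rw [norm_mul, Complex.norm_real, Real.norm_of_nonneg (wt_nonneg K x), ← hexp]
  calc wt K x * _ ≤ 1 * (Real.exp (-Real.log (mixedEmbedding.norm x))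
        * ((s - 1) * Real.log (mixedEmbedding.norm x))) :=
        mul_le_mul (wt_le_one K x) (norm_phi_le hs hℓ0) (norm_nonneg _) zero_le_one
    _ = _ := one_mul _

lemma alg_aux {C hh A X Nm lN σ n P Q : ℝ} (hC : 0 ≤ C) (hhh : 0 ≤ hh) (hA : 0 < A) (hX : 0 < X)
    (hσ : 0 ≤ σ) (_hN : 0 ≤ Nm) (hP : 0 ≤ P) (hb : Nm ≤ P * X ^ (-n)) (hlN : 0 ≤ lN)
    (hl : lN ≤ Q * X ^ (1 / 2 : ℝ)) :
    (C * hh / (A * X)) * (Nm * (σ * lN)) ≤ (C / A * P * Q) * σ * hh * X ^ (-(n + 1 / 2)) := by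
  have hxn : 0 ≤ X ^ (-n) := Real.rpow_nonneg hX.le _
  calc (C * hh / (A * X)) * (Nm * (σ * lN))
      ≤ (C * hh / (A * X)) * ((P * X ^ (-n)) * (σ * (Q * X ^ (1 / 2 : ℝ)))) := by
        apply mul_le_mul_of_nonneg_left _ (by positivity)
        exact mul_le_mul hb (mul_le_mul_of_nonneg_left hl hσ) (by positivity) (by positivity)
    _ = (C / A * P * Q) * σ * hh * (X ^ (-n) * X⁻¹ * X ^ (1 / 2 : ℝ)) := by
        field_simp
    _ = _ := by
        congr 1
        rw [← Real.rpow_neg_one X, ← Real.rpow_add hX, ← Real.rpow_add hX]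
        congr 1
        ring

/-- **second differences with an infinity type** -/
theorem exists_HW {om : mixedSpace K → ℂ} (hom : OmegaOK K om) : ∃ C R : ℝ, 0 ≤ C ∧ 0 ≤ R ∧
    ∀ (h x : mixedSpace K) (s : ℝ), 1 ≤ s → s ≤ 2 → R * (1 + ‖h‖) ≤ ‖x‖ →
    ‖om (x + h) * HD K 0 s (x + h) - om x * HD K 0 s x‖
      ≤ C * (s - 1) * ‖h‖ * ‖x‖ ^ (-((finrank ℚ K : ℝ) + 1 / 2)) := by
  obtain ⟨C1, R1, hC1, hR1, H⟩ := exists_HD K 0
  obtain ⟨C2, hC2, hlip⟩ := hom.lip
  obtain ⟨A, hA, hA1, hsup⟩ := exists_support_bound K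
  have hn0 : (0 : ℝ) ≤ finrank ℚ K := Nat.cast_nonneg _
  have hA2 : 0 ≤ A ^ (-((finrank ℚ K : ℝ) * 2)) := Real.rpow_nonneg hA.le _
  refine ⟨C1 + C2 / A * A ^ (-((finrank ℚ K : ℝ) * 2)) * (1 + 2 * (finrank ℚ K : ℝ)),
    R1 + 2 / A, by positivity, by positivity, ?_⟩
  intro h x s hs hs2 hx
  have hh : 0 ≤ ‖h‖ := norm_nonneg h
  have hs0 : 0 ≤ s - 1 := by linarith
  have hA' : 0 < 2 / A := by positivity
  have hx1' : R1 * (1 + ‖h‖) ≤ ‖x‖ := by nlinarith
  have hx2' : 2 / A * (1 + ‖h‖) ≤ ‖x‖ := by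
    have : 0 ≤ R1 * (1 + ‖h‖) := by positivity
    nlinarith
  have h1 := H h x s hs hs2 hx1'
  have e : om (x + h) * HD K 0 s (x + h) - om x * HD K 0 s x
      = om (x + h) * (HD K 0 s (x + h) - HD K 0 s x) + (om (x + h) - om x) * HD K 0 s x := by
    ring
  rw [e]
  refine (norm_add_le _ _).trans ?_
  rw [norm_mul, norm_mul]
  have t1 : ‖om (x + h)‖ * ‖HD K 0 s (x + h) - HD K 0 s x‖
      ≤ C1 * (s - 1) * ‖h‖ * ‖x‖ ^ (-((finrank ℚ K : ℝ) + 1 / 2)) :=
    (mul_le_of_le_one_left (norm_nonneg _) (hom.nrm _)).trans h1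
  have t2 : ‖om (x + h) - om x‖ * ‖HD K 0 s x‖
      ≤ (C2 / A * A ^ (-((finrank ℚ K : ℝ) * 2)) * (1 + 2 * (finrank ℚ K : ℝ)))
        * (s - 1) * ‖h‖ * ‖x‖ ^ (-((finrank ℚ K : ℝ) + 1 / 2)) := by
    have hx0 : 0 ≤ ‖x‖ := norm_nonneg x
    by_cases hw : wt K x = 0
    · rw [HD_of_wt K hw, norm_zero, mul_zero]
      have : 0 ≤ ‖x‖ ^ (-((finrank ℚ K : ℝ) + 1 / 2)) := Real.rpow_nonneg hx0 _
      positivity
    · obtain ⟨g1, g2, g3⟩ := hsup x hw
      have hAx : 2 * (1 + ‖h‖) ≤ A * ‖x‖ := by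
        have : 2 / A * (1 + ‖h‖) * A ≤ ‖x‖ * A := mul_le_mul_of_nonneg_right hx2' hA.le
        have e2 : 2 / A * (1 + ‖h‖) * A = 2 * (1 + ‖h‖) := by field_simp
        linarith [mul_comm ‖x‖ A]
      have hN1 : 1 ≤ mixedEmbedding.norm x := le_trans (one_le_pow₀ (by linarith)) g3
      have hx1 : 1 ≤ ‖x‖ := by nlinarith
      have k1 := hlip x h (A * ‖x‖) (by positivity) g2 (by linarith)
      have k2 := norm_HD_le K hs hN1
      have hb := norm_rpow_le' K hA hA1 g1 g3 (by norm_num : (0 : ℝ) ≤ 1) (by norm_num)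
      rw [mul_one] at hb
      have hl := one_add_log_le K hx1 hN1
      have hlog0 : 0 ≤ Real.log (mixedEmbedding.norm x) := Real.log_nonneg hN1
      have hN0 : 0 ≤ (mixedEmbedding.norm x) ^ (-1 : ℝ) :=
        Real.rpow_nonneg (mixedEmbedding.norm_nonneg _) _
      have hxn : 0 ≤ ‖x‖ ^ (-(finrank ℚ K : ℝ)) := Real.rpow_nonneg hx0 _
      have hxh : 0 ≤ ‖x‖ ^ (1 / 2 : ℝ) := Real.rpow_nonneg hx0 _
      exact (mul_le_mul k1 k2 (norm_nonneg _) (div_nonneg (mul_nonneg hC2 hh)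
        (mul_nonneg hA.le hx0))).trans (alg_aux hC2 hh hA g1 hs0 hN0 hA2 hb hlog0 (by linarith))
  refine (add_le_add t1 t2).trans (le_of_eq ?_)
  ring

/-- the weighted norm with an infinity type on the ring of integers -/
noncomputable def Hw (om : mixedSpace K → ℂ) (s : ℝ) (x : 𝓞 K) : ℂ :=
  om (io K x) * (Fs K (ww K) s x : ℂ)

lemma Fs_sub (s : ℝ) (x : 𝓞 K) : ((Fs K (ww K) s x : ℝ) : ℂ) - ((Fs K (ww K) 1 x : ℝ) : ℂ)
    = HD K 0 s (io K x) / (torsionOrder K : ℂ) := by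
  rw [← Ht_sub]
  unfold Ht
  simp

lemma Hw_sub (om : mixedSpace K → ℂ) (s : ℝ) (x : 𝓞 K) : Hw K om s x - Hw K om 1 x
    = om (io K x) * HD K 0 s (io K x) / (torsionOrder K : ℂ) := by
  unfold Hw
  rw [← mul_sub, Fs_sub, mul_div_assoc]

variable {K}

lemma norm_Hw_le {om : mixedSpace K → ℂ} (hom : OmegaOK K om) (s : ℝ) (x : 𝓞 K) :
    ‖Hw K om s x‖ ≤ Fs K (ww K) s x := by
  unfold Hw
  rw [norm_mul, Complex.norm_real, Real.norm_of_nonneg (Fs_nonneg K s x)]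
  exact mul_le_of_le_one_left (Fs_nonneg K s x) (hom.nrm _)

lemma norm_Hw_sub_le {om : mixedSpace K → ℂ} (hom : OmegaOK K om) {s : ℝ} (hs : 1 ≤ s)
    (x : 𝓞 K) : ‖Hw K om s x - Hw K om 1 x‖ ≤ s - 1 := by
  unfold Hw
  rw [← mul_sub, norm_mul]
  refine (mul_le_of_le_one_left (norm_nonneg _) (hom.nrm _)).trans ?_
  have h := norm_Ht_sub_le K 0 hs x
  unfold Ht at h
  simpa using h

/-- second differences on the ring of integers: a summable bound -/
lemma exists_bound_w {om : mixedSpace K → ℂ} (hom : OmegaOK K om) (γ : 𝓞 K) :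
    ∃ B : 𝓞 K → ℝ, Summable B ∧ ∀ (s : ℝ), 1 ≤ s → s ≤ 2 →
    ∀ x, ‖(Hw K om s (x + γ) - Hw K om s x) - (Hw K om 1 (x + γ) - Hw K om 1 x)‖
      ≤ (s - 1) * B x := by
  obtain ⟨C, R, hC, hR, H⟩ := exists_HW K hom
  set n : ℝ := (finrank ℚ K : ℝ) with hn
  have hn0 : (0 : ℝ) < n := Nat.cast_pos.mpr finrank_pos
  set R' : ℝ := R * (1 + ‖io K γ‖) + 1 with hR'
  have hR'0 : 0 < R' := by positivity
  have hsum : Summable (fun x : 𝓞 K => ‖io K x‖ ^ (-(n + 1 / 2))) :=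
    summable_io K (by linarith : (finrank ℚ K : ℝ) < n + 1 / 2)
  refine ⟨fun x => (2 * R' ^ (n + 1 / 2) + C * ‖io K γ‖) * ‖io K x‖ ^ (-(n + 1 / 2))
    + if x = 0 then 2 else 0, ?_, ?_⟩
  · refine (hsum.mul_left _).add ?_
    exact summable_of_hasFiniteSupport ((Set.finite_singleton (0 : 𝓞 K)).subset (by
      intro x hx
      rw [Function.mem_support] at hx
      by_contra hc
      exact hx (if_neg hc)))
  · intro s hs hs2 x
    have hs0 : 0 ≤ s - 1 := by linarith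
    have hle2 : ‖(Hw K om s (x + γ) - Hw K om s x) - (Hw K om 1 (x + γ) - Hw K om 1 x)‖
        ≤ (s - 1) * 2 := by
      have e : (Hw K om s (x + γ) - Hw K om s x) - (Hw K om 1 (x + γ) - Hw K om 1 x)
          = (Hw K om s (x + γ) - Hw K om 1 (x + γ)) - (Hw K om s x - Hw K om 1 x) := by ring
      rw [e]
      refine (norm_sub_le _ _).trans ?_
      have a1 := norm_Hw_sub_le hom hs (x + γ)
      have a2 := norm_Hw_sub_le hom hs x
      linarith
    have hpos : 0 ≤ ‖io K x‖ ^ (-(n + 1 / 2)) := Real.rpow_nonneg (norm_nonneg _) _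
    have hγ : 0 ≤ C * ‖io K γ‖ := by positivity
    have hRp : 0 ≤ R' ^ (n + 1 / 2) := Real.rpow_nonneg hR'0.le _
    refine le_trans ?_ (mul_le_mul_of_nonneg_left
      (b := (2 * R' ^ (n + 1 / 2) + C * ‖io K γ‖) * ‖io K x‖ ^ (-(n + 1 / 2))
        + if x = 0 then 2 else 0) le_rfl hs0)
    by_cases hx : x = 0
    · rw [if_pos hx]
      refine hle2.trans (mul_le_mul_of_nonneg_left ?_ hs0)
      have : 0 ≤ (2 * R' ^ (n + 1 / 2) + C * ‖io K γ‖) * ‖io K x‖ ^ (-(n + 1 / 2)) := by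
        positivity
      linarith
    · rw [if_neg hx, add_zero]
      have hxpos : 0 < ‖io K x‖ := by
        rw [norm_pos_iff]
        intro h0
        apply hx
        apply io_injective K
        rw [h0]
        unfold io
        simp
      by_cases hlt : R' ≤ ‖io K x‖
      · have h1 := H (io K γ) (io K x) s hs hs2 (by linarith)
        have e : (Hw K om s (x + γ) - Hw K om s x) - (Hw K om 1 (x + γ) - Hw K om 1 x)
            = (om (io K x + io K γ) * HD K 0 s (io K x + io K γ)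
              - om (io K x) * HD K 0 s (io K x)) / (torsionOrder K : ℂ) := by
          rw [sub_div, ← io_add, ← Hw_sub, ← Hw_sub]
          ring
        rw [e, norm_div, Complex.norm_natCast]
        refine (div_le_self (norm_nonneg _) (one_le_torsionOrder K)).trans (h1.trans ?_)
        have h2 : 0 ≤ (s - 1) * (2 * R' ^ (n + 1 / 2) * ‖io K x‖ ^ (-(n + 1 / 2))) := by
          positivity
        nlinarith
      · push Not at hlt
        refine hle2.trans (mul_le_mul_of_nonneg_left ?_ hs0)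
        have h1 : 1 ≤ R' ^ (n + 1 / 2) * ‖io K x‖ ^ (-(n + 1 / 2)) := by
          rw [Real.rpow_neg hxpos.le, ← div_eq_mul_inv, ← Real.div_rpow hR'0.le hxpos.le]
          apply Real.one_le_rpow _ (by linarith)
          rw [one_le_div hxpos]
          exact hlt.le
        have h2 : 0 ≤ C * ‖io K γ‖ * ‖io K x‖ ^ (-(n + 1 / 2)) := by positivity
        rw [add_mul]
        linarith

lemma summable_gHw {om : mixedSpace K → ℂ} (hom : OmegaOK K om) {g : 𝓞 K → ℂ} {M : ℝ}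
    (hg : ∀ x, ‖g x‖ ≤ M) {s : ℝ} (hs : 1 < s) :
    Summable (fun x : 𝓞 K => g x * Hw K om s x) := by
  refine Summable.of_norm_bounded ((Fs_summable K hs).mul_left M) fun x => ?_
  rw [norm_mul]
  exact mul_le_mul (hg x) (norm_Hw_le hom s x) (norm_nonneg _) ((norm_nonneg _).trans (hg x))

/-- **the cancellation lemma with an infinity type and a Lipschitz rate** -/
theorem can_omega {om : mixedSpace K → ℂ} (hom : OmegaOK K om) (g : 𝓞 K → ℂ) (M : ℝ)
    (hg : ∀ x, ‖g x‖ ≤ M) (J : Type*) [Fintype J] [Nonempty J] (γ : J → 𝓞 K)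
    (h0 : ∀ b : 𝓞 K, ∑ j, g (b + γ j) = 0) :
    ∃ (l : ℂ) (C : ℝ), ∀ s : ℝ, 1 < s → s ≤ 2 →
      ‖∑' x : 𝓞 K, g x * Hw K om s x - l‖ ≤ C * (s - 1) := by
  choose B hB hB2 using fun j => exists_bound_w hom (γ j)
  have hM : 0 ≤ M := (norm_nonneg _).trans (hg 0)
  let D : ℝ → 𝓞 K → ℂ := fun s x => ∑ j, g (x + γ j) * (Hw K om s (x + γ j) - Hw K om s x)
  have hN0 : (Fintype.card J : ℂ) ≠ 0 := Nat.cast_ne_zero.mpr Fintype.card_ne_zero
  have hshift : ∀ s, 1 < s → ∀ j, Summable (fun x : 𝓞 K => g (x + γ j) * Hw K om s (x + γ j)) :=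
    fun s hs j => (Equiv.addRight (γ j)).summable_iff.mpr (summable_gHw hom hg hs)
  have e1 : ∀ s x, D s x = ∑ j, g (x + γ j) * Hw K om s (x + γ j) := by
    intro s x
    have : ∑ j, g (x + γ j) * Hw K om s x = 0 := by
      rw [← Finset.sum_mul, h0 x, zero_mul]
    simp only [D]
    rw [← sub_eq_zero, ← Finset.sum_sub_distrib, ← neg_eq_zero, ← this, ← Finset.sum_neg_distrib]
    refine Finset.sum_congr rfl fun j _ => ?_
    ring
  have hDsum : ∀ s, 1 < s → Summable (D s) := by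
    intro s hs
    refine (summable_sum (f := fun j x => g (x + γ j) * Hw K om s (x + γ j))
      (s := Finset.univ) fun j _ => hshift s hs j).congr fun x => ?_
    rw [e1]
  have hDtot : ∀ s, 1 < s → ∑' x, D s x
      = (Fintype.card J : ℂ) * ∑' x : 𝓞 K, g x * Hw K om s x := by
    intro s hs
    have hshift2 : ∀ j, ∑' x : 𝓞 K, g (x + γ j) * Hw K om s (x + γ j)
        = ∑' x : 𝓞 K, g x * Hw K om s x :=
      fun j => (Equiv.addRight (γ j)).tsum_eq (fun x : 𝓞 K => g x * Hw K om s x)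
    rw [tsum_congr (e1 s), Summable.tsum_finsetSum (fun j _ => hshift s hs j),
      Finset.sum_congr rfl (fun j _ => hshift2 j), Finset.sum_const, Finset.card_univ,
      nsmul_eq_mul]
  have hdiff : ∀ s, 1 ≤ s → s ≤ 2 → ∀ x, ‖D s x - D 1 x‖ ≤ (s - 1) * ∑ j, M * B j x := by
    intro s hs hs2 x
    simp only [D]
    rw [← Finset.sum_sub_distrib, Finset.mul_sum]
    refine (norm_sum_le _ _).trans (Finset.sum_le_sum fun j _ => ?_)
    rw [← mul_sub, norm_mul]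
    calc _ ≤ M * ((s - 1) * B j x) :=
          mul_le_mul (hg _) (hB2 j s hs hs2 x) (norm_nonneg _) hM
      _ = _ := by ring
  have hBs : Summable (fun x => ∑ j, M * B j x) := summable_sum fun j _ => (hB j).mul_left M
  have hdsum : ∀ s, 1 ≤ s → s ≤ 2 → Summable (fun x => D s x - D 1 x) := fun s hs hs2 =>
    Summable.of_norm_bounded (hBs.mul_left (s - 1)) (hdiff s hs hs2)
  have hD1 : Summable (D 1) := by
    have h := (hDsum 2 (by norm_num)).sub (hdsum 2 (by norm_num) le_rfl)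
    refine h.congr fun x => ?_
    ring
  refine ⟨(Fintype.card J : ℂ)⁻¹ * ∑' x, D 1 x,
    ‖(Fintype.card J : ℂ)⁻¹‖ * ∑' x, ∑ j, M * B j x, ?_⟩
  intro s hs hs2
  have e2 : ∑' x : 𝓞 K, g x * Hw K om s x - (Fintype.card J : ℂ)⁻¹ * ∑' x, D 1 x
      = (Fintype.card J : ℂ)⁻¹ * ∑' x, (D s x - D 1 x) := by
    rw [(hDsum s hs).tsum_sub hD1, hDtot s hs, mul_sub, ← mul_assoc, inv_mul_cancel₀ hN0, one_mul]
  rw [e2, norm_mul, mul_assoc]
  apply mul_le_mul_of_nonneg_left _ (norm_nonneg _)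
  have h5 := norm_tsum_le_tsum_norm (hdsum s hs.le hs2).norm
  refine h5.trans ?_
  rw [mul_comm, ← tsum_mul_left]
  exact (hdsum s hs.le hs2).norm.tsum_le_tsum (hdiff s hs.le hs2) (hBs.mul_left (s - 1))

end Pool.Agent.MP_058a58_ag.Ch
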