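import Mathlib
import Pool.Agent.Lib.MP_058a58_ag.AT.LatW

/-!
# Periodic functions times an infinity type: finite limit with a Lipschitz rate
-/

namespace Pool.Agent.MP_058a58_ag.Ch

open Finset NumberField NumberField.mixedEmbedding NumberField.Units NumberField.InfinitePlace
  NumberField.Units.dirichletUnitTheorem Module Filter Topology Asymptotics
open scoped Classical

variable {K : Type*} [Field K] [NumberField K]

omit [NumberField K] in
lemma abs_norm_mul (κ x : 𝓞 K) : |(Algebra.norm ℤ (κ * x) : ℝ)|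
    = |(Algebra.norm ℤ κ : ℝ)| * |(Algebra.norm ℤ x : ℝ)| := by
  rw [map_mul, Int.cast_mul, abs_mul]

lemma abs_norm_unit_mul (e : (𝓞 K)ˣ) (x : 𝓞 K) : |(Algebra.norm ℤ ((e : 𝓞 K) * x) : ℝ)|
    = |(Algebra.norm ℤ x : ℝ)| := by
  have h : IsUnit (Algebra.norm ℤ (e : 𝓞 K)) := e.isUnit.map _
  have h1 : |(Algebra.norm ℤ (e : 𝓞 K) : ℝ)| = 1 := by
    rcases Int.isUnit_iff.mp h with h | h <;> rw [h] <;> simp
  rw [abs_norm_mul, h1, one_mul]

/-- the weight may be replaced by its translate -/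
theorem translate_weight {f : 𝓞 K → ℂ} {M : ℝ} (hf : ∀ x, ‖f x‖ ≤ M)
    (hunit : ∀ (e : (𝓞 K)ˣ) (x : 𝓞 K), f ((e : 𝓞 K) * x) = f x) {κ : 𝓞 K} (hκ : κ ≠ 0) {s : ℝ}
    (hs : 1 < s) :
    ∑' x : 𝓞 K, f x * ((ww K (κ * x) * |(Algebra.norm ℤ x : ℝ)| ^ (-s) : ℝ) : ℂ)
      = ∑' x : 𝓞 K, f x * ((ww K x * |(Algebra.norm ℤ x : ℝ)| ^ (-s) : ℝ) : ℂ) := by
  have hM : 0 ≤ M := (norm_nonneg _).trans (hf 0)
  set N : 𝓞 K → ℝ := fun x => |(Algebra.norm ℤ x : ℝ)| ^ (-s) with hN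
  have hN0 : ∀ x, 0 ≤ N x := fun x => Real.rpow_nonneg (abs_nonneg _) _
  have hNu : ∀ (e : (𝓞 K)ˣ) (x : 𝓞 K), N ((e : 𝓞 K) * x) = N x := fun e x => by
    simp only [hN]
    rw [abs_norm_unit_mul]
  have hκ1 := one_le_abs_norm K hκ
  -- summability of the translated weight
  have hs1 : Summable fun x : 𝓞 K => ww K (κ * x) * N x := by
    have h1 := (Fs_summable K hs).comp_injective
      (i := fun x : 𝓞 K => κ * x) (fun x y h => mul_left_cancel₀ hκ h)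
    refine (h1.mul_left (|(Algebra.norm ℤ κ : ℝ)| ^ s)).congr fun x => ?_
    simp only [Function.comp_apply, Fs, hN]
    rw [abs_norm_mul, Real.mul_rpow (abs_nonneg _) (abs_nonneg _), Real.rpow_neg (abs_nonneg _)]
    have : |(Algebra.norm ℤ κ : ℝ)| ^ s ≠ 0 := (Real.rpow_pos_of_pos (by linarith) s).ne'
    field_simp
  set F : 𝓞 K × (𝓞 K)ˣ → ℂ := fun p =>
    f p.1 * ((ww K (κ * p.1) * N p.1 : ℝ) : ℂ) * ((ww K ((p.2 : 𝓞 K) * p.1) : ℝ) : ℂ) with hF
  have hrow : ∀ x : 𝓞 K, HasSum (fun e : (𝓞 K)ˣ => F (x, e))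
      (f x * ((ww K (κ * x) * N x : ℝ) : ℂ)) := by
    intro x
    by_cases hx : x = 0
    · subst hx
      simp only [hF, mul_zero, ww_zero, zero_mul, Complex.ofReal_zero]
      exact hasSum_zero
    · have h1 := (Complex.hasSum_ofReal.mpr (hasSum_ww K hx)).mul_left
        (f x * ((ww K (κ * x) * N x : ℝ) : ℂ))
      rw [Complex.ofReal_one, mul_one] at h1
      exact h1
  have hnorm : ∀ x : 𝓞 K, HasSum (fun e : (𝓞 K)ˣ => ‖F (x, e)‖)
      (‖f x‖ * (ww K (κ * x) * N x)) := by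
    intro x
    by_cases hx : x = 0
    · subst hx
      simp only [hF, mul_zero, ww_zero, zero_mul, Complex.ofReal_zero, norm_zero]
      exact hasSum_zero
    · have h1 := (hasSum_ww K hx).mul_left (‖f x‖ * (ww K (κ * x) * N x))
      rw [mul_one] at h1
      refine h1.congr_fun fun e => ?_
      simp only [hF]
      rw [norm_mul, norm_mul, Complex.norm_real, Complex.norm_real,
        Real.norm_of_nonneg (mul_nonneg (ww_nonneg K _) (hN0 x)),
        Real.norm_of_nonneg (ww_nonneg K _)]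
  have hFsum : Summable F := by
    refine Summable.of_norm ?_
    refine (summable_prod_of_nonneg fun _ => norm_nonneg _).mpr
      ⟨fun x => (hnorm x).summable, ?_⟩
    have h1 : (fun x : 𝓞 K => ∑' e : (𝓞 K)ˣ, ‖F (x, e)‖)
        = fun x => ‖f x‖ * (ww K (κ * x) * N x) := funext fun x => (hnorm x).tsum_eq
    rw [h1]
    refine Summable.of_nonneg_of_le
      (fun x => mul_nonneg (norm_nonneg _) (mul_nonneg (ww_nonneg K _) (hN0 x)))
      (fun x => mul_le_mul_of_nonneg_right (hf x) (mul_nonneg (ww_nonneg K _) (hN0 x)))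
      (hs1.mul_left M)
  -- the change of variables
  let e : 𝓞 K × (𝓞 K)ˣ ≃ 𝓞 K × (𝓞 K)ˣ :=
    { toFun := fun p => (((p.2⁻¹ : (𝓞 K)ˣ) : 𝓞 K) * p.1, p.2)
      invFun := fun p => ((p.2 : 𝓞 K) * p.1, p.2)
      left_inv := fun p => by
        refine Prod.ext ?_ rfl
        show (p.2 : 𝓞 K) * (((p.2⁻¹ : (𝓞 K)ˣ) : 𝓞 K) * p.1) = p.1
        rw [← mul_assoc, Units.mul_inv, one_mul]
      right_inv := fun p => by
        refine Prod.ext ?_ rfl
        show ((p.2⁻¹ : (𝓞 K)ˣ) : 𝓞 K) * ((p.2 : 𝓞 K) * p.1) = p.1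
        rw [← mul_assoc, Units.inv_mul, one_mul] }
  have he : ∀ (x : 𝓞 K) (η : (𝓞 K)ˣ), F (e (x, η))
      = f x * ((ww K x * N x : ℝ) : ℂ) * ((ww K (((η⁻¹ : (𝓞 K)ˣ) : 𝓞 K) * (κ * x)) : ℝ) : ℂ) := by
    intro x η
    show f (((η⁻¹ : (𝓞 K)ˣ) : 𝓞 K) * x) * ((ww K (κ * (((η⁻¹ : (𝓞 K)ˣ) : 𝓞 K) * x))
      * N (((η⁻¹ : (𝓞 K)ˣ) : 𝓞 K) * x) : ℝ) : ℂ)
      * ((ww K ((η : 𝓞 K) * (((η⁻¹ : (𝓞 K)ˣ) : 𝓞 K) * x)) : ℝ) : ℂ) = _
    rw [hunit, hNu, ← mul_assoc (η : 𝓞 K), Units.mul_inv, one_mul,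
      mul_left_comm κ (((η⁻¹ : (𝓞 K)ˣ) : 𝓞 K)) x]
    push_cast
    ring
  have hrow2 : ∀ x : 𝓞 K, ∑' η : (𝓞 K)ˣ, F (e (x, η)) = f x * ((ww K x * N x : ℝ) : ℂ) := by
    intro x
    simp only [he]
    by_cases hx : x = 0
    · subst hx
      simp only [ww_zero, zero_mul, Complex.ofReal_zero, mul_zero]
      exact tsum_zero
    · have h1 := ((Equiv.inv (𝓞 K)ˣ).hasSum_iff.mpr
        (hasSum_ww K (mul_ne_zero hκ hx))).congr_fun fun _ => rfl
      have h2 := (Complex.hasSum_ofReal.mpr h1).mul_left (f x * ((ww K x * N x : ℝ) : ℂ))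
      rw [Complex.ofReal_one, mul_one] at h2
      exact h2.tsum_eq
  have h1 : ∑' p, F p = ∑' x : 𝓞 K, f x * ((ww K (κ * x) * N x : ℝ) : ℂ) := by
    rw [hFsum.tsum_prod]
    exact tsum_congr fun x => (hrow x).tsum_eq
  have h2 : ∑' p, F (e p) = ∑' x : 𝓞 K, f x * ((ww K x * N x : ℝ) : ℂ) := by
    have h3 : Summable fun p => F (e p) := e.summable_iff.mpr hFsum
    rw [h3.tsum_prod]
    exact tsum_congr fun x => hrow2 x
  rw [e.tsum_eq] at h2
  exact h1.symm.trans h2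

/-- **periodic functions times an infinity type** -/
theorem per_omega {om : mixedSpace K → ℂ} (hom : OmegaOK K om) {Q : ℕ} (_hQ : 1 ≤ Q)
    (g : 𝓞 K → ℂ) {M : ℝ} (hg : ∀ x, ‖g x‖ ≤ M)
    (hper : ∀ x y : 𝓞 K, g (x + (Q : 𝓞 K) * y) = g x)
    (hunit : ∀ (e : (𝓞 K)ˣ) (x : 𝓞 K),
      g ((e : 𝓞 K) * x) * om (io K ((e : 𝓞 K) * x)) = g x * om (io K x))
    (κ : 𝓞 K) (hκ0 : κ ≠ 0) (z : 𝓞 K) (hκ1 : κ = 1 + (Q : 𝓞 K) * z)
    (hκ : om (io K κ) ≠ 1) :
    ∃ l : ℂ, LipAt (fun s => ∑' x : 𝓞 K, g x * (om (io K x) * (Fs K (ww K) s x : ℂ))) l := by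
  have hM : 0 ≤ M := (norm_nonneg _).trans (hg 0)
  set a : ℝ := |(Algebra.norm ℤ κ : ℝ)| with ha
  have ha1 : 1 ≤ a := one_le_abs_norm K hκ0
  have ha0 : 0 < a := by linarith
  have hac : ((a : ℝ) : ℂ) ≠ 0 := by exact_mod_cast ha0.ne'
  have hgk : ∀ x : 𝓞 K, g (κ * x) = g x := by
    intro x
    have e : κ * x = x + (Q : 𝓞 K) * (z * x) := by
      linear_combination x * hκ1
    rw [e, hper]
  set I : Ideal (𝓞 K) := Ideal.span {κ} with hI
  have hIbot : I ≠ ⊥ := by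
    rw [hI, Ne, Ideal.span_singleton_eq_bot]
    exact hκ0
  have hfin : Finite (𝓞 K ⧸ I) := Ideal.finiteQuotientOfFreeOfNeBot _ hIbot
  have hft : Fintype (𝓞 K ⧸ I) := Fintype.ofFinite _
  have hcard : (Fintype.card (𝓞 K ⧸ I) : ℂ) = ((a : ℝ) : ℂ) := by
    rw [← Nat.card_eq_fintype_card]
    have h1 : Nat.card (𝓞 K ⧸ I) = Ideal.absNorm I := rfl
    rw [h1, hI, Ideal.absNorm_span_singleton, ha]
    have h2 : |(Algebra.norm ℤ κ : ℝ)| = (((Algebra.norm ℤ κ).natAbs : ℕ) : ℝ) := by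
      rw [Nat.cast_natAbs, Int.cast_abs]
    rw [h2]
    push_cast
    rfl
  set G : 𝓞 K → ℂ := fun y => ((if y ∈ I then 1 else 0) - ((a : ℝ) : ℂ)⁻¹) * g y with hG
  have hGb : ∀ y, ‖G y‖ ≤ 2 * M := by
    intro y
    simp only [hG]
    rw [norm_mul]
    refine mul_le_mul ?_ (hg y) (norm_nonneg _) (by norm_num)
    refine (norm_sub_le _ _).trans ?_
    have h1 : ‖(if y ∈ I then (1 : ℂ) else 0)‖ ≤ 1 := by split_ifs <;> simp
    have h2 : ‖((a : ℝ) : ℂ)⁻¹‖ ≤ 1 := by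
      rw [norm_inv, Complex.norm_real, Real.norm_of_nonneg ha0.le]
      exact inv_le_one_of_one_le₀ ha1
    linarith
  obtain ⟨l, C, hl⟩ := can_omega hom G (2 * M) hGb (𝓞 K ⧸ I)
    (fun j => (Q : 𝓞 K) * (-(z * j.out))) (fun b => by
      simp only [hG, hper]
      rw [← Finset.sum_mul, Finset.sum_sub_distrib, Finset.sum_const, Finset.card_univ,
        nsmul_eq_mul, hcard]
      have h1 : ∑ j : 𝓞 K ⧸ I, (if b + (Q : 𝓞 K) * (-(z * j.out)) ∈ I then (1 : ℂ) else 0)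
          = 1 := by
        have h2 : ∀ j : 𝓞 K ⧸ I, (b + (Q : 𝓞 K) * (-(z * j.out)) ∈ I) ↔
            j = -(Ideal.Quotient.mk I b) := by
          intro j
          have e : b + (Q : 𝓞 K) * (-(z * j.out)) = b + j.out - κ * j.out := by
            linear_combination j.out * hκ1
          rw [← Ideal.Quotient.eq_zero_iff_mem, e, map_sub, map_add, map_mul,
            Ideal.Quotient.mk_out]
          have h3 : Ideal.Quotient.mk I κ = 0 :=
            Ideal.Quotient.eq_zero_iff_mem.mpr (Ideal.mem_span_singleton_self _)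
          rw [h3, zero_mul, sub_zero, eq_neg_iff_add_eq_zero, add_comm]
        simp only [h2]
        rw [Finset.sum_ite_eq']
        simp
      rw [h1, mul_inv_cancel₀ hac, sub_self, zero_mul])
  have hlip : LipAt (fun s => ∑' x : 𝓞 K, G x * Hw K om s x) l := by
    refine IsBigO.of_bound C ?_
    filter_upwards [Ioo_mem_nhdsGT (by norm_num : (1 : ℝ) < 2)] with s hs
    rw [Real.norm_of_nonneg (by linarith [hs.1])]
    exact hl s hs.1 hs.2.le
  -- the multiplier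
  have hD : LipAt (fun s => om (io K κ) * ((a ^ (-s) : ℝ) : ℂ) + -((a : ℝ) : ℂ)⁻¹)
      (om (io K κ) * ((a⁻¹ : ℝ) : ℂ) + -((a : ℝ) : ℂ)⁻¹) :=
    ((LipAt.const _).mul (LipAt.rpow_neg ha0)).add (LipAt.const _)
  have hd : om (io K κ) * ((a⁻¹ : ℝ) : ℂ) + -((a : ℝ) : ℂ)⁻¹ ≠ 0 := by
    intro h
    rw [Complex.ofReal_inv] at h
    have h1 : (om (io K κ) - 1) * ((a : ℝ) : ℂ)⁻¹ = 0 := by
      rw [← h]
      ring
    exact hκ (sub_eq_zero.mp ((mul_eq_zero.mp h1).resolve_right (inv_ne_zero hac)))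
  refine ⟨_, LipAt.of_mul hD hd (hlip.congr fun s hs => ?_)⟩
  -- the identity
  have hinj : Function.Injective fun x : 𝓞 K => κ * x := fun x y h => mul_left_cancel₀ hκ0 h
  have hsum := summable_gHw hom hg hs
  have hind : Summable fun y : 𝓞 K => (if y ∈ I then (1 : ℂ) else 0) * g y * Hw K om s y := by
    refine summable_gHw hom (M := M) (fun y => ?_) hs
    rw [norm_mul]
    split_ifs
    · rw [norm_one, one_mul]
      exact hg y
    · rw [norm_zero, zero_mul]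
      exact hM
  have htr := translate_weight (f := fun x => g x * om (io K x)) (M := M) (fun x => by
    rw [norm_mul]
    exact (mul_le_of_le_one_right (norm_nonneg _) (hom.nrm _)).trans (hg x)) hunit hκ0 hs
  have hT : ∑' x : 𝓞 K, g x * om (io K x)
      * ((ww K x * |(Algebra.norm ℤ x : ℝ)| ^ (-s) : ℝ) : ℂ)
      = ∑' x : 𝓞 K, g x * Hw K om s x := by
    refine tsum_congr fun x => ?_
    unfold Hw Fs
    ring
  have h1 : ∑' y : 𝓞 K, (if y ∈ I then (1 : ℂ) else 0) * g y * Hw K om s y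
      = (om (io K κ) * ((a ^ (-s) : ℝ) : ℂ)) * ∑' x : 𝓞 K, g x * Hw K om s x := by
    rw [← hT, ← htr, ← tsum_mul_left, ← hinj.tsum_eq]
    · refine tsum_congr fun x => ?_
      have hm : κ * x ∈ I := Ideal.mul_mem_right _ _ (Ideal.mem_span_singleton_self _)
      rw [if_pos hm, one_mul, hgk]
      by_cases hx : x = 0
      · subst hx
        unfold Hw
        simp [Fs_zero, ww_zero]
      · unfold Hw Fs
        rw [hom.mul κ x hκ0 hx, abs_norm_mul, Real.mul_rpow (abs_nonneg _) (abs_nonneg _)]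
        push_cast
        ring
    · intro y hy
      have hmem : y ∈ I := by
        by_contra hcon
        apply hy
        show (if y ∈ I then (1 : ℂ) else 0) * g y * Hw K om s y = 0
        rw [if_neg hcon, zero_mul, zero_mul]
      obtain ⟨x, hx⟩ := Ideal.mem_span_singleton'.mp hmem
      exact ⟨x, by rw [← hx]; ring⟩
  have h2 : ∑' x : 𝓞 K, G x * Hw K om s x
      = ∑' y : 𝓞 K, (if y ∈ I then (1 : ℂ) else 0) * g y * Hw K om s y
        - ((a : ℝ) : ℂ)⁻¹ * ∑' x : 𝓞 K, g x * Hw K om s x := by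
    rw [← tsum_mul_left, ← hind.tsum_sub (hsum.mul_left _)]
    refine tsum_congr fun y => ?_
    simp only [hG]
    ring
  rw [h2, h1]
  show (om (io K κ) * ((a ^ (-s) : ℝ) : ℂ) + -((a : ℝ) : ℂ)⁻¹)
    * (∑' x : 𝓞 K, g x * Hw K om s x) = _
  ring

end Pool.Agent.MP_058a58_ag.Ch
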