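import Mathlib
import Pool.Agent.Lib.MP_058a58_ag.AT.LatW

/-!
# Infinity types of Hecke characters satisfy `OmegaOK`
-/

namespace Pool.Agent.MP_058a58_ag.Ch

open Finset NumberField NumberField.mixedEmbedding NumberField.Units NumberField.InfinitePlace
  Module Filter Topology
open scoped Classical

/-! ### the phase `(z/|z|)^k |z|^(i t)` -/

/-- `(z/|z|)^k |z|^(i t)` -/
noncomputable def phs (k : ℤ) (t : ℝ) (z : ℂ) : ℂ :=
  (z / ((‖z‖ : ℝ) : ℂ)) ^ k * ((‖z‖ : ℝ) : ℂ) ^ ((t : ℂ) * Complex.I)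

lemma cpow_phase {r : ℝ} (hr : 0 < r) (t : ℝ) :
    ((r : ℝ) : ℂ) ^ ((t : ℂ) * Complex.I) = Complex.exp (Complex.I * ((t * Real.log r : ℝ) : ℂ)) := by
  have hr' : ((r : ℝ) : ℂ) ≠ 0 := by exact_mod_cast hr.ne'
  rw [Complex.cpow_def_of_ne_zero hr', ← Complex.ofReal_log hr.le]
  congr 1
  push_cast
  ring

lemma norm_unit_of_ne {z : ℂ} (hz : z ≠ 0) : ‖z / ((‖z‖ : ℝ) : ℂ)‖ = 1 := by
  rw [norm_div, Complex.norm_real, norm_norm, div_self (norm_ne_zero_iff.mpr hz)]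

lemma norm_phs {k : ℤ} {t : ℝ} {z : ℂ} (hz : z ≠ 0) : ‖phs k t z‖ = 1 := by
  unfold phs
  rw [norm_mul, norm_zpow, norm_unit_of_ne hz, one_zpow, one_mul,
    cpow_phase (norm_pos_iff.mpr hz), mul_comm, Complex.norm_exp_ofReal_mul_I]

lemma norm_phs_le (k : ℤ) (t : ℝ) (z : ℂ) : ‖phs k t z‖ ≤ 1 := by
  by_cases hz : z = 0
  · subst hz
    unfold phs
    rw [norm_mul, norm_zero, Complex.ofReal_zero, div_zero]
    have h1 : ‖(0 : ℂ) ^ k‖ ≤ 1 := by
      by_cases hk : k = 0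
      · subst hk
        simp
      · rw [zero_zpow k hk, norm_zero]
        exact zero_le_one
    have h2 : ‖(0 : ℂ) ^ ((t : ℂ) * Complex.I)‖ ≤ 1 := by
      by_cases ht : (t : ℂ) * Complex.I = 0
      · rw [ht, Complex.cpow_zero, norm_one]
      · rw [Complex.zero_cpow ht, norm_zero]
        exact zero_le_one
    calc _ ≤ (1 : ℝ) * 1 := mul_le_mul h1 h2 (norm_nonneg _) zero_le_one
      _ = 1 := one_mul 1
  · exact (norm_phs hz).le

lemma phs_mul {k : ℤ} {t : ℝ} (z w : ℂ) : phs k t (z * w) = phs k t z * phs k t w := by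
  unfold phs
  have h1 : ((‖z * w‖ : ℝ) : ℂ) ^ ((t : ℂ) * Complex.I)
      = ((‖z‖ : ℝ) : ℂ) ^ ((t : ℂ) * Complex.I) * ((‖w‖ : ℝ) : ℂ) ^ ((t : ℂ) * Complex.I) := by
    rw [norm_mul, Complex.ofReal_mul,
      Complex.mul_cpow_ofReal_nonneg (norm_nonneg z) (norm_nonneg w)]
  have h2 : z * w / ((‖z * w‖ : ℝ) : ℂ) = z / ((‖z‖ : ℝ) : ℂ) * (w / ((‖w‖ : ℝ) : ℂ)) := by
    rw [norm_mul, Complex.ofReal_mul, mul_div_mul_comm]
  rw [h1, h2, mul_zpow]
  ring

lemma phs_one (k : ℤ) (t : ℝ) : phs k t 1 = 1 := by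
  unfold phs
  simp

lemma zpow_lip {u v : ℂ} (hu : ‖u‖ = 1) (hv : ‖v‖ = 1) (k : ℤ) :
    ‖u ^ k - v ^ k‖ ≤ |(k : ℝ)| * ‖u - v‖ := by
  have hn : ∀ n : ℕ, ‖u ^ n - v ^ n‖ ≤ (n : ℝ) * ‖u - v‖ := by
    intro n
    induction n with
    | zero => simp
    | succ n ih =>
      have e : u ^ (n + 1) - v ^ (n + 1) = u ^ n * (u - v) + (u ^ n - v ^ n) * v := by ring
      rw [e]
      refine (norm_add_le _ _).trans ?_
      rw [norm_mul, norm_mul, norm_pow, hu, hv, one_pow, one_mul, mul_one]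
      push_cast
      linarith
  rcases Int.eq_nat_or_neg k with ⟨n, hk | hk⟩
  · subst hk
    rw [zpow_natCast, zpow_natCast]
    refine (hn n).trans (le_of_eq ?_)
    rw [Int.cast_natCast, abs_of_nonneg (Nat.cast_nonneg n)]
  · subst hk
    have hu0 : u ^ n ≠ 0 := pow_ne_zero _ fun h => by rw [h, norm_zero] at hu; exact zero_ne_one hu
    have hv0 : v ^ n ≠ 0 := pow_ne_zero _ fun h => by rw [h, norm_zero] at hv; exact zero_ne_one hv
    rw [zpow_neg, zpow_neg, zpow_natCast, zpow_natCast, inv_sub_inv hu0 hv0, norm_div, norm_mul,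
      norm_pow, norm_pow, hu, hv, one_pow, one_mul, div_one, norm_sub_rev]
    refine (hn n).trans (le_of_eq ?_)
    rw [Int.cast_neg, Int.cast_natCast, abs_neg, abs_of_nonneg (Nat.cast_nonneg n)]

lemma unit_sub_le {z h : ℂ} (hz : z ≠ 0) (hzh : z + h ≠ 0) :
    ‖(z + h) / ((‖z + h‖ : ℝ) : ℂ) - z / ((‖z‖ : ℝ) : ℂ)‖ ≤ 2 * ‖h‖ / ‖z‖ := by
  have hz' : 0 < ‖z‖ := norm_pos_iff.mpr hz
  have hzh' : 0 < ‖z + h‖ := norm_pos_iff.mpr hzh
  have hzc : ((‖z‖ : ℝ) : ℂ) ≠ 0 := by exact_mod_cast hz'.ne'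
  have hzhc : ((‖z + h‖ : ℝ) : ℂ) ≠ 0 := by exact_mod_cast hzh'.ne'
  have e : (z + h) / ((‖z + h‖ : ℝ) : ℂ) - z / ((‖z‖ : ℝ) : ℂ)
      = h / ((‖z‖ : ℝ) : ℂ)
        + (z + h) / ((‖z + h‖ : ℝ) : ℂ) * (((‖z‖ - ‖z + h‖ : ℝ) : ℂ) / ((‖z‖ : ℝ) : ℂ)) := by
    push_cast
    field_simp
    ring
  rw [e]
  refine (norm_add_le _ _).trans ?_
  rw [norm_mul, norm_unit_of_ne hzh, one_mul, norm_div, norm_div, Complex.norm_real,
    Complex.norm_real, norm_norm]
  have h1 : ‖‖z‖ - ‖z + h‖‖ ≤ ‖h‖ := by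
    refine (abs_norm_sub_norm_le z (z + h)).trans (le_of_eq ?_)
    rw [sub_add_cancel_left, norm_neg]
  calc ‖h‖ / ‖z‖ + ‖‖z‖ - ‖z + h‖‖ / ‖z‖ ≤ ‖h‖ / ‖z‖ + ‖h‖ / ‖z‖ := by gcongr
    _ = 2 * ‖h‖ / ‖z‖ := by ring

lemma exp_I_lip (x y : ℝ) :
    ‖Complex.exp (Complex.I * (x : ℂ)) - Complex.exp (Complex.I * (y : ℂ))‖ ≤ |x - y| := by
  have e : Complex.exp (Complex.I * (x : ℂ)) - Complex.exp (Complex.I * (y : ℂ))
      = Complex.exp (Complex.I * (y : ℂ)) * (Complex.exp (Complex.I * ((x - y : ℝ) : ℂ)) - 1) := by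
    rw [mul_sub, mul_one, ← Complex.exp_add]
    congr 2
    push_cast
    ring
  rw [e, norm_mul, Complex.norm_exp_I_mul_ofReal, one_mul]
  exact Real.norm_exp_I_mul_ofReal_sub_one_le

lemma log_sub_le {r r' d a : ℝ} (ha : 0 < a) (hr : a ≤ r) (hd : |r' - r| ≤ d) (hda : 2 * d ≤ a) :
    |Real.log r' - Real.log r| ≤ 2 * d / a := by
  have hd0 : 0 ≤ d := (abs_nonneg _).trans hd
  have h1 := abs_le.mp hd
  have hr0 : 0 < r := by linarith
  have hr' : a / 2 ≤ r' := by linarith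
  have hr'0 : 0 < r' := by linarith
  rw [abs_le]
  constructor
  · have h2 := Real.log_le_sub_one_of_pos (div_pos hr0 hr'0)
    rw [Real.log_div hr0.ne' hr'0.ne'] at h2
    have h3 : r / r' - 1 ≤ 2 * d / a := by
      rw [div_sub_one hr'0.ne', div_le_div_iff₀ hr'0 ha]
      nlinarith
    linarith
  · have h2 := Real.log_le_sub_one_of_pos (div_pos hr'0 hr0)
    rw [Real.log_div hr'0.ne' hr0.ne'] at h2
    have h3 : r' / r - 1 ≤ 2 * d / a := by
      rw [div_sub_one hr0.ne', div_le_div_iff₀ hr0 ha]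
      nlinarith
    linarith

theorem phs_lip (k : ℤ) (t : ℝ) {z h : ℂ} {a : ℝ} (ha : 0 < a) (hz : a ≤ ‖z‖)
    (hh : 2 * ‖h‖ ≤ a) :
    ‖phs k t (z + h) - phs k t z‖ ≤ (2 * |(k : ℝ)| + 2 * |t|) * ‖h‖ / a := by
  have hz0 : 0 < ‖z‖ := by linarith
  have hzne : z ≠ 0 := norm_pos_iff.mp hz0
  have hd : |‖z + h‖ - ‖z‖| ≤ ‖h‖ := by
    refine (abs_norm_sub_norm_le (z + h) z).trans (le_of_eq ?_)
    rw [add_sub_cancel_left]
  have hzh0 : 0 < ‖z + h‖ := by
    have := (abs_le.mp hd).1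
    have h0 : 0 ≤ ‖h‖ := norm_nonneg h
    linarith
  have hzhne : z + h ≠ 0 := norm_pos_iff.mp hzh0
  unfold phs
  set u : ℂ := z / ((‖z‖ : ℝ) : ℂ) with hu
  set v : ℂ := (z + h) / ((‖z + h‖ : ℝ) : ℂ) with hv
  have hu1 : ‖u‖ = 1 := norm_unit_of_ne hzne
  have hv1 : ‖v‖ = 1 := norm_unit_of_ne hzhne
  rw [cpow_phase hzh0, cpow_phase hz0]
  set p : ℂ := Complex.exp (Complex.I * ((t * Real.log ‖z + h‖ : ℝ) : ℂ)) with hp
  set q : ℂ := Complex.exp (Complex.I * ((t * Real.log ‖z‖ : ℝ) : ℂ)) with hq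
  have hp1 : ‖p‖ = 1 := Complex.norm_exp_I_mul_ofReal _
  have e : v ^ k * p - u ^ k * q = (v ^ k - u ^ k) * p + u ^ k * (p - q) := by ring
  rw [e]
  refine (norm_add_le _ _).trans ?_
  rw [norm_mul, norm_mul, hp1, mul_one, norm_zpow, hu1, one_zpow, one_mul]
  have t1 : ‖v ^ k - u ^ k‖ ≤ |(k : ℝ)| * (2 * ‖h‖ / a) := by
    refine (zpow_lip hv1 hu1 k).trans (mul_le_mul_of_nonneg_left ?_ (abs_nonneg _))
    refine (unit_sub_le hzne hzhne).trans ?_
    gcongr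
  have t2 : ‖p - q‖ ≤ |t| * (2 * ‖h‖ / a) := by
    refine (exp_I_lip _ _).trans ?_
    rw [← mul_sub, abs_mul]
    exact mul_le_mul_of_nonneg_left (log_sub_le ha hz hd hh) (abs_nonneg _)
  calc _ ≤ |(k : ℝ)| * (2 * ‖h‖ / a) + |t| * (2 * ‖h‖ / a) := add_le_add t1 t2
    _ = _ := by ring

/-! ### closure properties of `OmegaOK` -/

variable {K : Type*} [Field K] [NumberField K]

lemma OmegaOK.one : OmegaOK K (fun _ => 1) where
  nrm _ := by rw [norm_one]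
  lip := ⟨0, le_rfl, fun x h a ha _ _ => by simp⟩
  mul _ _ _ _ := (one_mul 1).symm

lemma OmegaOK.mul' {a b : mixedSpace K → ℂ} (ha : OmegaOK K a) (hb : OmegaOK K b) :
    OmegaOK K (fun x => a x * b x) where
  nrm x := by
    rw [norm_mul]
    exact mul_le_one₀ (ha.nrm x) (norm_nonneg _) (hb.nrm x)
  lip := by
    obtain ⟨C1, hC1, H1⟩ := ha.lip
    obtain ⟨C2, hC2, H2⟩ := hb.lip
    refine ⟨C1 + C2, add_nonneg hC1 hC2, fun x h c hc hx hh => ?_⟩
    have e : a (x + h) * b (x + h) - a x * b x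
        = a (x + h) * (b (x + h) - b x) + (a (x + h) - a x) * b x := by ring
    rw [e]
    refine (norm_add_le _ _).trans ?_
    rw [norm_mul, norm_mul]
    have t1 := (mul_le_of_le_one_left (norm_nonneg (b (x + h) - b x)) (ha.nrm (x + h))).trans
      (H2 x h c hc hx hh)
    have t2 := (mul_le_of_le_one_right (norm_nonneg (a (x + h) - a x)) (hb.nrm x)).trans
      (H1 x h c hc hx hh)
    calc _ ≤ C2 * ‖h‖ / c + C1 * ‖h‖ / c := add_le_add t1 t2
      _ = _ := by ring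
  mul x y hx hy := by
    show a _ * b _ = a _ * b _ * (a _ * b _)
    rw [ha.mul x y hx hy, hb.mul x y hx hy]
    ring

lemma OmegaOK.pow {a : mixedSpace K → ℂ} (ha : OmegaOK K a) (n : ℕ) :
    OmegaOK K (fun x => a x ^ n) := by
  induction n with
  | zero =>
    simp only [pow_zero]
    exact OmegaOK.one
  | succ n ih =>
    simp only [pow_succ]
    exact ih.mul' ha

lemma OmegaOK.star {a : mixedSpace K → ℂ} (ha : OmegaOK K a) :
    OmegaOK K (fun x => (starRingEnd ℂ) (a x)) where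
  nrm x := by
    rw [RCLike.norm_conj]
    exact ha.nrm x
  lip := by
    obtain ⟨C, hC, H⟩ := ha.lip
    refine ⟨C, hC, fun x h c hc hx hh => ?_⟩
    rw [← map_sub, RCLike.norm_conj]
    exact H x h c hc hx hh
  mul x y hx hy := by
    rw [ha.mul x y hx hy, map_mul]

lemma OmegaOK.prod {ι : Type*} (s : Finset ι) {a : ι → mixedSpace K → ℂ}
    (ha : ∀ i ∈ s, OmegaOK K (a i)) : OmegaOK K (fun x => ∏ i ∈ s, a i x) := by
  induction s using Finset.induction_on with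
  | empty =>
    simp only [Finset.prod_empty]
    exact OmegaOK.one
  | insert i s hi ih =>
    simp only [Finset.prod_insert hi]
    exact (ha i (Finset.mem_insert_self _ _)).mul'
      (ih fun j hj => ha j (Finset.mem_insert_of_mem hj))

/-! ### the coordinate at a complex embedding -/

variable (K) in
/-- the coordinate of `x` at the complex embedding `φ` -/
noncomputable def coordE (φ : K →+* ℂ) (x : mixedSpace K) : ℂ :=
  if hr : IsReal (InfinitePlace.mk φ) then ((x.1 ⟨InfinitePlace.mk φ, hr⟩ : ℝ) : ℂ)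
  else if (InfinitePlace.mk φ).embedding = φ
    then x.2 ⟨InfinitePlace.mk φ, not_isReal_iff_isComplex.mp hr⟩
    else (starRingEnd ℂ) (x.2 ⟨InfinitePlace.mk φ, not_isReal_iff_isComplex.mp hr⟩)

omit [NumberField K] in
lemma coordE_add (φ : K →+* ℂ) (x y : mixedSpace K) :
    coordE K φ (x + y) = coordE K φ x + coordE K φ y := by
  unfold coordE
  split_ifs
  · simp
  · simp
  · simp

omit [NumberField K] in
lemma norm_coordE (φ : K →+* ℂ) (x : mixedSpace K) :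
    ‖coordE K φ x‖ = normAtPlace (InfinitePlace.mk φ) x := by
  unfold coordE
  split_ifs with h1 h2
  · rw [normAtPlace_apply_of_isReal h1, Complex.norm_real]
  · rw [normAtPlace_apply_of_isComplex (not_isReal_iff_isComplex.mp h1)]
  · rw [normAtPlace_apply_of_isComplex (not_isReal_iff_isComplex.mp h1), RCLike.norm_conj]

omit [NumberField K] in
lemma coordE_mixed (φ : K →+* ℂ) (x : K) : coordE K φ (mixedEmbedding K x) = φ x := by
  unfold coordE
  split_ifs with h1 h2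
  · rw [mixedEmbedding_apply_isReal, embedding_of_isReal_apply h1]
    rcases embedding_mk_eq φ with h | h
    · rw [h]
    · have h3 := conjugate_embedding_eq_of_isReal h1
      rw [h] at h3
      rw [h, ← h3]
      simp
  · rw [mixedEmbedding_apply_isComplex, h2]
  · rw [mixedEmbedding_apply_isComplex]
    rcases embedding_mk_eq φ with h | h
    · exact absurd h h2
    · rw [h, ComplexEmbedding.conjugate_coe_eq, Complex.conj_conj]

omit [NumberField K] in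
lemma coordE_io (φ : K →+* ℂ) (x : 𝓞 K) : coordE K φ (io K x) = φ x := coordE_mixed φ x

lemma norm_coordE_le (φ : K →+* ℂ) (x : mixedSpace K) : ‖coordE K φ x‖ ≤ ‖x‖ := by
  rw [norm_coordE]
  exact normAtPlace_le_norm K x _

theorem omegaOK_phs (φ : K →+* ℂ) (k : ℤ) (t : ℝ) :
    OmegaOK K (fun x => phs k t (coordE K φ x)) where
  nrm x := norm_phs_le _ _ _
  lip := by
    refine ⟨2 * |(k : ℝ)| + 2 * |t|, by positivity, fun x h a ha hx hh => ?_⟩
    have hh' : ‖coordE K φ h‖ ≤ ‖h‖ := norm_coordE_le φ h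
    rw [coordE_add]
    refine (phs_lip k t ha ((hx _).trans_eq (norm_coordE φ x).symm) (by linarith)).trans ?_
    gcongr
  mul x y _ _ := by
    show phs k t (coordE K φ (io K (x * y))) = _
    rw [coordE_io, coordE_io, coordE_io, ← phs_mul]
    congr 1
    push_cast
    rw [map_mul]

/-! ### infinity types indexed by the complex embeddings -/

variable (K) in
/-- the infinity type `∏_φ (z_φ/|z_φ|)^(k_φ) |z_φ|^(i τ_φ)` -/
noncomputable def omE (k : (K →+* ℂ) → ℤ) (τ : (K →+* ℂ) → ℝ) (x : mixedSpace K) : ℂ :=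
  ∏ φ : K →+* ℂ, phs (k φ) (τ φ) (coordE K φ x)

theorem omegaOK_omE (k : (K →+* ℂ) → ℤ) (τ : (K →+* ℂ) → ℝ) : OmegaOK K (omE K k τ) :=
  OmegaOK.prod Finset.univ fun φ _ => omegaOK_phs φ (k φ) (τ φ)

lemma omE_io' (k : (K →+* ℂ) → ℤ) (τ : (K →+* ℂ) → ℝ) (x : 𝓞 K) :
    omE K k τ (io K x) = ∏ φ : K →+* ℂ, phs (k φ) (τ φ) (φ x) := by
  unfold omE
  exact Finset.prod_congr rfl fun φ _ => by rw [coordE_io]

lemma omE_io (k : (K →+* ℂ) → ℤ) (τ : (K →+* ℂ) → ℝ) (x : 𝓞 K) :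
    omE K k τ (io K x) = ∏ φ : K →+* ℂ, (φ x / ((‖φ x‖ : ℝ) : ℂ)) ^ (k φ)
      * ((‖φ x‖ : ℝ) : ℂ) ^ (((τ φ : ℝ) : ℂ) * Complex.I) := omE_io' k τ x

lemma norm_omE_io (k : (K →+* ℂ) → ℤ) (τ : (K →+* ℂ) → ℝ) {x : 𝓞 K} (hx : x ≠ 0) :
    ‖omE K k τ (io K x)‖ = 1 := by
  rw [omE_io', norm_prod]
  refine Finset.prod_eq_one fun φ _ => norm_phs ?_
  rw [Ne, map_eq_zero]
  exact RingOfIntegers.coe_ne_zero_iff.mpr hx

/-! ### infinity types indexed by the places -/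

variable (K) in
/-- the infinity type `∏_w (x_w/|x_w|)^(k_w) |x_w|^(i τ_w)` -/
noncomputable def omP (k : InfinitePlace K → ℤ) (τ : InfinitePlace K → ℝ) (x : mixedSpace K) : ℂ :=
  ∏ w : InfinitePlace K, phs (k w) (τ w) (coordE K w.embedding x)

theorem omegaOK_omP (k : InfinitePlace K → ℤ) (τ : InfinitePlace K → ℝ) :
    OmegaOK K (omP K k τ) :=
  OmegaOK.prod Finset.univ fun w _ => omegaOK_phs w.embedding (k w) (τ w)

lemma omP_io' (k : InfinitePlace K → ℤ) (τ : InfinitePlace K → ℝ) (x : 𝓞 K) :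
    omP K k τ (io K x) = ∏ w : InfinitePlace K, phs (k w) (τ w) (w.embedding x) := by
  unfold omP
  exact Finset.prod_congr rfl fun φ _ => by rw [coordE_io]

lemma norm_omP_io (k : InfinitePlace K → ℤ) (τ : InfinitePlace K → ℝ) {x : 𝓞 K} (hx : x ≠ 0) :
    ‖omP K k τ (io K x)‖ = 1 := by
  rw [omP_io', norm_prod]
  refine Finset.prod_eq_one fun w _ => norm_phs ?_
  rw [Ne, map_eq_zero]
  exact RingOfIntegers.coe_ne_zero_iff.mpr hx

end Pool.Agent.MP_058a58_ag.Ch
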