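import Mathlib
import Pool.Agent.Lib.MP_058a58_ag.AT.FinalT

open Polynomial Filter Topology

namespace TatePole

/-- Let `(V i, t i)` be finitely many pairs of an irreducible Artin representation and a real number,
no two of them isomorphic.  If the order `k i` of the `L`-function of `W ⊗ V i` at `m + 1 + i t i`
exists for every `i`, then the sum of the squares of the failures `k i + r i` of Tate's formula is
at most `(dim W - dim B)²`. -/
theorem sum_sq_orders_le {ℓ : ℕ} [Fact ℓ.Prime] [Algebra ℚ_[ℓ] ℂ] {W : Type*} [AddCommGroup W]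
    [Module ℚ_[ℓ] W] [FiniteDimensional ℚ_[ℓ] W] (ρ : Representation ℚ_[ℓ] GQ W)
    (S : Finset ℕ) (P : ℕ → ℂ[X])
    (hgood : ∀ p : ℕ, p.Prime → p ∉ S → IsPureLocalFactor ρ (algebraMap ℚ_[ℓ] ℂ) p (P p))
    (B : Submodule ℚ_[ℓ] W) (hB : CycleSpace ρ B)
    {J : Type*} [Fintype J] (V : J → Type*) [∀ i, AddCommGroup (V i)] [∀ i, Module ℂ (V i)]
    [∀ i, FiniteDimensional ℂ (V i)] (τ : ∀ i, Representation ℂ GQ (V i))
    (hτ : ∀ i, IsArtin (τ i)) (t : J → ℝ)
    (hne : ∀ i j, i ≠ j → t i = t j → IsEmpty ((τ i).Equiv (τ j)))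
    (S' : J → Finset ℕ) (Q : J → ℕ → ℂ[X])
    (hQ : ∀ i, TwistFactors ρ (τ i) (S' i) (t i) (Q i)) (m : ℕ)
    (k : J → ℤ) (hk : ∀ i, AT.HasTwistOrder (Q i) m (t i) (k i)) :
    ∑ i, (k i + twistRank (resRep ρ B hB.stable) (τ i) (t i)) ^ 2 ≤
      ((Module.finrank ℚ_[ℓ] W : ℤ) - Module.finrank ℚ_[ℓ] B) ^ 2 := by
  have h := fun ε hε => AT.artin_core_t hgood B hB τ t hτ hne S' Q hQ m ε hε
  refine AT.order_bound t _ Q m _ ?_ ?_ k hk
  · rw [sub_nonneg]
    exact_mod_cast Submodule.finrank_le B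
  · intro ε hε
    filter_upwards [h ε hε] with s hs
    push_cast
    exact hs

end TatePole
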