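import Mathlib
import Pool.Agent.Lib.MP_058a58_ag.AT.FinalRS

/-!
# The Rankin-Selberg form for the orders
-/

open Polynomial Filter Topology

namespace TatePole

/-- from the asymptotic bound to the orders -/
theorem AT.rs_order_bound {J : Type*} [Fintype J] (t : J → ℝ) (r : J → ℕ) (Q : J → ℕ → ℂ[X])
    (N : ℕ → ℂ[X]) (m : ℕ)
    (h : ∀ ε : ℝ, 0 < ε → ∀ᶠ s : ℝ in 𝓝[>] ((m : ℝ) + 1),
      ∑ i, (twistDefect (r i) (Q i) m (t i) s) ^ 2 ≤
        (Real.log ‖LFun N m s‖ + ε * Real.log (1 / (s - (m + 1)))) *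
          Real.log (1 / (s - (m + 1))))
    (k : J → ℤ) (hk : ∀ i, AT.HasTwistOrder (Q i) m (t i) (k i)) (n : ℤ) (hn : HasOrder N m n) :
    ∑ i, (k i + r i) ^ 2 ≤ -n := by
  have hL := tendsto_logL m
  have h1 : ∀ i, Tendsto (fun s : ℝ => (twistDefect (r i) (Q i) m (t i) s /
      Real.log (1 / (s - (m + 1)))) ^ 2) (𝓝[>] ((m : ℝ) + 1)) (𝓝 ((-((k i : ℝ) + r i)) ^ 2)) :=
    fun i => (AT.twistOrder_tendsto (hk i) (r i)).pow 2
  have h2 : Tendsto (fun s : ℝ => ∑ i, (twistDefect (r i) (Q i) m (t i) s /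
      Real.log (1 / (s - (m + 1)))) ^ 2) (𝓝[>] ((m : ℝ) + 1))
      (𝓝 (∑ i, (-((k i : ℝ) + r i)) ^ 2)) := tendsto_finsetSum _ fun i _ => h1 i
  have hN : Tendsto (fun s : ℝ => Real.log ‖LFun N m s‖ / Real.log (1 / (s - (m + 1))))
      (𝓝[>] ((m : ℝ) + 1)) (𝓝 (-(n : ℝ))) := by
    have h3 : AT.HasTwistOrder N m 0 n := by
      obtain ⟨c, hc, ht⟩ := hn
      refine ⟨c, hc, ht.congr fun s => ?_⟩
      rw [Complex.ofReal_zero, zero_mul, add_zero]
    have h4 := AT.twistOrder_tendsto h3 0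
    rw [Nat.cast_zero, add_zero] at h4
    refine h4.congr fun s => ?_
    unfold twistDefect
    rw [Complex.ofReal_zero, zero_mul, add_zero, Nat.cast_zero, zero_mul, sub_zero]
  have h3 : ∀ ε : ℝ, 0 < ε → ∑ i, (-((k i : ℝ) + r i)) ^ 2 ≤ -(n : ℝ) + ε := by
    intro ε hε
    refine le_of_tendsto_of_tendsto h2 (hN.add_const ε) ?_
    filter_upwards [h ε hε, hL.eventually_gt_atTop 0] with s hs hLpos
    have h4 : ∑ i, (twistDefect (r i) (Q i) m (t i) s / Real.log (1 / (s - (m + 1)))) ^ 2 =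
        (∑ i, (twistDefect (r i) (Q i) m (t i) s) ^ 2) / Real.log (1 / (s - (m + 1))) ^ 2 := by
      rw [Finset.sum_div]
      exact Finset.sum_congr rfl fun i _ => div_pow _ _ _
    show ∑ i, (twistDefect (r i) (Q i) m (t i) s / Real.log (1 / (s - (m + 1)))) ^ 2 ≤ _
    rw [h4, div_le_iff₀ (by positivity)]
    refine hs.trans (le_of_eq ?_)
    field_simp
  have h5 : ∑ i, (-((k i : ℝ) + r i)) ^ 2 ≤ -(n : ℝ) := le_of_forall_pos_le_add h3
  have h7 : (((∑ i, (k i + r i) ^ 2 : ℤ)) : ℝ) ≤ ((-n : ℤ) : ℝ) := by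
    push_cast
    refine le_trans (le_of_eq ?_) h5
    exact Finset.sum_congr rfl fun i _ => by ring
  exact_mod_cast h7

/-- Let `(V i, t i)` be finitely many pairs of an irreducible Artin representation and a real number,
no two of them isomorphic.  If the order `k i` of the `L`-function of `W ⊗ V i` at `m + 1 + i t i`
exists for every `i`, and the order `n` of the `L`-function of `T ⊗ T^∨`, for `T = W / B`, at `m + 1`
exists, then the sum of the squares of the failures `k i + r i` of Tate's formula is at most `-n`. -/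
theorem sum_sq_orders_le_rs {ℓ : ℕ} [Fact ℓ.Prime] [Algebra ℚ_[ℓ] ℂ] {W : Type*}
    [AddCommGroup W] [Module ℚ_[ℓ] W] [FiniteDimensional ℚ_[ℓ] W]
    (ρ : Representation ℚ_[ℓ] GQ W) (S : Finset ℕ) (P : ℕ → ℂ[X])
    (hgood : ∀ p : ℕ, p.Prime → p ∉ S → IsPureLocalFactor ρ (algebraMap ℚ_[ℓ] ℂ) p (P p))
    (B : Submodule ℚ_[ℓ] W) (hB : CycleSpace ρ B)
    {J : Type*} [Fintype J] (V : J → Type*) [∀ i, AddCommGroup (V i)] [∀ i, Module ℂ (V i)]
    [∀ i, FiniteDimensional ℂ (V i)] (τ : ∀ i, Representation ℂ GQ (V i))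
    (hτ : ∀ i, IsArtin (τ i)) (t : J → ℝ)
    (hne : ∀ i j, i ≠ j → t i = t j → IsEmpty ((τ i).Equiv (τ j)))
    (S' : J → Finset ℕ) (Q : J → ℕ → ℂ[X])
    (hQ : ∀ i, TwistFactors ρ (τ i) (S' i) (t i) (Q i))
    (S₂ : Finset ℕ) (N : ℕ → ℂ[X])
    (hN : ∀ p : ℕ, p.Prime → p ∉ S₂ →
      IsPureLocalFactor (selfRep ρ B hB.stable) (algebraMap ℚ_[ℓ] ℂ) p (N p))
    (hbad : ∀ p ∈ S₂, p.Prime → (N p).eval ((p : ℂ)⁻¹) ≠ 0) (m : ℕ)
    (k : J → ℤ) (hk : ∀ i, AT.HasTwistOrder (Q i) m (t i) (k i)) (n : ℤ) (hn : HasOrder N m n) :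
    ∑ i, (k i + twistRank (resRep ρ B hB.stable) (τ i) (t i)) ^ 2 ≤ -n :=
  AT.rs_order_bound t _ Q N m
    (fun ε hε => AT.artin_core_rs hgood B hB τ t hτ hne S' Q hQ S₂ N hN hbad m ε hε) k hk n hn

end TatePole
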