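import Mathlib
import Pool.Agent.Lib.MP_058a58_ag.AT.Final

/-!
# Stability of Bessel's inequality for prime sums

If `A` is close to `Z` in mean square, then all even absolute moments of `A` and `Z` are close to
each other.
-/

open Polynomial Filter Topology NumberField Set

namespace TatePole.AT

lemma RR_sub' {g h : ℕ → ℝ} (bg : BddPrimes g) (bh : BddPrimes h) {x : ℝ} (hx : 1 < x) :
    RR (fun p => g p - h p) x = RR g x - RR h x := by
  obtain ⟨C, hC⟩ := bg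
  obtain ⟨C', hC'⟩ := bh
  have h1 : RR (fun p => g p + (-1) * h p) x = RR g x + RR (fun p => (-1) * h p) x :=
    RR_add hC (D := C') (fun p hp => by rw [abs_mul, abs_neg, abs_one, one_mul]; exact hC' p hp) hx
  rw [RR_const_mul] at h1
  have h2 : RR (fun p => g p - h p) x = RR (fun p => g p + (-1) * h p) x :=
    RR_congr (fun p _ => by ring) x
  rw [h2, h1]
  ring

/-- Cauchy-Schwarz -/
lemma RR_cs {g : ℕ → ℝ} (bg : BddPrimes g) {x : ℝ} (hx : 1 < x) : (RR g x) ^ 2 ≤ RR (fun p => g p ^ 2) x * RR (fun _ => 1) x := by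
  obtain ⟨C, hC⟩ := bg
  set a := RR g x with ha
  set b := RR (fun _ : ℕ => (1:ℝ)) x with hb
  set c := RR (fun p => g p ^ 2) x with hc
  have hb0 : 0 ≤ b := RR_nonneg (fun _ _ => zero_le_one) x
  have hb1 : BddPrimes (fun _ : ℕ => (1:ℝ)) := ⟨1, fun p _ => by simp⟩
  have hC2 : ∀ p : ℕ, p.Prime → |g p ^ 2| ≤ C ^ 2 := by
    intro p hp
    rw [abs_pow]
    exact pow_le_pow_left₀ (abs_nonneg _) (hC p hp) 2
  -- the discriminant
  have key : ∀ y : ℝ, 0 ≤ c * (y * y) + (-2 * a) * y + b := by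
    intro y
    have h1 : 0 ≤ RR (fun p => (y * g p - 1) ^ 2) x := RR_nonneg (fun p _ => sq_nonneg _) x
    have h2 : RR (fun p => (y * g p - 1) ^ 2) x = c * (y * y) + (-2 * a) * y + b := by
      have e1 : RR (fun p => (y * g p - 1) ^ 2) x =
          RR (fun p => (y * y) * g p ^ 2 + ((-2 * y) * g p + 1)) x :=
        RR_congr (fun p _ => by ring) x
      rw [e1, RR_add (C := (y * y) * C ^ 2) (D := |(-2 * y)| * C + 1) (fun p hp => by
          rw [abs_mul, abs_of_nonneg (mul_self_nonneg y)]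
          exact mul_le_mul_of_nonneg_left (hC2 p hp) (mul_self_nonneg y)) (fun p hp => by
          refine (abs_add_le _ _).trans ?_
          rw [abs_mul, abs_one]
          have := mul_le_mul_of_nonneg_left (hC p hp) (abs_nonneg (-2 * y))
          linarith) hx, RR_const_mul,
        RR_add (C := |(-2 * y)| * C) (D := 1) (fun p hp => by
          rw [abs_mul]
          exact mul_le_mul_of_nonneg_left (hC p hp) (abs_nonneg _)) (fun p _ => by simp) hx,
        RR_const_mul]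
      ring
    rw [← h2]
    exact h1
  have hd := discrim_le_zero key
  unfold discrim at hd
  nlinarith

/-- The even moments of `A` and `Z` differ by little if `A` is close to `Z`. -/
theorem moment_diff {A Z : ℕ → ℂ} {K : ℝ} (hA : ∀ p : ℕ, p.Prime → ‖A p‖ ≤ K)
    (hZ : ∀ p : ℕ, p.Prime → ‖Z p‖ ≤ K) (n : ℕ) {x : ℝ} (hx : 1 < x) :
    (RR (fun p => ‖A p‖ ^ (2 * n)) x - RR (fun p => ‖Z p‖ ^ (2 * n)) x) ^ 2 ≤
      (2 * n * K ^ (2 * n - 1)) ^ 2 *
        (RR (fun p => ‖A p - Z p‖ ^ 2) x * RR (fun _ => 1) x) := by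
  have hK : 0 ≤ K := (norm_nonneg _).trans (hA 2 Nat.prime_two)
  set G : ℕ → ℝ := fun p => ‖A p - Z p‖ with hG
  have hG0 : ∀ p, 0 ≤ G p := fun p => norm_nonneg _
  have hGb : ∀ p : ℕ, p.Prime → |G p| ≤ 2 * K := by
    intro p hp
    rw [abs_of_nonneg (hG0 p)]
    refine (norm_sub_le _ _).trans ?_
    linarith [hA p hp, hZ p hp]
  have hbA : BddPrimes (fun p => ‖A p‖ ^ (2 * n)) := ⟨K ^ (2 * n), fun p hp => by
    rw [abs_of_nonneg (by positivity)]
    exact pow_le_pow_left₀ (norm_nonneg _) (hA p hp) _⟩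
  have hbZ : BddPrimes (fun p => ‖Z p‖ ^ (2 * n)) := ⟨K ^ (2 * n), fun p hp => by
    rw [abs_of_nonneg (by positivity)]
    exact pow_le_pow_left₀ (norm_nonneg _) (hZ p hp) _⟩
  -- pointwise
  have hpt : ∀ p : ℕ, p.Prime →
      |‖A p‖ ^ (2 * n) - ‖Z p‖ ^ (2 * n)| ≤ 2 * n * K ^ (2 * n - 1) * G p := by
    intro p hp
    have h1 := abs_pow_sub_pow_le ‖A p‖ ‖Z p‖ (2 * n)
    have h2 : |‖A p‖ - ‖Z p‖| ≤ G p := abs_norm_sub_norm_le _ _
    have h3 : max |‖A p‖| |‖Z p‖| ^ (2 * n - 1) ≤ K ^ (2 * n - 1) := by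
      refine pow_le_pow_left₀ (le_max_of_le_left (abs_nonneg _)) ?_ _
      rw [abs_of_nonneg (norm_nonneg _), abs_of_nonneg (norm_nonneg _)]
      exact max_le (hA p hp) (hZ p hp)
    refine h1.trans ?_
    push_cast
    calc |‖A p‖ - ‖Z p‖| * (2 * n) * max |‖A p‖| |‖Z p‖| ^ (2 * n - 1) ≤
        G p * (2 * n) * K ^ (2 * n - 1) := by
          refine mul_le_mul (mul_le_mul_of_nonneg_right h2 (by positivity)) h3 (by positivity) ?_
          exact mul_nonneg (hG0 p) (by positivity)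
      _ = 2 * n * K ^ (2 * n - 1) * G p := by ring
  have hbG : BddPrimes G := ⟨2 * K, hGb⟩
  have hsub : RR (fun p => ‖A p‖ ^ (2 * n)) x - RR (fun p => ‖Z p‖ ^ (2 * n)) x =
      RR (fun p => ‖A p‖ ^ (2 * n) - ‖Z p‖ ^ (2 * n)) x := (RR_sub' hbA hbZ hx).symm
  have habs : |RR (fun p => ‖A p‖ ^ (2 * n)) x - RR (fun p => ‖Z p‖ ^ (2 * n)) x| ≤
      2 * n * K ^ (2 * n - 1) * RR G x := by
    rw [hsub, ← RR_const_mul]
    have hbd : BddPrimes (fun p => ‖A p‖ ^ (2 * n) - ‖Z p‖ ^ (2 * n)) :=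
      ⟨2 * n * K ^ (2 * n - 1) * (2 * K), fun p hp => (hpt p hp).trans
        (mul_le_mul_of_nonneg_left ((le_abs_self _).trans (hGb p hp)) (by positivity))⟩
    have hbG2 : BddPrimes (fun p => 2 * n * K ^ (2 * n - 1) * G p) := hbG.const_mul _
    rw [abs_le]
    constructor
    · have h4 : BddPrimes (fun p => (-1) * (2 * n * K ^ (2 * n - 1) * G p)) := hbG2.const_mul _
      have h5 := RR_mono h4 hbd (fun p hp => by
        have := (abs_le.mp (hpt p hp)).1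
        linarith) hx
      rw [RR_const_mul] at h5
      linarith
    · exact RR_mono hbd hbG2 (fun p hp => (abs_le.mp (hpt p hp)).2) hx
  have hcs := RR_cs hbG hx
  calc (RR (fun p => ‖A p‖ ^ (2 * n)) x - RR (fun p => ‖Z p‖ ^ (2 * n)) x) ^ 2
      = |RR (fun p => ‖A p‖ ^ (2 * n)) x - RR (fun p => ‖Z p‖ ^ (2 * n)) x| ^ 2 := (sq_abs _).symm
    _ ≤ (2 * n * K ^ (2 * n - 1) * RR G x) ^ 2 := pow_le_pow_left₀ (abs_nonneg _) habs 2
    _ = (2 * n * K ^ (2 * n - 1)) ^ 2 * (RR G x) ^ 2 := by ring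
    _ ≤ _ := mul_le_mul_of_nonneg_left hcs (sq_nonneg _)

/-- If `f` and `g` are close in mean square then their even moments are close. -/
theorem moments_close {f g : ℕ → ℂ} {C : ℝ} (hf : ∀ p : ℕ, p.Prime → ‖f p‖ ≤ C)
    (hg : ∀ p : ℕ, p.Prime → ‖g p‖ ≤ C)
    (h : ∀ ε : ℝ, 0 < ε → ∀ᶠ x in 𝓝[>] (1:ℝ),
      RR (fun p => ‖f p - g p‖ ^ 2) x ≤ ε * Real.log (1 / (x - 1))) (k : ℕ) :
    ∀ ε : ℝ, 0 < ε → ∀ᶠ x in 𝓝[>] (1:ℝ),
      |RR (fun p => ‖f p‖ ^ (2 * k)) x - RR (fun p => ‖g p‖ ^ (2 * k)) x| ≤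
        ε * Real.log (1 / (x - 1)) := by
  intro ε hε
  have hC : 0 ≤ C := (norm_nonneg _).trans (hf 2 Nat.prime_two)
  set c : ℝ := 2 * k * C ^ (2 * k - 1) with hc
  have hc0 : 0 ≤ c := by positivity
  set η : ℝ := ε ^ 2 / (2 * (c ^ 2 + 1)) with hη
  have hη0 : 0 < η := by positivity
  filter_upwards [h η hη0, HasMean.dens hasMean_one 1 one_pos, eventually_log_ge 0,
    self_mem_nhdsWithin] with x h1 h2 h3 hx
  have hx' : 1 < x := hx
  set L := Real.log (1 / (x - 1)) with hL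
  have h4 := moment_diff hf hg k hx'
  have h5 : RR (fun _ => (1:ℝ)) x ≤ 2 * L := by
    have := (abs_le.mp h2).2
    linarith
  have h6 : 0 ≤ RR (fun p => ‖f p - g p‖ ^ 2) x := RR_nonneg (fun p _ => by positivity) x
  have h7 : 0 ≤ RR (fun _ : ℕ => (1:ℝ)) x := RR_nonneg (fun _ _ => zero_le_one) x
  have h8 : RR (fun p => ‖f p - g p‖ ^ 2) x * RR (fun _ => (1:ℝ)) x ≤ (η * L) * (2 * L) :=
    mul_le_mul h1 h5 h7 (by positivity)
  have h9 : c ^ 2 * ((η * L) * (2 * L)) ≤ (ε * L) ^ 2 := by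
    have e1 : η * (2 * (c ^ 2 + 1)) = ε ^ 2 := by rw [hη]; field_simp
    have e2 : (ε * L) ^ 2 = (η * (2 * (c ^ 2 + 1))) * L ^ 2 := by rw [e1]; ring
    rw [e2]
    have e3 : 0 ≤ η * L ^ 2 := by positivity
    nlinarith
  have h10 : (RR (fun p => ‖f p‖ ^ (2 * k)) x - RR (fun p => ‖g p‖ ^ (2 * k)) x) ^ 2 ≤
      (ε * L) ^ 2 :=
    (h4.trans (mul_le_mul_of_nonneg_left h8 (sq_nonneg _))).trans h9
  exact abs_le_of_sq_le_sq h10 (by positivity)

end TatePole.AT
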